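import Pool.Agent.P.MP_90a4ef_pr.Gap

/-! Almost sure convergence of the walk to the boundary. -/

open MeasureTheory Set Filter Topology UpperHalfPlane
open scoped ENNReal NNReal MatrixGroups

set_option linter.unusedSectionVars false

namespace Pool.Agent.P.MP_90a4ef_pr

/-- a function comparable to the distance to the boundary in the disc model -/
noncomputable def ph (z : ℍ) : ℝ := z.im / ‖(z : ℂ) + Complex.I‖ ^ 2

lemma norm_add_I_sq (z : ℍ) : 1 + ‖(z : ℂ)‖ ^ 2 ≤ ‖(z : ℂ) + Complex.I‖ ^ 2 := by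
  simp only [Complex.sq_norm, Complex.normSq_apply, Complex.add_re, Complex.add_im, coe_re, coe_im,
    Complex.I_re, Complex.I_im]
  nlinarith [z.im_pos]

lemma norm_add_I_pos (z : ℍ) : 0 < ‖(z : ℂ) + Complex.I‖ := by
  have := norm_add_I_sq z
  by_contra! h
  have h1 := le_antisymm h (norm_nonneg _)
  rw [h1] at this
  nlinarith [sq_nonneg ‖(z : ℂ)‖]

lemma im_le_norm (z : ℍ) : z.im ≤ ‖(z : ℂ) + Complex.I‖ := by
  have := (le_abs_self _).trans (Complex.abs_im_le_norm ((z : ℂ) + Complex.I))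
  simp only [Complex.add_im, coe_im, Complex.I_im] at this
  linarith

lemma ph_nonneg (z : ℍ) : 0 ≤ ph z := div_nonneg z.im_pos.le (sq_nonneg _)

lemma measurable_ph : Measurable ph :=
  continuous_im.measurable.div (by fun_prop)

lemma norm_add_I_le (w w' : ℍ) :
    ‖(w' : ℂ) + Complex.I‖ ≤ Real.exp (dist w' w) * ‖(w : ℂ) + Complex.I‖ := by
  have h1 := dist_coe_le w' w
  have h2 := norm_add_le ((w' : ℂ) - w) (w + Complex.I)
  rw [← Complex.dist_eq, ← add_assoc, sub_add_cancel] at h2
  have h3 := Real.one_le_exp (dist_nonneg (x := w') (y := w))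
  nlinarith [im_le_norm w]

lemma ph_le (w w' : ℍ) (h : dist w w' ≤ 1) : ph w ≤ Real.exp 1 ^ 3 * ph w' := by
  have h1 : w.im ≤ Real.exp 1 * w'.im := by
    have := im_le_im_mul_exp_dist w w'
    have := Real.exp_le_exp.2 h
    nlinarith [w'.im_pos]
  have h2 : ‖(w' : ℂ) + Complex.I‖ ≤ Real.exp 1 * ‖(w : ℂ) + Complex.I‖ :=
    (norm_add_I_le w w').trans (by rw [dist_comm]; gcongr)
  have p1 := norm_add_I_pos w
  have p2 := norm_add_I_pos w'
  rw [ph, ph, ← mul_div_assoc, div_le_div_iff₀ (by positivity) (by positivity)]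
  calc w.im * ‖(w' : ℂ) + Complex.I‖ ^ 2
      ≤ (Real.exp 1 * w'.im) * (Real.exp 1 * ‖(w : ℂ) + Complex.I‖) ^ 2 := by
        have := w'.im_pos
        gcongr
    _ = _ := by ring

lemma measurable_dens : Measurable fun z : ℍ => ((1 / NNReal.mk z.im z.im_pos.le : ℝ≥0) ^ 2) := by
  refine Measurable.pow_const (measurable_const.div ?_) _
  exact continuous_im.measurable.subtype_mk

lemma L2_ph : MemLp ph 2 volume := by
  rw [memLp_two_iff_integrable_sq measurable_ph.aestronglyMeasurable, volume_def,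
    integrable_withDensity_iff_integrable_smul measurable_dens]
  have h1 : Integrable (fun x : ℂ => ((1 : ℝ) + ‖x‖ ^ 2) ^ (-(4 : ℝ) / 2)) volume :=
    integrable_rpow_neg_one_add_norm_sq (by simp; norm_num)
  have h2 := (measurableEmbedding_coe.integrableOn_iff_comap (s := range UpperHalfPlane.coe)
    subset_rfl).1 h1.integrableOn
  rw [preimage_range, integrableOn_univ] at h2
  refine h2.mono' (Measurable.aestronglyMeasurable ?_) (Eventually.of_forall fun z => ?_)
  · exact measurable_dens.coe_nnreal_real.mul (measurable_ph.pow_const _)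
  · have p1 := norm_add_I_pos z
    have p2 := z.im_pos
    have e : ((1 / NNReal.mk z.im z.im_pos.le : ℝ≥0) ^ 2) • ph z ^ 2 =
        ((‖(z : ℂ) + Complex.I‖ ^ 2) ^ 2)⁻¹ := by
      simp only [NNReal.smul_def, smul_eq_mul, ph, NNReal.coe_pow, NNReal.coe_div, NNReal.coe_one,
        NNReal.coe_mk]
      field_simp
    rw [e, Real.norm_of_nonneg (by positivity), Function.comp_apply,
      show -(4 : ℝ) / 2 = -(2 : ℕ) by norm_num, Real.rpow_neg (by positivity), Real.rpow_natCast]
    gcongr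
    exact norm_add_I_sq z

lemma ball_pos (o : ℍ) : 0 < volume.real (Metric.ball o 1) := by
  refine ENNReal.toReal_pos (fun h => ?_) measure_ball_lt_top.ne
  have h1 : volume.comap UpperHalfPlane.coe ≪ (volume : Measure ℍ) := by
    rw [volume_def]
    refine withDensity_absolutelyContinuous' (Measurable.aemeasurable ?_)
      (Eventually.of_forall fun z => ?_)
    · exact measurable_dens.coe_nnreal_ennreal
    · simpa [← NNReal.coe_eq_zero] using z.im_pos.ne'
  have h2 := h1 h
  rw [measurableEmbedding_coe.comap_apply] at h2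
  exact ((isOpenEmbedding_coe.isOpenMap _ Metric.isOpen_ball).measure_pos _
    ((Metric.nonempty_ball.2 one_pos).image _)).ne' h2

variable {S : Type} [Fintype S]

/-- averaging operator -/
noncomputable def Qop (p : S → ℝ) (σ : S → G) (f : ℍ → ℝ) (z : ℍ) : ℝ := ∑ s, p s * f (σ s • z)

lemma L2_Q (p : S → ℝ) (σ : S → G) {f : ℍ → ℝ} (hf : MemLp f 2 volume) :
    MemLp (Qop p σ f) 2 volume :=
  memLp_finsetSum _ fun s _ => (L2_comp hf (σ s)).const_mul _

lemma energy_eq (p : S → ℝ) (hp : ∑ s, p s = 1) (σ : S → G) {F : ℍ → ℝ} (hF : MemLp F 2 volume) :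
    ∑ s, p s * En F (σ s) = 2 * ∫ z, F z * (F z - Qop p σ F z) := by
  have i1 : ∀ s, Integrable fun z => F z * F (σ s • z) := fun s =>
    hF.integrable_mul (L2_comp hF (σ s))
  have h1 : ∀ s, En F (σ s) = 2 * (∫ z, F z ^ 2) - 2 * ∫ z, F z * F (σ s • z) := by
    intro s
    have : ∀ z, (F (σ s • z) - F z) ^ 2 = (F (σ s • z) ^ 2 + F z ^ 2) - 2 * (F z * F (σ s • z)) :=
      fun z => by ring
    have i2 : Integrable fun z => F (σ s • z) ^ 2 + F z ^ 2 :=
      (L2_comp hF _).integrable_sq.add hF.integrable_sq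
    simp only [En, this]
    rw [integral_sub i2 ((i1 s).const_mul _),
      integral_add (L2_comp hF _).integrable_sq hF.integrable_sq,
      int_comp (σ s) fun z => F z ^ 2, integral_const_mul]
    ring
  have h2 : ∀ z, F z * (F z - Qop p σ F z) = F z ^ 2 - ∑ s, p s * (F z * F (σ s • z)) := by
    intro z
    simp only [Qop, mul_sub, Finset.mul_sum, sq, mul_left_comm]
  simp only [h1, h2]
  rw [integral_sub hF.integrable_sq (integrable_finsetSum _ fun s _ => (i1 s).const_mul _),
    integral_finsetSum _ fun s _ => (i1 s).const_mul _]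
  simp only [integral_const_mul, mul_sub, Finset.sum_sub_distrib, ← Finset.sum_mul, hp,
    Finset.mul_sum, one_mul, mul_left_comm]

theorem sum_bound (p : S → ℝ) (hp : ∀ s, 0 < p s) (hp1 : ∑ s, p s = 1) (σ : S → G)
    (h : Lat (Subgroup.closure (range σ))) {u : ℝ} (hu : 0 < u)
    (hD : dg u ∈ Subgroup.closure (range σ)) (o : ℍ) :
    ∃ C, ∀ k, ∑ j ∈ Finset.range k, (Qop p σ)^[j] ph o ≤ C := by
  obtain ⟨K, hK, hgap⟩ := gap p hp σ h hu hD
  have a1 : ∀ j, MemLp ((Qop p σ)^[j] ph) 2 volume := by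
    intro j
    induction j with
    | zero => exact L2_ph
    | succ j ih => rw [Function.iterate_succ_apply']; exact L2_Q p σ ih
  have a2 : ∀ j z, 0 ≤ (Qop p σ)^[j] ph z := by
    intro j
    induction j with
    | zero => exact ph_nonneg
    | succ j ih =>
      intro z
      rw [Function.iterate_succ_apply']
      exact Finset.sum_nonneg fun s _ => mul_nonneg (hp s).le (ih _)
  have a3 : ∀ j w w', dist w w' ≤ 1 →
      (Qop p σ)^[j] ph w ≤ Real.exp 1 ^ 3 * (Qop p σ)^[j] ph w' := by
    intro j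
    induction j with
    | zero => exact ph_le
    | succ j ih =>
      intro w w' hw
      rw [Function.iterate_succ_apply', Qop, Qop, Finset.mul_sum]
      refine Finset.sum_le_sum fun s _ => ?_
      rw [mul_left_comm]
      exact mul_le_mul_of_nonneg_left (ih _ _ (by rwa [dist_smul])) (hp s).le
  obtain ⟨V, hV⟩ : ∃ V, V = volume.real (Metric.ball o 1) := ⟨_, rfl⟩
  have hV0 : 0 < V := hV ▸ ball_pos o
  refine ⟨1 + (Real.exp 1 ^ 3) ^ 2 * (4 * K ^ 2 * ∫ z, ph z ^ 2) / V, fun k => ?_⟩
  let F : ℍ → ℝ := fun z => ∑ j ∈ Finset.range k, (Qop p σ)^[j] ph z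
  have hF : MemLp F 2 volume := memLp_finsetSum _ fun j _ => a1 j
  have hF0 : ∀ z, 0 ≤ F z := fun z => Finset.sum_nonneg fun j _ => a2 j z
  have hQ : ∀ z, F z - Qop p σ F z ≤ ph z := by
    intro z
    have e1 : Qop p σ F z = ∑ j ∈ Finset.range k, (Qop p σ)^[j + 1] ph z := by
      simp only [Function.iterate_succ_apply', Qop, F, Finset.mul_sum]
      exact Finset.sum_comm
    have e2 := Finset.sum_range_succ' (fun j => (Qop p σ)^[j] ph z) k
    rw [Finset.sum_range_succ] at e2
    have := a2 k z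
    simp only [Function.iterate_zero, id] at e2
    simp only [e1, F]
    linarith
  have b1 : ∫ z, F z * (F z - Qop p σ F z) ≤ (4 * K)⁻¹ * (∫ z, F z ^ 2) + K * ∫ z, ph z ^ 2 := by
    rw [← integral_const_mul, ← integral_const_mul,
      ← integral_add (hF.integrable_sq.const_mul _) (L2_ph.integrable_sq.const_mul _)]
    refine integral_mono (hF.integrable_mul (hF.sub (L2_Q p σ hF)))
      ((hF.integrable_sq.const_mul _).add (L2_ph.integrable_sq.const_mul _)) fun z => ?_
    refine (mul_le_mul_of_nonneg_left (hQ z) (hF0 z)).trans ?_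
    have : (4 * K)⁻¹ * F z ^ 2 + K * ph z ^ 2 - F z * ph z =
        (4 * K)⁻¹ * (F z - 2 * K * ph z) ^ 2 := by
      field_simp
      ring
    have h2 : 0 ≤ (4 * K)⁻¹ * (F z - 2 * K * ph z) ^ 2 := by positivity
    linarith
  have b2 : ∫ z, F z ^ 2 ≤ 4 * K ^ 2 * ∫ z, ph z ^ 2 := by
    have := hgap F hF
    rw [energy_eq p hp1 σ hF] at this
    have h2 := mul_le_mul_of_nonneg_left b1 (show 0 ≤ 2 * K by positivity)
    have e : 2 * K * ((4 * K)⁻¹ * (∫ z, F z ^ 2) + K * ∫ z, ph z ^ 2) =
        (∫ z, F z ^ 2) / 2 + 2 * K ^ 2 * ∫ z, ph z ^ 2 := by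
      field_simp
      ring
    linarith
  have b3 : F o ^ 2 * V ≤ (Real.exp 1 ^ 3) ^ 2 * ∫ z, F z ^ 2 := by
    have h1 : ∫ _z in Metric.ball o 1, F o ^ 2 ≤
        ∫ z in Metric.ball o 1, (Real.exp 1 ^ 3) ^ 2 * F z ^ 2 := by
      refine setIntegral_mono_on (integrableOn_const measure_ball_lt_top.ne)
        (hF.integrable_sq.const_mul _).integrableOn measurableSet_ball fun z hz => ?_
      rw [← mul_pow]
      refine pow_le_pow_left₀ (hF0 o) ?_ 2
      simp only [F, Finset.mul_sum]
      exact Finset.sum_le_sum fun j _ => a3 j _ _ (by rw [dist_comm]; exact le_of_lt hz)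
    rw [setIntegral_const, integral_const_mul, ← hV, smul_eq_mul, mul_comm] at h1
    refine h1.trans (mul_le_mul_of_nonneg_left ?_ (by positivity))
    exact setIntegral_le_integral hF.integrable_sq (Eventually.of_forall fun z => sq_nonneg _)
  have b4 : F o ^ 2 ≤ (Real.exp 1 ^ 3) ^ 2 * (4 * K ^ 2 * ∫ z, ph z ^ 2) / V := by
    rw [le_div_iff₀ hV0]
    exact b3.trans (mul_le_mul_of_nonneg_left b2 (by positivity))
  change F o ≤ _
  nlinarith [sq_nonneg (F o - 1), sq_nonneg (F o)]

lemma conv_of_summable (w : ℕ → ℍ) (R : ℝ) (hR : ∀ n, dist (w n) (w (n + 1)) ≤ R)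
    (hs : Summable fun n => ph (w n)) :
    (∃ y : ℝ, Tendsto (fun n => (w n : ℂ)) atTop (𝓝 y)) ∨
      Tendsto (fun n => ((w n : ℂ) + Complex.I)⁻¹) atTop (𝓝 0) := by
  have hne : ∀ n, (w n : ℂ) + Complex.I ≠ 0 := fun n => norm_pos_iff.1 (norm_add_I_pos _)
  have hc : CauchySeq fun n => ((w n : ℂ) + Complex.I)⁻¹ := by
    refine cauchySeq_of_dist_le_of_summable (fun n => Real.exp R ^ 2 * ph (w n)) (fun n => ?_)
      (hs.mul_left _)
    have p1 := norm_add_I_pos (w n)
    have p2 := norm_add_I_pos (w (n + 1))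
    have h1 : ‖(w (n + 1) : ℂ) - w n‖ ≤ (w n).im * Real.exp R := by
      have := dist_coe_le (w (n + 1)) (w n)
      have h2 := Real.exp_le_exp.2 (hR n)
      rw [Complex.dist_eq, dist_comm] at this
      nlinarith [(w n).im_pos]
    have h2 : ‖(w n : ℂ) + Complex.I‖ ≤ Real.exp R * ‖(w (n + 1) : ℂ) + Complex.I‖ :=
      (norm_add_I_le _ _).trans (by gcongr; exact hR n)
    rw [Complex.dist_eq, inv_sub_inv (hne _) (hne _), norm_div, norm_mul, add_sub_add_right_eq_sub,
      ph, ← mul_div_assoc, div_le_div_iff₀ (by positivity) (by positivity)]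
    calc _ ≤ ((w n).im * Real.exp R) * (‖(w n : ℂ) + Complex.I‖ *
          (Real.exp R * ‖(w (n + 1) : ℂ) + Complex.I‖)) := by
          have := (w n).im_pos
          rw [sq]
          gcongr
      _ = _ := by ring
  obtain ⟨v, hv⟩ := cauchySeq_tendsto_of_complete hc
  by_cases h0 : v = 0
  · exact Or.inr (h0 ▸ hv)
  left
  have h1 := hv.inv₀ h0
  simp only [inv_inv] at h1
  have h2 := h1.sub_const Complex.I
  simp only [add_sub_cancel_right] at h2
  have h3 := hs.tendsto_atTop_zero.mul (h1.norm.pow 2)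
  have h4 : (v⁻¹ - Complex.I).im = 0 := by
    refine tendsto_nhds_unique ((Complex.continuous_im.tendsto _).comp h2) ?_
    rw [zero_mul] at h3
    refine h3.congr fun n => ?_
    have := norm_add_I_pos (w n)
    simp only [ph, Function.comp_apply, coe_im]
    field_simp
  refine ⟨(v⁻¹ - Complex.I).re, ?_⟩
  convert h2 using 2
  exact Complex.ext (by simp) (by rw [h4]; simp)

variable [MeasurableSpace S] [DiscreteMeasurableSpace S] (q : Measure S) [IsProbabilityMeasure q]

lemma lintegral_Zs (σ : S → G) (o : ℍ) (n : ℕ) (f : ℍ → ℝ) (hf : ∀ z, 0 ≤ f z) :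
    ∫⁻ ω, ENNReal.ofReal (f (Zs σ ω n • o)) ∂(PP q) =
      ENNReal.ofReal ((Qop (fun s => q.real {s}) σ)^[n] f o) := by
  induction n generalizing f with
  | zero => simp [Zs]
  | succ n ih =>
    have hm := measurable_Zs σ (n + 1) fun g => ENNReal.ofReal (f (g • o))
    rw [Function.iterate_succ_apply, ← ih (Qop (fun s => q.real {s}) σ f) fun z =>
      Finset.sum_nonneg fun s _ => mul_nonneg measureReal_nonneg (hf _)]
    unfold PP
    nth_rewrite 1 [← map_consSeq]
    have hm' : Measurable fun a : S × (ℕ → S) =>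
        ENNReal.ofReal (f (Zs σ (consSeq a) (n + 1) • o)) := hm.comp measurable_consSeq
    rw [lintegral_map hm measurable_consSeq, lintegral_prod_symm _ hm'.aemeasurable]
    refine lintegral_congr fun ω => ?_
    rw [lintegral_fintype, Qop, ENNReal.ofReal_sum_of_nonneg fun s _ =>
      mul_nonneg measureReal_nonneg (hf _)]
    refine Finset.sum_congr rfl fun s _ => ?_
    rw [Zs_cons, mul_smul, ENNReal.ofReal_mul measureReal_nonneg, ofReal_measureReal, mul_comm]

theorem ae_conv (hq : ∀ s, q {s} ≠ 0) (σ : S → G) (h : Lat (Subgroup.closure (range σ)))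
    {u : ℝ} (hu : 0 < u) (hD : dg u ∈ Subgroup.closure (range σ)) (o : ℍ) :
    ∀ᵐ ω ∂(PP q), ω ∈ Ev σ o 1 univ ∨
      Tendsto (fun n => (pt σ o 1 ω n + Complex.I)⁻¹) atTop (𝓝 0) := by
  obtain ⟨C, hC⟩ := sum_bound (fun s => q.real {s})
    (fun s => ENNReal.toReal_pos (hq s) (measure_ne_top _ _)) (by simp) σ h hu hD o
  have hm : ∀ n, Measurable fun ω => ENNReal.ofReal (ph (Zs σ ω n • o)) := fun n =>
    measurable_Zs σ n fun g => ENNReal.ofReal (ph (g • o))
  have h1 : ∫⁻ ω, ∑' n, ENNReal.ofReal (ph (Zs σ ω n • o)) ∂(PP q) ≠ ∞ := by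
    rw [lintegral_tsum fun n => (hm n).aemeasurable]
    simp only [lintegral_Zs q σ o _ ph ph_nonneg]
    refine Summable.tsum_ofReal_ne_top (summable_of_sum_range_le (c := C) (fun n => ?_) hC)
    have : ∀ z, 0 ≤ (Qop (fun s => q.real {s}) σ)^[n] ph z := by
      induction n with
      | zero => exact ph_nonneg
      | succ n ih =>
        intro z
        rw [Function.iterate_succ_apply']
        exact Finset.sum_nonneg fun s _ => mul_nonneg measureReal_nonneg (ih _)
    exact this o
  obtain ⟨R, hR⟩ := (Set.finite_range fun s => dist o (σ s • o)).bddAbove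
  filter_upwards [ae_lt_top (Measurable.tsum hm) h1] with ω hω
  have hs : Summable fun n => ph (Zs σ ω n • o) := by
    have := ENNReal.summable_toReal hω.ne
    simpa only [ENNReal.toReal_ofReal (ph_nonneg _)] using this
  have := conv_of_summable (fun n => Zs σ ω n • o) R (fun n => by
    rw [Zs, mul_smul, dist_smul]
    exact hR ⟨_, rfl⟩) hs
  have e : ∀ n, pt σ o 1 ω n = ((Zs σ ω n • o : ℍ) : ℂ) := fun n => by rw [pt, one_mul]
  rcases this with ⟨y, hy⟩ | hy
  · exact Or.inl ⟨y, trivial, hy.congr fun n => (e n).symm⟩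
  · exact Or.inr (by simpa only [e] using hy)

end Pool.Agent.P.MP_90a4ef_pr
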