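import Mathlib

/-! A finite measure on the line that is uniformly far from uniform on all small intervals
lives on a set of Hausdorff dimension less than one. -/

open MeasureTheory Set Filter Topology Finset
open scoped ENNReal NNReal

namespace Pool.Agent.P.MP_90a4ef_pr

variable (m : Measure ℝ) [IsFiniteMeasure m]

lemma ico_add {a b c : ℝ} (hab : a ≤ b) (hbc : b ≤ c) :
    m.real (Set.Ico a c) = m.real (Set.Ico a b) + m.real (Set.Ico b c) := by
  rw [← Set.Ico_union_Ico_eq_Ico hab hbc, measureReal_union (Set.Ico_disjoint_Ico_same)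
    measurableSet_Ico]

lemma ico_sum (u η : ℝ) (hη : 0 ≤ η) (j : ℕ) :
    m.real (Set.Ico u (u + j * η)) =
      ∑ i ∈ range j, m.real (Set.Ico (u + i * η) (u + (i + 1) * η)) := by
  induction j with
  | zero => simp
  | succ j ih =>
    rw [sum_range_succ, ← ih, ← ico_add]
    · push_cast; rfl
    · have : 0 ≤ (j : ℝ) * η := by positivity
      linarith
    · nlinarith

lemma sqrt_sum_le (s : Finset ℕ) (p : ℕ → ℝ) (hp : ∀ i, 0 ≤ p i) :
    ∑ i ∈ s, √(p i) ≤ √(s.card) * √(∑ i ∈ s, p i) := by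
  have := Real.sum_sqrt_mul_sqrt_le s (f := fun _ => (1 : ℝ)) (g := p) (fun _ => zero_le_one) hp
  simpa using this

lemma two_group {j k P Q ε : ℝ} (hj : 0 ≤ j) (hk : 0 ≤ k) (hP : 0 ≤ P) (hQ : 0 ≤ Q)
    (hε : 0 ≤ ε) (h : ε * ((j + k) * (P + Q)) ≤ |j * Q - k * P|) :
    √j * √P + √k * √Q ≤ √((1 - ε ^ 2) * (j + k)) * √(P + Q) := by
  obtain ⟨a, ha, rfl⟩ : ∃ a, 0 ≤ a ∧ j = a ^ 2 := ⟨√j, Real.sqrt_nonneg _, (Real.sq_sqrt hj).symm⟩
  obtain ⟨b, hb, rfl⟩ : ∃ a, 0 ≤ a ∧ k = a ^ 2 := ⟨√k, Real.sqrt_nonneg _, (Real.sq_sqrt hk).symm⟩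
  obtain ⟨c, hc, rfl⟩ : ∃ a, 0 ≤ a ∧ P = a ^ 2 := ⟨√P, Real.sqrt_nonneg _, (Real.sq_sqrt hP).symm⟩
  obtain ⟨d, hd, rfl⟩ : ∃ a, 0 ≤ a ∧ Q = a ^ 2 := ⟨√Q, Real.sqrt_nonneg _, (Real.sq_sqrt hQ).symm⟩
  rw [Real.sqrt_sq ha, Real.sqrt_sq hb, Real.sqrt_sq hc, Real.sqrt_sq hd,
    mul_comm (√_), ← Real.sqrt_mul (by positivity)]
  apply Real.le_sqrt_of_sq_le
  set T := (a ^ 2 + b ^ 2) * (c ^ 2 + d ^ 2) with hT
  have hT0 : 0 ≤ T := by positivity
  have h1 : (ε * T) ^ 2 ≤ (a * d - b * c) ^ 2 * T := by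
    calc (ε * T) ^ 2 ≤ |a ^ 2 * d ^ 2 - b ^ 2 * c ^ 2| ^ 2 := by gcongr
      _ = (a * d - b * c) ^ 2 * (a * d + b * c) ^ 2 := by rw [sq_abs]; ring
      _ ≤ _ := by
        gcongr
        nlinarith [sq_nonneg (a * c - b * d)]
  have h2 : ε ^ 2 * T ≤ (a * d - b * c) ^ 2 := by
    rcases hT0.eq_or_lt with h0 | h0
    · rw [← h0]; simpa using sq_nonneg _
    · apply le_of_mul_le_mul_right _ h0
      nlinarith
  nlinarith

/-- far from uniform on all small intervals -/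
def NonUnif (ε : ℝ) : Prop :=
  ∀ u r, 0 < r → r ≤ 1 → 0 < m.real (Set.Ico u (u + r)) → ∃ θ ∈ Set.Icc (0 : ℝ) 1,
    ε * m.real (Set.Ico u (u + r)) <
      |m.real (Set.Ico u (u + θ * r)) - θ * m.real (Set.Ico u (u + r))|

lemma one_step {ε : ℝ} (hε : 0 < ε) (h : NonUnif m (2 * ε)) (N : ℕ) (hN : 1 ≤ ε * N)
    (u η : ℝ) (hη : 0 < η) (hη1 : N * η ≤ 1) :
    ∑ i ∈ range N, √(m.real (Set.Ico (u + i * η) (u + (i + 1) * η))) ≤
      √((1 - ε ^ 2) * N) * √(m.real (Set.Ico u (u + N * η))) := by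
  have hN0 : (0 : ℝ) < N := by
    by_contra! h0
    nlinarith
  set W := m.real (Set.Ico u (u + N * η)) with hW
  let p : ℕ → ℝ := fun i => m.real (Set.Ico (u + i * η) (u + (i + 1) * η))
  have hp : ∀ i, 0 ≤ p i := fun i => measureReal_nonneg
  have hF : ∀ j : ℕ, m.real (Set.Ico u (u + j * η)) = ∑ i ∈ range j, p i := ico_sum m u η hη.le
  obtain ⟨j, hjN, hj⟩ : ∃ j ≤ N, ε * (N * W) ≤ |j * W - N * ∑ i ∈ range j, p i| := by
    have hW0 : 0 ≤ W := measureReal_nonneg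
    rcases hW0.eq_or_lt with h0 | h0
    · exact ⟨0, Nat.zero_le _, by rw [← h0]; simp⟩
    obtain ⟨θ, ⟨h1, h2⟩, h3⟩ := h u (N * η) (by positivity) hη1 h0
    rw [← hW] at h3
    have hθN : 0 ≤ θ * N := by positivity
    have hW1 : W ≤ ε * (N * W) := by nlinarith
    rcases lt_abs.1 h3 with h4 | h4
    · refine ⟨⌈θ * N⌉₊, Nat.ceil_le.2 (by nlinarith), ?_⟩
      rw [← hF]
      have a1 : m.real (Set.Ico u (u + θ * (N * η))) ≤
          m.real (Set.Ico u (u + ⌈θ * N⌉₊ * η)) := by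
        refine measureReal_mono (Set.Ico_subset_Ico_right ?_)
        have := Nat.le_ceil (θ * N)
        nlinarith
      have a2 := (Nat.ceil_lt_add_one hθN).le
      refine le_abs.2 (Or.inr ?_)
      nlinarith
    · refine ⟨⌊θ * N⌋₊, Nat.floor_le_of_le (by nlinarith), ?_⟩
      rw [← hF]
      have a1 : m.real (Set.Ico u (u + ⌊θ * N⌋₊ * η)) ≤
          m.real (Set.Ico u (u + θ * (N * η))) := by
        refine measureReal_mono (Set.Ico_subset_Ico_right ?_)
        have := Nat.floor_le hθN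
        nlinarith
      have a2 := (Nat.lt_floor_add_one (θ * N)).le
      refine le_abs.2 (Or.inl ?_)
      nlinarith
  have hsplit : ∀ f : ℕ → ℝ, ∑ i ∈ range N, f i =
      ∑ i ∈ range j, f i + ∑ i ∈ Finset.Ico j N, f i := fun f =>
    (Finset.sum_range_add_sum_Ico f hjN).symm
  have hWs : W = ∑ i ∈ range j, p i + ∑ i ∈ Finset.Ico j N, p i := by rw [← hsplit, ← hF]
  have hNs : (N : ℝ) = j + ((N - j : ℕ) : ℝ) := by
    rw [Nat.cast_sub hjN]; ring
  change ∑ i ∈ range N, √(p i) ≤ _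
  rw [hsplit]
  refine (add_le_add (sqrt_sum_le _ p hp) (sqrt_sum_le _ p hp)).trans ?_
  rw [card_range, Nat.card_Ico]
  have := two_group (j := j) (k := ((N - j : ℕ) : ℝ)) (P := ∑ i ∈ range j, p i)
    (Q := ∑ i ∈ Finset.Ico j N, p i) (ε := ε) (by positivity) (by positivity)
    (sum_nonneg fun i _ => hp i) (sum_nonneg fun i _ => hp i) hε.le (by
      rw [← hNs, ← hWs]
      refine hj.trans (le_of_eq ?_)
      congr 1
      rw [hWs]
      nth_rewrite 1 [hNs]
      ring)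
  rwa [← hNs, ← hWs] at this

lemma sum_range_mul' (f : ℕ → ℝ) (a b : ℕ) :
    ∑ x ∈ range (a * b), f x = ∑ j ∈ range a, ∑ i ∈ range b, f (j * b + i) := by
  induction a with
  | zero => simp
  | succ a ih => rw [Nat.succ_mul, Finset.sum_range_add, ih, sum_range_succ]

/-- cell of level `k` -/
def cell (N : ℕ) (u : ℝ) (k j : ℕ) : Set ℝ :=
  Set.Ico (u + j * ((N : ℝ) ^ k)⁻¹) (u + (j + 1) * ((N : ℝ) ^ k)⁻¹)

lemma level_sum {ε : ℝ} (hε : 0 < ε) (h : NonUnif m (2 * ε)) (N : ℕ) (hN : 1 ≤ ε * N)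
    (u : ℝ) (k : ℕ) :
    ∑ j ∈ range (N ^ k), √(m.real (cell N u k j)) ≤
      √((1 - ε ^ 2) * N) ^ k * √(m.real univ) := by
  have hN0 : (0 : ℝ) < N := by
    by_contra! h0
    nlinarith
  have hN1 : (1 : ℝ) ≤ N := by exact_mod_cast (Nat.cast_pos.1 hN0 : 0 < N)
  induction k with
  | zero =>
    simp only [pow_zero, range_one, sum_singleton, one_mul]
    exact Real.sqrt_le_sqrt (measureReal_mono (subset_univ _))
  | succ k ih =>
    rw [pow_succ N, sum_range_mul', pow_succ' (√_), mul_assoc]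
    refine le_trans (sum_le_sum fun j _ => ?_)
      ((Finset.mul_sum _ _ _).symm.le.trans (mul_le_mul_of_nonneg_left ih (Real.sqrt_nonneg _)))
    have e1 : (N : ℝ) * ((N : ℝ) ^ (k + 1))⁻¹ = ((N : ℝ) ^ k)⁻¹ := by
      field_simp
      ring
    have := one_step m hε h N hN (u + j * ((N : ℝ) ^ k)⁻¹) ((N : ℝ) ^ (k + 1))⁻¹ (by positivity)
      (by rw [e1]; exact inv_le_one_of_one_le₀ (one_le_pow₀ hN1))
    rw [e1] at this
    have c1 : ∀ i : ℕ, cell N u (k + 1) (j * N + i) =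
        Set.Ico (u + j * ((N : ℝ) ^ k)⁻¹ + i * ((N : ℝ) ^ (k + 1))⁻¹)
          (u + j * ((N : ℝ) ^ k)⁻¹ + (i + 1) * ((N : ℝ) ^ (k + 1))⁻¹) := by
      intro i
      unfold cell
      push_cast
      rw [← e1]
      congr 1 <;> ring
    have c2 : cell N u k j = Set.Ico (u + j * ((N : ℝ) ^ k)⁻¹)
        (u + j * ((N : ℝ) ^ k)⁻¹ + ((N : ℝ) ^ k)⁻¹) := by
      unfold cell
      congr 1
      ring
    simp only [c1, c2]
    exact this

lemma cover (N : ℕ) (hN : 0 < N) (u : ℝ) (k : ℕ) {x : ℝ} (hx : x ∈ Set.Ico u (u + 1)) :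
    ∃ j ∈ range (N ^ k), x ∈ cell N u k j := by
  have hp : (0 : ℝ) < (N : ℝ) ^ k := by positivity
  have h0 : 0 ≤ (x - u) * (N : ℝ) ^ k := mul_nonneg (by linarith [hx.1]) hp.le
  refine ⟨⌊(x - u) * (N : ℝ) ^ k⌋₊, mem_range.2 ((Nat.floor_lt h0).2 ?_), ?_, ?_⟩
  · push_cast
    nlinarith [hx.2]
  · have := Nat.floor_le h0
    rw [← div_eq_mul_inv, ← le_sub_iff_add_le', div_le_iff₀ hp]
    exact this
  · have := Nat.lt_floor_add_one ((x - u) * (N : ℝ) ^ k)
    rw [← div_eq_mul_inv, ← sub_lt_iff_lt_add', lt_div_iff₀ hp]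
    exact this

theorem dim_lt_one {ε₀ : ℝ} (hε₀ : 0 < ε₀) (h₀ : NonUnif m ε₀) :
    ∃ A : Set ℝ, MeasurableSet A ∧ m Aᶜ = 0 ∧ dimH A < 1 := by
  classical
  obtain ⟨ε, hε, hε1, h⟩ : ∃ ε : ℝ, 0 < ε ∧ ε ≤ 1 / 2 ∧ NonUnif m (2 * ε) := by
    refine ⟨min (ε₀ / 2) (1 / 2), by positivity, min_le_right _ _, fun u r h1 h2 h3 => ?_⟩
    obtain ⟨θ, hθ, h4⟩ := h₀ u r h1 h2 h3
    refine ⟨θ, hθ, lt_of_le_of_lt ?_ h4⟩
    have := min_le_left (ε₀ / 2) (1 / 2)
    nlinarith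
  obtain ⟨N, hN⟩ : ∃ N : ℕ, 1 ≤ ε * N := by
    obtain ⟨N, hN⟩ := exists_nat_ge (1 / ε)
    exact ⟨N, by rwa [div_le_iff₀' hε] at hN⟩
  have hN2 : (2 : ℝ) ≤ N := by nlinarith
  have hN0 : 0 < N := by exact_mod_cast (show (0 : ℝ) < N by linarith)
  set κ : ℝ := (1 - ε ^ 2) * N with hκ
  have hκ1 : 1 < κ := by nlinarith
  have hκN : κ < N := by nlinarith [sq_pos_of_pos hε]
  set B : ℝ := (κ + N) / 2 with hB
  have hB1 : 1 < B := by linarith
  have hB0 : 0 < B := by linarith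
  have hlogN : 0 < Real.log N := Real.log_pos (by linarith)
  let s : ℝ≥0 := ⟨Real.log B / Real.log N, div_nonneg (Real.log_pos hB1).le hlogN.le⟩
  have hs1 : (s : ℝ) < 1 := (div_lt_one hlogN).2 (Real.log_lt_log hB0 (by linarith))
  have hsN : (N : ℝ) ^ (s : ℝ) = B := by
    rw [Real.rpow_def_of_pos (by linarith)]
    change Real.exp (Real.log N * (Real.log B / Real.log N)) = B
    rw [mul_div_cancel₀ _ hlogN.ne', Real.exp_log hB0]
  let bad : ℝ → ℕ → Set ℝ := fun u k =>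
    ⋃ j ∈ (range (N ^ k)).filter fun j => m.real (cell N u k j) < (B ^ k)⁻¹, cell N u k j
  have hcm : ∀ u k j, MeasurableSet (cell N u k j) := fun _ _ _ => measurableSet_Ico
  have hbm : ∀ u k, MeasurableSet (bad u k) := fun u k =>
    Finset.measurableSet_biUnion _ fun j _ => hcm u k j
  have hbad : ∀ u, ∀ᵐ x ∂m, ∀ᶠ k in atTop, x ∉ bad u k := by
    intro u
    apply ae_eventually_notMem
    have hρ : √(κ / B) < 1 := by
      rw [Real.sqrt_lt' one_pos, one_pow, div_lt_one hB0]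
      linarith
    have hsum : Summable fun k : ℕ => √(κ / B) ^ k * √(m.real univ) :=
      (summable_geometric_of_lt_one (Real.sqrt_nonneg _) hρ).mul_right _
    refine ne_top_of_le_ne_top (hsum.tsum_ofReal_ne_top) (ENNReal.tsum_le_tsum fun k => ?_)
    rw [← ofReal_measureReal (measure_ne_top _ _)]
    apply ENNReal.ofReal_le_ofReal
    refine (measureReal_biUnion_finset_le _ _).trans ?_
    have hq : 0 ≤ (√B ^ k)⁻¹ := by positivity
    calc _ ≤ ∑ j ∈ (range (N ^ k)).filter fun j => m.real (cell N u k j) < (B ^ k)⁻¹,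
          (√B ^ k)⁻¹ * √(m.real (cell N u k j)) := by
          refine sum_le_sum fun j hj => ?_
          have h1 := (mem_filter.1 hj).2
          have h2 : √(m.real (cell N u k j)) ≤ (√B ^ k)⁻¹ := by
            apply Real.sqrt_le_iff.2 ⟨hq, _⟩
            rw [inv_pow, ← pow_mul, mul_comm, pow_mul, Real.sq_sqrt hB0.le]
            exact h1.le
          nth_rewrite 1 [← Real.mul_self_sqrt (measureReal_nonneg (μ := m) (s := cell N u k j))]
          gcongr
      _ ≤ ∑ j ∈ range (N ^ k), (√B ^ k)⁻¹ * √(m.real (cell N u k j)) :=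
          sum_le_sum_of_subset_of_nonneg (filter_subset _ _) fun _ _ _ => by positivity
      _ ≤ (√B ^ k)⁻¹ * (√κ ^ k * √(m.real univ)) := by
          rw [← Finset.mul_sum]
          exact mul_le_mul_of_nonneg_left (level_sum m hε h N hN u k) hq
      _ = _ := by
          rw [Real.sqrt_div (show 0 ≤ κ by linarith) B, div_pow, div_eq_mul_inv, ← mul_assoc,
            mul_comm (√B ^ k)⁻¹]
  have hdim : ∀ (u : ℝ) (k0 : ℕ),
      dimH (Set.Ico u (u + 1) ∩ ⋂ k ≥ k0, (bad u k)ᶜ) ≤ s := by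
    intro u k0
    apply dimH_le_of_hausdorffMeasure_ne_top
    let good : ℕ → Finset ℕ := fun k =>
      (range (N ^ k)).filter fun j => ¬ m.real (cell N u k j) < (B ^ k)⁻¹
    have hd : ∀ k j, Metric.ediam (cell N u k j) = ENNReal.ofReal ((N : ℝ) ^ k)⁻¹ := by
      intro k j
      unfold cell
      rw [Real.ediam_Ico]
      congr 1
      ring
    have hle := Measure.hausdorffMeasure_le_liminf_sum (ι := fun k => good k) (s : ℝ)
      (Set.Ico u (u + 1) ∩ ⋂ k ≥ k0, (bad u k)ᶜ) (l := atTop)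
      (fun k => ENNReal.ofReal ((N : ℝ) ^ k)⁻¹) (by
        rw [← ENNReal.ofReal_zero]
        apply ENNReal.tendsto_ofReal
        exact (tendsto_pow_atTop_atTop_of_one_lt (by linarith)).inv_tendsto_atTop)
      (fun k j => cell N u k j) (Eventually.of_forall fun k j => (hd k j).le) (by
        filter_upwards [eventually_ge_atTop k0] with k hk x hx
        obtain ⟨j, hj, hxj⟩ := cover N hN0 u k hx.1
        have h1 : x ∉ bad u k := mem_iInter₂.1 hx.2 k hk
        refine mem_iUnion.2 ⟨⟨j, mem_filter.2 ⟨hj, fun h2 => h1 ?_⟩⟩, hxj⟩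
        exact mem_iUnion₂.2 ⟨j, mem_filter.2 ⟨hj, h2⟩, hxj⟩)
    refine ne_top_of_le_ne_top (measure_ne_top m univ) (hle.trans ?_)
    refine liminf_le_of_frequently_le' (Eventually.of_forall fun k => ?_).frequently
    have e1 : ENNReal.ofReal ((N : ℝ) ^ k)⁻¹ ^ (s : ℝ) = ENNReal.ofReal (B ^ k)⁻¹ := by
      rw [ENNReal.ofReal_rpow_of_nonneg (by positivity) s.coe_nonneg, Real.inv_rpow (by positivity),
        ← Real.rpow_natCast, ← Real.rpow_mul (by positivity), mul_comm,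
        Real.rpow_mul (by positivity), hsN, Real.rpow_natCast]
    simp only [hd, e1]
    calc ∑ _j : good k, ENNReal.ofReal (B ^ k)⁻¹ ≤ ∑ j : good k, m (cell N u k j) := by
          refine sum_le_sum fun j _ => ?_
          rw [← ofReal_measureReal (measure_ne_top _ _)]
          exact ENNReal.ofReal_le_ofReal (not_lt.1 (mem_filter.1 j.2).2)
      _ = ∑ j ∈ good k, m (cell N u k j) := Finset.sum_coe_sort (good k) fun j => m (cell N u k j)
      _ = m (⋃ j ∈ good k, cell N u k j) := by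
          refine (measure_biUnion_finset ?_ fun j _ => hcm u k j).symm
          intro i _ j _ hij
          have hp : (0 : ℝ) < ((N : ℝ) ^ k)⁻¹ := by positivity
          have key : ∀ i j : ℕ, i < j → Disjoint (cell N u k i) (cell N u k j) := by
            intro i j hij
            refine Set.disjoint_left.2 fun x h1 h2 => ?_
            have : (i : ℝ) + 1 ≤ j := by exact_mod_cast hij
            nlinarith [h1.2, h2.1]
          rcases lt_or_gt_of_ne hij with h1 | h1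
          · exact key _ _ h1
          · exact (key _ _ h1).symm
      _ ≤ m univ := measure_mono (subset_univ _)
  refine ⟨⋃ n : ℤ, ⋃ k0 : ℕ, (Set.Ico (n : ℝ) (n + 1) ∩ ⋂ k ≥ k0, (bad n k)ᶜ), ?_, ?_, ?_⟩
  · exact .iUnion fun n => .iUnion fun k0 => measurableSet_Ico.inter
      (.iInter fun k => .iInter fun _ => (hbm _ k).compl)
  · have := ae_all_iff.2 fun n : ℤ => hbad n
    rw [ae_iff] at this
    refine measure_mono_null (fun x hx => ?_) this
    intro h1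
    apply hx
    obtain ⟨k0, hk0⟩ := eventually_atTop.1 (h1 ⌊x⌋)
    exact mem_iUnion₂.2 ⟨⌊x⌋, k0, ⟨Int.floor_le x, Int.lt_floor_add_one x⟩, mem_iInter₂.2 hk0⟩
  · refine lt_of_le_of_lt (b := (s : ℝ≥0∞)) ?_ (by exact_mod_cast hs1)
    simp only [dimH_iUnion]
    exact iSup₂_le fun n k0 => hdim n k0

end Pool.Agent.P.MP_90a4ef_pr
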