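import Pool.Agent.P.MP_90a4ef_pr.Geom2

/-! A spectral gap estimate on the hyperbolic plane by ping-pong. -/

open MeasureTheory Set Filter Topology UpperHalfPlane
open scoped ENNReal NNReal MatrixGroups

set_option linter.unusedSimpArgs false

namespace Pool.Agent.P.MP_90a4ef_pr

lemma mp (g : G) : MeasurePreserving (fun z : ℍ => g • z) volume volume :=
  measurePreserving_smul (g : GL (Fin 2) ℝ) volume

lemma int_comp (g : G) (f : ℍ → ℝ) : ∫ z, f (g • z) = ∫ z, f z :=
  (mp g).integral_comp (measurableEmbedding_const_smul g) f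

lemma L2_comp {F : ℍ → ℝ} (hF : MemLp F 2 volume) (g : G) : MemLp (fun z => F (g • z)) 2 volume :=
  hF.comp_measurePreserving (mp g)

/-- energy of a function under one group element -/
noncomputable def En (F : ℍ → ℝ) (g : G) : ℝ := ∫ z, (F (g • z) - F z) ^ 2

lemma En_nonneg (F : ℍ → ℝ) (g : G) : 0 ≤ En F g := integral_nonneg fun _ => sq_nonneg _

lemma En_int {F : ℍ → ℝ} (hF : MemLp F 2 volume) (g : G) :
    Integrable fun z => (F (g • z) - F z) ^ 2 := ((L2_comp hF g).sub hF).integrable_sq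

lemma En_mul {F : ℍ → ℝ} (hF : MemLp F 2 volume) (g h : G) :
    En F (g * h) ≤ 2 * En F g + 2 * En F h := by
  have h1 : En F g = ∫ z, (F (g • h • z) - F (h • z)) ^ 2 :=
    (int_comp h fun z => (F (g • z) - F z) ^ 2).symm
  have h2 : Integrable fun z => (F (g • h • z) - F (h • z)) ^ 2 :=
    ((L2_comp (L2_comp hF g) h).sub (L2_comp hF h)).integrable_sq
  rw [h1, En, En, ← integral_const_mul, ← integral_const_mul,
    ← integral_add (h2.const_mul _) ((En_int hF h).const_mul _)]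
  refine integral_mono (En_int hF _) ((h2.const_mul _).add ((En_int hF h).const_mul _)) fun z => ?_
  simp only [mul_smul]
  nlinarith [sq_nonneg (F (g • h • z) - 2 * F (h • z) + F z)]

lemma En_inv (F : ℍ → ℝ) (g : G) : En F g⁻¹ = En F g := by
  rw [En, ← int_comp g, En]
  simp only [inv_smul_smul]
  congr 1
  funext z
  ring

variable {S : Type} [Fintype S]

lemma En_closure (p : S → ℝ) (hp : ∀ s, 0 < p s) (σ : S → G) {g : G}
    (hg : g ∈ Subgroup.closure (range σ)) :
    ∃ C, 0 ≤ C ∧ ∀ F, MemLp F 2 volume → En F g ≤ C * ∑ s, p s * En F (σ s) := by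
  induction hg using Subgroup.closure_induction with
  | mem x hx =>
    obtain ⟨s, rfl⟩ := hx
    refine ⟨(p s)⁻¹, (inv_pos.2 (hp s)).le, fun F _ => ?_⟩
    rw [← div_eq_inv_mul, le_div_iff₀' (hp s)]
    exact Finset.single_le_sum (f := fun s => p s * En F (σ s))
      (fun s _ => mul_nonneg (hp s).le (En_nonneg _ _)) (Finset.mem_univ s)
  | one => exact ⟨0, le_rfl, fun F _ => by simp [En]⟩
  | mul x y _ _ ihx ihy =>
    obtain ⟨C, hC, h1⟩ := ihx
    obtain ⟨D, hD, h2⟩ := ihy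
    refine ⟨2 * C + 2 * D, by positivity, fun F hF => ?_⟩
    have := En_mul hF x y
    have := h1 F hF
    have := h2 F hF
    linarith
  | inv x _ ih => simpa only [En_inv] using ih

lemma mass_le {F : ℍ → ℝ} (hF : MemLp F 2 volume) (g : G) {A B : Set ℍ} (hA : MeasurableSet A)
    (hB : MeasurableSet B) (h : ∀ z ∈ A, g • z ∈ B) :
    ∫ z in A, F z ^ 2 ≤ 11 / 10 * (∫ z in B, F z ^ 2) + 11 * En F g := by
  have h1 : Integrable fun z => B.indicator (fun z => F z ^ 2) (g • z) :=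
    (mp g).integrable_comp_of_integrable (g := B.indicator fun z => F z ^ 2)
      (hF.integrable_sq.indicator hB)
  rw [← integral_indicator hA, ← integral_indicator hB, ← int_comp g (B.indicator _), En,
    ← integral_const_mul, ← integral_const_mul,
    ← integral_add (h1.const_mul _) ((En_int hF g).const_mul _)]
  refine integral_mono (hF.integrable_sq.indicator hA)
    ((h1.const_mul _).add ((En_int hF g).const_mul _)) fun z => ?_
  by_cases hz : z ∈ A
  · simp only [indicator_of_mem hz, indicator_of_mem (h z hz)]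
    nlinarith [sq_nonneg (F (g • z) - 10 * (F z - F (g • z)))]
  · simp only [indicator_of_notMem hz]
    have : 0 ≤ B.indicator (fun z => F z ^ 2) (g • z) := indicator_nonneg (fun _ _ => sq_nonneg _) _
    positivity

variable {Γ : Subgroup G}

lemma Lat.exists_generic (h : Lat Γ) {u : ℝ} (hu : u ≠ 0) (hD : dg u ∈ Γ) :
    ∃ g ∈ Γ, g 0 0 ≠ 0 ∧ g 0 1 ≠ 0 ∧ g 1 0 ≠ 0 ∧ g 1 1 ≠ 0 := by
  obtain ⟨g, hg, h1, h2⟩ := h.dense hu hD 1 (show (1 : ℝ) < 2 by norm_num)
  rw [one_mul] at h1 h2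
  have h3 : g 1 1 ≠ 0 := fun h3 => by
    have := h2.1
    rw [h3, zero_div] at this
    linarith
  refine ⟨g, hg, fun h0 => ?_, fun h0 => h1 (h.no_tri hu hD hg (by simp [h0])).2, h1, h3⟩
  have h4 := (h.no_tri hu hD (Γ.mul_mem (Γ.mul_mem hg hD) (Γ.inv_mem hg)) (by
    simp only [mul_ij, inv00, inv01, inv10, inv11, dg00, dg01, dg10, dg11, h0]
    ring)).2
  simp only [mul_ij, inv00, inv01, inv10, inv11, dg00, dg01, dg10, dg11] at h4
  have : Real.exp u - Real.exp (-u) ≠ 0 := fun h3 =>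
    hu (by have := Real.exp_injective (sub_eq_zero.1 h3); linarith)
  apply mul_ne_zero (mul_ne_zero h1 h3) this
  linear_combination h4

lemma near_zero {a b c d : ℝ} (hb : b ≠ 0) (hd : d ≠ 0) : ∀ᶠ ρ : ℝ in atTop, ∀ ζ : ℂ,
    ‖ζ‖ ≤ ρ⁻¹ → ρ⁻¹ ≤ ‖(a * ζ + b) / (c * ζ + d)‖ ∧ ‖(a * ζ + b) / (c * ζ + d)‖ < ρ := by
  have hc : ContinuousAt (fun ζ : ℂ => ‖(a * ζ + b) / (c * ζ + d)‖) 0 := by
    refine ContinuousAt.norm (ContinuousAt.div (by fun_prop) (by fun_prop) ?_)
    simpa using hd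
  set v := ‖((a : ℂ) * 0 + b) / (c * 0 + d)‖ with hv
  have hv0 : 0 < v := by simp [hv, hb, hd]
  obtain ⟨ε, hε, h1⟩ := Metric.eventually_nhds_iff.1
    (hc.eventually (Ioo_mem_nhds (half_lt_self hv0) (lt_add_one v)))
  filter_upwards [tendsto_inv_atTop_zero.eventually (gt_mem_nhds hε),
    tendsto_inv_atTop_zero.eventually (gt_mem_nhds (half_pos hv0)),
    eventually_ge_atTop (v + 1)] with ρ k1 k2 k3 ζ hζ
  have := h1 (y := ζ) (by rw [dist_zero_right]; linarith)
  exact ⟨by linarith [this.1], by linarith [this.2]⟩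

theorem gap (p : S → ℝ) (hp : ∀ s, 0 < p s) (σ : S → G) (h : Lat (Subgroup.closure (range σ)))
    {u : ℝ} (hu : 0 < u) (hD : dg u ∈ Subgroup.closure (range σ)) :
    ∃ K, 0 < K ∧ ∀ F, MemLp F 2 volume → ∫ z, F z ^ 2 ≤ K * ∑ s, p s * En F (σ s) := by
  obtain ⟨g, hg, h00, h01, h10, h11⟩ := h.exists_generic hu.ne' hD
  have ht : Tendsto (fun n : ℕ => Real.exp (n * u)) atTop atTop :=
    Real.tendsto_exp_atTop.comp (tendsto_natCast_atTop_atTop.atTop_mul_const hu)
  obtain ⟨n, k1, k2, k3⟩ := ((ht.eventually (near_zero (a := g 0 0) (c := g 1 0) h01 h11)).and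
    ((ht.eventually (near_zero (a := g 0 1) (c := g 1 1) h00 h10)).and
      (ht.eventually_ge_atTop 1))).exists
  obtain ⟨ρ, hρ⟩ : ∃ ρ, ρ = Real.exp (n * u) := ⟨_, rfl⟩
  rw [← hρ] at k1 k2 k3
  have hρ0 : 0 < ρ := by linarith
  have hd : dg (n * u) ∈ Subgroup.closure (range σ) := by exact_mod_cast dg_zmul hD n
  obtain ⟨C, hC, c1⟩ := En_closure p hp σ hg
  obtain ⟨D, hD', c2⟩ := En_closure p hp σ hd
  refine ⟨200 * (C + D + 1), by positivity, fun F hF => ?_⟩
  let In : Set ℍ := {z | ‖(z : ℂ)‖ < ρ⁻¹}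
  let Out : Set ℍ := {z | ρ ≤ ‖(z : ℂ)‖}
  have mI : MeasurableSet In := measurableSet_lt (by fun_prop) measurable_const
  have mO : MeasurableSet Out := measurableSet_le measurable_const (by fun_prop)
  have hinv : ρ⁻¹ ≤ 1 := inv_le_one_of_one_le₀ k3
  have hdis : Disjoint In Out := disjoint_left.2 fun z h1 h2 => by
    simp only [In, Out, mem_ofPred_eq] at h1 h2
    linarith
  have hn : ∀ (v : ℝ) (z : ℍ), ‖((dg v • z : ℍ) : ℂ)‖ = Real.exp v ^ 2 * ‖(z : ℂ)‖ := by
    intro v z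
    rw [coe_dg, norm_mul, Complex.norm_real, Real.norm_of_nonneg (Real.exp_pos _).le, two_mul,
      Real.exp_add, sq]
  have e1 := integral_add_compl (mI.union mO) hF.integrable_sq
  have e2 := setIntegral_union hdis mO hF.integrable_sq.integrableOn hF.integrable_sq.integrableOn
  have m1 := mass_le hF g (mI.union mO) (mI.union mO).compl (by
    intro z hz
    simp only [In, Out, mem_compl_iff, mem_union, mem_ofPred_eq, not_or, not_lt, not_le] at hz ⊢
    rcases hz with hz | hz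
    · rw [coe_act]
      exact k1 z hz.le
    · have h0 := z.ne_zero
      have := k2 (z : ℂ)⁻¹ (by rw [norm_inv]; exact inv_anti₀ hρ0 hz)
      have e : ((g • z : ℍ) : ℂ) = (g 0 1 * (z : ℂ)⁻¹ + g 0 0) / (g 1 1 * (z : ℂ)⁻¹ + g 1 0) := by
        rw [coe_act, ← mul_div_mul_right _ _ (inv_ne_zero h0)]
        congr 1 <;> field_simp <;> ring
      rwa [e])
  have m2 := mass_le hF (dg (n * u)) (mI.union mO).compl mO (by
    intro z hz
    simp only [In, Out, mem_compl_iff, mem_union, mem_ofPred_eq, not_or, not_lt, not_le] at hz ⊢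
    rw [hn, ← hρ]
    have := mul_le_mul_of_nonneg_left hz.1 (sq_nonneg ρ)
    rwa [sq, mul_assoc, mul_inv_cancel₀ hρ0.ne', mul_one, ← sq] at this)
  have m3 := mass_le hF (dg (n * u))⁻¹ (mI.union mO).compl mI (by
    intro z hz
    simp only [In, Out, mem_compl_iff, mem_union, mem_ofPred_eq, not_or, not_lt, not_le] at hz ⊢
    have : (dg (n * u))⁻¹ = dg (-(n * u)) := by
      rw [eq_comm, eq_inv_iff_mul_eq_one, ← dg_add, neg_add_cancel, dg_zero]
    rw [this, hn, Real.exp_neg, ← hρ]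
    have := mul_lt_mul_of_pos_left hz.2 (pow_pos (inv_pos.2 hρ0) 2)
    rwa [sq, mul_assoc _ _ ρ, inv_mul_cancel₀ hρ0.ne', mul_one, ← sq] at this)
  rw [En_inv] at m3
  have c3 := c1 F hF
  have c4 := c2 F hF
  have h0 : 0 ≤ ∑ s, p s * En F (σ s) :=
    Finset.sum_nonneg fun s _ => mul_nonneg (hp s).le (En_nonneg _ _)
  have := En_nonneg F g
  have := En_nonneg F (dg (n * u))
  linarith

end Pool.Agent.P.MP_90a4ef_pr
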