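import Pool.Agent.P.MP_90a4ef_pr.Walk

/-! Elementary geometry of cocompact discrete subgroups of SL(2,R). -/

open Set Filter Topology UpperHalfPlane
open scoped MatrixGroups

namespace Pool.Agent.P.MP_90a4ef_pr

/-- displacement of the base point -/
noncomputable def nrm (A : G) : ℝ := dist (A • I) I

lemma nrm_mul (A B : G) : nrm (A * B) ≤ nrm A + nrm B := by
  unfold nrm
  have := dist_triangle ((A * B) • I) (A • I) I
  rw [mul_smul, dist_smul] at this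
  rw [mul_smul]
  linarith

lemma nrm_inv (A : G) : nrm A⁻¹ = nrm A := by
  unfold nrm
  rw [← dist_smul A, smul_inv_smul, dist_comm]

lemma cosh_nrm (A : G) :
    2 * Real.cosh (nrm A) = A 0 0 ^ 2 + A 0 1 ^ 2 + A 1 0 ^ 2 + A 1 1 ^ 2 := by
  have hd := det_eq A
  have h0 : 0 < A 1 0 ^ 2 + A 1 1 ^ 2 := by
    by_contra! h
    have h1 : A 1 0 = 0 := by nlinarith
    have h2 : A 1 1 = 0 := by nlinarith
    simp [h1, h2] at hd
  have hre : ((A • I : ℍ) : ℂ).re = (A 0 0 * A 1 0 + A 0 1 * A 1 1) / (A 1 0 ^ 2 + A 1 1 ^ 2) := by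
    rw [coe_act]
    simp [Complex.div_re, Complex.normSq_apply]
    rw [← add_div]
    congr 1 <;> ring
  have him : ((A • I : ℍ) : ℂ).im = 1 / (A 1 0 ^ 2 + A 1 1 ^ 2) := by
    rw [coe_act]
    simp [Complex.div_im, Complex.normSq_apply]
    rw [← sub_div, hd, one_div]
    congr 1
    ring
  unfold nrm
  rw [cosh_dist, Complex.dist_eq, Complex.sq_norm, Complex.normSq_apply, ← coe_im (A • I)]
  simp only [Complex.sub_re, Complex.sub_im, hre, him, coe_I, Complex.I_re, Complex.I_im, I_im]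
  field_simp
  have : A 0 0 * A 1 1 = 1 + A 0 1 * A 1 0 := by linarith
  linear_combination (-(A 0 0 * A 1 1 - A 0 1 * A 1 0) - 1) * hd

lemma entry_le {A : G} {C : ℝ} (h : nrm A ≤ C) (i j : Fin 2) : |A i j| ≤ 2 * Real.cosh C := by
  have h1 := cosh_nrm A
  have h2 : Real.cosh (nrm A) ≤ Real.cosh C := by
    rw [Real.cosh_le_cosh, abs_of_nonneg (show 0 ≤ nrm A from dist_nonneg)]
    exact h.trans (le_abs_self _)
  have h3 := Real.one_le_cosh C
  apply abs_le_of_sq_le_sq' _ (by positivity) |> abs_le.2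
  fin_cases i <;> fin_cases j <;> simp only [Fin.zero_eta, Fin.mk_one, Fin.isValue] <;>
    nlinarith [sq_nonneg (A 0 0), sq_nonneg (A 0 1), sq_nonneg (A 1 0), sq_nonneg (A 1 1)]

lemma nrm_le_of_sq {A B : G} (h : A 0 0 ^ 2 + A 0 1 ^ 2 + A 1 0 ^ 2 + A 1 1 ^ 2 ≤
    B 0 0 ^ 2 + B 0 1 ^ 2 + B 1 0 ^ 2 + B 1 1 ^ 2) : nrm A ≤ nrm B := by
  rw [← cosh_nrm, ← cosh_nrm] at h
  have : Real.cosh (nrm A) ≤ Real.cosh (nrm B) := by linarith
  rwa [Real.cosh_le_cosh, abs_of_nonneg (show 0 ≤ nrm A from dist_nonneg),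
    abs_of_nonneg (show 0 ≤ nrm B from dist_nonneg)] at this

lemma isCompact_nrm (C : ℝ) : IsCompact {A : G | nrm A ≤ C} :=
  isProperMap_smul_I.isCompact_preimage (isCompact_closedBall I C)

/-- discrete and cocompact -/
structure Lat (Γ : Subgroup G) : Prop where
  fin : ∀ C, {γ | γ ∈ Γ ∧ nrm γ ≤ C}.Finite
  coc : ∃ C, ∀ T : G, ∃ γ ∈ Γ, nrm (γ * T) ≤ C

lemma Lat.of_top (Γ : Subgroup G) [DiscreteTopology Γ]
    [CompactSpace (MulAction.orbitRel.Quotient Γ ℍ)] : Lat Γ where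
  fin C := by
    have hc : IsClosed (Γ : Set G) := Subgroup.isClosed_of_discrete
    have h1 : IsCompact ((Γ : Set G) ∩ {A : G | nrm A ≤ C}) := (isCompact_nrm C).inter_left hc
    exact h1.finite (isDiscrete_iff_discreteTopology.2
      (DiscreteTopology.of_subset ‹DiscreteTopology Γ› inter_subset_left))
  coc := by
    let π : ℍ → MulAction.orbitRel.Quotient Γ ℍ := Quotient.mk _
    have hπ : IsOpenMap π := isOpenMap_quotient_mk'_mul
    obtain ⟨n, hn⟩ := isCompact_univ.elim_directed_cover (fun n : ℕ => π '' Metric.ball I n)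
      (fun n => hπ _ Metric.isOpen_ball) (by
        intro x _
        obtain ⟨z, rfl⟩ := Quotient.exists_rep x
        obtain ⟨n, hn⟩ := exists_nat_gt (dist z I)
        exact mem_iUnion.2 ⟨n, z, hn, rfl⟩)
      (Monotone.directed_le fun a b hab => image_mono (Metric.ball_subset_ball (by exact_mod_cast hab)))
    refine ⟨n, fun T => ?_⟩
    obtain ⟨z, hz, h⟩ := hn (mem_univ (π (T • I)))
    obtain ⟨γ, hγ⟩ : z ∈ MulAction.orbit Γ (T • I) := Quotient.exact h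
    refine ⟨γ, γ.2, ?_⟩
    unfold nrm
    rw [mul_smul]
    have : (γ : G) • T • I = z := hγ
    rw [this]
    exact (Metric.mem_ball.1 hz).le

lemma Lat.conj {Γ : Subgroup G} (h : Lat Γ) (k : G) :
    Lat (Γ.map (MulAut.conj k).toMonoidHom) where
  fin C := by
    refine ((h.fin (C + 2 * nrm k)).image fun γ => k * γ * k⁻¹).subset ?_
    rintro _ ⟨⟨γ, hγ, rfl⟩, h1⟩
    refine ⟨γ, ⟨hγ, ?_⟩, rfl⟩
    change nrm (k * γ * k⁻¹) ≤ C at h1
    have e : γ = k⁻¹ * (k * γ * k⁻¹) * k := by group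
    have a1 := nrm_mul (k⁻¹ * (k * γ * k⁻¹)) k
    have a2 := nrm_mul k⁻¹ (k * γ * k⁻¹)
    rw [← e] at a1
    rw [nrm_inv] at a2
    linarith
  coc := by
    obtain ⟨C, hC⟩ := h.coc
    refine ⟨nrm k + C, fun T => ?_⟩
    obtain ⟨γ, hγ, h1⟩ := hC (k⁻¹ * T)
    refine ⟨k * γ * k⁻¹, ⟨γ, hγ, rfl⟩, ?_⟩
    have := nrm_mul k (γ * (k⁻¹ * T))
    simp only [mul_assoc]
    linarith

/-- diagonal one-parameter group -/
noncomputable def dg (u : ℝ) : G :=
  ⟨!![Real.exp u, 0; 0, Real.exp (-u)], by simp [← Real.exp_add]⟩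

@[simp] lemma dg00 (u : ℝ) : dg u 0 0 = Real.exp u := rfl
@[simp] lemma dg01 (u : ℝ) : dg u 0 1 = 0 := rfl
@[simp] lemma dg10 (u : ℝ) : dg u 1 0 = 0 := rfl
@[simp] lemma dg11 (u : ℝ) : dg u 1 1 = Real.exp (-u) := rfl

lemma ext4 {A B : G} (h1 : A 0 0 = B 0 0) (h2 : A 0 1 = B 0 1) (h3 : A 1 0 = B 1 0)
    (h4 : A 1 1 = B 1 1) : A = B := by
  ext i j
  fin_cases i <;> fin_cases j <;> assumption

lemma dg_add (u v : ℝ) : dg (u + v) = dg u * dg v := by
  apply ext4 <;> simp [mul_ij, Real.exp_add, mul_comm]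

lemma dg_zero : dg 0 = 1 := by
  apply ext4 <;> simp

lemma dg_zmul {Γ : Subgroup G} {u : ℝ} (h : dg u ∈ Γ) (n : ℤ) : dg (n * u) ∈ Γ := by
  have hneg : dg (-u) ∈ Γ := by
    have : dg (-u) = (dg u)⁻¹ := by
      rw [eq_inv_iff_mul_eq_one, ← dg_add, neg_add_cancel, dg_zero]
    rw [this]
    exact Γ.inv_mem h
  induction n using Int.induction_on with
  | zero => simp [dg_zero]
  | succ n ih =>
    push_cast at ih ⊢
    rw [add_mul, one_mul, dg_add]
    exact Γ.mul_mem ih h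
  | pred n ih =>
    push_cast at ih ⊢
    rw [sub_mul, one_mul, sub_eq_add_neg, dg_add]
    exact Γ.mul_mem ih hneg

lemma coe_dg (u : ℝ) (z : ℍ) : ((dg u • z : ℍ) : ℂ) = (Real.exp (2 * u) : ℝ) * (z : ℂ) := by
  rw [coe_act, dg00, dg01, dg10, dg11, two_mul, Real.exp_add, Real.exp_neg]
  have : (Real.exp u : ℂ) ≠ 0 := by exact_mod_cast (Real.exp_pos u).ne'
  push_cast
  field_simp
  ring

lemma mob_dg (u y : ℝ) : mob (dg u) y = Real.exp (2 * u) * y := by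
  rw [mob, dg00, dg01, dg10, dg11, two_mul, Real.exp_add, Real.exp_neg]
  field_simp
  ring

lemma Lat.exists_trace {Γ : Subgroup G} (h : Lat Γ) : ∃ γ ∈ Γ, 2 < γ 0 0 + γ 1 1 := by
  suffices ∃ γ ∈ Γ, 2 < |γ 0 0 + γ 1 1| by
    obtain ⟨γ, hγ, h1⟩ := this
    refine ⟨γ * γ, Γ.mul_mem hγ hγ, ?_⟩
    have h2 : 2 ^ 2 < |γ 0 0 + γ 1 1| ^ 2 := by gcongr
    rw [sq_abs] at h2
    rw [mul_ij, mul_ij]
    nlinarith [det_eq γ]
  by_contra! hcon
  obtain ⟨C₀, hC⟩ := h.coc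
  set C := 2 * Real.cosh C₀ with hCdef
  have hC2 : 2 ≤ C := by have := Real.one_le_cosh C₀; linarith
  obtain ⟨t, ht⟩ : ∃ t, t = 4 * C ^ 2 := ⟨_, rfl⟩
  have ht0 : 0 < t := by rw [ht]; positivity
  have htC : C ≤ t := by nlinarith
  have key : ∀ a b c d : ℝ, |a| ≤ C → |b| ≤ C → |c| ≤ C → |d| ≤ C → a * d - b * c = 1 →
      |a * t + d * t⁻¹| ≤ 2 → 1 ≤ 2 * C * |b| ∧ 1 ≤ 2 * C * |c| := by
    intro a b c d ha hb hc hd hdet htr
    have h1 : |d * t⁻¹| ≤ 1 := by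
      rw [abs_mul, abs_inv, abs_of_pos ht0, ← div_eq_mul_inv, div_le_one ht0]
      linarith
    have h2 : |a| * t ≤ 3 := by
      have := abs_sub (a * t + d * t⁻¹) (d * t⁻¹)
      rw [add_sub_cancel_right, abs_mul, abs_of_pos ht0] at this
      linarith
    have h3 : |a| * |d| ≤ 1 / 2 := by
      have : |a| * C ≤ 1 / 2 := by
        rw [ht] at h2
        nlinarith [abs_nonneg a]
      nlinarith [abs_nonneg a]
    have h4 : 1 / 2 ≤ |b| * |c| := by
      have := abs_sub (a * d) (b * c)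
      rw [hdet, abs_one, abs_mul, abs_mul] at this
      linarith
    constructor <;> nlinarith [abs_nonneg b, abs_nonneg c]
  obtain ⟨γ₁, h1, n1⟩ := hC (dg (-Real.log t))
  obtain ⟨γ₂, h2, n2⟩ := hC (dg (Real.log t))
  obtain ⟨E, hE⟩ : ∃ E, E = γ₁ * dg (-Real.log t) := ⟨_, rfl⟩
  obtain ⟨F, hF⟩ : ∃ F, F = γ₂ * dg (Real.log t) := ⟨_, rfl⟩
  rw [← hE] at n1
  rw [← hF] at n2
  have e1 : γ₁ = E * dg (Real.log t) := by
    rw [hE, mul_assoc, ← dg_add, neg_add_cancel, dg_zero, mul_one]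
  have e2 : γ₂ = F * dg (-Real.log t) := by
    rw [hF, mul_assoc, ← dg_add, add_neg_cancel, dg_zero, mul_one]
  have t1 := hcon _ h1
  have t2 := hcon _ h2
  have t3 := hcon _ (Γ.mul_mem h1 h2)
  rw [mul_ij, mul_ij] at t3
  rw [e1] at t1 t3
  rw [e2] at t2 t3
  simp only [mul_ij, dg00, dg01, dg10, dg11, neg_neg, Real.exp_neg, Real.exp_log ht0, mul_zero,
    add_zero, zero_add] at t1 t2 t3
  have bE := entry_le n1
  have bF := entry_le n2
  rw [← hCdef] at bE bF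
  obtain ⟨-, k1⟩ := key _ _ _ _ (bE 0 0) (bE 0 1) (bE 1 0) (bE 1 1) (det_eq E) t1
  obtain ⟨-, k2⟩ := key _ _ _ _ (bF 1 1) (bF 1 0) (bF 0 1) (bF 0 0)
    (by linear_combination det_eq F) (by rwa [add_comm])
  have e3 : E 0 0 * t * (F 0 0 * t⁻¹) + E 0 1 * t⁻¹ * (F 1 0 * t⁻¹) +
      (E 1 0 * t * (F 0 1 * t) + E 1 1 * t⁻¹ * (F 1 1 * t)) =
      E 1 0 * F 0 1 * t ^ 2 + (E 0 0 * F 0 0 + E 0 1 * F 1 0 * (t⁻¹) ^ 2 + E 1 1 * F 1 1) := by
    field_simp
    ring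
  rw [e3] at t3
  have pr : ∀ x y : ℝ, |x| ≤ C → |y| ≤ C → |x * y| ≤ C ^ 2 := fun x y hx hy => by
    rw [abs_mul, sq]; gcongr
  have b1 := pr _ _ (bE 0 0) (bF 0 0)
  have b2 : |E 0 1 * F 1 0 * (t⁻¹) ^ 2| ≤ C ^ 2 := by
    rw [abs_mul]
    have : |(t⁻¹) ^ 2| ≤ 1 := by
      rw [abs_of_nonneg (by positivity)]
      exact pow_le_one₀ (by positivity) (inv_le_one_of_one_le₀ (by linarith))
    nlinarith [pr _ _ (bE 0 1) (bF 1 0), abs_nonneg (E 0 1 * F 1 0)]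
  have b3 := pr _ _ (bE 1 1) (bF 1 1)
  have b4 : |E 1 0 * F 0 1 * t ^ 2| ≤ 2 + 3 * C ^ 2 := by
    have := abs_le.1 t3
    have := abs_le.1 b1
    have := abs_le.1 b2
    have := abs_le.1 b3
    rw [abs_le]
    constructor <;> linarith
  rw [abs_mul, abs_mul, abs_of_nonneg (sq_nonneg t)] at b4
  have b5 : 1 ≤ t * (|E 1 0| * |F 0 1|) := by
    have := mul_le_mul k1 k2 zero_le_one (by positivity)
    rw [ht]
    linarith
  have b6 : t ≤ |E 1 0| * |F 0 1| * t ^ 2 := by nlinarith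
  nlinarith

lemma diag_of_rows (γ : G) (u : ℝ) (a b c d : ℝ) (hdet : a * d - b * c ≠ 0)
    (h1 : a * γ 0 0 + b * γ 1 0 = Real.exp u * a) (h2 : a * γ 0 1 + b * γ 1 1 = Real.exp u * b)
    (h3 : c * γ 0 0 + d * γ 1 0 = Real.exp (-u) * c)
    (h4 : c * γ 0 1 + d * γ 1 1 = Real.exp (-u) * d) : ∃ k : G, k * γ * k⁻¹ = dg u := by
  let k : G := ⟨!![a / (a * d - b * c), b / (a * d - b * c); c, d], by
    rw [Matrix.det_fin_two_of]
    field_simp⟩
  refine ⟨k, ?_⟩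
  rw [mul_inv_eq_iff_eq_mul]
  have k00 : k 0 0 = a / (a * d - b * c) := rfl
  have k01 : k 0 1 = b / (a * d - b * c) := rfl
  have k10 : k 1 0 = c := rfl
  have k11 : k 1 1 = d := rfl
  apply ext4 <;> simp only [mul_ij, k00, k01, k10, k11, dg00, dg01, dg10, dg11]
  · field_simp; linarith
  · field_simp; linarith
  · linarith
  · linarith

lemma diagonalize (γ : G) (h : 2 < γ 0 0 + γ 1 1) : ∃ u, 0 < u ∧ ∃ k : G, k * γ * k⁻¹ = dg u := by
  obtain ⟨u, hu, htr⟩ : ∃ u, 0 < u ∧ Real.exp u + Real.exp (-u) = γ 0 0 + γ 1 1 := by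
    refine ⟨Real.arcosh ((γ 0 0 + γ 1 1) / 2), Real.arcosh_pos (by linarith), ?_⟩
    have := Real.cosh_arcosh (x := (γ 0 0 + γ 1 1) / 2) (by linarith)
    rw [Real.cosh_eq] at this
    linarith
  refine ⟨u, hu, ?_⟩
  have hlt : Real.exp (-u) < Real.exp u := Real.exp_lt_exp.2 (by linarith)
  have hm : Real.exp u * Real.exp (-u) = 1 := by rw [← Real.exp_add]; simp
  have hd := det_eq γ
  have e : Real.exp u = γ 0 0 + γ 1 1 - Real.exp (-u) := by linarith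
  by_cases h0 : γ 0 0 - Real.exp (-u) = 0
  · refine diag_of_rows γ u (γ 1 0) (γ 1 1 - Real.exp (-u)) (γ 0 0 - Real.exp u) (γ 0 1)
      ?_ ?_ ?_ ?_ ?_
    · have : γ 1 0 * γ 0 1 - (γ 1 1 - Real.exp (-u)) * (γ 0 0 - Real.exp u) =
          (Real.exp u - Real.exp (-u)) ^ 2 := by
        have a1 : γ 0 0 = Real.exp (-u) := by linarith
        have a2 : γ 1 1 = Real.exp u := by linarith
        rw [a1, a2] at hd ⊢
        linear_combination -hd + hm
      rw [this]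
      exact pow_ne_zero _ (by linarith)
    · linear_combination -γ 1 0 * htr
    · linear_combination -hd - γ 1 1 * htr + hm
    · linear_combination -hd - γ 0 0 * htr + hm
    · linear_combination -γ 0 1 * htr
  · refine diag_of_rows γ u (γ 0 0 - Real.exp (-u)) (γ 0 1) (γ 1 0) (γ 1 1 - Real.exp u)
      ?_ ?_ ?_ ?_ ?_
    · have : (γ 0 0 - Real.exp (-u)) * (γ 1 1 - Real.exp u) - γ 0 1 * γ 1 0 =
          -(γ 0 0 - Real.exp (-u)) * (Real.exp u - Real.exp (-u)) := by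
        linear_combination hd - hm + Real.exp (-u) * htr
      rw [this]
      exact mul_ne_zero (neg_ne_zero.2 h0) (by linarith)
    · linear_combination -hd - γ 0 0 * htr + hm
    · linear_combination -γ 0 1 * htr
    · linear_combination -γ 1 0 * htr
    · linear_combination -hd - γ 1 1 * htr + hm

end Pool.Agent.P.MP_90a4ef_pr
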