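import Pool.Agent.P.MP_90a4ef_pr.Geom

/-! Density of boundary orbits and finiteness of the barrier modulo a diagonal element. -/

open Set Filter Topology UpperHalfPlane
open scoped MatrixGroups

set_option linter.unusedSimpArgs false

namespace Pool.Agent.P.MP_90a4ef_pr

variable {Γ : Subgroup G}

lemma Lat.no_tri (h : Lat Γ) {u : ℝ} (hu : u ≠ 0) (hD : dg u ∈ Γ) {g : G} (hg : g ∈ Γ)
    (h0 : g 0 1 * g 1 0 = 0) : g 0 1 = 0 ∧ g 1 0 = 0 := by
  let c : ℤ → G := fun n => dg (n * u) * g * dg ((-n : ℤ) * u)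
  have hc : ∀ n, c n ∈ Γ := fun n => Γ.mul_mem (Γ.mul_mem (dg_zmul hD n) hg) (dg_zmul hD _)
  have e : ∀ x : ℝ, Real.exp x * Real.exp (-x) = 1 := fun x => by rw [← Real.exp_add]; simp
  have c00 : ∀ n, c n 0 0 = g 0 0 := fun n => by
    simp only [c, mul_ij, dg00, dg01, dg10, dg11]
    push_cast
    rw [neg_mul]
    linear_combination g 0 0 * e (n * u)
  have c11 : ∀ n, c n 1 1 = g 1 1 := fun n => by
    simp only [c, mul_ij, dg00, dg01, dg10, dg11]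
    push_cast
    rw [neg_mul, neg_neg]
    linear_combination g 1 1 * e (n * u)
  have c01 : ∀ n, c n 0 1 = Real.exp (2 * (n * u)) * g 0 1 := fun n => by
    simp only [c, mul_ij, dg00, dg01, dg10, dg11]
    push_cast
    rw [neg_mul, neg_neg, two_mul, Real.exp_add]
    ring
  have c10 : ∀ n, c n 1 0 = Real.exp (-(2 * (n * u))) * g 1 0 := fun n => by
    simp only [c, mul_ij, dg00, dg01, dg10, dg11]
    push_cast
    rw [neg_mul, two_mul, neg_add, Real.exp_add]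
    ring
  have key : ∀ ε : ℤ, ε ≠ 0 → (∀ n : ℕ, nrm (c (ε * n)) ≤ nrm g) → g 0 1 = 0 ∧ g 1 0 = 0 := by
    intro ε hε hb
    obtain ⟨a, b, hab, h1⟩ := Set.Finite.exists_lt_map_eq_of_forall_mem
      (f := fun n : ℕ => c (ε * n)) (t := {γ | γ ∈ Γ ∧ nrm γ ≤ nrm g})
      (fun n => ⟨hc _, hb n⟩) (h.fin (nrm g))
    have hne : 2 * (((ε * a : ℤ) : ℝ) * u) ≠ 2 * (((ε * b : ℤ) : ℝ) * u) := by
      intro h2
      have h3 := mul_right_cancel₀ hu (mul_left_cancel₀ two_ne_zero h2)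
      have h4 : ε * a = ε * b := by exact_mod_cast h3
      have := mul_left_cancel₀ hε h4
      omega
    constructor
    · by_contra h2
      have h3 : c (ε * a) 0 1 = c (ε * b) 0 1 := by rw [h1]
      rw [c01, c01] at h3
      exact hne (Real.exp_injective (mul_right_cancel₀ h2 h3))
    · by_contra h2
      have h3 : c (ε * a) 1 0 = c (ε * b) 1 0 := by rw [h1]
      rw [c10, c10] at h3
      exact hne (neg_injective (Real.exp_injective (mul_right_cancel₀ h2 h3)))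
  have sq_le : ∀ x y : ℝ, x ≤ 0 → (Real.exp x * y) ^ 2 ≤ y ^ 2 := fun x y hx => by
    rw [mul_pow]
    exact mul_le_of_le_one_left (sq_nonneg _)
      (pow_le_one₀ (Real.exp_pos x).le (Real.exp_le_one_iff.2 hx))
  obtain ⟨ε, hε, hεu⟩ : ∃ ε : ℤ, ε ≠ 0 ∧ 0 ≤ (ε : ℝ) * u := by
    rcases le_total 0 u with h1 | h1
    · exact ⟨1, one_ne_zero, by simpa⟩
    · exact ⟨-1, by simp, by simpa⟩
  rcases mul_eq_zero.1 h0 with h1 | h1
  · refine key ε hε fun n => nrm_le_of_sq ?_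
    rw [c00, c11, c01, c10, h1]
    have := sq_le (-(2 * (((ε * n : ℤ) : ℝ) * u))) (g 1 0) (by
      push_cast
      nlinarith [mul_nonneg hεu (Nat.cast_nonneg (α := ℝ) n)])
    nlinarith
  · refine key (-ε) (neg_ne_zero.2 hε) fun n => nrm_le_of_sq ?_
    rw [c00, c11, c01, c10, h1]
    have := sq_le (2 * (((-ε * n : ℤ) : ℝ) * u)) (g 0 1) (by
      push_cast
      nlinarith [mul_nonneg hεu (Nat.cast_nonneg (α := ℝ) n)])
    nlinarith

lemma Lat.exists_full (h : Lat Γ) {u : ℝ} (hu : u ≠ 0) (hD : dg u ∈ Γ) :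
    ∃ g ∈ Γ, g 0 1 ≠ 0 ∧ g 1 0 ≠ 0 := by
  by_contra! hcon
  have hdiag : ∀ g ∈ Γ, g 0 1 = 0 ∧ g 1 0 = 0 := fun g hg => h.no_tri hu hD hg (by
    by_cases h1 : g 0 1 = 0
    · simp [h1]
    · simp [hcon g hg h1])
  obtain ⟨C₀, hC⟩ := h.coc
  obtain ⟨C, hCdef⟩ : ∃ C, C = 2 * Real.cosh C₀ := ⟨_, rfl⟩
  let T : G := ⟨!![1, C ^ 2 + 1; 0, 1], by simp⟩
  obtain ⟨γ, hγ, h1⟩ := hC T
  have b1 := entry_le h1 0 1
  have b2 := entry_le h1 1 1
  have T01 : T 0 1 = C ^ 2 + 1 := rfl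
  have T11 : T 1 1 = 1 := rfl
  have hd := det_eq γ
  rw [mul_ij, T01, T11, ← hCdef] at b1 b2
  rw [(hdiag γ hγ).1, (hdiag γ hγ).2] at *
  have := mul_le_mul b1 b2 (abs_nonneg _) ((abs_nonneg _).trans b1)
  rw [← abs_mul] at this
  have e : (γ 0 0 * (C ^ 2 + 1) + 0 * 1) * (0 * (C ^ 2 + 1) + γ 1 1 * 1) = C ^ 2 + 1 := by
    linear_combination (C ^ 2 + 1) * hd
  rw [e, abs_of_nonneg (by positivity)] at this
  nlinarith

lemma Lat.two_point (h : Lat Γ) (a b c d : ℝ) (hΔ : a * d - b * c ≠ 0) {p r : ℝ} (hpr : p < r) :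
    ∃ g ∈ Γ, (a * g 0 0 + b * g 1 0 ≠ 0 ∧
      (a * g 0 1 + b * g 1 1) / (a * g 0 0 + b * g 1 0) ∈ Ioo p r) ∨
      (c * g 0 0 + d * g 1 0 ≠ 0 ∧ (c * g 0 1 + d * g 1 1) / (c * g 0 0 + d * g 1 0) ∈ Ioo p r) := by
  obtain ⟨C₀, hC⟩ := h.coc
  obtain ⟨C, hCdef⟩ : ∃ C, C = 2 * Real.cosh C₀ := ⟨_, rfl⟩
  have hC0 : 0 < C := by have := Real.one_le_cosh C₀; linarith
  obtain ⟨M, hM⟩ : ∃ M, M = (|a| + |b| + |c| + |d| + 1) * C := ⟨_, rfl⟩
  have hM0 : 0 < M := by rw [hM]; positivity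
  obtain ⟨δ, hδ⟩ : ∃ δ, δ = |a * d - b * c| := ⟨_, rfl⟩
  have hδ0 : 0 < δ := by rw [hδ]; exact abs_pos.2 hΔ
  obtain ⟨η, hη⟩ : ∃ η, η = (r - p) / 2 := ⟨_, rfl⟩
  have hη0 : 0 < η := by rw [hη]; linarith
  obtain ⟨L, hL1, hL⟩ : ∃ L : ℝ, 1 ≤ L ∧ 2 * M ^ 2 < η * δ * L := by
    refine ⟨2 * M ^ 2 / (η * δ) + 1, le_add_of_nonneg_left (by positivity), ?_⟩
    rw [mul_add, mul_div_cancel₀ _ (by positivity)]
    linarith [mul_pos hη0 hδ0]
  have hL0 : 0 < L := by linarith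
  let T : G := ⟨!![L⁻¹, -(p + η) * L; 0, L], by simp [hL0.ne']⟩
  have T00 : T 0 0 = L⁻¹ := rfl
  have T01 : T 0 1 = -(p + η) * L := rfl
  have T10 : T 1 0 = 0 := rfl
  have T11 : T 1 1 = L := rfl
  obtain ⟨g, hg, h1⟩ := hC T
  refine ⟨g, hg, ?_⟩
  have bb := entry_le h1
  rw [← hCdef] at bb
  have row : ∀ x y : ℝ, |x| + |y| ≤ |a| + |b| + |c| + |d| + 1 → ∀ j,
      |x * (g * T) 0 j + y * (g * T) 1 j| ≤ M := by
    intro x y hxy j
    refine (abs_add_le _ _).trans ?_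
    rw [abs_mul, abs_mul, hM]
    have a1 := mul_le_mul_of_nonneg_left (bb 0 j) (abs_nonneg x)
    have a2 := mul_le_mul_of_nonneg_left (bb 1 j) (abs_nonneg y)
    have a3 := mul_le_mul_of_nonneg_right hxy hC0.le
    linarith
  have key : ∀ x y : ℝ, |x| + |y| ≤ |a| + |b| + |c| + |d| + 1 →
      δ ≤ 2 * M * |x * (g * T) 0 0 + y * (g * T) 1 0| → x * g 0 0 + y * g 1 0 ≠ 0 ∧
      (x * g 0 1 + y * g 1 1) / (x * g 0 0 + y * g 1 0) ∈ Ioo p r := by
    intro x y hxy h2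
    have h3 := row x y hxy 1
    simp only [mul_ij, T00, T01, T10, T11] at h2 h3
    obtain ⟨w, hw⟩ : ∃ w, w = x * g 0 0 + y * g 1 0 := ⟨_, rfl⟩
    obtain ⟨v, hv⟩ : ∃ v, v = x * g 0 1 + y * g 1 1 := ⟨_, rfl⟩
    have e2 : x * (g 0 0 * L⁻¹ + g 0 1 * 0) + y * (g 1 0 * L⁻¹ + g 1 1 * 0) = w / L := by
      rw [hw]; field_simp; ring
    have e3 : x * (g 0 0 * (-(p + η) * L) + g 0 1 * L) + y * (g 1 0 * (-(p + η) * L) + g 1 1 * L)
        = (v - (p + η) * w) * L := by rw [hw, hv]; ring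
    rw [e2, abs_div, abs_of_pos hL0, ← mul_div_assoc, le_div_iff₀ hL0] at h2
    rw [e3, abs_mul, abs_of_pos hL0] at h3
    rw [← hw, ← hv]
    have hw0 : 0 < |w| := by
      by_contra! h4
      have h5 := mul_nonpos_of_nonneg_of_nonpos (show 0 ≤ 2 * M by positivity) h4
      linarith [mul_pos hδ0 hL0]
    refine ⟨abs_pos.1 hw0, ?_⟩
    have h5 : |v / w - (p + η)| < η := by
      have : v / w - (p + η) = (v - (p + η) * w) / w := by
        field_simp [abs_pos.1 hw0]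
      rw [this, abs_div, div_lt_iff₀ hw0]
      have h6 : |v - (p + η) * w| ≤ M :=
        (le_mul_of_one_le_right (abs_nonneg _) hL1).trans h3
      refine h6.trans_lt (lt_of_mul_lt_mul_left (a := 2 * M) ?_ (by positivity))
      have h7 := mul_le_mul_of_nonneg_left h2 hη0.le
      linarith
    rw [abs_lt] at h5
    constructor <;> linarith [h5.1, h5.2]
  have hab : |a| + |b| ≤ |a| + |b| + |c| + |d| + 1 := by linarith [abs_nonneg c, abs_nonneg d]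
  have hcd : |c| + |d| ≤ |a| + |b| + |c| + |d| + 1 := by linarith [abs_nonneg a, abs_nonneg b]
  by_cases h2 : δ ≤ 2 * M * |a * (g * T) 0 0 + b * (g * T) 1 0|
  · exact Or.inl (key a b hab h2)
  refine Or.inr (key c d hcd ?_)
  have e : a * d - b * c =
      (a * (g * T) 0 0 + b * (g * T) 1 0) * (c * (g * T) 0 1 + d * (g * T) 1 1) -
      (a * (g * T) 0 1 + b * (g * T) 1 1) * (c * (g * T) 0 0 + d * (g * T) 1 0) := by
    linear_combination -(a * d - b * c) * det_eq (g * T)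
  have h3 := abs_sub ((a * (g * T) 0 0 + b * (g * T) 1 0) * (c * (g * T) 0 1 + d * (g * T) 1 1))
    ((a * (g * T) 0 1 + b * (g * T) 1 1) * (c * (g * T) 0 0 + d * (g * T) 1 0))
  rw [← e, ← hδ, abs_mul, abs_mul] at h3
  have a1 := mul_le_mul_of_nonneg_left (row c d hcd 1)
    (abs_nonneg (a * (g * T) 0 0 + b * (g * T) 1 0))
  have a2 := mul_le_mul_of_nonneg_right (row a b hab 1)
    (abs_nonneg (c * (g * T) 0 0 + d * (g * T) 1 0))
  linarith

theorem Lat.dense (h : Lat Γ) {u : ℝ} (hu : u ≠ 0) (hD : dg u ∈ Γ) (k : G) {p r : ℝ}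
    (hpr : p < r) : ∃ g ∈ Γ, (k * g) 1 0 ≠ 0 ∧ (k * g) 1 1 / (k * g) 1 0 ∈ Ioo p r := by
  obtain ⟨g₀, hg₀, hΔ⟩ : ∃ g₀ ∈ Γ, k 1 0 * (k * g₀) 1 1 - k 1 1 * (k * g₀) 1 0 ≠ 0 := by
    obtain ⟨g, hg, h1, h2⟩ := h.exists_full hu hD
    have hd := det_eq k
    by_cases a1 : k 1 0 = 0
    · refine ⟨g, hg, ?_⟩
      have a2 : k 1 1 ≠ 0 := fun a2 => by simp [a1, a2] at hd
      simp [mul_ij, a1, a2, h2]
    by_cases a2 : k 1 1 = 0
    · refine ⟨g, hg, ?_⟩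
      simp [mul_ij, a1, a2, h1]
    refine ⟨dg u, hD, ?_⟩
    have : Real.exp (-u) - Real.exp u ≠ 0 := fun h3 =>
      hu (by have := Real.exp_injective (sub_eq_zero.1 h3); linarith)
    simp only [mul_ij, dg00, dg01, dg10, dg11]
    convert mul_ne_zero (mul_ne_zero a1 a2) this using 1
    ring
  obtain ⟨g, hg, h1 | h1⟩ := h.two_point _ _ _ _ hΔ hpr
  · exact ⟨g, hg, by rwa [mul_ij k g, mul_ij k g]⟩
  · exact ⟨g₀ * g, Γ.mul_mem hg₀ hg, by rwa [← mul_assoc, mul_ij (k * g₀) g, mul_ij (k * g₀) g]⟩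

theorem Lat.barrier_finite (h : Lat Γ) {u : ℝ} (hu : 0 < u) (hD : dg u ∈ Γ) (o : ℍ) {S : Type}
    [Fintype S] (σ : S → G) : ∃ T : Finset G, ∀ z ∈ Γ, 0 < (z • o).re →
      (∃ s, ((z * (σ s)⁻¹) • o).re ≤ 0) → ∃ n : ℤ, dg (n * u) * z ∈ T := by
  obtain ⟨R, hR⟩ : ∃ R, ∀ s, dist ((σ s)⁻¹ • o) o ≤ R := by
    obtain ⟨R, hR⟩ := (Set.finite_range fun s => dist ((σ s)⁻¹ • o) o).bddAbove
    exact ⟨R, fun s => hR ⟨s, rfl⟩⟩
  let K := Real.exp (2 * u) * Real.exp R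
  refine ⟨(h.fin (dist I o + (K + Real.exp (2 * u)))).toFinset, ?_⟩
  rintro z hz h1 ⟨s, h2⟩
  set w := z • o with hw
  have h3 : w.re ≤ w.im * Real.exp R := by
    have a1 := dist_coe_le ((z * (σ s)⁻¹) • o) w
    have a2 : dist ((z * (σ s)⁻¹) • o) w ≤ R := by
      rw [mul_smul, hw, dist_smul]
      exact hR s
    have a3 := Complex.abs_re_le_norm ((((z * (σ s)⁻¹) • o : ℍ) : ℂ) - w)
    rw [← Complex.dist_eq, Complex.sub_re, coe_re, coe_re] at a3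
    have a4 := Real.exp_le_exp.2 a2
    nlinarith [w.im_pos, neg_le_abs (((z * (σ s)⁻¹) • o).re - w.re)]
  let n : ℤ := -⌊Real.log w.im / (2 * u)⌋
  refine ⟨n, (Set.Finite.mem_toFinset _).2 ⟨Γ.mul_mem (dg_zmul hD n) hz, ?_⟩⟩
  set w' := dg (n * u) • w with hw'
  have him : w'.im = Real.exp (2 * (n * u)) * w.im := by
    rw [← coe_im, hw', coe_dg, Complex.im_ofReal_mul, coe_im]
  have hre : w'.re = Real.exp (2 * (n * u)) * w.re := by
    rw [← coe_re, hw', coe_dg, Complex.re_ofReal_mul, coe_re]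
  have hlog : w'.im = Real.exp (2 * (n * u) + Real.log w.im) := by
    rw [him, Real.exp_add, Real.exp_log w.im_pos]
  have f1 := Int.floor_le (Real.log w.im / (2 * u))
  have f2 := Int.lt_floor_add_one (Real.log w.im / (2 * u))
  rw [le_div_iff₀ (by positivity)] at f1
  rw [div_lt_iff₀ (by positivity)] at f2
  have hn : (n : ℝ) = -⌊Real.log w.im / (2 * u)⌋ := by simp [n]
  have i1 : 1 ≤ w'.im := by
    rw [hlog]
    apply Real.one_le_exp
    rw [hn]; linarith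
  have i2 : w'.im ≤ Real.exp (2 * u) := by
    rw [hlog]
    apply Real.exp_le_exp.2
    rw [hn]; linarith
  have r1 : 0 ≤ w'.re := by rw [hre]; positivity
  have r2 : w'.re ≤ K := by
    have : w'.re ≤ w'.im * Real.exp R := by
      rw [hre, him, mul_assoc]
      gcongr
    refine this.trans ?_
    simp only [K]
    gcongr
  have d1 : dist w' I ≤ K + Real.exp (2 * u) := by
    refine (dist_le_dist_coe_div_sqrt w' I).trans ?_
    refine (div_le_self dist_nonneg (Real.one_le_sqrt.2 (by simpa using i1))).trans ?_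
    rw [Complex.dist_eq]
    refine (Complex.norm_le_abs_re_add_abs_im _).trans ?_
    simp only [Complex.sub_re, coe_re, I_re, sub_zero, Complex.sub_im, coe_im, I_im]
    rw [abs_of_nonneg r1, abs_of_nonneg (by linarith)]
    linarith
  unfold nrm
  refine (dist_triangle _ ((dg (n * u) * z) • o) _).trans ?_
  rw [dist_smul, mul_smul]
  exact add_le_add le_rfl d1

end Pool.Agent.P.MP_90a4ef_pr
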