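import Mathlib

/-! Weak convergence from tails, and the logistic law. -/

open MeasureTheory Set Filter Topology
open scoped ENNReal NNReal BoundedContinuousFunction

namespace Pool.Agent.P.MP_90a4ef_pr

lemma weak_of_tail (ν : ℕ → Measure ℝ) [∀ n, IsFiniteMeasure (ν n)] (c : ℕ → ℝ)
    (Λ : Measure ℝ) [IsProbabilityMeasure Λ] (l : ℝ) (hl : 0 < l)
    (h0 : Tendsto (fun n => c n * (ν n).real univ) atTop (𝓝 l))
    (h1 : ∀ t, Tendsto (fun n => c n * (ν n).real (Ioi t)) atTop (𝓝 (l * Λ.real (Ioi t))))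
    (f : ℝ →ᵇ ℂ) :
    Tendsto (fun n => (c n : ℂ) * ∫ t, f t ∂(ν n)) atTop (𝓝 (l * ∫ t, f t ∂Λ)) := by
  classical
  let P : ℕ → ProbabilityMeasure ℝ := fun n =>
    if h : ν n = 0 then ⟨Λ, inferInstance⟩ else
      haveI : NeZero (ν n) := ⟨h⟩
      ⟨(ν n univ)⁻¹ • ν n, inferInstance⟩
  have hne : ∀ᶠ n in atTop, c n * (ν n).real univ ≠ 0 := h0.eventually_ne hl.ne'
  have hP : ∀ n, c n * (ν n).real univ ≠ 0 → (P n : Measure ℝ) = (ν n univ)⁻¹ • ν n := by
    intro n hn
    have : ν n ≠ 0 := fun h => hn (by simp [h])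
    simp [P, this]
  have hioc : ∀ (μ : Measure ℝ) [IsFiniteMeasure μ] (a b : ℝ), a ≤ b →
      μ.real (Ioc a b) = μ.real (Ioi a) - μ.real (Ioi b) := by
    intro μ _ a b hab
    rw [← Ioc_union_Ioi_eq_Ioi hab, measureReal_union (Ioc_disjoint_Ioi le_rfl) measurableSet_Ioi]
    ring
  have hT : Tendsto P atTop (𝓝 ⟨Λ, inferInstance⟩) := by
    refine (isPiSystem_Ioc (id : ℝ → ℝ) id).tendsto_probabilityMeasure_of_tendsto_of_mem ?_ ?_ ?_
    · rintro _ ⟨a, b, -, rfl⟩
      exact measurableSet_Ioc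
    · intro U hU x hx
      obtain ⟨ε, hε, h⟩ := Metric.isOpen_iff.1 hU x hx
      refine ⟨Ioc (x - ε / 2) (x + ε / 2), ⟨_, _, by simp only [id]; linarith, rfl⟩,
        Ioc_mem_nhds (by linarith) (by linarith), fun y hy => h ?_⟩
      rw [Metric.mem_ball, Real.dist_eq, abs_lt]
      constructor <;> linarith [hy.1, hy.2]
    · rintro _ ⟨a, b, hab, rfl⟩
      simp only [id] at hab ⊢
      rw [← NNReal.tendsto_coe]
      have e : ∀ Q : ProbabilityMeasure ℝ, ((Q (Ioc a b) : ℝ≥0) : ℝ) =
          (Q : Measure ℝ).real (Ioc a b) := fun Q => rfl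
      simp only [e]
      have h2 := ((h1 a).sub (h1 b)).div h0 hl.ne'
      rw [← mul_sub, mul_div_cancel_left₀ _ hl.ne', ← hioc Λ a b hab.le] at h2
      refine h2.congr' ?_
      filter_upwards [hne] with n hn
      rw [hP n hn, Pi.div_apply, ← mul_sub, ← hioc _ a b hab.le,
        mul_div_mul_left _ _ (left_ne_zero_of_mul hn)]
      simp [Measure.real, div_eq_inv_mul]
  have h3 := (ProbabilityMeasure.tendsto_iff_forall_integral_rclike_tendsto ℂ).1 hT f
  have h4 := ((Complex.continuous_ofReal.tendsto _).comp h0).mul h3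
  refine h4.congr' ?_
  filter_upwards [hne] with n hn
  have h5 : ((ν n).real univ : ℂ) ≠ 0 := by exact_mod_cast right_ne_zero_of_mul hn
  rw [hP n hn, integral_smul_measure, ENNReal.toReal_inv]
  change ((c n * (ν n).real univ : ℝ) : ℂ) * (((ν n).real univ)⁻¹ • _) = _
  rw [Complex.real_smul]
  push_cast
  field_simp

/-- logistic law centred at `log A` -/
noncomputable def logi (A : ℝ) : Measure ℝ :=
  (volume.restrict (Ioo (0 : ℝ) 1)).map fun v => Real.log A + Real.log (v / (1 - v))

lemma measurable_logi (A : ℝ) : Measurable fun v : ℝ => Real.log A + Real.log (v / (1 - v)) := by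
  fun_prop

instance (A : ℝ) : IsProbabilityMeasure (logi A) := by
  have : IsProbabilityMeasure (volume.restrict (Ioo (0 : ℝ) 1)) := ⟨by simp⟩
  exact Measure.isProbabilityMeasure_map (measurable_logi A).aemeasurable

lemma logi_tail {A : ℝ} (hA : 0 < A) (t : ℝ) :
    (logi A).real (Ioi t) = A / (Real.exp t + A) := by
  have he := Real.exp_pos t
  have : (fun v => Real.log A + Real.log (v / (1 - v))) ⁻¹' Ioi t ∩ Ioo 0 1 =
      Ioo (Real.exp t / (Real.exp t + A)) 1 := by
    ext v
    have key : 0 < v → v < 1 → (t < Real.log A + Real.log (v / (1 - v)) ↔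
        Real.exp t / (Real.exp t + A) < v) := by
      intro h0 h1
      have h2 : 0 < 1 - v := by linarith
      rw [← Real.log_mul hA.ne' (by positivity), Real.lt_log_iff_exp_lt (by positivity),
        ← mul_div_assoc, lt_div_iff₀ h2, div_lt_iff₀ (by positivity)]
      constructor <;> intro h <;> linarith
    constructor
    · rintro ⟨h, h0, h1⟩
      exact ⟨(key h0 h1).1 h, h1⟩
    · rintro ⟨h, h1⟩
      have h0 : 0 < v := lt_trans (by positivity) h
      exact ⟨(key h0 h1).2 h, h0, h1⟩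
  rw [logi, Measure.real, Measure.map_apply (measurable_logi A) measurableSet_Ioi,
    Measure.restrict_apply (measurable_logi A measurableSet_Ioi), this, Real.volume_Ioo,
    ENNReal.toReal_ofReal]
  · field_simp
    ring
  · rw [sub_nonneg, div_le_one (by positivity)]
    linarith

/-- the character `t ↦ exp (i w t)` -/
noncomputable def chr (w : ℝ) : ℝ →ᵇ ℂ :=
  BoundedContinuousFunction.ofNormedAddCommGroup (fun t => Complex.exp ((w * t : ℝ) * Complex.I))
    (by fun_prop) 1 fun t => (Complex.norm_exp_ofReal_mul_I _).le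

lemma chr_apply (w t : ℝ) : chr w t = Complex.exp ((w * t : ℝ) * Complex.I) := rfl

lemma chr_add (w s t : ℝ) : chr w (s + t) = chr w s * chr w t := by
  simp only [chr_apply, ← Complex.exp_add]
  congr 1
  push_cast
  ring

/-- Fourier transform of the logistic law -/
noncomputable def Bt (w : ℝ) : ℂ := Complex.betaIntegral (1 + w * Complex.I) (1 - w * Complex.I)

lemma Bt_ne (w : ℝ) : Bt w ≠ 0 := by
  intro h
  have := Complex.Gamma_mul_Gamma_eq_betaIntegral (s := 1 + w * Complex.I)
    (t := 1 - w * Complex.I) (by simp) (by simp)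
  rw [← Bt, h, mul_zero] at this
  exact mul_ne_zero (Complex.Gamma_ne_zero_of_re_pos (by simp))
    (Complex.Gamma_ne_zero_of_re_pos (by simp)) this

lemma logi_chr (A w : ℝ) : ∫ t, chr w t ∂(logi A) = chr w (Real.log A) * Bt w := by
  rw [logi, integral_map (measurable_logi A).aemeasurable (chr w).continuous.aestronglyMeasurable]
  simp only [chr_add]
  rw [integral_const_mul, Bt, Complex.betaIntegral, intervalIntegral.integral_of_le zero_le_one,
    integral_Ioc_eq_integral_Ioo]
  congr 1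
  refine setIntegral_congr_fun measurableSet_Ioo fun v hv => ?_
  have h1 : 0 < 1 - v := by linarith [hv.2]
  have e : (1 - (v : ℂ)) = ((1 - v : ℝ) : ℂ) := by push_cast; ring
  rw [e, Complex.cpow_def_of_ne_zero (by exact_mod_cast hv.1.ne'),
    Complex.cpow_def_of_ne_zero (by exact_mod_cast h1.ne'), ← Complex.ofReal_log hv.1.le,
    ← Complex.ofReal_log h1.le, chr_apply, Real.log_div hv.1.ne' h1.ne', ← Complex.exp_add]
  congr 1
  push_cast
  ring

lemma coeff_zero {m : ℕ} (a : Fin m → ℂ) {u : ℝ} (hu : 0 < u)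
    (h : ∀ r ∈ Ioc 1 (Real.exp (2 * u)), ∃ A ∈ Ioo 1 r,
      ∑ j, a j * chr (Real.pi * j / u) (Real.log A) = 0) : a = 0 := by
  let R : Set ℝ := {A | A ∈ Ioo 1 (Real.exp (2 * u)) ∧
    ∑ j, a j * chr (Real.pi * j / u) (Real.log A) = 0}
  have hR : R.Infinite := by
    intro hfin
    obtain ⟨A, hA, h1⟩ := h _ ⟨Real.one_lt_exp_iff.2 (by positivity), le_rfl⟩
    obtain ⟨A₀, hA₀, hmin⟩ := Set.exists_min_image R id hfin ⟨A, hA, h1⟩
    obtain ⟨A', hA', h2⟩ := h A₀ ⟨hA₀.1.1, hA₀.1.2.le⟩
    exact not_lt.2 (hmin A' ⟨⟨hA'.1, hA'.2.trans hA₀.1.2⟩, h2⟩) hA'.2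
  let ζ : ℝ → ℂ := fun A => chr (Real.pi / u) (Real.log A)
  have hζ : InjOn ζ R := by
    intro A hA B hB hAB
    obtain ⟨n, hn⟩ := Complex.exp_eq_exp_iff_exists_int.1 hAB
    have h1 : Real.pi / u * Real.log A = Real.pi / u * Real.log B + n * (2 * Real.pi) := by
      have := congrArg Complex.im hn
      simpa using this
    have h2 : Real.log A = Real.log B + n * (2 * u) := by
      field_simp at h1
      linarith
    have b : ∀ C ∈ R, 0 < Real.log C ∧ Real.log C < 2 * u := fun C hC =>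
      ⟨Real.log_pos hC.1.1, (Real.log_lt_iff_lt_exp (by linarith [hC.1.1])).2 hC.1.2⟩
    have h3 : (n : ℝ) < 1 := by nlinarith [b A hA, b B hB]
    have h4 : (-1 : ℝ) < n := by nlinarith [b A hA, b B hB]
    have h5 : n = 0 := by
      have : n < 1 := by exact_mod_cast h3
      have : -1 < n := by exact_mod_cast h4
      omega
    rw [h5] at h2
    exact Real.log_injOn_pos (show 0 < A by linarith [hA.1.1]) (show 0 < B by linarith [hB.1.1])
      (by simpa using h2)
  let Q : Polynomial ℂ := ∑ j : Fin m, Polynomial.C (a j) * Polynomial.X ^ (j : ℕ)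
  have hQ : Q = 0 := by
    apply Polynomial.eq_zero_of_infinite_isRoot
    refine (hR.image hζ).mono ?_
    rintro _ ⟨A, hA, rfl⟩
    simp only [Q, mem_ofPred_eq, Polynomial.IsRoot.def, Polynomial.eval_finsetSum,
      Polynomial.eval_mul, Polynomial.eval_C, Polynomial.eval_pow, Polynomial.eval_X]
    rw [← hA.2]
    refine Finset.sum_congr rfl fun j _ => ?_
    simp only [ζ, chr_apply, ← Complex.exp_nat_mul]
    congr 2
    push_cast
    ring
  funext j
  have := congrArg (Polynomial.coeff · j) hQ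
  simpa [Q, Polynomial.coeff_C_mul_X_pow, Fin.val_inj] using this

end Pool.Agent.P.MP_90a4ef_pr
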