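import Pool.Agent.P.MP_90a4ef_pr.Geom2
import Pool.Agent.P.MP_90a4ef_pr.Weak
import Pool.Agent.P.MP_90a4ef_pr.Dim

/-! The hitting measure is uniformly far from uniform on small intervals. -/

open MeasureTheory Set Filter Topology UpperHalfPlane
open scoped ENNReal NNReal MatrixGroups

set_option linter.unusedSectionVars false

namespace Pool.Agent.P.MP_90a4ef_pr

variable {S : Type} [Fintype S] [MeasurableSpace S] [DiscreteMeasurableSpace S]
  (q : Measure S) [IsProbabilityMeasure q] (σ : S → G) (o : ℍ)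

/-- multiplicative Fourier coefficient of the hitting measure on the positive half line -/
noncomputable def Phi (x : G) (w : ℝ) : ℂ := ∫ y in Ioi 0, chr w (Real.log y) ∂(mm q σ o x)

lemma measurable_chr_log (w : ℝ) : Measurable fun y => chr w (Real.log y) :=
  (chr w).continuous.measurable.comp Real.measurable_log

lemma norm_chr (w t : ℝ) : ‖chr w t‖ = 1 := Complex.norm_exp_ofReal_mul_I _

lemma mm_dg (v : ℝ) (z : G) :
    mm q σ o (dg v * z) = (mm q σ o z).map fun y => Real.exp (2 * v) * y := by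
  ext B hB
  have hm : Measurable fun y : ℝ => Real.exp (2 * v) * y := by fun_prop
  have e : mob (dg v) '' ((fun y => Real.exp (2 * v) * y) ⁻¹' B) = B := by
    have : mob (dg v) = fun y => Real.exp (2 * v) * y := funext (mob_dg v)
    rw [this]
    exact image_preimage_eq _ (mul_left_surjective₀ (Real.exp_pos _).ne')
  rw [Measure.map_apply hm hB, ← mm_mul q σ o (dg v) z (fun y _ => by simp) (hm hB) (by rwa [e]), e]

lemma Phi_dg {u : ℝ} (hu : 0 < u) (n : ℤ) (j : ℕ) (z : G) :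
    Phi q σ o (dg (n * u) * z) (Real.pi * j / u) = Phi q σ o z (Real.pi * j / u) := by
  have he := Real.exp_pos (2 * (n * u))
  unfold Phi
  rw [mm_dg, setIntegral_map measurableSet_Ioi (measurable_chr_log _).aestronglyMeasurable
    (by fun_prop)]
  have : (fun y => Real.exp (2 * (n * u)) * y) ⁻¹' Ioi 0 = Ioi 0 := by
    ext y
    simp [he]
  rw [this]
  refine setIntegral_congr_fun measurableSet_Ioi fun y hy => ?_
  rw [Real.log_mul he.ne' (ne_of_gt hy), Real.log_exp, chr_add, chr_apply]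
  have : ((Real.pi * j / u * (2 * (n * u)) : ℝ) : ℂ) * Complex.I =
      ((j * n : ℤ) : ℂ) * (2 * Real.pi * Complex.I) := by
    have : Real.pi * j / u * (2 * (n * u)) = j * n * (2 * Real.pi) := by field_simp
    rw [this]
    push_cast
    ring
  rw [this, Complex.exp_int_mul_two_pi_mul_I, one_mul]

theorem annihilator {Γ : Subgroup G} (h : Lat Γ) {u : ℝ} (hu : 0 < u) (hD : dg u ∈ Γ)
    (hσ : ∀ s, σ s ∈ Γ) : ∃ (m : ℕ) (c : Fin m → ℂ), c ≠ 0 ∧ ∀ x ∈ Γ, (x • o).re ≤ 0 →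
      ∑ j, c j * Phi q σ o x (Real.pi * j / u) = 0 := by
  classical
  obtain ⟨T, hT⟩ := h.barrier_finite hu hD o σ
  let M : Matrix T (Fin (T.card + 1)) ℂ := fun t j => Phi q σ o t (Real.pi * j / u)
  obtain ⟨c, hc, hc0⟩ := (Submodule.ne_bot_iff _).1
    (LinearMap.ker_ne_bot_of_finrank_lt (f := M.mulVecLin) (by simp))
  refine ⟨_, c, hc0, fun x hx hl => ?_⟩
  let f : ℝ → ℂ := fun y => ∑ j, c j * chr (Real.pi * j / u) (Real.log y)
  have hf : ∀ z, ∫ y in Ioi 0, f y ∂(mm q σ o z) = ∑ j, c j * Phi q σ o z (Real.pi * j / u) := by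
    intro z
    rw [integral_finsetSum]
    · simp only [integral_const_mul, Phi]
    · exact fun j _ => (Integrable.of_bound (measurable_chr_log _).aestronglyMeasurable 1
        (Eventually.of_forall fun y => (norm_chr _ _).le)).const_mul _
  rw [← hf]
  refine barrier q σ o Γ hσ f (Finset.measurable_sum _ fun j _ =>
    (measurable_chr_log _).const_mul _) (∑ j, ‖c j‖) (fun y => ?_) ?_ x hx hl
  · refine (norm_sum_le _ _).trans (le_of_eq ?_)
    simp [norm_chr]
  · intro z hz h1 h2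
    obtain ⟨n, hn⟩ := hT z hz h1 h2
    have := congrFun (LinearMap.mem_ker.1 hc) ⟨_, hn⟩
    rw [hf]
    change ∑ j : Fin (T.card + 1), Phi q σ o (dg (n * u) * z) (Real.pi * (j : ℕ) / u) * c j = 0
      at this
    simpa only [Phi_dg q σ o hu, mul_comm (c _)] using this

lemma mob_Ioi (κ : G) (h : 0 < κ 1 0 * κ 1 1) {p : ℝ} (hp : 0 ≤ p) :
    mob κ '' Ioi p = Ioo (mob κ p) (κ 0 0 / κ 1 0) := by
  have hd := det_eq κ
  have hc : κ 1 0 ≠ 0 := left_ne_zero_of_mul h.ne'
  have hc2 : 0 < κ 1 0 ^ 2 := by positivity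
  have pos : ∀ y, 0 ≤ y → 0 < κ 1 0 * (κ 1 0 * y + κ 1 1) := fun y hy => by nlinarith
  have form : ∀ y, 0 ≤ y → mob κ y = κ 0 0 / κ 1 0 - (κ 1 0 * (κ 1 0 * y + κ 1 1))⁻¹ := by
    intro y hy
    have := right_ne_zero_of_mul (pos y hy).ne'
    rw [mob, div_eq_iff this, sub_mul, mul_inv, mul_assoc, inv_mul_cancel₀ this]
    field_simp
    linear_combination -hd
  ext v
  constructor
  · rintro ⟨y, hy, rfl⟩
    have hy0 : 0 ≤ y := hp.trans (le_of_lt hy)
    rw [form y hy0, form p hp]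
    refine ⟨sub_lt_sub_left (inv_strictAnti₀ (pos p hp) ?_) _, sub_lt_self _ (inv_pos.2 (pos y hy0))⟩
    have : p < y := hy
    nlinarith
  · rintro ⟨h1, h2⟩
    rw [form p hp] at h1
    have h3 : 0 < κ 0 0 / κ 1 0 - v := by linarith
    have h4 : κ 1 0 * (κ 1 0 * p + κ 1 1) < (κ 0 0 / κ 1 0 - v)⁻¹ :=
      lt_inv_of_lt_inv₀ h3 (by linarith)
    have h5 : p < ((κ 0 0 / κ 1 0 - v)⁻¹ - κ 1 0 * κ 1 1) / κ 1 0 ^ 2 := by
      rw [lt_div_iff₀ hc2]
      linarith
    refine ⟨_, h5, ?_⟩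
    rw [form _ (hp.trans h5.le)]
    have : κ 1 0 * (κ 1 0 * (((κ 0 0 / κ 1 0 - v)⁻¹ - κ 1 0 * κ 1 1) / κ 1 0 ^ 2) + κ 1 1) =
        (κ 0 0 / κ 1 0 - v)⁻¹ := by
      field_simp
      ring
    rw [this, inv_inv]
    ring

/-- the rescaled measures `m n` converge to Lebesgue measure on intervals -/
def Flat (m : ℕ → Measure ℝ) (c : ℕ → ℝ) : Prop :=
  ∀ (a b : ℕ → ℝ) (a₀ b₀ : ℝ), a₀ < b₀ → Tendsto a atTop (𝓝 a₀) → Tendsto b atTop (𝓝 b₀) →
    Tendsto (fun n => c n * (m n).real (Ioo (a n) (b n))) atTop (𝓝 (b₀ - a₀))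

lemma tendsto_entry {κ : ℕ → G} {k : G} (h : Tendsto κ atTop (𝓝 k)) (i j : Fin 2) :
    Tendsto (fun n => κ n i j) atTop (𝓝 (k i j)) :=
  (show Continuous fun g : G => g i j by fun_prop).continuousAt.tendsto.comp h

lemma left_eventually {κ y : ℕ → G} {k : G} (h : Tendsto κ atTop (𝓝 k)) (hk : 0 < k 1 0 * k 1 1)
    (him : Tendsto (fun n => ((κ n * y n) • o).im) atTop atTop) :
    ∀ᶠ n in atTop, (y n • o).re ≤ 0 := by
  have hc : k 1 0 ≠ 0 := left_ne_zero_of_mul hk.ne'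
  let w : ℕ → ℍ := fun n => (κ n * y n) • o
  have hw : Tendsto (fun n => ((w n : ℂ))⁻¹) atTop (𝓝 0) := by
    apply tendsto_inv₀_cobounded.comp
    rw [← tendsto_norm_atTop_iff_cobounded]
    refine tendsto_atTop_mono (fun n => ?_) him
    exact (le_abs_self _).trans (Complex.abs_im_le_norm (w n : ℂ))
  have e : ∀ i j, Tendsto (fun n => (κ n i j : ℂ)) atTop (𝓝 (k i j)) := fun i j =>
    (Complex.continuous_ofReal.tendsto _).comp (tendsto_entry h i j)
  have h1 := ((e 1 1).sub ((e 0 1).mul hw)).div (((e 0 0).mul hw).sub (e 1 0))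
    (by simpa using hc)
  have h2 : ∀ n, ((y n • o : ℍ) : ℂ) = ((κ n 1 1 : ℂ) - κ n 0 1 * (w n : ℂ)⁻¹) /
      (κ n 0 0 * (w n : ℂ)⁻¹ - κ n 1 0) := by
    intro n
    have : y n • o = (κ n)⁻¹ • w n := by simp [w, mul_smul]
    have h0 := (w n).ne_zero
    rw [this, coe_act, inv00, inv01, inv10, inv11, ← mul_div_mul_right _ _ (inv_ne_zero h0)]
    push_cast
    congr 1 <;> field_simp <;> ring
  have h3 : Tendsto (fun n => (y n • o).re) atTop (𝓝 (-(k 1 1 / k 1 0))) := by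
    have := (Complex.continuous_re.tendsto _).comp h1
    convert this using 2 with n
    · rw [← coe_re, h2]
      rfl
    · simp only [mul_zero, sub_zero, zero_sub, div_neg, Complex.neg_re]
      rw [← Complex.ofReal_div, Complex.ofReal_re]
  have h4 : 0 < k 1 1 / k 1 0 := by
    have : k 1 1 / k 1 0 = k 1 0 * k 1 1 / k 1 0 ^ 2 := by field_simp
    rw [this]
    positivity
  exact (h3.eventually (gt_mem_nhds (by linarith))).mono fun n hn => le_of_lt hn

lemma tangent {κ y : ℕ → G} {k : G} (h : Tendsto κ atTop (𝓝 k)) (hk : 0 < k 1 0 * k 1 1)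
    {c : ℕ → ℝ} (hF : Flat (fun n => mm q σ o (κ n * y n)) c) (w : ℝ) :
    Tendsto (fun n => (c n : ℂ) * Phi q σ o (y n) w) atTop
      (𝓝 (((k 1 0 * k 1 1)⁻¹ : ℝ) * (chr w (Real.log (k 1 1 / k 1 0)) * Bt w))) := by
  have hc : k 1 0 ≠ 0 := left_ne_zero_of_mul hk.ne'
  have hd : k 1 1 ≠ 0 := right_ne_zero_of_mul hk.ne'
  have hA : 0 < k 1 1 / k 1 0 := by
    have : k 1 1 / k 1 0 = k 1 0 * k 1 1 / k 1 0 ^ 2 := by field_simp
    rw [this]
    positivity
  have e := tendsto_entry h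
  have hpos : ∀ᶠ n in atTop, 0 < κ n 1 0 * κ n 1 1 :=
    ((e 1 0).mul (e 1 1)).eventually (lt_mem_nhds hk)
  have tail : ∀ p, 0 ≤ p → Tendsto (fun n => c n * (mm q σ o (y n)).real (Ioi p)) atTop
      (𝓝 (k 1 0 * (k 1 0 * p + k 1 1))⁻¹) := by
    intro p hp
    have pos : 0 < k 1 0 * (k 1 0 * p + k 1 1) := by nlinarith [mul_nonneg (sq_nonneg (k 1 0)) hp]
    have h0 := right_ne_zero_of_mul pos.ne'
    have form : k 0 0 / k 1 0 - mob k p = (k 1 0 * (k 1 0 * p + k 1 1))⁻¹ := by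
      rw [mob, sub_eq_iff_eq_add', ← sub_eq_iff_eq_add, eq_div_iff h0, sub_mul, mul_inv, mul_assoc,
        inv_mul_cancel₀ h0]
      field_simp
      linear_combination det_eq k
    have := hF (fun n => mob (κ n) p) (fun n => κ n 0 0 / κ n 1 0) (mob k p) (k 0 0 / k 1 0)
      (by have := inv_pos.2 pos; linarith)
      ((((e 0 0).mul_const p).add (e 0 1)).div (((e 1 0).mul_const p).add (e 1 1)) h0)
      ((e 0 0).div (e 1 0) hc)
    rw [form] at this
    refine this.congr' ?_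
    filter_upwards [hpos] with n hn
    rw [← mob_Ioi _ hn hp, Measure.real, mm_mul q σ o _ _ _ measurableSet_Ioi
      (by rw [mob_Ioi _ hn hp]; exact measurableSet_Ioo)]
    · rfl
    · intro v hv
      have : 0 ≤ v := hp.trans (le_of_lt hv)
      exact right_ne_zero_of_mul (a := κ n 1 0)
        (ne_of_gt (by nlinarith [mul_nonneg (sq_nonneg (κ n 1 0)) this]))
  have := weak_of_tail (fun n => ((mm q σ o (y n)).restrict (Ioi 0)).map Real.log) c
    (logi (k 1 1 / k 1 0)) _ (inv_pos.2 hk) (by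
      have := tail 0 le_rfl
      rw [mul_zero, zero_add] at this
      convert this using 3 with n
      rw [map_measureReal_apply Real.measurable_log MeasurableSet.univ, preimage_univ,
        measureReal_restrict_apply_univ]) (by
      intro t
      have := tail (Real.exp t) (Real.exp_pos t).le
      convert this using 2 with n
      · rw [map_measureReal_apply Real.measurable_log measurableSet_Ioi,
          measureReal_restrict_apply (Real.measurable_log measurableSet_Ioi)]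
        congr 2
        ext v
        constructor
        · exact fun hv => (Real.lt_log_iff_exp_lt hv.2).1 hv.1
        · intro hv
          have h0 : 0 < v := (Real.exp_pos t).trans hv
          exact ⟨(Real.lt_log_iff_exp_lt h0).2 hv, h0⟩
      · rw [logi_tail hA]
        have h1 : Real.exp t + k 1 1 / k 1 0 = (k 1 0 * Real.exp t + k 1 1) / k 1 0 := by
          field_simp
        have h2 : k 1 0 * Real.exp t + k 1 1 ≠ 0 := by
          intro h2
          have := add_pos (Real.exp_pos t) hA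
          rw [h1, h2] at this
          simp at this
        rw [h1]
        field_simp) (chr w)
  rw [logi_chr] at this
  convert this using 3 with n
  rw [integral_map Real.measurable_log.aemeasurable (chr w).continuous.aestronglyMeasurable]
  rfl

/-- affine maps -/
noncomputable def aff (a b : ℝ) (ha : 0 < a) : G :=
  ⟨!![√a, b / √a; 0, (√a)⁻¹], by simp [(Real.sqrt_pos.2 ha).ne']⟩

lemma mob_aff (a b : ℝ) (ha : 0 < a) (y : ℝ) : mob (aff a b ha) y = a * y + b := by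
  have := (Real.sqrt_pos.2 ha).ne'
  change (√a * y + b / √a) / (0 * y + (√a)⁻¹) = _
  field_simp
  rw [Real.sq_sqrt ha.le]
  ring

lemma im_aff (a b : ℝ) (ha : 0 < a) (z : ℍ) : ((aff a b ha)⁻¹ • z).im = a⁻¹ * z.im := by
  have h0 : (√a : ℂ) ≠ 0 := by exact_mod_cast (Real.sqrt_pos.2 ha).ne'
  have : (((aff a b ha)⁻¹ • z : ℍ) : ℂ) = (a⁻¹ : ℝ) * ((z : ℂ) - b) := by
    rw [coe_act, inv00, inv01, inv10, inv11]
    change (((√a)⁻¹ : ℝ) * (z : ℂ) + (-(b / √a) : ℝ)) / ((-0 : ℝ) * (z : ℂ) + (√a : ℝ)) = _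
    have h1 : (a : ℂ) = (√a : ℂ) * √a := by exact_mod_cast (Real.mul_self_sqrt ha.le).symm
    push_cast
    rw [h1, neg_zero, zero_mul, zero_add]
    field_simp
    ring
  rw [← coe_im, this, Complex.im_ofReal_mul]
  simp

lemma flat_of_bound (m : ℕ → Measure ℝ) [∀ n, IsFiniteMeasure (m n)] (c L : ℕ → ℝ)
    (hL : Tendsto L atTop atTop) (hL0 : ∀ n, 0 < L n)
    (hc : ∀ n, 0 ≤ c n) (h : ∀ (n : ℕ) (a b : ℝ), -(L n / 2) ≤ a → a ≤ b → b ≤ L n / 2 →
      |c n * (m n).real (Ico a b) - (b - a)| ≤ 2 / L n) : Flat m c := by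
  intro a b a₀ b₀ hab ha hb
  have h1 : Tendsto (fun n : ℕ => (L n)⁻¹) atTop (𝓝 0) := hL.inv_tendsto_atTop
  have h2 : Tendsto (fun n : ℕ => L n / 2) atTop atTop := hL.atTop_div_const two_pos
  have ha' := ha.add h1
  rw [add_zero] at ha'
  have l1 := (hb.sub ha).add (h1.const_mul 2)
  have l2 := (hb.sub ha).sub (h1.const_mul 3)
  rw [mul_zero, add_zero] at l1
  rw [mul_zero, sub_zero] at l2
  have ev : ∀ᶠ n : ℕ in atTop, -(L n / 2) ≤ a n ∧ a n + (L n)⁻¹ ≤ b n ∧ b n ≤ L n / 2 := by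
    filter_upwards [h2.eventually_ge_atTop (1 - a₀), h2.eventually_ge_atTop (b₀ + 1),
      ha.eventually (lt_mem_nhds (sub_one_lt a₀)), hb.eventually (gt_mem_nhds (lt_add_one b₀)),
      ha'.eventually_lt hb hab] with n k1 k2 k3 k4 k5
    exact ⟨by linarith, k5.le, by linarith⟩
  refine tendsto_of_tendsto_of_tendsto_of_le_of_le' l2 l1 ?_ ?_
  · filter_upwards [ev] with n ⟨k1, k2, k3⟩
    have hp : 0 < (L n)⁻¹ := inv_pos.2 (hL0 n)
    have := (abs_le.1 (h n _ _ (by linarith) k2 k3)).1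
    have h3 : (m n).real (Ico (a n + (L n)⁻¹) (b n)) ≤ (m n).real (Ioo (a n) (b n)) :=
      measureReal_mono fun v hv => ⟨by linarith [hv.1], hv.2⟩
    have h4 := mul_le_mul_of_nonneg_left h3 (hc n)
    have : 2 / L n = 2 * (L n)⁻¹ := by ring
    linarith
  · filter_upwards [ev] with n ⟨k1, k2, k3⟩
    have hp : 0 < (L n)⁻¹ := inv_pos.2 (hL0 n)
    have := (abs_le.1 (h n (a n) (b n) k1 (by linarith) k3)).2
    have h3 : (m n).real (Ioo (a n) (b n)) ≤ (m n).real (Ico (a n) (b n)) :=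
      measureReal_mono Ioo_subset_Ico_self
    have h4 := mul_le_mul_of_nonneg_left h3 (hc n)
    have : 2 / L n = 2 * (L n)⁻¹ := by ring
    linarith

lemma exists_flat (h : ∀ ε, 0 < ε → ¬ NonUnif (mm q σ o 1) ε) : ∃ (β : ℕ → G) (c : ℕ → ℝ),
    Tendsto (fun n => ((β n)⁻¹ • o).im) atTop atTop ∧ ∀ φ : ℕ → ℕ, Tendsto φ atTop atTop →
      Flat (fun n => mm q σ o (β (φ n))⁻¹) fun n => c (φ n) := by
  have h1 : ∀ n : ℕ, ¬ NonUnif (mm q σ o 1) (1 / ((n : ℝ) + 1) ^ 2) := fun n =>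
    h _ (by positivity)
  unfold NonUnif at h1
  push Not at h1
  choose u r hr hr1 hW hθ using h1
  have hL : ∀ n : ℕ, (0 : ℝ) < n + 1 := fun n => by positivity
  have ha : ∀ n, 0 < r n / (n + 1) := fun n => div_pos (hr n) (hL n)
  refine ⟨fun n => aff (r n / (n + 1)) (u n + r n / 2) (ha n),
    fun n => (n + 1) / (mm q σ o 1).real (Ico (u n) (u n + r n)), ?_, ?_⟩
  · simp only [im_aff]
    refine Tendsto.atTop_mul_const o.im_pos (tendsto_atTop_mono (fun n => ?_)
      (tendsto_atTop_add_const_right _ 1 tendsto_natCast_atTop_atTop))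
    rw [inv_div, le_div_iff₀ (hr n)]
    exact mul_le_of_le_one_right (hL n).le (hr1 n)
  intro φ hφ
  refine flat_of_bound _ _ (fun n => (φ n : ℝ) + 1)
    ((tendsto_atTop_add_const_right _ 1 tendsto_natCast_atTop_atTop).comp hφ) (fun n => hL _)
    (fun n => (div_pos (hL _) (hW _)).le) fun n a b k1 k2 k3 => ?_
  generalize φ n = n at k1 k3 ⊢
  beta_reduce
  have hn := hL n
  have hrn := hr n
  obtain ⟨W, hWe⟩ : ∃ W, W = (mm q σ o 1).real (Ico (u n) (u n + r n)) := ⟨_, rfl⟩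
  have hW0 : 0 < W := hWe ▸ hW n
  have e1 : mob (aff (r n / (n + 1)) (u n + r n / 2) (ha n)) '' Ico a b =
      Ico (u n + (a / (n + 1) + 1 / 2) * r n) (u n + (b / (n + 1) + 1 / 2) * r n) := by
    rw [funext (mob_aff _ _ (ha n)), image_affine_Ico (ha n)]
    congr 1 <;> ring
  have e2 := mm_mul q σ o (aff (r n / (n + 1)) (u n + r n / 2) (ha n))
    (aff (r n / (n + 1)) (u n + r n / 2) (ha n))⁻¹ (B := Ico a b) (fun y _ => by
      change 0 * y + (√(r n / (n + 1)))⁻¹ ≠ 0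
      rw [zero_mul, zero_add]
      exact inv_ne_zero (Real.sqrt_pos.2 (ha n)).ne') measurableSet_Ico (by rw [e1]; exact measurableSet_Ico)
  rw [mul_inv_cancel, e1] at e2
  have mem : ∀ x : ℝ, -((n + 1) / 2) ≤ x → x ≤ (n + 1) / 2 → x / (n + 1) + 1 / 2 ∈ Icc (0 : ℝ) 1 := by
    intro x h1 h2
    have a1 : -(1 / 2) ≤ x / (n + 1) := by rw [le_div_iff₀ hn]; linarith
    have a2 : x / (n + 1) ≤ 1 / 2 := by rw [div_le_iff₀ hn]; linarith
    constructor <;> linarith
  have ma := mem a k1 (by linarith)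
  have mb := mem b (by linarith) k3
  have t1 := hθ n _ ma
  have t2 := hθ n _ mb
  have e3 := ico_add (mm q σ o 1) (a := u n) (b := u n + (a / (n + 1) + 1 / 2) * r n)
    (c := u n + (b / (n + 1) + 1 / 2) * r n) (le_add_of_nonneg_right (mul_nonneg ma.1 hrn.le))
    (by gcongr)
  rw [← hWe] at t1 t2 ⊢
  rw [Measure.real, ← e2, ← Measure.real]
  obtain ⟨X, hX⟩ : ∃ X, X = (mm q σ o 1).real
    (Ico (u n + (a / (n + 1) + 1 / 2) * r n) (u n + (b / (n + 1) + 1 / 2) * r n)) := ⟨_, rfl⟩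
  rw [← hX] at e3 ⊢
  have t3 : |X - (b - a) / (n + 1) * W| ≤ 2 / (n + 1) ^ 2 * W := by
    have := abs_le.1 t1
    have := abs_le.1 t2
    have e4 : 2 / ((n : ℝ) + 1) ^ 2 * W = 2 * (1 / (n + 1) ^ 2 * W) := by ring
    rw [abs_le, e4, sub_div]
    constructor <;> linarith
  have e5 : (n + 1) / W * X - (b - a) = (n + 1) / W * (X - (b - a) / (n + 1) * W) := by
    field_simp
  rw [e5, abs_mul, abs_of_pos (div_pos hn hW0)]
  refine (mul_le_mul_of_nonneg_left t3 (div_pos hn hW0).le).trans (le_of_eq ?_)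
  field_simp

theorem nonunif {Γ : Subgroup G} (h : Lat Γ) {u : ℝ} (hu : 0 < u) (hD : dg u ∈ Γ)
    (hσ : ∀ s, σ s ∈ Γ) : ∃ ε, 0 < ε ∧ NonUnif (mm q σ o 1) ε := by
  by_contra! hcon
  obtain ⟨β, c, him, hF⟩ := exists_flat q σ o hcon
  obtain ⟨m, a, ha, hann⟩ := annihilator q σ o h hu hD hσ
  obtain ⟨C, hC⟩ := h.coc
  choose γ hγ hγC using fun n => hC (β n)
  have : FirstCountableTopology (Matrix (Fin 2) (Fin 2) ℝ) :=
    inferInstanceAs (FirstCountableTopology (Fin 2 → Fin 2 → ℝ))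
  have : FirstCountableTopology G :=
    Matrix.SpecialLinearGroup.isClosedEmbedding_val.isEmbedding.firstCountableTopology
  obtain ⟨E, -, φ, hφ, hE⟩ := (isCompact_nrm C).tendsto_subseq (x := fun n => γ n * β n) hγC
  have h0 : (fun j => a j * Bt (Real.pi * j / u)) = 0 := by
    refine coeff_zero _ hu fun r hr => ?_
    obtain ⟨g, hg, h1, h2⟩ := h.dense hu.ne' hD E⁻¹ hr.1
    refine ⟨_, h2, ?_⟩
    have hk : 0 < (E⁻¹ * g) 1 0 * (E⁻¹ * g) 1 1 := by
      have : (E⁻¹ * g) 1 0 * (E⁻¹ * g) 1 1 =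
          (E⁻¹ * g) 1 0 ^ 2 * ((E⁻¹ * g) 1 1 / (E⁻¹ * g) 1 0) := by field_simp
      rw [this]
      exact mul_pos (by positivity) (by linarith [h2.1])
    have hκ : Tendsto (fun n => (γ (φ n) * β (φ n))⁻¹ * g) atTop (𝓝 (E⁻¹ * g)) :=
      hE.inv.mul_const g
    have e : ∀ n, (γ (φ n) * β (φ n))⁻¹ * g * (g⁻¹ * γ (φ n)) = (β (φ n))⁻¹ := fun n => by group
    have hl := left_eventually o (y := fun n => g⁻¹ * γ (φ n)) hκ hk (by
      simp only [e]
      exact him.comp hφ.tendsto_atTop)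
    have hF' : Flat (fun n => mm q σ o ((γ (φ n) * β (φ n))⁻¹ * g * (g⁻¹ * γ (φ n))))
        (fun n => c (φ n)) := by
      simp only [e]
      exact hF φ hφ.tendsto_atTop
    have ht := tendsto_finsetSum (Finset.univ : Finset (Fin m)) fun j _ =>
      (tangent q σ o hκ hk hF' (Real.pi * j / u)).const_mul (a j)
    have hz : (fun n => ∑ j, a j * ((c (φ n) : ℂ) * Phi q σ o (g⁻¹ * γ (φ n)) (Real.pi * j / u)))
        =ᶠ[atTop] fun _ => 0 := by
      filter_upwards [hl] with n hn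
      have := hann _ (Γ.mul_mem (Γ.inv_mem hg) (hγ _)) hn
      simp only [mul_left_comm (a _), ← Finset.mul_sum, this, mul_zero]
    have h3 := tendsto_nhds_unique (ht.congr' hz) tendsto_const_nhds
    simp only [mul_left_comm (a _), ← Finset.mul_sum] at h3
    have h4 := (mul_eq_zero.1 h3).resolve_left (by exact_mod_cast (inv_pos.2 hk).ne')
    rw [← h4]
    exact Finset.sum_congr rfl fun j _ => by ring
  apply ha
  funext j
  exact (mul_eq_zero.1 (congrFun h0 j)).resolve_right (Bt_ne _)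

end Pool.Agent.P.MP_90a4ef_pr
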