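import Pool.Agent.P.MP_90a4ef_pr.Conv
import Pool.Agent.P.MP_90a4ef_pr.Tangent

/-! The harmonic measure of a finitely supported walk on a cocompact Fuchsian group has
dimension less than one. -/

open MeasureTheory ProbabilityTheory Set Filter Topology UpperHalfPlane
open scoped ENNReal NNReal MatrixGroups

namespace Pool.Agent.P.MP_90a4ef_pr

lemma den_ne {x y : ℝ} (h : x ≠ 0 ∨ y ≠ 0) : (x : ℂ) + Complex.I * y ≠ 0 := by
  intro h1
  have h2 := congrArg Complex.re h1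
  have h3 := congrArg Complex.im h1
  simp at h2 h3
  tauto

lemma mem_circ {x y : ℝ} (h : x ≠ 0 ∨ y ≠ 0) :
    ((x : ℂ) - Complex.I * y) / (x + Complex.I * y) ∈ Metric.sphere (0 : ℂ) 1 := by
  rw [mem_sphere_zero_iff_norm, norm_div, div_eq_one_iff_eq (norm_ne_zero_iff.2 (den_ne h)),
    ← Complex.norm_conj]
  simp

lemma col_ne (k : G) (y : ℝ) : k 0 0 * y + k 0 1 ≠ 0 ∨ k 1 0 * y + k 1 1 ≠ 0 := by
  by_contra! h
  have := det_eq k
  have h1 : k 0 0 * (k 1 0 * y + k 1 1) - k 1 0 * (k 0 0 * y + k 0 1) = 1 := by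
    linear_combination this
  simp [h.1, h.2] at h1

lemma col_ne' (k : G) : k 0 0 ≠ 0 ∨ k 1 0 ≠ 0 := by
  by_contra! h
  have := det_eq k
  simp [h.1, h.2] at this

lemma cay_act (k : G) (w : ℍ) :
    (((k • w : ℍ) : ℂ) - Complex.I) / (((k • w : ℍ) : ℂ) + Complex.I) =
      (k 0 0 * (w : ℂ) + k 0 1 - Complex.I * (k 1 0 * (w : ℂ) + k 1 1)) /
        (k 0 0 * (w : ℂ) + k 0 1 + Complex.I * (k 1 0 * (w : ℂ) + k 1 1)) := by
  have h : (k 1 0 : ℂ) * (w : ℂ) + k 1 1 ≠ 0 := denom_ne_zero (k : GL (Fin 2) ℝ) w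
  rw [coe_act, ← mul_div_mul_right _ _ h, sub_mul, add_mul _ Complex.I, div_mul_cancel₀ _ h]

theorem canonical {S : Type} [Fintype S] [MeasurableSpace S] [DiscreteMeasurableSpace S]
    (q : Measure S) [IsProbabilityMeasure q] (hq : ∀ s, q {s} ≠ 0) (σ : S → G)
    (h : Lat (Subgroup.closure (range σ))) (o : ℍ) :
    ∃ ξ : (ℕ → S) → Metric.sphere (0 : ℂ) 1, Measurable ξ ∧
      (∀ᵐ ω ∂(PP q), Tendsto (fun n => (((Zs σ ω n • o : ℍ) : ℂ) - Complex.I) /
        (((Zs σ ω n • o : ℍ) : ℂ) + Complex.I)) atTop (𝓝 (ξ ω : ℂ))) ∧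
      ∃ A, MeasurableSet A ∧ PP q (ξ ⁻¹' A)ᶜ = 0 ∧ dimH A < 1 := by
  classical
  obtain ⟨γ, hγ, htr⟩ := h.exists_trace
  obtain ⟨u, hu, k, hk⟩ := diagonalize γ htr
  let σ' : S → G := fun s => k * σ s * k⁻¹
  have hcl : Subgroup.closure (range σ') =
      (Subgroup.closure (range σ)).map (MulAut.conj k).toMonoidHom := by
    rw [MonoidHom.map_closure, ← range_comp]
    rfl
  have h' : Lat (Subgroup.closure (range σ')) := hcl ▸ h.conj k
  have hD : dg u ∈ Subgroup.closure (range σ') := hcl ▸ ⟨γ, hγ, hk⟩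
  have hZ : ∀ ω n, Zs σ' ω n = k * Zs σ ω n * k⁻¹ := by
    intro ω n
    induction n with
    | zero => simp [Zs]
    | succ n ih => simp only [Zs, ih, σ']; group
  have hpt : ∀ ω n, Zs σ ω n • o = k⁻¹ • ((1 * Zs σ' ω n) • k • o) := by
    intro ω n
    simp [hZ, mul_smul]
  obtain ⟨ε, hε, hN⟩ := nonunif q σ' (k • o) h' hu hD fun s => Subgroup.subset_closure ⟨s, rfl⟩
  obtain ⟨A₀, hA₀, hA₁, hA₂⟩ := dim_lt_one _ hε hN
  let ψ : ℝ → ℂ := fun y =>
    (((k⁻¹ 0 0 * y + k⁻¹ 0 1 : ℝ) : ℂ) - Complex.I * (k⁻¹ 1 0 * y + k⁻¹ 1 1 : ℝ)) /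
      ((k⁻¹ 0 0 * y + k⁻¹ 0 1 : ℝ) + Complex.I * (k⁻¹ 1 0 * y + k⁻¹ 1 1 : ℝ))
  have hψ : ContDiff ℝ 1 ψ := by
    have c : ∀ a b : ℝ, ContDiff ℝ 1 fun y : ℝ => ((a * y + b : ℝ) : ℂ) := fun a b =>
      Complex.ofRealCLM.contDiff.comp ((contDiff_const.mul contDiff_id).add contDiff_const)
    simp only [ψ, div_eq_mul_inv]
    exact ((c _ _).sub (contDiff_const.mul (c _ _))).mul
      (((c _ _).add (contDiff_const.mul (c _ _))).inv fun y => den_ne (col_ne _ y))
  let p : Metric.sphere (0 : ℂ) 1 := ⟨_, mem_circ (col_ne' k⁻¹)⟩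
  let ξ : (ℕ → S) → Metric.sphere (0 : ℂ) 1 := fun ω =>
    if ω ∈ Ev σ' (k • o) 1 univ then ⟨ψ (lim σ' (k • o) 1 ω), mem_circ (col_ne _ _)⟩ else p
  refine ⟨ξ, Measurable.ite (measurableSet_Ev _ _ _ MeasurableSet.univ)
    (hψ.continuous.measurable.comp (measurable_lim _ _ _)).subtype_mk measurable_const, ?_, ?_⟩
  · filter_upwards [ae_conv q hq σ' h' hu hD (k • o)] with ω hω
    simp only [hpt, cay_act]
    by_cases hE : ω ∈ Ev σ' (k • o) 1 univ
    · simp only [ξ, if_pos hE]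
      obtain ⟨y, -, hy⟩ := hE
      rw [lim_eq _ _ hy]
      have h0 := den_ne (col_ne k⁻¹ y)
      simp only [ψ]
      push_cast at h0 ⊢
      exact (((hy.const_mul _).add_const _).sub (((hy.const_mul _).add_const _).const_mul _)).div
        (((hy.const_mul _).add_const _).add (((hy.const_mul _).add_const _).const_mul _)) h0
    · simp only [ξ, if_neg hE]
      have hv := hω.resolve_left hE
      have h0 := den_ne (col_ne' k⁻¹)
      have t1 := ((tendsto_const_nhds (x := (k⁻¹ 0 0 : ℂ) - Complex.I * k⁻¹ 1 0)).add (hv.const_mul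
        ((k⁻¹ 0 1 : ℂ) - Complex.I * k⁻¹ 1 1 -
          Complex.I * ((k⁻¹ 0 0 : ℂ) - Complex.I * k⁻¹ 1 0)))).div
        ((tendsto_const_nhds (x := (k⁻¹ 0 0 : ℂ) + Complex.I * k⁻¹ 1 0)).add (hv.const_mul
        ((k⁻¹ 0 1 : ℂ) + Complex.I * k⁻¹ 1 1 -
          Complex.I * ((k⁻¹ 0 0 : ℂ) + Complex.I * k⁻¹ 1 0)))) (by simpa using h0)
      simp only [mul_zero, add_zero] at t1
      refine t1.congr fun n => ?_
      have h1 : pt σ' (k • o) 1 ω n + Complex.I ≠ 0 := norm_pos_iff.1 (norm_add_I_pos _)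
      rw [Pi.div_apply, ← mul_div_mul_right _ _ h1]
      change _ = (k⁻¹ 0 0 * pt σ' (k • o) 1 ω n + k⁻¹ 0 1 -
        Complex.I * (k⁻¹ 1 0 * pt σ' (k • o) 1 ω n + k⁻¹ 1 1)) /
        (k⁻¹ 0 0 * pt σ' (k • o) 1 ω n + k⁻¹ 0 1 +
          Complex.I * (k⁻¹ 1 0 * pt σ' (k • o) 1 ω n + k⁻¹ 1 1))
      congr 1 <;> field_simp <;> ring
  · let B : Set (Metric.sphere (0 : ℂ) 1) := Subtype.val ⁻¹' (ψ '' A₀ ∪ {(p : ℂ)})
    have hB : dimH B < 1 := by
      refine (isometry_subtype_coe.antilipschitz.dimH_preimage_le _).trans_lt ?_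
      rw [dimH_union, dimH_singleton, max_eq_left zero_le]
      exact (hψ.contDiffOn.dimH_image_le convex_univ (subset_univ _)).trans_lt hA₂
    obtain ⟨d, hd1, hd2⟩ := ENNReal.lt_iff_exists_nnreal_btwn.1 hB
    refine ⟨toMeasurable μH[d] B, measurableSet_toMeasurable _ _, ?_, ?_⟩
    · rw [mm_apply q σ' _ 1 hA₀.compl] at hA₁
      refine measure_mono_null (fun ω hω => ?_) hA₁
      have h1 : ξ ω ∉ B := fun h1 => hω (subset_toMeasurable _ _ h1)
      by_cases hE : ω ∈ Ev σ' (k • o) 1 univ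
      · rw [Ev_eq]
        refine ⟨fun h2 => h1 (Or.inl ⟨_, h2, ?_⟩), hE⟩
        simp only [ξ, if_pos hE]
      · exact absurd (Or.inr (by simp only [ξ, if_neg hE]; rfl)) h1
    · refine (dimH_le_of_hausdorffMeasure_ne_top ?_).trans_lt hd2
      rw [measure_toMeasurable, hausdorffMeasure_of_dimH_lt hd1]
      exact ENNReal.zero_ne_top

theorem main (Γ : Type) [Group Γ] [MeasurableSpace Γ] [DiscreteMeasurableSpace Γ]
    (μ : PMF Γ) (hfin : μ.support.Finite) (hgen : Subgroup.closure μ.support = ⊤)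
    (ρ : Γ →* SL(2, ℝ)) (hdisc : DiscreteTopology ρ.range)
    (hcpt : CompactSpace (MulAction.orbitRel.Quotient ρ.range ℍ)) (o : ℍ)
    (Ω : Type) [MeasurableSpace Ω] (P : Measure Ω) [IsProbabilityMeasure P] (g : ℕ → Ω → Γ)
    (hg : ∀ n, Measurable (g n)) (hind : iIndepFun g P) (hlaw : ∀ n, P.map (g n) = μ.toMeasure) :
    ∃ ξ : Ω → Metric.sphere (0 : ℂ) 1, Measurable ξ ∧
      (∀ᵐ ω ∂P, Tendsto (fun n : ℕ =>
        (((ρ ((List.range n).map fun i => g i ω).prod • o : ℍ) : ℂ) - Complex.I) /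
          (((ρ ((List.range n).map fun i => g i ω).prod • o : ℍ) : ℂ) + Complex.I))
        atTop (𝓝 (ξ ω : ℂ))) ∧
      ⨅ (A : Set (Metric.sphere (0 : ℂ) 1)) (_ : MeasurableSet A) (_ : P.map ξ A = 1),
        dimH A < 1 := by
  classical
  have : Fintype μ.support := hfin.fintype
  obtain ⟨s₀, hs₀⟩ := μ.support_nonempty
  let r : Γ → μ.support := fun a => if h : a ∈ μ.support then ⟨a, h⟩ else ⟨s₀, hs₀⟩
  have hr : Measurable r := Measurable.of_discrete
  let q : Measure μ.support := μ.toMeasure.map r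
  have : IsProbabilityMeasure q := Measure.isProbabilityMeasure_map hr.aemeasurable
  have hq : ∀ s, q {s} ≠ 0 := by
    intro s h0
    rw [Measure.map_apply hr (measurableSet_singleton s)] at h0
    have h1 : μ.toMeasure {s.1} = 0 := measure_mono_null (by
      rintro _ rfl
      exact dif_pos s.2) h0
    rw [PMF.toMeasure_apply_singleton _ _ (measurableSet_singleton _)] at h1
    exact s.2 h1
  let σ : μ.support → G := fun s => ρ s
  have hcl : Subgroup.closure (range σ) = ρ.range := by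
    rw [MonoidHom.range_eq_map, ← hgen, MonoidHom.map_closure, image_eq_range]
  obtain ⟨ξ, hξ, hconv, A, hA, hA0, hA1⟩ := canonical q hq σ (hcl ▸ Lat.of_top ρ.range) o
  let Φ : Ω → ℕ → μ.support := fun ω n => r (g n ω)
  have hΦ : Measurable Φ := measurable_pi_iff.2 fun n => hr.comp (hg n)
  have hmap : P.map Φ = PP q := by
    have := (hind.comp (fun _ => r) fun _ => hr).map_fun_eq_infinitePi_map
      fun n => hr.comp (hg n)
    refine this.trans ?_
    unfold PP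
    congr 1
    funext n
    rw [← Measure.map_map hr (hg n), hlaw]
  have hsupp : ∀ᵐ ω ∂P, ∀ n, g n ω ∈ μ.support := by
    refine ae_all_iff.2 fun n => ae_of_ae_map (p := fun a => a ∈ μ.support) (hg n).aemeasurable ?_
    rw [hlaw, ae_iff, PMF.toMeasure_apply_eq_zero_iff _ MeasurableSet.of_discrete]
    exact disjoint_left.2 fun a h1 h2 => h2 h1
  refine ⟨ξ ∘ Φ, hξ.comp hΦ, ?_, ?_⟩
  · rw [← hmap] at hconv
    filter_upwards [ae_of_ae_map hΦ.aemeasurable hconv, hsupp] with ω h1 h2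
    have : ∀ n, ρ ((List.range n).map fun i => g i ω).prod = Zs σ (Φ ω) n := by
      intro n
      induction n with
      | zero => simp [Zs]
      | succ n ih =>
        rw [List.prod_range_succ, map_mul, ih, Zs]
        simp only [σ, Φ, r, dif_pos (h2 n)]
    simp only [this]
    exact h1
  · refine lt_of_le_of_lt (iInf_le_of_le A (iInf₂_le hA ?_)) hA1
    rw [← Measure.map_map hξ hΦ, hmap, Measure.map_apply hξ hA]
    exact (prob_compl_eq_zero_iff (hξ hA)).1 hA0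

end Pool.Agent.P.MP_90a4ef_pr
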