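import Pool.Agent.P.MP_90a4ef_pr.Main

/-! The tangent measure argument for an arbitrary equivariant family of finite measures. -/

open MeasureTheory Set Filter Topology UpperHalfPlane
open scoped ENNReal NNReal MatrixGroups

set_option linter.unusedSectionVars false

namespace Pool.Agent.P.MP_90a4ef_pr.Mk

/-- the family is equivariant on sets that avoid the pole -/
def Equi (m : G → Measure ℝ) : Prop :=
  ∀ (k x : G) {B : Set ℝ}, (∀ y ∈ B, k 1 0 * y + k 1 1 ≠ 0) → MeasurableSet B →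
    MeasurableSet (mob k '' B) → m (k * x) (mob k '' B) = m x B

/-- multiplicative Fourier coefficient on the positive half line -/
noncomputable def Phi (m : G → Measure ℝ) (x : G) (w : ℝ) : ℂ :=
  ∫ y in Ioi 0, chr w (Real.log y) ∂(m x)

variable (m : G → Measure ℝ) [∀ x, IsFiniteMeasure (m x)] (hm : Equi m) (o : ℍ)

include hm

lemma mm_dg (v : ℝ) (z : G) :
    m (dg v * z) = (m z).map fun y => Real.exp (2 * v) * y := by
  ext B hB
  have hx : Measurable fun y : ℝ => Real.exp (2 * v) * y := by fun_prop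
  have e : mob (dg v) '' ((fun y => Real.exp (2 * v) * y) ⁻¹' B) = B := by
    have : mob (dg v) = fun y => Real.exp (2 * v) * y := funext (mob_dg v)
    rw [this]
    exact image_preimage_eq _ (mul_left_surjective₀ (Real.exp_pos _).ne')
  rw [Measure.map_apply hx hB, ← hm (dg v) z (fun y _ => by simp) (hx hB) (by rwa [e]), e]

lemma Phi_dg {u : ℝ} (hu : 0 < u) (n : ℤ) (j : ℕ) (z : G) :
    Phi m (dg (n * u) * z) (Real.pi * j / u) = Phi m z (Real.pi * j / u) := by
  have he := Real.exp_pos (2 * (n * u))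
  unfold Phi
  rw [mm_dg m hm, setIntegral_map measurableSet_Ioi (measurable_chr_log _).aestronglyMeasurable
    (by fun_prop)]
  have : (fun y => Real.exp (2 * (n * u)) * y) ⁻¹' Ioi 0 = Ioi 0 := by
    ext y
    simp [he]
  rw [this]
  refine setIntegral_congr_fun measurableSet_Ioi fun y hy => ?_
  rw [Real.log_mul he.ne' (ne_of_gt hy), Real.log_exp, chr_add, chr_apply]
  have : ((Real.pi * j / u * (2 * (n * u)) : ℝ) : ℂ) * Complex.I =
      ((j * n : ℤ) : ℂ) * (2 * Real.pi * Complex.I) := by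
    have : Real.pi * j / u * (2 * (n * u)) = j * n * (2 * Real.pi) := by field_simp
    rw [this]
    push_cast
    ring
  rw [this, Complex.exp_int_mul_two_pi_mul_I, one_mul]

lemma tangent {κ y : ℕ → G} {k : G} (h : Tendsto κ atTop (𝓝 k)) (hk : 0 < k 1 0 * k 1 1)
    {c : ℕ → ℝ} (hF : Flat (fun n => m (κ n * y n)) c) (w : ℝ) :
    Tendsto (fun n => (c n : ℂ) * Phi m (y n) w) atTop
      (𝓝 (((k 1 0 * k 1 1)⁻¹ : ℝ) * (chr w (Real.log (k 1 1 / k 1 0)) * Bt w))) := by
  have hc : k 1 0 ≠ 0 := left_ne_zero_of_mul hk.ne'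
  have hd : k 1 1 ≠ 0 := right_ne_zero_of_mul hk.ne'
  have hA : 0 < k 1 1 / k 1 0 := by
    have : k 1 1 / k 1 0 = k 1 0 * k 1 1 / k 1 0 ^ 2 := by field_simp
    rw [this]
    positivity
  have e := tendsto_entry h
  have hpos : ∀ᶠ n in atTop, 0 < κ n 1 0 * κ n 1 1 :=
    ((e 1 0).mul (e 1 1)).eventually (lt_mem_nhds hk)
  have tail : ∀ p, 0 ≤ p → Tendsto (fun n => c n * (m (y n)).real (Ioi p)) atTop
      (𝓝 (k 1 0 * (k 1 0 * p + k 1 1))⁻¹) := by
    intro p hp
    have pos : 0 < k 1 0 * (k 1 0 * p + k 1 1) := by nlinarith [mul_nonneg (sq_nonneg (k 1 0)) hp]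
    have h0 := right_ne_zero_of_mul pos.ne'
    have form : k 0 0 / k 1 0 - mob k p = (k 1 0 * (k 1 0 * p + k 1 1))⁻¹ := by
      rw [mob, sub_eq_iff_eq_add', ← sub_eq_iff_eq_add, eq_div_iff h0, sub_mul, mul_inv, mul_assoc,
        inv_mul_cancel₀ h0]
      field_simp
      linear_combination det_eq k
    have := hF (fun n => mob (κ n) p) (fun n => κ n 0 0 / κ n 1 0) (mob k p) (k 0 0 / k 1 0)
      (by have := inv_pos.2 pos; linarith)
      ((((e 0 0).mul_const p).add (e 0 1)).div (((e 1 0).mul_const p).add (e 1 1)) h0)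
      ((e 0 0).div (e 1 0) hc)
    rw [form] at this
    refine this.congr' ?_
    filter_upwards [hpos] with n hn
    rw [← mob_Ioi _ hn hp, Measure.real, hm _ _ _ measurableSet_Ioi
      (by rw [mob_Ioi _ hn hp]; exact measurableSet_Ioo)]
    · rfl
    · intro v hv
      have : 0 ≤ v := hp.trans (le_of_lt hv)
      exact right_ne_zero_of_mul (a := κ n 1 0)
        (ne_of_gt (by nlinarith [mul_nonneg (sq_nonneg (κ n 1 0)) this]))
  have := weak_of_tail (fun n => ((m (y n)).restrict (Ioi 0)).map Real.log) c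
    (logi (k 1 1 / k 1 0)) _ (inv_pos.2 hk) (by
      have := tail 0 le_rfl
      rw [mul_zero, zero_add] at this
      convert this using 3 with n
      rw [map_measureReal_apply Real.measurable_log MeasurableSet.univ, preimage_univ,
        measureReal_restrict_apply_univ]) (by
      intro t
      have := tail (Real.exp t) (Real.exp_pos t).le
      convert this using 2 with n
      · rw [map_measureReal_apply Real.measurable_log measurableSet_Ioi,
          measureReal_restrict_apply (Real.measurable_log measurableSet_Ioi)]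
        congr 2
        ext v
        constructor
        · exact fun hv => (Real.lt_log_iff_exp_lt hv.2).1 hv.1
        · intro hv
          have h0 : 0 < v := (Real.exp_pos t).trans hv
          exact ⟨(Real.lt_log_iff_exp_lt h0).2 hv, h0⟩
      · rw [logi_tail hA]
        have h1 : Real.exp t + k 1 1 / k 1 0 = (k 1 0 * Real.exp t + k 1 1) / k 1 0 := by
          field_simp
        have h2 : k 1 0 * Real.exp t + k 1 1 ≠ 0 := by
          intro h2
          have := add_pos (Real.exp_pos t) hA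
          rw [h1, h2] at this
          simp at this
        rw [h1]
        field_simp) (chr w)
  rw [logi_chr] at this
  convert this using 3 with n
  rw [integral_map Real.measurable_log.aemeasurable (chr w).continuous.aestronglyMeasurable]
  rfl

lemma exists_flat (h : ∀ ε, 0 < ε → ¬ NonUnif (m 1) ε) : ∃ (β : ℕ → G) (c : ℕ → ℝ),
    Tendsto (fun n => ((β n)⁻¹ • o).im) atTop atTop ∧ ∀ φ : ℕ → ℕ, Tendsto φ atTop atTop →
      Flat (fun n => m (β (φ n))⁻¹) fun n => c (φ n) := by
  have h1 : ∀ n : ℕ, ¬ NonUnif (m 1) (1 / ((n : ℝ) + 1) ^ 2) := fun n =>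
    h _ (by positivity)
  unfold NonUnif at h1
  push Not at h1
  choose u r hr hr1 hW hθ using h1
  have hL : ∀ n : ℕ, (0 : ℝ) < n + 1 := fun n => by positivity
  have ha : ∀ n, 0 < r n / (n + 1) := fun n => div_pos (hr n) (hL n)
  refine ⟨fun n => aff (r n / (n + 1)) (u n + r n / 2) (ha n),
    fun n => (n + 1) / (m 1).real (Ico (u n) (u n + r n)), ?_, ?_⟩
  · simp only [im_aff]
    refine Tendsto.atTop_mul_const o.im_pos (tendsto_atTop_mono (fun n => ?_)
      (tendsto_atTop_add_const_right _ 1 tendsto_natCast_atTop_atTop))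
    rw [inv_div, le_div_iff₀ (hr n)]
    exact mul_le_of_le_one_right (hL n).le (hr1 n)
  intro φ hφ
  refine flat_of_bound _ _ (fun n => (φ n : ℝ) + 1)
    ((tendsto_atTop_add_const_right _ 1 tendsto_natCast_atTop_atTop).comp hφ) (fun n => hL _)
    (fun n => (div_pos (hL _) (hW _)).le) fun n a b k1 k2 k3 => ?_
  generalize φ n = n at k1 k3 ⊢
  beta_reduce
  have hn := hL n
  have hrn := hr n
  obtain ⟨W, hWe⟩ : ∃ W, W = (m 1).real (Ico (u n) (u n + r n)) := ⟨_, rfl⟩
  have hW0 : 0 < W := hWe ▸ hW n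
  have e1 : mob (aff (r n / (n + 1)) (u n + r n / 2) (ha n)) '' Ico a b =
      Ico (u n + (a / (n + 1) + 1 / 2) * r n) (u n + (b / (n + 1) + 1 / 2) * r n) := by
    rw [funext (mob_aff _ _ (ha n)), image_affine_Ico (ha n)]
    congr 1 <;> ring
  have e2 := hm (aff (r n / (n + 1)) (u n + r n / 2) (ha n))
    (aff (r n / (n + 1)) (u n + r n / 2) (ha n))⁻¹ (B := Ico a b) (fun y _ => by
      change 0 * y + (√(r n / (n + 1)))⁻¹ ≠ 0
      rw [zero_mul, zero_add]
      exact inv_ne_zero (Real.sqrt_pos.2 (ha n)).ne') measurableSet_Ico (by rw [e1]; exact measurableSet_Ico)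
  rw [mul_inv_cancel, e1] at e2
  have mem : ∀ x : ℝ, -((n + 1) / 2) ≤ x → x ≤ (n + 1) / 2 → x / (n + 1) + 1 / 2 ∈ Icc (0 : ℝ) 1 := by
    intro x h1 h2
    have a1 : -(1 / 2) ≤ x / (n + 1) := by rw [le_div_iff₀ hn]; linarith
    have a2 : x / (n + 1) ≤ 1 / 2 := by rw [div_le_iff₀ hn]; linarith
    constructor <;> linarith
  have ma := mem a k1 (by linarith)
  have mb := mem b (by linarith) k3
  have t1 := hθ n _ ma
  have t2 := hθ n _ mb
  have e3 := ico_add (m 1) (a := u n) (b := u n + (a / (n + 1) + 1 / 2) * r n)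
    (c := u n + (b / (n + 1) + 1 / 2) * r n) (le_add_of_nonneg_right (mul_nonneg ma.1 hrn.le))
    (by gcongr)
  rw [← hWe] at t1 t2 ⊢
  rw [Measure.real, ← e2, ← Measure.real]
  obtain ⟨X, hX⟩ : ∃ X, X = (m 1).real
    (Ico (u n + (a / (n + 1) + 1 / 2) * r n) (u n + (b / (n + 1) + 1 / 2) * r n)) := ⟨_, rfl⟩
  rw [← hX] at e3 ⊢
  have t3 : |X - (b - a) / (n + 1) * W| ≤ 2 / (n + 1) ^ 2 * W := by
    have := abs_le.1 t1
    have := abs_le.1 t2
    have e4 : 2 / ((n : ℝ) + 1) ^ 2 * W = 2 * (1 / (n + 1) ^ 2 * W) := by ring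
    rw [abs_le, e4, sub_div]
    constructor <;> linarith
  have e5 : (n + 1) / W * X - (b - a) = (n + 1) / W * (X - (b - a) / (n + 1) * W) := by
    field_simp
  rw [e5, abs_mul, abs_of_pos (div_pos hn hW0)]
  refine (mul_le_mul_of_nonneg_left t3 (div_pos hn hW0).le).trans (le_of_eq ?_)
  field_simp

theorem nonunif {Γ : Subgroup G} (h : Lat Γ) {u : ℝ} (hu : 0 < u) (hD : dg u ∈ Γ)
    (hA : ∃ (n : ℕ) (c : Fin n → ℂ), c ≠ 0 ∧ ∀ x ∈ Γ, (x • o).re ≤ 0 →
      ∑ j, c j * Phi m x (Real.pi * j / u) = 0) : ∃ ε, 0 < ε ∧ NonUnif (m 1) ε := by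
  by_contra! hcon
  obtain ⟨β, c, him, hF⟩ := exists_flat m hm o hcon
  obtain ⟨N, a, ha, hann⟩ := hA
  obtain ⟨C, hC⟩ := h.coc
  choose γ hγ hγC using fun n => hC (β n)
  have : FirstCountableTopology (Matrix (Fin 2) (Fin 2) ℝ) :=
    inferInstanceAs (FirstCountableTopology (Fin 2 → Fin 2 → ℝ))
  have : FirstCountableTopology G :=
    Matrix.SpecialLinearGroup.isClosedEmbedding_val.isEmbedding.firstCountableTopology
  obtain ⟨E, -, φ, hφ, hE⟩ := (isCompact_nrm C).tendsto_subseq (x := fun n => γ n * β n) hγC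
  have h0 : (fun j => a j * Bt (Real.pi * j / u)) = 0 := by
    refine coeff_zero _ hu fun r hr => ?_
    obtain ⟨g, hg, h1, h2⟩ := h.dense hu.ne' hD E⁻¹ hr.1
    refine ⟨_, h2, ?_⟩
    have hk : 0 < (E⁻¹ * g) 1 0 * (E⁻¹ * g) 1 1 := by
      have : (E⁻¹ * g) 1 0 * (E⁻¹ * g) 1 1 =
          (E⁻¹ * g) 1 0 ^ 2 * ((E⁻¹ * g) 1 1 / (E⁻¹ * g) 1 0) := by field_simp
      rw [this]
      exact mul_pos (by positivity) (by linarith [h2.1])
    have hκ : Tendsto (fun n => (γ (φ n) * β (φ n))⁻¹ * g) atTop (𝓝 (E⁻¹ * g)) :=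
      hE.inv.mul_const g
    have e : ∀ n, (γ (φ n) * β (φ n))⁻¹ * g * (g⁻¹ * γ (φ n)) = (β (φ n))⁻¹ := fun n => by group
    have hl := left_eventually o (y := fun n => g⁻¹ * γ (φ n)) hκ hk (by
      simp only [e]
      exact him.comp hφ.tendsto_atTop)
    have hF' : Flat (fun n => m ((γ (φ n) * β (φ n))⁻¹ * g * (g⁻¹ * γ (φ n))))
        (fun n => c (φ n)) := by
      simp only [e]
      exact hF φ hφ.tendsto_atTop
    have ht := tendsto_finsetSum (Finset.univ : Finset (Fin N)) fun j _ =>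
      (tangent m hm hκ hk hF' (Real.pi * j / u)).const_mul (a j)
    have hz : (fun n => ∑ j, a j * ((c (φ n) : ℂ) * Phi m (g⁻¹ * γ (φ n)) (Real.pi * j / u)))
        =ᶠ[atTop] fun _ => 0 := by
      filter_upwards [hl] with n hn
      have := hann _ (Γ.mul_mem (Γ.inv_mem hg) (hγ _)) hn
      simp only [mul_left_comm (a _), ← Finset.mul_sum, this, mul_zero]
    have h3 := tendsto_nhds_unique (ht.congr' hz) tendsto_const_nhds
    simp only [mul_left_comm (a _), ← Finset.mul_sum] at h3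
    have h4 := (mul_eq_zero.1 h3).resolve_left (by exact_mod_cast (inv_pos.2 hk).ne')
    rw [← h4]
    exact Finset.sum_congr rfl fun j _ => by ring
  apply ha
  funext j
  exact (mul_eq_zero.1 (congrFun h0 j)).resolve_right (Bt_ne _)

end Pool.Agent.P.MP_90a4ef_pr.Mk
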