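import Pool.Agent.P.MP_90a4ef_pr.Mk1

/-! Products driven by a finite Markov chain, their hitting measures, and the barrier lemma. -/

open MeasureTheory Set Filter Topology UpperHalfPlane
open scoped ENNReal NNReal MatrixGroups

set_option linter.unusedSectionVars false

namespace Pool.Agent.P.MP_90a4ef_pr.Mk

variable {S ι : Type} [Fintype S] [MeasurableSpace S] [DiscreteMeasurableSpace S] [Fintype ι]

/-- the state after `n` steps -/
def st (τ : S → ι → ι) (i : ι) (ω : ℕ → S) : ℕ → ι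
  | 0 => i
  | n + 1 => τ (ω n) (st τ i ω n)

/-- the product of the first `n` steps -/
def Zs {M : Type} [Monoid M] (τ : S → ι → ι) (σ : S → ι → M) (i : ι) (ω : ℕ → S) : ℕ → M
  | 0 => 1
  | n + 1 => Zs τ σ i ω n * σ (ω n) (st τ i ω n)

lemma st_zero (τ : S → ι → ι) (i : ι) (ω : ℕ → S) : st τ i ω 0 = i := rfl

lemma st_succ (τ : S → ι → ι) (i : ι) (ω : ℕ → S) (n : ℕ) :
    st τ i ω (n + 1) = τ (ω n) (st τ i ω n) := rfl

lemma Zs_zero {M : Type} [Monoid M] (τ : S → ι → ι) (σ : S → ι → M) (i : ι) (ω : ℕ → S) :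
    Zs τ σ i ω 0 = 1 := rfl

lemma Zs_succ {M : Type} [Monoid M] (τ : S → ι → ι) (σ : S → ι → M) (i : ι) (ω : ℕ → S) (n : ℕ) :
    Zs τ σ i ω (n + 1) = Zs τ σ i ω n * σ (ω n) (st τ i ω n) := rfl

lemma st_cons (τ : S → ι → ι) (i : ι) (s : S) (ω : ℕ → S) (n : ℕ) :
    st τ i (consSeq (s, ω)) (n + 1) = st τ (τ s i) ω n := by
  induction n with
  | zero => rfl
  | succ n ih => rw [st_succ, ih]; rfl

lemma Zs_cons {M : Type} [Monoid M] (τ : S → ι → ι) (σ : S → ι → M) (i : ι) (s : S) (ω : ℕ → S)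
    (n : ℕ) : Zs τ σ i (consSeq (s, ω)) (n + 1) = σ s i * Zs τ σ (τ s i) ω n := by
  induction n with
  | zero => rw [Zs_succ, Zs_zero, Zs_zero, one_mul, mul_one]; rfl
  | succ n ih => rw [Zs_succ, ih, st_cons, Zs_succ, mul_assoc]; rfl

lemma measurable_Zs {M β : Type} [Monoid M] [MeasurableSpace β] (τ : S → ι → ι) (σ : S → ι → M)
    (i : ι) (n : ℕ) (f : ι → M → β) : Measurable fun ω => f (st τ i ω n) (Zs τ σ i ω n) := by
  induction n generalizing f with
  | zero => exact measurable_const (a := f i 1)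
  | succ n ih =>
    have : Measurable fun p : (ℕ → S) × S =>
        f (τ p.2 (st τ i p.1 n)) (Zs τ σ i p.1 n * σ p.2 (st τ i p.1 n)) :=
      measurable_from_prod_countable_left fun s => ih fun j g => f (τ s j) (g * σ s j)
    exact this.comp (measurable_id.prodMk (measurable_pi_apply n))

variable (q : Measure S) [IsProbabilityMeasure q] (τ : S → ι → ι) (σ : S → ι → G) (o : ℍ)

/-- position of the walk started at `x` in state `i` -/
noncomputable def pt (i : ι) (x : G) (ω : ℕ → S) (n : ℕ) : ℂ := ((x * Zs τ σ i ω n) • o : ℍ)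

/-- the walk converges to a point of `B` -/
def Ev (i : ι) (x : G) (B : Set ℝ) : Set (ℕ → S) :=
  {ω | ∃ y ∈ B, Tendsto (pt τ σ o i x ω) atTop (𝓝 (y : ℂ))}

/-- the limit point -/
noncomputable def lim (i : ι) (x : G) (ω : ℕ → S) : ℝ :=
  limUnder atTop fun n => (pt τ σ o i x ω n).re

lemma measurable_pt (i : ι) (x : G) (n : ℕ) : Measurable fun ω => pt τ σ o i x ω n :=
  measurable_Zs τ σ i n fun _ g => (((x * g) • o : ℍ) : ℂ)

lemma measurable_lim (i : ι) (x : G) : Measurable (lim τ σ o i x) :=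
  (StronglyMeasurable.limUnder fun n =>
    (Complex.measurable_re.comp (measurable_pt τ σ o i x n)).stronglyMeasurable).measurable

lemma lim_eq {i : ι} {x : G} {ω : ℕ → S} {y : ℝ}
    (h : Tendsto (pt τ σ o i x ω) atTop (𝓝 (y : ℂ))) : lim τ σ o i x ω = y :=
  ((Complex.continuous_re.tendsto _).comp h).limUnder_eq

lemma Ev_eq (i : ι) (x : G) (B : Set ℝ) :
    Ev τ σ o i x B = lim τ σ o i x ⁻¹' B ∩ Ev τ σ o i x univ := by
  ext ω
  constructor
  · rintro ⟨y, hy, h⟩
    exact ⟨by rwa [mem_preimage, lim_eq τ σ o h], y, trivial, h⟩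
  · rintro ⟨h1, y, -, h⟩
    exact ⟨y, by rwa [mem_preimage, lim_eq τ σ o h] at h1, h⟩

lemma measurableSet_Ev (i : ι) (x : G) {B : Set ℝ} (hB : MeasurableSet B) :
    MeasurableSet (Ev τ σ o i x B) := by
  rw [Ev_eq]
  refine (measurable_lim τ σ o i x hB).inter ?_
  have : Ev τ σ o i x univ =
      {ω | Tendsto (fun n => pt τ σ o i x ω n) atTop (𝓝 (lim τ σ o i x ω : ℂ))} := by
    ext ω
    constructor
    · rintro ⟨y, -, h⟩
      rw [mem_ofPred_eq, lim_eq τ σ o h]
      exact h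
    · exact fun h => ⟨_, trivial, h⟩
  rw [this]
  exact measurableSet_tendsto_fun (measurable_pt τ σ o i x)
    (Complex.measurable_ofReal.comp (measurable_lim τ σ o i x))

/-- hitting measure on the real line -/
noncomputable def mm (i : ι) (x : G) : Measure ℝ :=
  ((PP q).restrict (Ev τ σ o i x univ)).map (lim τ σ o i x)

instance (i : ι) (x : G) : IsFiniteMeasure (mm q τ σ o i x) := by unfold mm; infer_instance

lemma mm_apply (i : ι) (x : G) {B : Set ℝ} (hB : MeasurableSet B) :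
    mm q τ σ o i x B = PP q (Ev τ σ o i x B) := by
  rw [mm, Measure.map_apply (measurable_lim τ σ o i x) hB,
    Measure.restrict_apply (measurable_lim τ σ o i x hB), ← Ev_eq]

lemma pt_cons (i : ι) (x : G) (s : S) (ω : ℕ → S) (n : ℕ) :
    pt τ σ o i x (consSeq (s, ω)) (n + 1) = pt τ σ o (τ s i) (x * σ s i) ω n := by
  rw [pt, Zs_cons, pt, mul_assoc]

lemma cons_mem_Ev (i : ι) (x : G) (B : Set ℝ) (s : S) (ω : ℕ → S) :
    consSeq (s, ω) ∈ Ev τ σ o i x B ↔ ω ∈ Ev τ σ o (τ s i) (x * σ s i) B := by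
  refine exists_congr fun y => and_congr_right fun _ => ?_
  rw [← tendsto_add_atTop_iff_nat 1]
  simp only [pt_cons]

lemma mm_step (i : ι) (x : G) :
    mm q τ σ o i x = ∑ s, q {s} • mm q τ σ o (τ s i) (x * σ s i) := by
  ext B hB
  rw [mm_apply q τ σ o i x hB, step q _ (measurableSet_Ev τ σ o i x hB), Measure.finsetSum_apply]
  refine Finset.sum_congr rfl fun s _ => ?_
  simp only [cons_mem_Ev, Measure.smul_apply, smul_eq_mul, mm_apply q τ σ o _ _ hB, ofPred_mem_eq]

lemma Ev_mul (i : ι) (k x : G) (B : Set ℝ) (hB : ∀ y ∈ B, k 1 0 * y + k 1 1 ≠ 0) :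
    Ev τ σ o i (k * x) (mob k '' B) = Ev τ σ o i x B := by
  ext ω
  constructor
  · rintro ⟨_, ⟨y, hy, rfl⟩, h⟩
    refine ⟨y, hy, ?_⟩
    have := tendsto_mob k⁻¹ (fun n => (k * x * Zs τ σ i ω n) • o) _
      (mob_inv_den k y (hB y hy)) h
    rw [mob_inv_mob k y (hB y hy)] at this
    simp only [← mul_smul, mul_assoc, inv_mul_cancel_left] at this
    exact this
  · rintro ⟨y, hy, h⟩
    refine ⟨_, ⟨y, hy, rfl⟩, ?_⟩
    have := tendsto_mob k (fun n => (x * Zs τ σ i ω n) • o) _ (hB y hy) h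
    simp only [← mul_smul, ← mul_assoc] at this
    exact this

lemma mm_equi (i : ι) : Equi (mm q τ σ o i) := by
  intro k x B hB h1 h2
  rw [mm_apply q τ σ o _ _ h2, mm_apply q τ σ o _ _ h1, Ev_mul τ σ o i k x B hB]

/-- the walk stays on the left up to time `n` and converges to a positive number -/
def Stay (i : ι) (x : G) (n : ℕ) : Set (ℕ → S) :=
  {ω | ∀ j ≤ n, (pt τ σ o i x ω j).re ≤ 0} ∩ Ev τ σ o i x (Ioi 0)

lemma measurableSet_Stay (i : ι) (x : G) (n : ℕ) : MeasurableSet (Stay τ σ o i x n) := by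
  refine MeasurableSet.inter ?_ (measurableSet_Ev τ σ o i x measurableSet_Ioi)
  simp only [ofPred_forall]
  exact .iInter fun j => .iInter fun _ =>
    measurableSet_le (Complex.measurable_re.comp (measurable_pt τ σ o i x j)) measurable_const

lemma stay_tendsto (i : ι) (x : G) :
    Tendsto (fun n => (PP q).real (Stay τ σ o i x n)) atTop (𝓝 0) := by
  have h1 : ⋂ n, Stay τ σ o i x n = ∅ := by
    refine eq_empty_of_forall_notMem fun ω h => ?_
    rw [mem_iInter] at h
    obtain ⟨y, hy, h2⟩ := (h 0).2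
    have h3 := (Complex.continuous_re.tendsto _).comp h2
    exact not_le.2 hy (le_of_tendsto' h3 fun n => (h n).1 n le_rfl)
  have h2 := tendsto_measure_iInter_atTop (μ := PP q) (s := Stay τ σ o i x)
    (fun n => (measurableSet_Stay τ σ o i x n).nullMeasurableSet)
    (fun a b hab ω h => ⟨fun j hj => h.1 j (hj.trans hab), h.2⟩) ⟨0, measure_ne_top _ _⟩
  rw [h1, measure_empty] at h2
  exact (ENNReal.tendsto_toReal ENNReal.zero_ne_top).comp h2

theorem barrier (Γ : Subgroup G) (hσ : ∀ s i, σ s i ∈ Γ) (f : ℝ → ℂ) (hf : Measurable f) (C : ℝ)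
    (hC : ∀ y, ‖f y‖ ≤ C)
    (h0 : ∀ j, ∀ z ∈ Γ, 0 < (z • o).re → (∃ e : S × ι, ((z * (σ e.1 e.2)⁻¹) • o).re ≤ 0) →
      ∫ y in Ioi 0, f y ∂(mm q τ σ o j z) = 0)
    (i : ι) (x : G) (hx : x ∈ Γ) (hl : (x • o).re ≤ 0) :
    ∫ y in Ioi 0, f y ∂(mm q τ σ o i x) = 0 := by
  have hC0 : 0 ≤ C := (norm_nonneg _).trans (hC 0)
  have hint : ∀ j z, Integrable f ((mm q τ σ o j z).restrict (Ioi 0)) := fun j z =>
    .of_bound hf.aestronglyMeasurable C (Eventually.of_forall hC)
  have hp0 : ∀ i x ω, (pt τ σ o i x ω 0).re = (x • o).re := fun i x ω => by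
    rw [pt, Zs_zero, mul_one, coe_re]
  have key : ∀ n i, ∀ x ∈ Γ, (x • o).re ≤ 0 →
      ‖∫ y in Ioi 0, f y ∂(mm q τ σ o i x)‖ ≤ C * (PP q).real (Stay τ σ o i x n) := by
    intro n
    induction n with
    | zero =>
      intro i x _ hl
      refine (norm_integral_le_of_norm_le_const (Eventually.of_forall hC)).trans (le_of_eq ?_)
      congr 1
      rw [measureReal_restrict_apply_univ, Measure.real, mm_apply q τ σ o i x measurableSet_Ioi]
      congr 2
      ext ω
      simp [Stay, hp0, hl]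
    | succ n ih =>
      intro i x hx hl
      rw [mm_step, step_real q _ (measurableSet_Stay τ σ o i x _), Finset.mul_sum]
      have e1 : (∑ s, q {s} • mm q τ σ o (τ s i) (x * σ s i)).restrict (Ioi 0) =
          ∑ s, q {s} • (mm q τ σ o (τ s i) (x * σ s i)).restrict (Ioi 0) := by
        ext B hB
        simp [Measure.restrict_apply hB, Measure.finsetSum_apply]
      rw [e1, integral_finsetSum_measure fun s _ => (hint _ _).smul_measure (measure_ne_top _ _)]
      refine (norm_sum_le _ _).trans (Finset.sum_le_sum fun s _ => ?_)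
      rw [integral_smul_measure, norm_smul, Real.norm_of_nonneg ENNReal.toReal_nonneg,
        mul_left_comm]
      refine mul_le_mul_of_nonneg_left ?_ ENNReal.toReal_nonneg
      rcases le_or_gt ((x * σ s i) • o).re 0 with h | h
      · refine (ih _ _ (Γ.mul_mem hx (hσ s i)) h).trans (le_of_eq ?_)
        congr 2
        ext ω
        simp only [Stay, mem_inter_iff, mem_ofPred_eq, cons_mem_Ev]
        refine and_congr_left fun _ => ⟨fun h1 j hj => ?_, fun h1 j hj => ?_⟩
        · cases j with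
          | zero => rwa [hp0]
          | succ j => rw [pt_cons]; exact h1 j (by omega)
        · rw [← pt_cons]; exact h1 _ (by omega)
      · rw [h0 _ _ (Γ.mul_mem hx (hσ s i)) h ⟨(s, i), by rwa [mul_inv_cancel_right]⟩, norm_zero]
        positivity
  have := ge_of_tendsto' ((stay_tendsto q τ σ o i x).const_mul C) fun n => key n i x hx hl
  rwa [mul_zero, norm_le_zero_iff] at this

theorem annihilator {Γ : Subgroup G} (h : Lat Γ) {u : ℝ} (hu : 0 < u) (hD : dg u ∈ Γ)
    (hσ : ∀ s i, σ s i ∈ Γ) (i : ι) : ∃ (m : ℕ) (c : Fin m → ℂ), c ≠ 0 ∧ ∀ x ∈ Γ,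
      (x • o).re ≤ 0 → ∑ j, c j * Phi (mm q τ σ o i) x (Real.pi * j / u) = 0 := by
  classical
  obtain ⟨T, hT⟩ := h.barrier_finite hu hD o fun e : S × ι => σ e.1 e.2
  let M : Matrix (T × ι) (Fin (T.card * Fintype.card ι + 1)) ℂ := fun t j =>
    Phi (mm q τ σ o t.2) t.1 (Real.pi * j / u)
  obtain ⟨c, hc, hc0⟩ := (Submodule.ne_bot_iff _).1
    (LinearMap.ker_ne_bot_of_finrank_lt (f := M.mulVecLin) (by simp))
  refine ⟨_, c, hc0, fun x hx hl => ?_⟩
  let f : ℝ → ℂ := fun y => ∑ j, c j * chr (Real.pi * j / u) (Real.log y)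
  have hf : ∀ l z, ∫ y in Ioi 0, f y ∂(mm q τ σ o l z) =
      ∑ j, c j * Phi (mm q τ σ o l) z (Real.pi * j / u) := by
    intro l z
    rw [integral_finsetSum]
    · simp only [integral_const_mul, Phi]
    · exact fun j _ => (Integrable.of_bound (measurable_chr_log _).aestronglyMeasurable 1
        (Eventually.of_forall fun y => (norm_chr _ _).le)).const_mul _
  rw [← hf]
  refine barrier q τ σ o Γ hσ f (Finset.measurable_sum _ fun j _ =>
    (measurable_chr_log _).const_mul _) (∑ j, ‖c j‖) (fun y => ?_) ?_ i x hx hl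
  · refine (norm_sum_le _ _).trans (le_of_eq ?_)
    simp [norm_chr]
  · intro l z hz h1 h2
    obtain ⟨n, hn⟩ := hT z hz h1 h2
    have := congrFun (LinearMap.mem_ker.1 hc) (⟨_, hn⟩, l)
    rw [hf]
    change ∑ j : Fin (T.card * Fintype.card ι + 1),
      Phi (mm q τ σ o l) (dg (n * u) * z) (Real.pi * (j : ℕ) / u) * c j = 0 at this
    simpa only [Phi_dg _ (mm_equi q τ σ o l) hu, mul_comm (c _)] using this

theorem dim_mm {Γ : Subgroup G} (h : Lat Γ) {u : ℝ} (hu : 0 < u) (hD : dg u ∈ Γ)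
    (hσ : ∀ s i, σ s i ∈ Γ) (i : ι) :
    ∃ A : Set ℝ, MeasurableSet A ∧ mm q τ σ o i 1 Aᶜ = 0 ∧ dimH A < 1 := by
  obtain ⟨ε, hε, hN⟩ := nonunif _ (mm_equi q τ σ o i) o h hu hD
    (annihilator q τ σ o h hu hD hσ i)
  exact dim_lt_one _ hε hN

end Pool.Agent.P.MP_90a4ef_pr.Mk
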