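import Pool.Agent.P.MP_90a4ef_pr.Mk2

/-! A spectral gap estimate for families of functions indexed by the states. -/

open MeasureTheory Set Filter Topology UpperHalfPlane
open scoped ENNReal NNReal MatrixGroups

set_option linter.unusedSectionVars false
set_option linter.unusedSimpArgs false

namespace Pool.Agent.P.MP_90a4ef_pr.Mk

theorem gap0 {Γ : Subgroup G} (h : Lat Γ) {u : ℝ} (hu : 0 < u) (hD : dg u ∈ Γ) :
    ∃ g ∈ Γ, ∃ d ∈ Γ, ∀ F, MemLp F 2 volume → ∫ z, F z ^ 2 ≤ 200 * (En F g + En F d) := by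
  obtain ⟨g, hg, h00, h01, h10, h11⟩ := h.exists_generic hu.ne' hD
  have ht : Tendsto (fun n : ℕ => Real.exp (n * u)) atTop atTop :=
    Real.tendsto_exp_atTop.comp (tendsto_natCast_atTop_atTop.atTop_mul_const hu)
  obtain ⟨n, k1, k2, k3⟩ := ((ht.eventually (near_zero (a := g 0 0) (c := g 1 0) h01 h11)).and
    ((ht.eventually (near_zero (a := g 0 1) (c := g 1 1) h00 h10)).and
      (ht.eventually_ge_atTop 1))).exists
  obtain ⟨ρ, hρ⟩ : ∃ ρ, ρ = Real.exp (n * u) := ⟨_, rfl⟩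
  rw [← hρ] at k1 k2 k3
  have hρ0 : 0 < ρ := by linarith
  have hd : dg (n * u) ∈ Γ := by exact_mod_cast dg_zmul hD n
  refine ⟨g, hg, _, hd, fun F hF => ?_⟩
  let In : Set ℍ := {z | ‖(z : ℂ)‖ < ρ⁻¹}
  let Out : Set ℍ := {z | ρ ≤ ‖(z : ℂ)‖}
  have mI : MeasurableSet In := measurableSet_lt (by fun_prop) measurable_const
  have mO : MeasurableSet Out := measurableSet_le measurable_const (by fun_prop)
  have hinv : ρ⁻¹ ≤ 1 := inv_le_one_of_one_le₀ k3
  have hdis : Disjoint In Out := disjoint_left.2 fun z h1 h2 => by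
    simp only [In, Out, mem_ofPred_eq] at h1 h2
    linarith
  have hn : ∀ (v : ℝ) (z : ℍ), ‖((dg v • z : ℍ) : ℂ)‖ = Real.exp v ^ 2 * ‖(z : ℂ)‖ := by
    intro v z
    rw [coe_dg, norm_mul, Complex.norm_real, Real.norm_of_nonneg (Real.exp_pos _).le, two_mul,
      Real.exp_add, sq]
  have e1 := integral_add_compl (mI.union mO) hF.integrable_sq
  have e2 := setIntegral_union hdis mO hF.integrable_sq.integrableOn hF.integrable_sq.integrableOn
  have m1 := mass_le hF g (mI.union mO) (mI.union mO).compl (by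
    intro z hz
    simp only [In, Out, mem_compl_iff, mem_union, mem_ofPred_eq, not_or, not_lt, not_le] at hz ⊢
    rcases hz with hz | hz
    · rw [coe_act]
      exact k1 z hz.le
    · have h0 := z.ne_zero
      have := k2 (z : ℂ)⁻¹ (by rw [norm_inv]; exact inv_anti₀ hρ0 hz)
      have e : ((g • z : ℍ) : ℂ) = (g 0 1 * (z : ℂ)⁻¹ + g 0 0) / (g 1 1 * (z : ℂ)⁻¹ + g 1 0) := by
        rw [coe_act, ← mul_div_mul_right _ _ (inv_ne_zero h0)]
        congr 1 <;> field_simp <;> ring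
      rwa [e])
  have m2 := mass_le hF (dg (n * u)) (mI.union mO).compl mO (by
    intro z hz
    simp only [In, Out, mem_compl_iff, mem_union, mem_ofPred_eq, not_or, not_lt, not_le] at hz ⊢
    rw [hn, ← hρ]
    have := mul_le_mul_of_nonneg_left hz.1 (sq_nonneg ρ)
    rwa [sq, mul_assoc, mul_inv_cancel₀ hρ0.ne', mul_one, ← sq] at this)
  have m3 := mass_le hF (dg (n * u))⁻¹ (mI.union mO).compl mI (by
    intro z hz
    simp only [In, Out, mem_compl_iff, mem_union, mem_ofPred_eq, not_or, not_lt, not_le] at hz ⊢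
    have : (dg (n * u))⁻¹ = dg (-(n * u)) := by
      rw [eq_comm, eq_inv_iff_mul_eq_one, ← dg_add, neg_add_cancel, dg_zero]
    rw [this, hn, Real.exp_neg, ← hρ]
    have := mul_lt_mul_of_pos_left hz.2 (pow_pos (inv_pos.2 hρ0) 2)
    rwa [sq, mul_assoc _ _ ρ, inv_mul_cancel₀ hρ0.ne', mul_one, ← sq] at this)
  rw [En_inv] at m3
  have := En_nonneg F g
  have := En_nonneg F (dg (n * u))
  linarith

/-- squared distance of two translates -/
noncomputable def Dq (F H : ℍ → ℝ) (a b : G) : ℝ := ∫ z, (F (a • z) - H (b • z)) ^ 2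

lemma Dq_nonneg (F H : ℍ → ℝ) (a b : G) : 0 ≤ Dq F H a b := integral_nonneg fun _ => sq_nonneg _

lemma Dq_int {F H : ℍ → ℝ} (hF : MemLp F 2 volume) (hH : MemLp H 2 volume) (a b : G) :
    Integrable fun z => (F (a • z) - H (b • z)) ^ 2 :=
  ((L2_comp hF a).sub (L2_comp hH b)).integrable_sq

lemma Dq_symm (F H : ℍ → ℝ) (a b : G) : Dq F H a b = Dq H F b a := by
  unfold Dq
  congr 1
  funext z
  ring

lemma Dq_mul (F H : ℍ → ℝ) (a b k : G) : Dq F H (a * k) (b * k) = Dq F H a b := by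
  unfold Dq
  simp only [mul_smul]
  exact int_comp k fun z => (F (a • z) - H (b • z)) ^ 2

lemma Dq_trans {F H L : ℍ → ℝ} (hF : MemLp F 2 volume) (hH : MemLp H 2 volume)
    (hL : MemLp L 2 volume) (a b c : G) : Dq F L a c ≤ 2 * Dq F H a b + 2 * Dq H L b c := by
  unfold Dq
  rw [← integral_const_mul, ← integral_const_mul,
    ← integral_add ((Dq_int hF hH a b).const_mul _) ((Dq_int hH hL b c).const_mul _)]
  refine integral_mono (Dq_int hF hL a c)
    (((Dq_int hF hH a b).const_mul _).add ((Dq_int hH hL b c).const_mul _)) fun z => ?_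
  nlinarith [sq_nonneg (F (a • z) - 2 * H (b • z) + L (c • z))]

lemma Dq_zero (F : ℍ → ℝ) (a b : G) : Dq F 0 a b = ∫ z, F z ^ 2 := by
  unfold Dq
  simp only [Pi.zero_apply, sub_zero]
  exact int_comp a fun z => F z ^ 2

lemma Dq_eq {F H : ℍ → ℝ} (hF : MemLp F 2 volume) (hH : MemLp H 2 volume) (a : G) :
    Dq F H a 1 = (∫ z, F z ^ 2) + (∫ z, H z ^ 2) - 2 * ∫ z, H z * F (a • z) := by
  have i1 : Integrable fun z => H z * F (a • z) := hH.integrable_mul (L2_comp hF a)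
  have : ∀ z, (F (a • z) - H z) ^ 2 = (F (a • z) ^ 2 + H z ^ 2) - 2 * (H z * F (a • z)) :=
    fun z => by ring
  have i2 : Integrable fun z => F (a • z) ^ 2 + H z ^ 2 :=
    (L2_comp hF _).integrable_sq.add hH.integrable_sq
  simp only [Dq, one_smul, this]
  rw [integral_sub i2 (i1.const_mul _), integral_add (L2_comp hF _).integrable_sq hH.integrable_sq,
    int_comp a fun z => F z ^ 2, integral_const_mul]

variable {S ι : Type} [Fintype S] [Fintype ι] (τ : S → ι → ι) (σ : S → ι → G)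

/-- connected by a chain of steps taken forwards or backwards -/
def Con : G × ι → G × ι → Prop :=
  Relation.EqvGen fun a b => ∃ s, b = (a.1 * σ s a.2, τ s a.2)

/-- the energy of a family -/
noncomputable def Eg (w : S × ι → ℝ) (F : ι → ℍ → ℝ) : ℝ :=
  ∑ e : S × ι, w e * Dq (F e.2) (F (τ e.1 e.2)) (σ e.1 e.2) 1

lemma Eg_nonneg {w : S × ι → ℝ} (hw : ∀ e, 0 < w e) (F : ι → ℍ → ℝ) : 0 ≤ Eg τ σ w F :=
  Finset.sum_nonneg fun e _ => mul_nonneg (hw e).le (Dq_nonneg _ _ _ _)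

lemma Con.ctl {w : S × ι → ℝ} (hw : ∀ e, 0 < w e) {a b : G × ι} (h : Con τ σ a b) :
    ∃ C, 0 ≤ C ∧ ∀ F : ι → ℍ → ℝ, (∀ i, MemLp (F i) 2 volume) →
      Dq (F a.2) (F b.2) a.1⁻¹ b.1⁻¹ ≤ C * Eg τ σ w F := by
  induction h with
  | rel a b hab =>
    obtain ⟨s, rfl⟩ := hab
    refine ⟨(w (s, a.2))⁻¹, (inv_pos.2 (hw _)).le, fun F _ => ?_⟩
    rw [← div_eq_inv_mul, le_div_iff₀' (hw _), ← Dq_mul _ _ _ _ (a.1 * σ s a.2),
      inv_mul_cancel_left, inv_mul_cancel]
    exact Finset.single_le_sum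
      (f := fun e : S × ι => w e * Dq (F e.2) (F (τ e.1 e.2)) (σ e.1 e.2) 1)
      (fun e _ => mul_nonneg (hw e).le (Dq_nonneg _ _ _ _)) (Finset.mem_univ (s, a.2))
  | refl a => exact ⟨0, le_rfl, fun F _ => by simp [Dq]⟩
  | symm a b _ ih => simpa only [Dq_symm (F := _) (a := b.1⁻¹)] using ih
  | trans a b c _ _ ih1 ih2 =>
    obtain ⟨C, hC, h1⟩ := ih1
    obtain ⟨D, hD, h2⟩ := ih2
    refine ⟨2 * C + 2 * D, by positivity, fun F hF => ?_⟩
    have := Dq_trans (hF a.2) (hF b.2) (hF c.2) a.1⁻¹ b.1⁻¹ c.1⁻¹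
    have := h1 F hF
    have := h2 F hF
    linarith

theorem gapM {w : S × ι → ℝ} (hw : ∀ e, 0 < w e) (π : ι → ℝ) (hπ : ∀ i, 0 < π i)
    {Γ : Subgroup G} (h : Lat Γ) {u : ℝ} (hu : 0 < u) (hD : dg u ∈ Γ) (i₀ : ι)
    (h1 : ∀ g ∈ Γ, Con τ σ (1, i₀) (g, i₀)) (h2 : ∀ i, ∃ g, Con τ σ (1, i₀) (g, i)) :
    ∃ K, 0 < K ∧ ∀ F : ι → ℍ → ℝ, (∀ i, MemLp (F i) 2 volume) →
      ∑ i, π i * ∫ z, F i z ^ 2 ≤ K * Eg τ σ w F := by
  obtain ⟨g, hg, d, hd, h0⟩ := gap0 h hu hD
  obtain ⟨C, hC, c1⟩ := (h1 g hg).ctl τ σ hw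
  obtain ⟨D, hD', c2⟩ := (h1 d hd).ctl τ σ hw
  have e : ∀ (F : ℍ → ℝ) (g : G), Dq F F 1⁻¹ g⁻¹ = En F g := by
    intro F g
    rw [Dq_symm, ← En_inv]
    simp only [Dq, En, inv_one, one_smul]
  have key : ∀ i, ∃ K, 0 ≤ K ∧ ∀ F : ι → ℍ → ℝ, (∀ i, MemLp (F i) 2 volume) →
      ∫ z, F i z ^ 2 ≤ K * Eg τ σ w F := by
    intro i
    obtain ⟨k, hk⟩ := h2 i
    obtain ⟨B, hB, c3⟩ := hk.ctl τ σ hw
    refine ⟨2 * B + 400 * (C + D), by positivity, fun F hF => ?_⟩
    have a1 := Dq_trans (hF i) (hF i₀) MemLp.zero k⁻¹ 1⁻¹ 1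
    rw [Dq_zero, Dq_zero, Dq_symm] at a1
    have a2 := c1 F hF
    have a3 := c2 F hF
    have a4 := c3 F hF
    have a5 := h0 _ (hF i₀)
    simp only [e] at a2 a3
    simp only at a4
    linarith
  choose K hK hKF using key
  refine ⟨1 + ∑ i, π i * K i, add_pos_of_pos_of_nonneg one_pos
    (Finset.sum_nonneg fun i _ => mul_nonneg (hπ i).le (hK i)), fun F hF => ?_⟩
  rw [add_mul, one_mul, Finset.sum_mul]
  refine le_add_of_nonneg_of_le (Eg_nonneg τ σ hw F) (Finset.sum_le_sum fun i _ => ?_)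
  rw [mul_assoc]
  exact mul_le_mul_of_nonneg_left (hKF i F hF) (hπ i).le

theorem stationary (p : S → ℝ) (hp : ∀ s, 0 < p s) (hp1 : ∑ s, p s = 1)
    (hirr : ∀ i j, Relation.ReflTransGen (fun a b => ∃ s, τ s a = b) i j) (i₀ : ι) :
    ∃ π : ι → ℝ, (∀ i, 0 < π i) ∧
      ∀ a : ι → ℝ, ∑ e : S × ι, π e.2 * p e.1 * a (τ e.1 e.2) = ∑ j, π j * a j := by
  classical
  let M : Matrix ι ι ℝ := fun i j => ∑ s, if τ s i = j then p s else 0
  have hM0 : ∀ i j, 0 ≤ M i j := fun i j =>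
    Finset.sum_nonneg fun s _ => by split_ifs; exacts [(hp s).le, le_rfl]
  have hM1 : ∀ i, ∑ j, M i j = 1 := fun i => by
    simp only [M]
    rw [Finset.sum_comm]
    simp [hp1]
  have hdet : (M - 1).det = 0 := by
    refine Matrix.exists_mulVec_eq_zero_iff.1 ⟨fun _ => 1, fun h => ?_, ?_⟩
    · exact one_ne_zero (congrFun h i₀)
    · funext i
      rw [Matrix.sub_mulVec, Matrix.one_mulVec]
      simp [Matrix.mulVec, dotProduct, hM1]
  obtain ⟨v, hv0, hv⟩ := Matrix.exists_vecMul_eq_zero_iff.2 hdet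
  have hv1 : ∀ j, ∑ i, v i * M i j = v j := fun j => by
    have := congrFun hv j
    rw [Matrix.vecMul_sub, Matrix.vecMul_one] at this
    exact sub_eq_zero.1 this
  have hle : ∀ j, |v j| ≤ ∑ i, |v i| * M i j := fun j => by
    rw [← hv1 j]
    refine (Finset.abs_sum_le_sum_abs _ _).trans (le_of_eq ?_)
    simp only [abs_mul, abs_of_nonneg (hM0 _ _)]
  have heq : ∀ j, |v j| = ∑ i, |v i| * M i j := by
    have : ∑ j, |v j| = ∑ j, ∑ i, |v i| * M i j := by
      rw [Finset.sum_comm]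
      simp only [← Finset.mul_sum, hM1, mul_one]
    exact fun j => (Finset.sum_eq_sum_iff_of_le fun j _ => hle j).1 this j (Finset.mem_univ j)
  obtain ⟨i₁, hi₁⟩ := Function.ne_iff.1 hv0
  refine ⟨fun i => |v i|, fun j => ?_, fun a => ?_⟩
  · induction hirr i₁ j with
    | refl => exact abs_pos.2 hi₁
    | @tail b c _ hbc ih =>
      obtain ⟨s, hs⟩ := hbc
      beta_reduce
      rw [heq c]
      refine lt_of_lt_of_le (mul_pos ih ?_) (Finset.single_le_sum (f := fun i => |v i| * M i c)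
        (fun i _ => mul_nonneg (abs_nonneg _) (hM0 _ _)) (Finset.mem_univ b))
      refine lt_of_lt_of_le ?_ (Finset.single_le_sum (f := fun s => if τ s b = c then p s else 0)
        (fun s _ => by split_ifs; exacts [(hp s).le, le_rfl]) (Finset.mem_univ s))
      rw [if_pos hs]
      exact hp s
  · have : ∀ j, |v j| * a j = ∑ e : S × ι, if τ e.1 e.2 = j then |v e.2| * p e.1 * a j else 0 := by
      intro j
      rw [heq j, Fintype.sum_prod_type_right, Finset.sum_mul]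
      refine Finset.sum_congr rfl fun i _ => ?_
      simp only [M, Finset.mul_sum, Finset.sum_mul, mul_ite, ite_mul, mul_zero, zero_mul]
    simp only [this]
    rw [Finset.sum_comm]
    simp

end Pool.Agent.P.MP_90a4ef_pr.Mk
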