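import Pool.Agent.P.MP_90a4ef_pr.Mk3

/-! Almost sure convergence to the boundary of a product driven by a finite Markov chain. -/

open MeasureTheory Set Filter Topology UpperHalfPlane
open scoped ENNReal NNReal MatrixGroups

set_option linter.unusedSectionVars false

namespace Pool.Agent.P.MP_90a4ef_pr.Mk

lemma eval_le {F : ℍ → ℝ} (hF : MemLp F 2 volume) (hF0 : ∀ z, 0 ≤ F z) (o : ℍ)
    (hH : ∀ z, dist o z ≤ 1 → F o ≤ Real.exp 1 ^ 3 * F z) :
    F o ≤ 1 + (Real.exp 1 ^ 3) ^ 2 * (∫ z, F z ^ 2) / volume.real (Metric.ball o 1) := by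
  obtain ⟨V, hV⟩ : ∃ V, V = volume.real (Metric.ball o 1) := ⟨_, rfl⟩
  have hV0 : 0 < V := hV ▸ ball_pos o
  have b3 : F o ^ 2 * V ≤ (Real.exp 1 ^ 3) ^ 2 * ∫ z, F z ^ 2 := by
    have h1 : ∫ _z in Metric.ball o 1, F o ^ 2 ≤
        ∫ z in Metric.ball o 1, (Real.exp 1 ^ 3) ^ 2 * F z ^ 2 := by
      refine setIntegral_mono_on (integrableOn_const measure_ball_lt_top.ne)
        (hF.integrable_sq.const_mul _).integrableOn measurableSet_ball fun z hz => ?_
      rw [← mul_pow]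
      exact pow_le_pow_left₀ (hF0 o) (hH z (by rw [dist_comm]; exact le_of_lt hz)) 2
    rw [setIntegral_const, integral_const_mul, ← hV, smul_eq_mul, mul_comm] at h1
    refine h1.trans (mul_le_mul_of_nonneg_left ?_ (by positivity))
    exact setIntegral_le_integral hF.integrable_sq (Eventually.of_forall fun z => sq_nonneg _)
  rw [← hV]
  have b4 := (le_div_iff₀ hV0).2 b3
  nlinarith [sq_nonneg (F o - 1), sq_nonneg (F o)]

variable {S ι : Type} [Fintype S] [Fintype ι] (τ : S → ι → ι) (σ : S → ι → G)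

/-- averaging operator on families -/
noncomputable def Qm (c : ι → S × ι → ℝ) (F : ι → ℍ → ℝ) (j : ι) (z : ℍ) : ℝ :=
  ∑ e : S × ι, c j e * F e.2 (σ e.1 e.2 • z)

lemma L2_Qm (c : ι → S × ι → ℝ) {F : ι → ℍ → ℝ} (hF : ∀ i, MemLp (F i) 2 volume) (j : ι) :
    MemLp (Qm σ c F j) 2 volume :=
  memLp_finsetSum _ fun e _ => (L2_comp (hF e.2) (σ e.1 e.2)).const_mul _

lemma Qm_nonneg {c : ι → S × ι → ℝ} (hc : ∀ j e, 0 ≤ c j e) (n : ℕ) (j : ι) (z : ℍ) :
    0 ≤ (Qm σ c)^[n] (fun _ => ph) j z := by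
  induction n generalizing j z with
  | zero => exact ph_nonneg z
  | succ n ih =>
    rw [Function.iterate_succ_apply']
    exact Finset.sum_nonneg fun e _ => mul_nonneg (hc j e) (ih _ _)

lemma energy_eq {w : S × ι → ℝ} {π : ι → ℝ} {c : ι → S × ι → ℝ}
    (h1 : ∀ a : ι → ℝ, ∑ e : S × ι, w e * a e.2 = ∑ i, π i * a i)
    (h2 : ∀ a : ι → ℝ, ∑ e : S × ι, w e * a (τ e.1 e.2) = ∑ i, π i * a i)
    (h3 : ∀ b : ι → S × ι → ℝ, ∑ j, π j * ∑ e, c j e * b j e = ∑ e, w e * b (τ e.1 e.2) e)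
    {F : ι → ℍ → ℝ} (hF : ∀ i, MemLp (F i) 2 volume) :
    Eg τ σ w F = 2 * ∑ j, π j * ∫ z, F j z * (F j z - Qm σ c F j z) := by
  have i1 : ∀ j (e : S × ι), Integrable fun z => F j z * F e.2 (σ e.1 e.2 • z) := fun j e =>
    (hF j).integrable_mul (L2_comp (hF e.2) _)
  have a1 : ∀ j, ∫ z, F j z * (F j z - Qm σ c F j z) =
      (∫ z, F j z ^ 2) - ∑ e : S × ι, c j e * ∫ z, F j z * F e.2 (σ e.1 e.2 • z) := by
    intro j
    have : ∀ z, F j z * (F j z - Qm σ c F j z) =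
        F j z ^ 2 - ∑ e : S × ι, c j e * (F j z * F e.2 (σ e.1 e.2 • z)) := by
      intro z
      simp only [Qm, mul_sub, Finset.mul_sum, sq, mul_left_comm]
    simp only [this]
    rw [integral_sub (hF j).integrable_sq (integrable_finsetSum _ fun e _ => (i1 j e).const_mul _),
      integral_finsetSum _ fun e _ => (i1 j e).const_mul _]
    simp only [integral_const_mul]
  have a2 := h1 fun i => ∫ z, F i z ^ 2
  have a3 := h2 fun i => ∫ z, F i z ^ 2
  have a4 := h3 fun j e => ∫ z, F j z * F e.2 (σ e.1 e.2 • z)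
  simp only [a1]
  simp only [Eg, Dq_eq (hF _) (hF _), mul_sub, mul_add, Finset.sum_sub_distrib,
    Finset.sum_add_distrib, mul_left_comm (w _) 2, ← Finset.mul_sum]
  linarith

theorem sum_bound {w : S × ι → ℝ} {π : ι → ℝ} {c : ι → S × ι → ℝ} (hπ : ∀ i, 0 < π i)
    (hc : ∀ j e, 0 ≤ c j e)
    (h1 : ∀ a : ι → ℝ, ∑ e : S × ι, w e * a e.2 = ∑ i, π i * a i)
    (h2 : ∀ a : ι → ℝ, ∑ e : S × ι, w e * a (τ e.1 e.2) = ∑ i, π i * a i)
    (h3 : ∀ b : ι → S × ι → ℝ, ∑ j, π j * ∑ e, c j e * b j e = ∑ e, w e * b (τ e.1 e.2) e)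
    {K : ℝ} (hK : 0 < K) (hgap : ∀ F : ι → ℍ → ℝ, (∀ i, MemLp (F i) 2 volume) →
      ∑ i, π i * ∫ z, F i z ^ 2 ≤ K * Eg τ σ w F) (o : ℍ) (i : ι) :
    ∃ C, ∀ k, ∑ n ∈ Finset.range k, (Qm σ c)^[n] (fun _ => ph) i o ≤ C := by
  have a1 : ∀ n j, MemLp ((Qm σ c)^[n] (fun _ => ph) j) 2 volume := by
    intro n
    induction n with
    | zero => exact fun _ => L2_ph
    | succ n ih => rw [Function.iterate_succ_apply']; exact L2_Qm σ c ih
  have a2 := Qm_nonneg σ hc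
  have a3 : ∀ n j w w', dist w w' ≤ 1 →
      (Qm σ c)^[n] (fun _ => ph) j w ≤ Real.exp 1 ^ 3 * (Qm σ c)^[n] (fun _ => ph) j w' := by
    intro n
    induction n with
    | zero => exact fun _ => ph_le
    | succ n ih =>
      intro j w w' hw
      rw [Function.iterate_succ_apply', Qm, Qm, Finset.mul_sum]
      refine Finset.sum_le_sum fun e _ => ?_
      rw [mul_left_comm]
      exact mul_le_mul_of_nonneg_left (ih _ _ _ (by rwa [dist_smul])) (hc j e)
  refine ⟨1 + (Real.exp 1 ^ 3) ^ 2 * (4 * K ^ 2 * (∑ j, π j * ∫ z, ph z ^ 2) / π i) /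
    volume.real (Metric.ball o 1), fun k => ?_⟩
  let F : ι → ℍ → ℝ := fun j z => ∑ n ∈ Finset.range k, (Qm σ c)^[n] (fun _ => ph) j z
  have hF : ∀ j, MemLp (F j) 2 volume := fun j => memLp_finsetSum _ fun n _ => a1 n j
  have hF0 : ∀ j z, 0 ≤ F j z := fun j z => Finset.sum_nonneg fun n _ => a2 n j z
  have hQ : ∀ j z, F j z - Qm σ c F j z ≤ ph z := by
    intro j z
    have e1 : Qm σ c F j z = ∑ n ∈ Finset.range k, (Qm σ c)^[n + 1] (fun _ => ph) j z := by
      simp only [Function.iterate_succ_apply', Qm, F, Finset.mul_sum]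
      exact Finset.sum_comm
    have e2 := Finset.sum_range_succ' (fun n => (Qm σ c)^[n] (fun _ => ph) j z) k
    rw [Finset.sum_range_succ] at e2
    have := a2 k j z
    simp only [Function.iterate_zero, id] at e2
    simp only [e1, F]
    linarith
  have b1 : ∀ j, ∫ z, F j z * (F j z - Qm σ c F j z) ≤
      (4 * K)⁻¹ * (∫ z, F j z ^ 2) + K * ∫ z, ph z ^ 2 := by
    intro j
    rw [← integral_const_mul, ← integral_const_mul,
      ← integral_add ((hF j).integrable_sq.const_mul _) (L2_ph.integrable_sq.const_mul _)]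
    refine integral_mono ((hF j).integrable_mul ((hF j).sub (L2_Qm σ c hF j)))
      (((hF j).integrable_sq.const_mul _).add (L2_ph.integrable_sq.const_mul _)) fun z => ?_
    refine (mul_le_mul_of_nonneg_left (hQ j z) (hF0 j z)).trans ?_
    have : (4 * K)⁻¹ * F j z ^ 2 + K * ph z ^ 2 - F j z * ph z =
        (4 * K)⁻¹ * (F j z - 2 * K * ph z) ^ 2 := by
      field_simp
      ring
    have h2 : 0 ≤ (4 * K)⁻¹ * (F j z - 2 * K * ph z) ^ 2 := by positivity
    linarith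
  have b2 : ∑ j, π j * ∫ z, F j z ^ 2 ≤ 4 * K ^ 2 * ∑ j, π j * ∫ z, ph z ^ 2 := by
    have := hgap F hF
    rw [energy_eq τ σ h1 h2 h3 hF] at this
    have h4 : ∑ j, π j * ∫ z, F j z * (F j z - Qm σ c F j z) ≤
        (4 * K)⁻¹ * (∑ j, π j * ∫ z, F j z ^ 2) + K * ∑ j, π j * ∫ z, ph z ^ 2 := by
      rw [Finset.mul_sum, Finset.mul_sum, ← Finset.sum_add_distrib]
      refine Finset.sum_le_sum fun j _ => ?_
      rw [mul_left_comm _ (π j), mul_left_comm _ (π j), ← mul_add]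
      exact mul_le_mul_of_nonneg_left (b1 j) (hπ j).le
    have h5 := mul_le_mul_of_nonneg_left h4 (show 0 ≤ 2 * K by positivity)
    obtain ⟨X, hX⟩ : ∃ X, X = ∑ j, π j * ∫ z, F j z ^ 2 := ⟨_, rfl⟩
    obtain ⟨Y, hY⟩ : ∃ Y, Y = ∑ j, π j * ∫ z, ph z ^ 2 := ⟨_, rfl⟩
    rw [← hX] at this
    rw [← hX, ← hY] at h5 ⊢
    have e : 2 * K * ((4 * K)⁻¹ * X + K * Y) = X / 2 + 2 * K ^ 2 * Y := by
      field_simp
      ring
    linarith
  have b3 : ∫ z, F i z ^ 2 ≤ 4 * K ^ 2 * (∑ j, π j * ∫ z, ph z ^ 2) / π i := by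
    rw [le_div_iff₀' (hπ i)]
    exact (Finset.single_le_sum (f := fun j => π j * ∫ z, F j z ^ 2)
      (fun j _ => mul_nonneg (hπ j).le (integral_nonneg fun _ => sq_nonneg _))
      (Finset.mem_univ i)).trans b2
  refine (eval_le (hF i) (hF0 i) o fun z hz => ?_).trans ?_
  · simp only [F, Finset.mul_sum]
    exact Finset.sum_le_sum fun n _ => a3 n i _ _ hz
  · have := ball_pos o
    gcongr

/-- expectation after `n` steps, by first step recursion -/
noncomputable def Ex (p : S → ℝ) (o : ℍ) : ℕ → ι → (ℍ → ℝ) → ℝ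
  | 0, _, f => f o
  | n + 1, i, f => ∑ s, p s * Ex p o n (τ s i) fun z => f (σ s i • z)

lemma Ex_zero (p : S → ℝ) (o : ℍ) (i : ι) (f : ℍ → ℝ) : Ex τ σ p o 0 i f = f o := rfl

lemma Ex_succ (p : S → ℝ) (o : ℍ) (n : ℕ) (i : ι) (f : ℍ → ℝ) :
    Ex τ σ p o (n + 1) i f = ∑ s, p s * Ex τ σ p o n (τ s i) fun z => f (σ s i • z) := rfl

lemma Ex_nonneg {p : S → ℝ} (hp : ∀ s, 0 ≤ p s) (o : ℍ) (n : ℕ) (i : ι) (f : ℍ → ℝ)
    (hf : ∀ z, 0 ≤ f z) : 0 ≤ Ex τ σ p o n i f := by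
  induction n generalizing i f with
  | zero => exact hf o
  | succ n ih => exact Finset.sum_nonneg fun s _ => mul_nonneg (hp s) (ih _ _ fun z => hf _)

lemma Ex_sum (p : S → ℝ) (o : ℍ) (n : ℕ) (i : ι) (c : S × ι → ℝ) (g : S × ι → ℍ → ℝ) :
    (Ex τ σ p o n i fun z => ∑ e, c e * g e z) = ∑ e, c e * Ex τ σ p o n i (g e) := by
  induction n generalizing i g with
  | zero => rfl
  | succ n ih =>
    simp only [Ex_succ, ih _ fun e z => g e (σ _ i • z), Finset.mul_sum]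
    rw [Finset.sum_comm]
    simp only [mul_left_comm]

lemma Ex_Qm {p : S → ℝ} {π : ι → ℝ} {c : ι → S × ι → ℝ}
    (h3 : ∀ b : ι → S × ι → ℝ,
      ∑ j, π j * ∑ e, c j e * b j e = ∑ e : S × ι, π e.2 * p e.1 * b (τ e.1 e.2) e)
    (o : ℍ) (n : ℕ) (F : ι → ℍ → ℝ) :
    ∑ i, π i * Ex τ σ p o n i (F i) = ∑ j, π j * (Qm σ c)^[n] F j o := by
  induction n generalizing F with
  | zero => rfl
  | succ n ih =>
    rw [Function.iterate_succ_apply, ← ih]
    have : ∀ j, Ex τ σ p o n j (Qm σ c F j) =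
        ∑ e : S × ι, c j e * Ex τ σ p o n j fun z => F e.2 (σ e.1 e.2 • z) := fun j =>
      Ex_sum τ σ p o n j (c j) fun e z => F e.2 (σ e.1 e.2 • z)
    simp only [this]
    rw [h3 fun j e => Ex τ σ p o n j fun z => F e.2 (σ e.1 e.2 • z), Fintype.sum_prod_type_right]
    simp only [Ex_succ, Finset.mul_sum, mul_assoc]

variable [MeasurableSpace S] [DiscreteMeasurableSpace S] (q : Measure S) [IsProbabilityMeasure q]

lemma lintegral_Zs (o : ℍ) (n : ℕ) (i : ι) (f : ℍ → ℝ) (hf : ∀ z, 0 ≤ f z) :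
    ∫⁻ ω, ENNReal.ofReal (f (Zs τ σ i ω n • o)) ∂(PP q) =
      ENNReal.ofReal (Ex τ σ (fun s => q.real {s}) o n i f) := by
  induction n generalizing i f with
  | zero => simp [Zs_zero, Ex_zero]
  | succ n ih =>
    have hm := measurable_Zs τ σ i (n + 1) fun _ g => ENNReal.ofReal (f (g • o))
    have hm' : Measurable fun a : S × (ℕ → S) =>
        ENNReal.ofReal (f (Zs τ σ i (consSeq a) (n + 1) • o)) := hm.comp measurable_consSeq
    rw [Ex_succ, ENNReal.ofReal_sum_of_nonneg fun s _ => mul_nonneg measureReal_nonneg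
      (Ex_nonneg τ σ (fun _ => measureReal_nonneg) o n _ _ fun z => hf _)]
    unfold PP
    nth_rewrite 1 [← map_consSeq]
    rw [lintegral_map hm measurable_consSeq, lintegral_prod _ hm'.aemeasurable, lintegral_fintype]
    refine Finset.sum_congr rfl fun s _ => ?_
    rw [ENNReal.ofReal_mul measureReal_nonneg, ofReal_measureReal, mul_comm,
      ← ih (τ s i) (fun z => f (σ s i • z)) fun z => hf _]
    simp only [Zs_cons, mul_smul]
    rfl

theorem ae_conv (hq : ∀ s, q {s} ≠ 0)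
    (hirr : ∀ i j, Relation.ReflTransGen (fun a b => ∃ s, τ s a = b) i j)
    {Γ : Subgroup G} (h : Lat Γ) {u : ℝ} (hu : 0 < u) (hD : dg u ∈ Γ) (i₀ : ι)
    (h1 : ∀ g ∈ Γ, Con τ σ (1, i₀) (g, i₀)) (o : ℍ) :
    ∀ᵐ ω ∂(PP q), ω ∈ Ev τ σ o i₀ 1 univ ∨
      Tendsto (fun n => (pt τ σ o i₀ 1 ω n + Complex.I)⁻¹) atTop (𝓝 0) := by
  classical
  let p : S → ℝ := fun s => q.real {s}
  have hp : ∀ s, 0 < p s := fun s => ENNReal.toReal_pos (hq s) (measure_ne_top _ _)
  have hp1 : ∑ s, p s = 1 := by simp [p]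
  obtain ⟨π, hπ, hst⟩ := stationary τ p hp hp1 hirr i₀
  have h2 : ∀ i, ∃ g, Con τ σ (1, i₀) (g, i) := by
    intro i
    induction hirr i₀ i with
    | refl => exact ⟨1, .refl _⟩
    | @tail b c _ hbc ih =>
      obtain ⟨s, rfl⟩ := hbc
      obtain ⟨g, hg⟩ := ih
      exact ⟨g * σ s b, .trans _ _ _ hg (.rel _ _ ⟨s, rfl⟩)⟩
  obtain ⟨K, hK, hgap⟩ := gapM τ σ (w := fun e => π e.2 * p e.1)
    (fun e => mul_pos (hπ _) (hp _)) π hπ h hu hD i₀ h1 h2
  let c : ι → S × ι → ℝ := fun j e => if τ e.1 e.2 = j then π e.2 * p e.1 / π j else 0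
  have hc : ∀ j e, 0 ≤ c j e := fun j e => by
    simp only [c]
    split_ifs
    exacts [(div_pos (mul_pos (hπ _) (hp _)) (hπ _)).le, le_rfl]
  have h3 : ∀ b : ι → S × ι → ℝ,
      ∑ j, π j * ∑ e, c j e * b j e = ∑ e : S × ι, π e.2 * p e.1 * b (τ e.1 e.2) e := by
    intro b
    simp only [Finset.mul_sum]
    rw [Finset.sum_comm]
    refine Finset.sum_congr rfl fun e _ => ?_
    rw [Finset.sum_eq_single (τ e.1 e.2) (fun j _ hj => by simp [c, hj.symm]) (by simp)]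
    have := (hπ (τ e.1 e.2)).ne'
    simp only [c, if_true]
    field_simp
  have h4 : ∀ a : ι → ℝ, ∑ e : S × ι, π e.2 * p e.1 * a e.2 = ∑ i, π i * a i := by
    intro a
    rw [Fintype.sum_prod_type_right]
    refine Finset.sum_congr rfl fun i _ => ?_
    simp only [← Finset.sum_mul, ← Finset.mul_sum, hp1, mul_one]
  choose C hC using sum_bound τ σ hπ hc h4 hst h3 hK hgap o
  have hE := fun n i => Ex_nonneg τ σ (fun s => (hp s).le) o n i ph ph_nonneg
  have hm : ∀ n, Measurable fun ω => ENNReal.ofReal (ph (Zs τ σ i₀ ω n • o)) := fun n =>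
    measurable_Zs τ σ i₀ n fun _ g => ENNReal.ofReal (ph (g • o))
  have h5 : ∫⁻ ω, ∑' n, ENNReal.ofReal (ph (Zs τ σ i₀ ω n • o)) ∂(PP q) ≠ ∞ := by
    rw [lintegral_tsum fun n => (hm n).aemeasurable]
    simp only [lintegral_Zs τ σ q o _ i₀ ph ph_nonneg]
    refine Summable.tsum_ofReal_ne_top (summable_of_sum_range_le
      (c := (∑ j, π j * C j) / π i₀) (fun n => hE n i₀) fun k => ?_)
    rw [le_div_iff₀' (hπ i₀), Finset.mul_sum]
    calc _ ≤ ∑ n ∈ Finset.range k, ∑ j, π j * (Qm σ c)^[n] (fun _ => ph) j o := by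
          refine Finset.sum_le_sum fun n _ => ?_
          rw [← Ex_Qm τ σ h3 o n]
          exact Finset.single_le_sum (f := fun i => π i * Ex τ σ p o n i ph)
            (fun i _ => mul_nonneg (hπ i).le (hE n i)) (Finset.mem_univ i₀)
      _ ≤ _ := by
          rw [Finset.sum_comm]
          refine Finset.sum_le_sum fun j _ => ?_
          rw [← Finset.mul_sum]
          exact mul_le_mul_of_nonneg_left (hC j k) (hπ j).le
  obtain ⟨R, hR⟩ := (Set.finite_range fun e : S × ι => dist o (σ e.1 e.2 • o)).bddAbove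
  filter_upwards [ae_lt_top (Measurable.tsum hm) h5] with ω hω
  have hs : Summable fun n => ph (Zs τ σ i₀ ω n • o) := by
    have := ENNReal.summable_toReal hω.ne
    simpa only [ENNReal.toReal_ofReal (ph_nonneg _)] using this
  have := conv_of_summable (fun n => Zs τ σ i₀ ω n • o) R (fun n => by
    rw [Zs_succ, mul_smul, dist_smul]
    exact hR ⟨(_, _), rfl⟩) hs
  have e : ∀ n, pt τ σ o i₀ 1 ω n = ((Zs τ σ i₀ ω n • o : ℍ) : ℂ) := fun n => by rw [pt, one_mul]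
  rcases this with ⟨y, hy⟩ | hy
  · exact Or.inl ⟨y, trivial, hy.congr fun n => (e n).symm⟩
  · exact Or.inr (by simpa only [e] using hy)

end Pool.Agent.P.MP_90a4ef_pr.Mk
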