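import Pool.Agent.P.MP_90a4ef_pr.Mk4

/-! The dimension drop in the random map model. -/

open MeasureTheory ProbabilityTheory Set Filter Topology UpperHalfPlane
open scoped ENNReal NNReal MatrixGroups

namespace Pool.Agent.P.MP_90a4ef_pr.Mk

theorem canonical {S ι : Type} [Fintype S] [MeasurableSpace S] [DiscreteMeasurableSpace S]
    [Fintype ι] (q : Measure S) [IsProbabilityMeasure q] (hq : ∀ s, q {s} ≠ 0)
    (τ : S → ι → ι) (σ : S → ι → G)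
    (hirr : ∀ i j, Relation.ReflTransGen (fun a b => ∃ s, τ s a = b) i j)
    {Γ : Subgroup G} (h : Lat Γ) (hσ : ∀ s i, σ s i ∈ Γ) (i₀ : ι)
    (hcon : ∀ g ∈ Γ, Con τ σ (1, i₀) (g, i₀)) (o : ℍ) :
    ∃ ξ : (ℕ → S) → Metric.sphere (0 : ℂ) 1, Measurable ξ ∧
      (∀ᵐ ω ∂(PP q), Tendsto (fun n => (((Zs τ σ i₀ ω n • o : ℍ) : ℂ) - Complex.I) /
        (((Zs τ σ i₀ ω n • o : ℍ) : ℂ) + Complex.I)) atTop (𝓝 (ξ ω : ℂ))) ∧
      ∃ A, MeasurableSet A ∧ PP q (ξ ⁻¹' A)ᶜ = 0 ∧ dimH A < 1 := by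
  classical
  obtain ⟨γ, hγ, htr⟩ := h.exists_trace
  obtain ⟨u, hu, k, hk⟩ := diagonalize γ htr
  let σ' : S → ι → G := fun s i => k * σ s i * k⁻¹
  have h' := h.conj k
  have hD : dg u ∈ Γ.map (MulAut.conj k).toMonoidHom := ⟨γ, hγ, hk⟩
  have hc : ∀ a b, Con τ σ a b → Con τ σ' (k * a.1 * k⁻¹, a.2) (k * b.1 * k⁻¹, b.2) := by
    intro a b hab
    induction hab with
    | rel a b hab =>
      obtain ⟨s, rfl⟩ := hab
      exact .rel _ _ ⟨s, Prod.ext (by simp only [σ']; group) rfl⟩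
    | refl a => exact .refl _
    | symm a b _ ih => exact .symm _ _ ih
    | trans a b c _ _ ih1 ih2 => exact .trans _ _ _ ih1 ih2
  have hcon' : ∀ g ∈ Γ.map (MulAut.conj k).toMonoidHom, Con τ σ' (1, i₀) (g, i₀) := by
    rintro _ ⟨g, hg, rfl⟩
    have := hc _ _ (hcon g hg)
    simp only [mul_one, mul_inv_cancel] at this
    exact this
  have hZ : ∀ ω n, Zs τ σ' i₀ ω n = k * Zs τ σ i₀ ω n * k⁻¹ := by
    intro ω n
    induction n with
    | zero => simp [Zs_zero]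
    | succ n ih => simp only [Zs_succ, ih, σ']; group
  have hpt : ∀ ω n, Zs τ σ i₀ ω n • o = k⁻¹ • ((1 * Zs τ σ' i₀ ω n) • k • o) := by
    intro ω n
    simp [hZ, mul_smul]
  obtain ⟨A₀, hA₀, hA₁, hA₂⟩ := dim_mm q τ σ' (k • o) h' hu hD (fun s i => ⟨_, hσ s i, rfl⟩) i₀
  let ψ : ℝ → ℂ := fun y =>
    (((k⁻¹ 0 0 * y + k⁻¹ 0 1 : ℝ) : ℂ) - Complex.I * (k⁻¹ 1 0 * y + k⁻¹ 1 1 : ℝ)) /
      ((k⁻¹ 0 0 * y + k⁻¹ 0 1 : ℝ) + Complex.I * (k⁻¹ 1 0 * y + k⁻¹ 1 1 : ℝ))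
  have hψ : ContDiff ℝ 1 ψ := by
    have c : ∀ a b : ℝ, ContDiff ℝ 1 fun y : ℝ => ((a * y + b : ℝ) : ℂ) := fun a b =>
      Complex.ofRealCLM.contDiff.comp ((contDiff_const.mul contDiff_id).add contDiff_const)
    simp only [ψ, div_eq_mul_inv]
    exact ((c _ _).sub (contDiff_const.mul (c _ _))).mul
      (((c _ _).add (contDiff_const.mul (c _ _))).inv fun y => den_ne (col_ne _ y))
  let p : Metric.sphere (0 : ℂ) 1 := ⟨_, mem_circ (col_ne' k⁻¹)⟩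
  let ξ : (ℕ → S) → Metric.sphere (0 : ℂ) 1 := fun ω =>
    if ω ∈ Ev τ σ' (k • o) i₀ 1 univ then ⟨ψ (lim τ σ' (k • o) i₀ 1 ω), mem_circ (col_ne _ _)⟩ else p
  refine ⟨ξ, Measurable.ite (measurableSet_Ev _ _ _ _ _ MeasurableSet.univ)
    (hψ.continuous.measurable.comp (measurable_lim _ _ _ _ _)).subtype_mk measurable_const, ?_, ?_⟩
  · filter_upwards [ae_conv τ σ' q hq hirr h' hu hD i₀ hcon' (k • o)] with ω hω
    simp only [hpt, cay_act]
    by_cases hE : ω ∈ Ev τ σ' (k • o) i₀ 1 univ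
    · simp only [ξ, if_pos hE]
      obtain ⟨y, -, hy⟩ := hE
      rw [lim_eq _ _ _ hy]
      have h0 := den_ne (col_ne k⁻¹ y)
      simp only [ψ]
      push_cast at h0 ⊢
      exact (((hy.const_mul _).add_const _).sub (((hy.const_mul _).add_const _).const_mul _)).div
        (((hy.const_mul _).add_const _).add (((hy.const_mul _).add_const _).const_mul _)) h0
    · simp only [ξ, if_neg hE]
      have hv := hω.resolve_left hE
      have h0 := den_ne (col_ne' k⁻¹)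
      have t1 := ((tendsto_const_nhds (x := (k⁻¹ 0 0 : ℂ) - Complex.I * k⁻¹ 1 0)).add (hv.const_mul
        ((k⁻¹ 0 1 : ℂ) - Complex.I * k⁻¹ 1 1 -
          Complex.I * ((k⁻¹ 0 0 : ℂ) - Complex.I * k⁻¹ 1 0)))).div
        ((tendsto_const_nhds (x := (k⁻¹ 0 0 : ℂ) + Complex.I * k⁻¹ 1 0)).add (hv.const_mul
        ((k⁻¹ 0 1 : ℂ) + Complex.I * k⁻¹ 1 1 -
          Complex.I * ((k⁻¹ 0 0 : ℂ) + Complex.I * k⁻¹ 1 0)))) (by simpa using h0)
      simp only [mul_zero, add_zero] at t1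
      refine t1.congr fun n => ?_
      have h1 : pt τ σ' (k • o) i₀ 1 ω n + Complex.I ≠ 0 := norm_pos_iff.1 (norm_add_I_pos _)
      rw [Pi.div_apply, ← mul_div_mul_right _ _ h1]
      change _ = (k⁻¹ 0 0 * pt τ σ' (k • o) i₀ 1 ω n + k⁻¹ 0 1 -
        Complex.I * (k⁻¹ 1 0 * pt τ σ' (k • o) i₀ 1 ω n + k⁻¹ 1 1)) /
        (k⁻¹ 0 0 * pt τ σ' (k • o) i₀ 1 ω n + k⁻¹ 0 1 +
          Complex.I * (k⁻¹ 1 0 * pt τ σ' (k • o) i₀ 1 ω n + k⁻¹ 1 1))
      congr 1 <;> field_simp <;> ring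
  · let B : Set (Metric.sphere (0 : ℂ) 1) := Subtype.val ⁻¹' (ψ '' A₀ ∪ {(p : ℂ)})
    have hB : dimH B < 1 := by
      refine (isometry_subtype_coe.antilipschitz.dimH_preimage_le _).trans_lt ?_
      rw [dimH_union, dimH_singleton, max_eq_left zero_le]
      exact (hψ.contDiffOn.dimH_image_le convex_univ (subset_univ _)).trans_lt hA₂
    obtain ⟨d, hd1, hd2⟩ := ENNReal.lt_iff_exists_nnreal_btwn.1 hB
    refine ⟨toMeasurable μH[d] B, measurableSet_toMeasurable _ _, ?_, ?_⟩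
    · rw [mm_apply q τ σ' _ _ 1 hA₀.compl] at hA₁
      refine measure_mono_null (fun ω hω => ?_) hA₁
      have h1 : ξ ω ∉ B := fun h1 => hω (subset_toMeasurable _ _ h1)
      by_cases hE : ω ∈ Ev τ σ' (k • o) i₀ 1 univ
      · rw [Ev_eq]
        refine ⟨fun h2 => h1 (Or.inl ⟨_, h2, ?_⟩), hE⟩
        simp only [ξ, if_pos hE]
      · exact absurd (Or.inr (by simp only [ξ, if_neg hE]; rfl)) h1
    · refine (dimH_le_of_hausdorffMeasure_ne_top ?_).trans_lt hd2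
      rw [measure_toMeasurable, hausdorffMeasure_of_dimH_lt hd1]
      exact ENNReal.zero_ne_top

end Pool.Agent.P.MP_90a4ef_pr.Mk
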