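import Pool.Agent.P.MP_90a4ef_pr.Mk5

/-! From the random map model to an arbitrary invariant Markov chain: tools. -/

open MeasureTheory ProbabilityTheory Set Filter Topology UpperHalfPlane
open scoped ENNReal NNReal MatrixGroups

set_option linter.unusedSectionVars false

namespace Pool.Agent.P.MP_90a4ef_pr.Mk

lemma inv_dist {z w : ℍ} {R : ℝ} (hR : dist z w ≤ R) :
    ‖((z : ℂ) + Complex.I)⁻¹ - ((w : ℂ) + Complex.I)⁻¹‖ ≤ Real.exp R ^ 2 * ph z := by
  have p1 := norm_add_I_pos z
  have p2 := norm_add_I_pos w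
  have h1 : ‖(w : ℂ) - z‖ ≤ z.im * Real.exp R := by
    have := dist_coe_le w z
    have h2 := Real.exp_le_exp.2 hR
    rw [Complex.dist_eq, dist_comm] at this
    nlinarith [z.im_pos]
  have h2 : ‖(z : ℂ) + Complex.I‖ ≤ Real.exp R * ‖(w : ℂ) + Complex.I‖ :=
    (norm_add_I_le _ _).trans (by gcongr)
  rw [inv_sub_inv (norm_pos_iff.1 p1) (norm_pos_iff.1 p2), norm_div, norm_mul,
    add_sub_add_right_eq_sub, ph, ← mul_div_assoc, div_le_div_iff₀ (by positivity) (by positivity)]
  calc _ ≤ (z.im * Real.exp R) * (‖(z : ℂ) + Complex.I‖ *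
        (Real.exp R * ‖(w : ℂ) + Complex.I‖)) := by
        have := z.im_pos
        rw [sq]
        gcongr
    _ = _ := by ring

lemma ph_eq (z : ℍ) : ph z = (1 - ‖((z : ℂ) - Complex.I) / ((z : ℂ) + Complex.I)‖ ^ 2) / 4 := by
  have p1 := norm_add_I_pos z
  have : ‖(z : ℂ) - Complex.I‖ ^ 2 = ‖(z : ℂ) + Complex.I‖ ^ 2 - 4 * z.im := by
    simp only [Complex.sq_norm, Complex.normSq_apply, Complex.add_re, Complex.add_im, coe_re, coe_im,
      Complex.I_re, Complex.I_im, Complex.sub_re, Complex.sub_im]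
    ring
  rw [norm_div, div_pow, this, ph]
  field_simp
  ring

lemma near {z w : ℕ → ℍ} {R : ℝ} (hR : ∀ n, dist (z n) (w n) ≤ R) {ξ : ℂ} (hξ : ‖ξ‖ = 1)
    (h : Tendsto (fun n => ((z n : ℂ) - Complex.I) / ((z n : ℂ) + Complex.I)) atTop (𝓝 ξ)) :
    Tendsto (fun n => ((w n : ℂ) - Complex.I) / ((w n : ℂ) + Complex.I)) atTop (𝓝 ξ) := by
  have h1 : Tendsto (fun n => ph (z n)) atTop (𝓝 0) := by
    have := ((h.norm.pow 2).const_sub 1).div_const 4
    rw [hξ, one_pow, sub_self, zero_div] at this
    simpa only [ph_eq] using this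
  have h2 : Tendsto (fun n => ((z n : ℂ) + Complex.I)⁻¹ - ((w n : ℂ) + Complex.I)⁻¹) atTop (𝓝 0) := by
    have := h1.const_mul (Real.exp R ^ 2)
    rw [mul_zero] at this
    exact squeeze_zero_norm (fun n => inv_dist (hR n)) this
  have h3 := h.add (h2.const_mul (2 * Complex.I))
  rw [mul_zero, add_zero] at h3
  refine h3.congr fun n => ?_
  have p1 := norm_pos_iff.1 (norm_add_I_pos (z n))
  have p2 := norm_pos_iff.1 (norm_add_I_pos (w n))
  field_simp
  ring

variable {V : Type} [Countable V] [MeasurableSpace V] [DiscreteMeasurableSpace V]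

lemma law_eq (μ ν : Measure (ℕ → V)) [IsProbabilityMeasure μ] [IsProbabilityMeasure ν] (v₀ : V)
    (F : ℕ → (ℕ → V) → ℝ≥0∞) (hF : F 0 (fun _ => v₀) = 1)
    (h1 : ∀ n x, x 0 = v₀ → μ {y | ∀ m ≤ n, y m = x m} = F n x)
    (h2 : ∀ n x, x 0 = v₀ → ν {y | ∀ m ≤ n, y m = x m} = F n x) : μ = ν := by
  have z : ∀ (μ : Measure (ℕ → V)) [IsProbabilityMeasure μ],
      (∀ n x, x 0 = v₀ → μ {y | ∀ m ≤ n, y m = x m} = F n x) →
      ∀ n (x : ℕ → V), x 0 ≠ v₀ → μ {y | ∀ m ≤ n, y m = x m} = 0 := by
    intro μ _ h n x hx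
    have a1 := h 0 (fun _ => v₀) rfl
    have a2 : {y : ℕ → V | ∀ m ≤ 0, y m = v₀} = (fun y => y 0) ⁻¹' {v₀} := by
      ext y
      simp
    rw [hF, a2, ← prob_compl_eq_zero_iff (measurable_pi_apply 0 (measurableSet_singleton _))] at a1
    exact measure_mono_null (fun y hy h0 => hx ((hy 0 n.zero_le).symm.trans h0)) a1
  have key : ∀ n, μ.map (Preorder.frestrictLe n) = ν.map (Preorder.frestrictLe n) := by
    intro n
    refine Measure.ext_of_singleton fun a => ?_
    let x : ℕ → V := fun m => if h : m ≤ n then a ⟨m, Finset.mem_Iic.2 h⟩ else v₀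
    have e : Preorder.frestrictLe (π := fun _ => V) n ⁻¹' {a} = {y : ℕ → V | ∀ m ≤ n, y m = x m} := by
      ext y
      constructor
      · intro hy m hm
        simp only [x, dif_pos hm]
        exact congrFun hy ⟨m, Finset.mem_Iic.2 hm⟩
      · intro hy
        funext m
        have := hy m.1 (Finset.mem_Iic.1 m.2)
        simp only [x, dif_pos (Finset.mem_Iic.1 m.2)] at this
        exact this
    rw [Measure.map_apply (Preorder.measurable_frestrictLe n) (measurableSet_singleton _),
      Measure.map_apply (Preorder.measurable_frestrictLe n) (measurableSet_singleton _), e]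
    by_cases hx : x 0 = v₀
    · rw [h1 n x hx, h2 n x hx]
    · rw [z μ h1 n x hx, z ν h2 n x hx]
  have p1 : IsProjectiveLimit ν fun I => ν.map I.restrict := fun I => rfl
  have p2 : IsProjectiveMeasureFamily fun I : Finset ℕ => ν.map I.restrict :=
    isProjectiveMeasureFamily_map_restrict (X := fun t (ω : ℕ → V) => ω t)
      fun t => (measurable_pi_apply t).aemeasurable
  exact ((isProjectiveLimit_nat_iff p2 μ).2 key).unique p1

lemma exists_model {ι : Type} [Fintype ι] (r : ι → PMF V) (hr : ∀ i, (r i).support.Finite)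
    (B : Type) [Finite B] [Nonempty B] :
    ∃ (S : Type) (_ : Fintype S) (_ : MeasurableSpace S) (_ : DiscreteMeasurableSpace S)
      (q : Measure S) (_ : IsProbabilityMeasure q) (a : S → ι → V) (b : S → B),
      (∀ s, q {s} ≠ 0) ∧ (∀ i w, q {s | a s i = w} = r i w) ∧
      ∀ s x, ∃ s', a s' = a s ∧ b s' = x := by
  classical
  have := Fintype.ofFinite B
  have : ∀ i, Fintype (r i).support := fun i => (hr i).fintype
  let _ : MeasurableSpace B := ⊤
  have : DiscreteMeasurableSpace B := ⟨fun _ => trivial⟩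
  have he : ∀ i, MeasurableEmbedding (Subtype.val : (r i).support → V) := fun i =>
    MeasurableEmbedding.subtype_coe MeasurableSet.of_discrete
  let μ : ∀ i, Measure (r i).support := fun i => (r i).toMeasure.comap Subtype.val
  have hμ : ∀ i w, μ i (Subtype.val ⁻¹' {w}) = r i w := fun i w => by
    rw [(he i).comap_apply, Subtype.image_preimage_coe, inter_comm,
      PMF.toMeasure_apply_inter_support _ MeasurableSet.of_discrete,
      PMF.toMeasure_apply_singleton _ _ MeasurableSet.of_discrete]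
  have : ∀ i, IsProbabilityMeasure (μ i) := fun i => ⟨by
    rw [(he i).comap_apply, image_univ, Subtype.range_coe,
      PMF.toMeasure_apply_eq_one_iff _ MeasurableSet.of_discrete]⟩
  refine ⟨(∀ i, (r i).support) × B, inferInstance, inferInstance, inferInstance,
    (Measure.pi μ).prod (PMF.uniformOfFintype B).toMeasure, inferInstance,
    fun s i => s.1 i, Prod.snd, ?_, ?_, fun s x => ⟨(s.1, x), rfl, rfl⟩⟩
  · rintro ⟨s, x⟩
    rw [← singleton_prod_singleton, Measure.prod_prod, Measure.pi_singleton,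
      PMF.toMeasure_apply_singleton _ _ MeasurableSet.of_discrete]
    refine mul_ne_zero (Finset.prod_ne_zero_iff.2 fun i _ => ?_)
      (PMF.mem_support_uniformOfFintype x)
    have : ({s i} : Set (r i).support) = Subtype.val ⁻¹' {(s i).1} := by
      ext y
      simp [Subtype.ext_iff]
    rw [this, hμ]
    exact (s i).2
  · intro i w
    have : {s : (∀ i, (r i).support) × B | (s.1 i : V) = w} =
        (Function.eval i ⁻¹' (Subtype.val ⁻¹' {w})) ×ˢ univ := by
      ext s
      simp
    rw [this, Measure.prod_prod, measure_univ, mul_one,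
      (measurePreserving_eval μ i).measure_preimage MeasurableSet.of_discrete.nullMeasurableSet, hμ]

variable {Γ S ι : Type} [Group Γ] [MulAction Γ V] [Fintype S] [MeasurableSpace S]
  [DiscreteMeasurableSpace S] [Fintype ι]

lemma cyl (q : Measure S) [IsProbabilityMeasure q] (τ : S → ι → ι) (γ : S → ι → Γ) (rep : ι → V)
    (p : V → PMF V) (hinv : ∀ (g : Γ) v w, p (g • v) (g • w) = p v w)
    (hq : ∀ i w, q {s | γ s i • rep (τ s i) = w} = p (rep i) w) (n : ℕ) (g : Γ) (i : ι)
    (x : ℕ → V) (hx : x 0 = g • rep i) :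
    PP q {ω | ∀ m ≤ n, (g * Zs τ γ i ω m) • rep (st τ i ω m) = x m} =
      ∏ m ∈ Finset.range n, p (x m) (x (m + 1)) := by
  classical
  induction n generalizing g i x with
  | zero => simp [Zs_zero, st_zero, hx]
  | succ n ih =>
    have hm : MeasurableSet
        {ω | ∀ m ≤ n + 1, (g * Zs τ γ i ω m) • rep (st τ i ω m) = x m} := by
      simp only [ofPred_forall]
      exact .iInter fun m => .iInter fun _ =>
        measurable_Zs τ γ i m (fun j z => (g * z) • rep j) (measurableSet_singleton (x m))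
    have e : ∀ s, PP q {ω | consSeq (s, ω) ∈
        {ω | ∀ m ≤ n + 1, (g * Zs τ γ i ω m) • rep (st τ i ω m) = x m}} =
        if γ s i • rep (τ s i) = g⁻¹ • x 1 then
          ∏ m ∈ Finset.range n, p (x (m + 1)) (x (m + 1 + 1)) else 0 := by
      intro s
      split_ifs with h
      · rw [← ih (g * γ s i) (τ s i) (fun m => x (m + 1)) (by rw [mul_smul, h, smul_inv_smul])]
        congr 1
        ext ω
        simp only [mem_ofPred_eq]
        constructor
        · intro h1 m hm
          have := h1 (m + 1) (by omega)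
          rwa [Zs_cons, st_cons, ← mul_assoc] at this
        · intro h1 m hm
          cases m with
          | zero => rw [Zs_zero, st_zero, mul_one, hx]
          | succ m => rw [Zs_cons, st_cons, ← mul_assoc]; exact h1 m (by omega)
      · convert measure_empty (μ := PP q)
        refine eq_empty_of_forall_notMem fun ω h1 => h ?_
        have := h1 (0 + 1) (by omega)
        rw [Zs_cons, st_cons, Zs_zero, st_zero, mul_one, mul_smul] at this
        rw [eq_inv_smul_iff]
        exact this
    rw [step q _ hm, Finset.prod_range_succ']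
    simp only [e, mul_ite, mul_zero]
    rw [← Finset.sum_filter, ← Finset.sum_mul, sum_measure_singleton, mul_comm,
      Finset.coe_filter_univ, hq, ← hinv g, smul_inv_smul, hx]

lemma transfer (c : V → ℂ) {Ω Ω' : Type} [MeasurableSpace Ω] [MeasurableSpace Ω']
    (P : Measure Ω) (P' : Measure Ω') [IsProbabilityMeasure P'] (X : Ω → ℕ → V) (Y : Ω' → ℕ → V)
    (hX : Measurable X) (hY : Measurable Y) (h : P.map X = P'.map Y)
    (ξ : Ω' → Metric.sphere (0 : ℂ) 1)
    (h1 : ∀ᵐ ω ∂P', Tendsto (fun n => c (Y ω n)) atTop (𝓝 (ξ ω : ℂ))) :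
    ∃ η : Ω → Metric.sphere (0 : ℂ) 1, Measurable η ∧
      (∀ᵐ ω ∂P, Tendsto (fun n => c (X ω n)) atTop (𝓝 (η ω : ℂ))) ∧ P.map η = P'.map ξ := by
  classical
  have hc : ∀ n, Measurable fun x : ℕ → V => c (x n) := fun n =>
    (Measurable.of_discrete (f := c)).comp (measurable_pi_apply n)
  let L : (ℕ → V) → ℂ := fun x => limUnder atTop fun n => c (x n)
  have hL : Measurable L :=
    (StronglyMeasurable.limUnder fun n => (hc n).stronglyMeasurable).measurable
  let L' : (ℕ → V) → ℂ := fun x => if L x ∈ Metric.sphere (0 : ℂ) 1 then L x else 1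
  have hL' : Measurable L' :=
    Measurable.ite (hL Metric.isClosed_sphere.measurableSet) hL measurable_const
  let ζ : (ℕ → V) → Metric.sphere (0 : ℂ) 1 := fun x => ⟨L' x, by
    simp only [L']
    split_ifs with h0
    · exact h0
    · simp⟩
  have hζ : Measurable ζ := hL'.subtype_mk
  have h2 : ∀ᵐ ω ∂P', ζ (Y ω) = ξ ω := by
    filter_upwards [h1] with ω hω
    have : L (Y ω) = ξ ω := hω.limUnder_eq
    refine Subtype.ext ?_
    simp only [ζ, L', this, if_pos (ξ ω).2]
  refine ⟨ζ ∘ X, hζ.comp hX, ?_, ?_⟩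
  · refine ae_of_ae_map (p := fun x => Tendsto (fun n => c (x n)) atTop (𝓝 (ζ x : ℂ)))
      hX.aemeasurable ?_
    rw [h, ae_map_iff hY.aemeasurable (measurableSet_tendsto_fun hc hL')]
    filter_upwards [h1, h2] with ω a1 a2
    rw [← a2] at a1
    exact a1
  · rw [← Measure.map_map hζ hX, h, Measure.map_map hζ hY]
    exact Measure.map_congr h2

end Pool.Agent.P.MP_90a4ef_pr.Mk
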