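import Pool.Agent.P.MP_90a4ef_pr.Mk6

/-! The dimension drop for invariant Markov chains of finite range on a set with finitely many
orbits. -/

open MeasureTheory ProbabilityTheory Set Filter Topology UpperHalfPlane
open scoped ENNReal NNReal MatrixGroups

namespace Pool.Agent.P.MP_90a4ef_pr.Mk

lemma exists_rep (Γ V : Type) [Group Γ] [MulAction Γ V]
    (hfin : Finite (MulAction.orbitRel.Quotient Γ V)) (v₀ : V) :
    ∃ (ι : Type) (_ : Fintype ι) (cl : V → ι) (rep : ι → V) (gm : V → Γ),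
      (∀ (g : Γ) w, cl (g • w) = cl w) ∧ (∀ i, cl (rep i) = i) ∧ (∀ w, gm w • rep (cl w) = w) ∧
      rep (cl v₀) = v₀ := by
  classical
  let cl : V → MulAction.orbitRel.Quotient Γ V := Quotient.mk _
  let rep : MulAction.orbitRel.Quotient Γ V → V := fun i => if i = cl v₀ then v₀ else i.out
  have h1 : ∀ i, cl (rep i) = i := fun i => by
    simp only [rep]
    split_ifs with h
    · exact h.symm
    · exact Quotient.out_eq i
  have h2 : ∀ w, ∃ g : Γ, g • rep (cl w) = w := fun w => Quotient.exact (h1 (cl w)).symm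
  choose gm hgm using h2
  exact ⟨_, Fintype.ofFinite _, cl, rep, gm, fun g w => Quotient.sound ⟨g, rfl⟩, h1, hgm,
    if_pos rfl⟩

theorem main (Γ V : Type) [Group Γ] [MulAction Γ V] [Countable V] [MeasurableSpace V]
    [DiscreteMeasurableSpace V] (hfin : Finite (MulAction.orbitRel.Quotient Γ V))
    (p : V → PMF V) (hp : ∀ v, (p v).support.Finite)
    (hinv : ∀ (g : Γ) v w, p (g • v) (g • w) = p v w)
    (hcon : ∀ v w, Relation.EqvGen (fun a b => p a b ≠ 0) v w)
    (hirr : ∀ v w, ∃ g : Γ, Relation.ReflTransGen (fun a b => p a b ≠ 0) v (g • w))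
    (ρ : Γ →* SL(2, ℝ)) (hdisc : DiscreteTopology ρ.range)
    (hcpt : CompactSpace (MulAction.orbitRel.Quotient ρ.range ℍ))
    (f : V → ℍ) (hf : ∀ (g : Γ) v, f (g • v) = ρ g • f v)
    (Ω : Type) [MeasurableSpace Ω] (P : Measure Ω) [IsProbabilityMeasure P] (X : ℕ → Ω → V)
    (hX : ∀ n, Measurable (X n)) (v₀ : V)
    (hlaw : ∀ (n : ℕ) (a : ℕ → V), a 0 = v₀ →
      P {ω | ∀ m ≤ n, X m ω = a m} = ∏ m ∈ Finset.range n, p (a m) (a (m + 1))) :
    ∃ ξ : Ω → Metric.sphere (0 : ℂ) 1, Measurable ξ ∧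
      (∀ᵐ ω ∂P, Tendsto (fun n : ℕ =>
        ((f (X n ω) : ℂ) - Complex.I) / ((f (X n ω) : ℂ) + Complex.I)) atTop (𝓝 (ξ ω : ℂ))) ∧
      ⨅ (A : Set (Metric.sphere (0 : ℂ) 1)) (_ : MeasurableSet A) (_ : P.map ξ A = 1),
        dimH A < 1 := by
  classical
  obtain ⟨ι, _, cl, rep, gm, hcl, hrep, hgm, hv₀⟩ := exists_rep Γ V hfin v₀
  have hL := Lat.of_top ρ.range
  obtain ⟨C, hC⟩ := (Set.finite_range fun i => dist (f (rep i)) I).bddAbove
  replace hC : ∀ i, dist (f (rep i)) I ≤ C := fun i => hC ⟨i, rfl⟩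
  have stab : ∀ (t : Γ) j, t • rep j = rep j → nrm (ρ t) ≤ 2 * C := by
    intro t j ht
    have h1 := dist_triangle (ρ t • I) (ρ t • f (rep j)) I
    rw [dist_smul, ← hf, ht, dist_comm I] at h1
    have := hC j
    unfold nrm
    linarith
  let B := {x : G | x ∈ ρ.range ∧ nrm x ≤ 2 * C}
  have : Finite B := hL.fin (2 * C)
  have : Nonempty B := ⟨⟨ρ 1, ⟨1, rfl⟩, stab 1 (cl v₀) (one_smul _ _)⟩⟩
  have hc : ∀ j (x : B), ∃ c : Γ, c • rep j = rep j ∧
      ∀ t : Γ, t • rep j = rep j → ρ t = x.1 → ρ c = x.1 := by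
    intro j x
    by_cases h : ∃ t : Γ, t • rep j = rep j ∧ ρ t = x.1
    · obtain ⟨t, h1, h2⟩ := h
      exact ⟨t, h1, fun _ _ _ => h2⟩
    · exact ⟨1, one_smul _ _, fun t h1 h2 => absurd ⟨t, h1, h2⟩ h⟩
  choose c hc1 hc2 using hc
  obtain ⟨S, _, _, _, q, _, a, b, hq, hmar, hb⟩ :=
    exists_model (fun i => p (rep i)) (fun i => hp _) B
  let τ : S → ι → ι := fun s i => cl (a s i)
  let γ : S → ι → Γ := fun s i => gm (a s i) * c (cl (a s i)) (b s)
  let σ : S → ι → G := fun s i => ρ (γ s i)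
  have hγ : ∀ s i, γ s i • rep (τ s i) = a s i := fun s i => by
    simp only [γ, τ, mul_smul, hc1, hgm]
  have edge : ∀ (g : Γ) i w, p (g • rep i) w ≠ 0 → ∃ s, a s i = g⁻¹ • w := by
    intro g i w h
    rw [← smul_inv_smul g w, hinv, ← hmar] at h
    exact nonempty_of_measure_ne_zero h
  have hirr' : ∀ i j, Relation.ReflTransGen (fun a b => ∃ s, τ s a = b) i j := by
    intro i j
    obtain ⟨g, hg⟩ := hirr (rep i) (rep j)
    have key : ∀ w, Relation.ReflTransGen (fun a b => p a b ≠ 0) (rep i) w →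
        Relation.ReflTransGen (fun a b => ∃ s, τ s a = b) (cl (rep i)) (cl w) := by
      intro w hw
      induction hw with
      | refl => exact .refl
      | @tail v w _ h ih =>
        rw [← hgm v] at h
        obtain ⟨s, hs⟩ := edge _ _ _ h
        exact ih.tail ⟨s, by simp only [τ, hs, hcl]⟩
    have := key _ hg
    rwa [hcl, hrep, hrep] at this
  have inc : ∀ i, ∃ s l, τ s l = i := by
    intro i
    obtain ⟨s⟩ := nonempty_of_isProbabilityMeasure q
    rcases (hirr' (τ s i) i).cases_tail with h | ⟨l, -, s', h⟩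
    · exact ⟨s, i, h.symm⟩
    · exact ⟨s', l, h⟩
  have fib : ∀ (g : Γ) i, ∃ z, ∀ t : Γ, t • rep i = rep i →
      Con τ σ z (ρ (g * t), i) := by
    intro g i
    obtain ⟨s, l, rfl⟩ := inc i
    refine ⟨(ρ (g * (gm (a s l))⁻¹), l), fun t ht => ?_⟩
    obtain ⟨s', h1, h2⟩ := hb s ⟨ρ t, ⟨t, rfl⟩, stab t _ ht⟩
    refine .rel _ _ ⟨s', Prod.ext ?_ (by simp only [τ, h1])⟩
    have := hc2 (τ s l) (b s') t ht (by rw [h2])
    rw [h2] at this
    simp only [σ, γ, h1, h2, map_mul, map_inv, mul_assoc, inv_mul_cancel_left]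
    rw [this]
  have same : ∀ (g g' : Γ) i j, g • rep i = g' • rep j → Con τ σ (ρ g, i) (ρ g', j) := by
    intro g g' i j h
    have h1 := congrArg cl h
    rw [hcl, hcl, hrep, hrep] at h1
    subst h1
    obtain ⟨z, hz⟩ := fib g i
    have a1 := hz 1 (one_smul _ _)
    have a2 := hz (g⁻¹ * g') (by rw [mul_smul, ← h, inv_smul_smul])
    rw [mul_one] at a1
    rw [mul_inv_cancel_left] at a2
    exact .trans _ _ _ (.symm _ _ a1) a2
  have lift : ∀ v w, Relation.EqvGen (fun a b => p a b ≠ 0) v w → ∀ (g g' : Γ) i j,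
      g • rep i = v → g' • rep j = w → Con τ σ (ρ g, i) (ρ g', j) := by
    intro v w h
    induction h with
    | rel v w h =>
      rintro g g' i j rfl rfl
      obtain ⟨s, hs⟩ := edge _ _ _ h
      refine .trans _ (ρ (g * γ s i), τ s i) _ (.rel _ _ ⟨s, by rw [map_mul]⟩) (same _ _ _ _ ?_)
      rw [mul_smul, hγ, hs, smul_inv_smul]
    | refl v => exact fun g g' i j h1 h2 => same _ _ _ _ (h1.trans h2.symm)
    | symm v w _ ih => exact fun g g' i j h1 h2 => .symm _ _ (ih _ _ _ _ h2 h1)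
    | trans v w x _ _ ih1 ih2 =>
      exact fun g g' i j h1 h2 => .trans _ _ _ (ih1 _ _ _ _ h1 (hgm w)) (ih2 _ _ _ _ (hgm w) h2)
  obtain ⟨ξ, hξ, hconv, A, hA, hA0, hA1⟩ := canonical q hq τ σ hirr' hL (fun s i => ⟨_, rfl⟩)
    (cl v₀) (by
      rintro _ ⟨g, rfl⟩
      have := lift _ _ (hcon _ _) 1 g (cl v₀) (cl v₀) rfl rfl
      rwa [map_one] at this) I
  have hZ : ∀ ω n, ρ (Zs τ γ (cl v₀) ω n) = Zs τ σ (cl v₀) ω n := by
    intro ω n
    induction n with
    | zero => rw [Zs_zero, Zs_zero, map_one]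
    | succ n ih => rw [Zs_succ, Zs_succ, map_mul, ih]
  let Y : (ℕ → S) → ℕ → V := fun ω n => (1 * Zs τ γ (cl v₀) ω n) • rep (st τ (cl v₀) ω n)
  have hY : Measurable Y := measurable_pi_iff.2 fun n =>
    measurable_Zs τ γ (cl v₀) n fun j z => (1 * z) • rep j
  have hX' : Measurable fun ω n => X n ω := measurable_pi_iff.2 hX
  have hcy : ∀ n (x : ℕ → V), MeasurableSet {y : ℕ → V | ∀ m ≤ n, y m = x m} := by
    intro n x
    simp only [ofPred_forall]
    exact .iInter fun m => .iInter fun _ =>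
      (measurable_pi_apply (X := fun _ => V) m) (measurableSet_singleton (x m))
  have := Measure.isProbabilityMeasure_map (μ := P) hX'.aemeasurable
  have := Measure.isProbabilityMeasure_map (μ := PP q) hY.aemeasurable
  have hmap : P.map (fun ω n => X n ω) = (PP q).map Y := by
    refine law_eq _ _ v₀ (fun n x => ∏ m ∈ Finset.range n, p (x m) (x (m + 1))) (by simp)
      (fun n x hx => ?_) fun n x hx => ?_
    · rw [Measure.map_apply hX' (hcy n x)]
      exact hlaw n x hx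
    · rw [Measure.map_apply hY (hcy n x)]
      exact cyl q τ γ rep p hinv (by simpa only [hγ] using hmar) n 1 (cl v₀) x
        (by rw [one_smul, hv₀, hx])
  obtain ⟨η, hη, h1, h2⟩ := transfer
    (fun v => ((f v : ℂ) - Complex.I) / ((f v : ℂ) + Complex.I)) P (PP q) _ Y hX' hY hmap ξ (by
      filter_upwards [hconv] with ω hω
      refine near (R := C) (fun n => ?_) (mem_sphere_zero_iff_norm.1 (ξ ω).2) hω
      simp only [Y]
      rw [hf, one_mul, hZ, dist_smul, dist_comm]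
      exact hC _)
  refine ⟨η, hη, h1, lt_of_le_of_lt (iInf_le_of_le A (iInf₂_le hA ?_)) hA1⟩
  rw [h2, Measure.map_apply hξ hA]
  exact (prob_compl_eq_zero_iff (hξ hA)).1 hA0

end Pool.Agent.P.MP_90a4ef_pr.Mk
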