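import Pool.Agent.P.MP_90a4ef_pr.Main

/-! Uniform geometry of discrete subgroups of SL(2,R) with a fixed cocompactness constant. -/

open Set Filter Topology UpperHalfPlane
open scoped MatrixGroups

namespace Pool.Agent.P.MP_90a4ef_pr

/-- two by two matrices -/
abbrev M2 := Matrix (Fin 2) (Fin 2) ℝ

/-- entrywise size -/
def N4 (A : M2) : ℝ := |A 0 0| + |A 0 1| + |A 1 0| + |A 1 1|

lemma N4_nonneg (A : M2) : 0 ≤ N4 A := by unfold N4; positivity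

lemma N4_mul (A B : M2) : N4 (A * B) ≤ N4 A * N4 B := by
  simp only [N4, Matrix.mul_apply, Fin.sum_univ_two]
  have h : ∀ a b c d : ℝ, |a * b + c * d| ≤ |a| * |b| + |c| * |d| := fun a b c d => by
    rw [← abs_mul, ← abs_mul]; exact abs_add_le _ _
  have h1 := h (A 0 0) (B 0 0) (A 0 1) (B 1 0)
  have h2 := h (A 0 0) (B 0 1) (A 0 1) (B 1 1)
  have h3 := h (A 1 0) (B 0 0) (A 1 1) (B 1 0)
  have h4 := h (A 1 0) (B 0 1) (A 1 1) (B 1 1)
  have h5 := mul_nonneg (add_nonneg (abs_nonneg (A 0 0)) (abs_nonneg (A 1 0)))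
    (add_nonneg (abs_nonneg (B 1 0)) (abs_nonneg (B 1 1)))
  have h6 := mul_nonneg (add_nonneg (abs_nonneg (A 0 1)) (abs_nonneg (A 1 1)))
    (add_nonneg (abs_nonneg (B 0 0)) (abs_nonneg (B 0 1)))
  nlinarith

lemma N4_mul3 {A B C : M2} {a b c : ℝ} (ha : N4 A ≤ a) (hb : N4 B ≤ b) (hc : N4 C ≤ c) :
    N4 (A * B * C) ≤ a * b * c := by
  have h0 := N4_nonneg A
  have h1 := N4_nonneg B
  have h2 := N4_nonneg C
  refine (N4_mul _ _).trans (mul_le_mul ((N4_mul _ _).trans ?_) hc h2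
    (mul_nonneg (h0.trans ha) (h1.trans hb)))
  exact mul_le_mul ha hb h1 (h0.trans ha)

lemma N4_sub (A B : M2) : N4 (A - B) ≤ N4 A + N4 B := by
  simp only [N4, Matrix.sub_apply]
  linarith [abs_sub (A 0 0) (B 0 0), abs_sub (A 0 1) (B 0 1), abs_sub (A 1 0) (B 1 0),
    abs_sub (A 1 1) (B 1 1)]

lemma N4_smul (c : ℝ) (A : M2) : N4 (c • A) = |c| * N4 A := by
  simp only [N4, Matrix.smul_apply, smul_eq_mul, abs_mul]
  ring

lemma N4_inv (g : G) : N4 (g⁻¹ : G) = N4 g := by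
  have h1 := inv00 g
  have h2 := inv01 g
  have h3 := inv10 g
  have h4 := inv11 g
  change |g⁻¹ 0 0| + |g⁻¹ 0 1| + |g⁻¹ 1 0| + |g⁻¹ 1 1| = |g 0 0| + |g 0 1| + |g 1 0| + |g 1 1|
  rw [h1, h2, h3, h4, abs_neg, abs_neg]
  ring

lemma N4_le {g : G} {C : ℝ} (h : nrm g ≤ C) : N4 g ≤ 8 * Real.cosh C := by
  change |g 0 0| + |g 0 1| + |g 1 0| + |g 1 1| ≤ _
  linarith [entry_le h 0 0, entry_le h 0 1, entry_le h 1 0, entry_le h 1 1]

lemma nrm_le_sq (g : G) : nrm g ≤ g 0 0 ^ 2 + g 0 1 ^ 2 + g 1 0 ^ 2 + g 1 1 ^ 2 := by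
  rw [← cosh_nrm]
  have h1 := Real.self_le_sinh_iff.2 (show 0 ≤ nrm g from dist_nonneg)
  have h2 := Real.sinh_lt_cosh (nrm g)
  have h3 := Real.cosh_pos (nrm g)
  linarith

lemma N4_one : N4 1 = 2 := by
  simp [N4]
  norm_num

lemma N4_eq_zero {A : M2} (h : N4 A = 0) : A = 0 := by
  unfold N4 at h
  have a := abs_nonneg (A 0 0)
  have b := abs_nonneg (A 0 1)
  have c := abs_nonneg (A 1 0)
  have d := abs_nonneg (A 1 1)
  ext i j
  fin_cases i <;> fin_cases j <;> simp only [Matrix.zero_apply] <;> rw [← abs_eq_zero] <;>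
    simp only [Fin.zero_eta, Fin.mk_one, Fin.isValue] <;> linarith

lemma continuous_N4 : Continuous N4 := by
  unfold N4
  fun_prop

lemma continuous_nrm : Continuous nrm :=
  isProperMap_smul_I.continuous.dist continuous_const

lemma cinv (g : G) : (g : M2) * (g⁻¹ : G) = 1 := by
  rw [← Matrix.SpecialLinearGroup.coe_mul, mul_inv_cancel, Matrix.SpecialLinearGroup.coe_one]

lemma invc (g : G) : ((g⁻¹ : G) : M2) * g = 1 := by
  rw [← Matrix.SpecialLinearGroup.coe_mul, inv_mul_cancel, Matrix.SpecialLinearGroup.coe_one]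

lemma comm_prop (a b : G) (h : a * b = b * a) (htr : a 0 0 + a 1 1 = b 0 0 + b 1 1)
    (hX : (a : M2) - ((a 0 0 + a 1 1) / 2) • (1 : M2) ≠ 0) :
    ∃ l : ℝ, (b : M2) - ((a 0 0 + a 1 1) / 2) • (1 : M2) =
      l • ((a : M2) - ((a 0 0 + a 1 1) / 2) • (1 : M2)) ∧
      (l ^ 2 = 1 ∨ ((a 0 0 + a 1 1) / 2) ^ 2 = 1) := by
  have e00 : (a * b) 0 0 = (b * a) 0 0 := by rw [h]
  have e01 : (a * b) 0 1 = (b * a) 0 1 := by rw [h]
  have e10 : (a * b) 1 0 = (b * a) 1 0 := by rw [h]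
  rw [mul_ij, mul_ij] at e00 e01 e10
  have da := det_eq a
  have db := det_eq b
  obtain ⟨p, hp⟩ : ∃ p, p = (a 0 0 - a 1 1) / 2 := ⟨_, rfl⟩
  obtain ⟨p', hp'⟩ : ∃ p, p = (b 0 0 - b 1 1) / 2 := ⟨_, rfl⟩
  have c1 : a 0 1 * b 1 0 = b 0 1 * a 1 0 := by linarith
  have c2 : p * b 0 1 = p' * a 0 1 := by rw [hp, hp']; linarith
  have c3 : p * b 1 0 = p' * a 1 0 := by rw [hp, hp']; linarith
  have hs : p ^ 2 + a 0 1 ^ 2 + a 1 0 ^ 2 ≠ 0 := by
    intro h0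
    have z1 : p = 0 := by nlinarith [sq_nonneg p, sq_nonneg (a 0 1), sq_nonneg (a 1 0)]
    have z2 : a 0 1 = 0 := by nlinarith [sq_nonneg p, sq_nonneg (a 0 1), sq_nonneg (a 1 0)]
    have z3 : a 1 0 = 0 := by nlinarith [sq_nonneg p, sq_nonneg (a 0 1), sq_nonneg (a 1 0)]
    apply hX
    ext i j
    fin_cases i <;> fin_cases j <;> simp <;> linarith
  obtain ⟨l, hl⟩ : ∃ l, l = (p * p' + a 0 1 * b 0 1 + a 1 0 * b 1 0) /
    (p ^ 2 + a 0 1 ^ 2 + a 1 0 ^ 2) := ⟨_, rfl⟩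
  have l1 : p' = l * p := by
    rw [hl, div_mul_eq_mul_div, eq_div_iff hs]
    linear_combination -(a 0 1) * c2 - (a 1 0) * c3
  have l2 : b 0 1 = l * a 0 1 := by
    rw [hl, div_mul_eq_mul_div, eq_div_iff hs]
    linear_combination p * c2 - (a 1 0) * c1
  have l3 : b 1 0 = l * a 1 0 := by
    rw [hl, div_mul_eq_mul_div, eq_div_iff hs]
    linear_combination p * c3 + (a 0 1) * c1
  have b0 : b 0 0 = (a 0 0 + a 1 1) / 2 + l * p := by linarith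
  have b1 : b 1 1 = (a 0 0 + a 1 1) / 2 - l * p := by linarith
  refine ⟨l, ?_, ?_⟩
  · ext i j
    fin_cases i <;> fin_cases j <;> simp
    · rw [b0, hp]; ring
    · exact l2
    · exact l3
    · rw [b1, hp]; ring
  · have q1 : ((a 0 0 + a 1 1) / 2) ^ 2 - (p ^ 2 + a 0 1 * a 1 0) = 1 := by
      rw [hp]; linear_combination da
    have q2 : (l ^ 2 - 1) * (p ^ 2 + a 0 1 * a 1 0) = 0 := by
      rw [b0, b1, l2, l3] at db
      linear_combination q1 - db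
    rcases mul_eq_zero.1 q2 with h1 | h1
    · left; linarith
    · right; linarith

/-- finitely many elements in each ball -/
def FinG (Γ : Subgroup G) : Prop := ∀ C, {γ | γ ∈ Γ ∧ nrm γ ≤ C}.Finite

/-- cocompact with constant `C` -/
def Coc (C : ℝ) (Γ : Subgroup G) : Prop := ∀ T : G, ∃ γ ∈ Γ, nrm (γ * T) ≤ C

/-- a shear -/
def shear (t : ℝ) : G := ⟨!![1, t; 0, 1], by simp⟩

theorem sep (C : ℝ) : ∃ ε, 0 < ε ∧ ∀ Γ, FinG Γ → Coc C Γ → ∀ γ ∈ Γ, γ ≠ 1 →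
    ε ≤ N4 ((γ : M2) - 1) := by
  obtain ⟨K, hK⟩ : ∃ K, K = 8 * Real.cosh C := ⟨_, rfl⟩
  obtain ⟨t, ht⟩ : ∃ t, t = 5 * K ^ 2 + 1 := ⟨_, rfl⟩
  have ht1 : 1 ≤ t := by nlinarith [sq_nonneg K]
  obtain ⟨C', hC'⟩ : ∃ C', C' = C + (nrm (dg (Real.log t)) + nrm (dg (-Real.log t)) +
    nrm (shear t)) := ⟨_, rfl⟩
  obtain ⟨L, hL⟩ : ∃ L, L = 8 * Real.cosh C' := ⟨_, rfl⟩
  have hL1 : 1 ≤ L := by linarith [Real.one_le_cosh C']
  have hL4 : 1 ≤ L ^ 4 := one_le_pow₀ hL1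
  refine ⟨1 / (18 * L ^ 4), by positivity, fun Γ hf hc => ?_⟩
  by_contra! hcon
  obtain ⟨γ₀, hγ₀, hne₀, hlt₀⟩ := hcon
  have hε1 : 1 / (18 * L ^ 4) ≤ 1 := by
    rw [div_le_one (by positivity)]; linarith
  have hfin : {γ | γ ∈ Γ ∧ γ ≠ 1 ∧ N4 ((γ : M2) - 1) ≤ 1}.Finite := by
    refine (hf 10).subset fun γ hγ => ⟨hγ.1, (nrm_le_sq γ).trans ?_⟩
    have h1 : |γ 0 0 - 1| + |γ 0 1| + |γ 1 0| + |γ 1 1 - 1| ≤ 1 := by
      simpa [N4] using hγ.2.2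
    have a1 := abs_le.1 (show |γ 0 0 - 1| ≤ 1 by
      linarith [abs_nonneg (γ 0 1), abs_nonneg (γ 1 0), abs_nonneg (γ 1 1 - 1)])
    have a2 := abs_le.1 (show |γ 0 1| ≤ 1 by
      linarith [abs_nonneg (γ 0 0 - 1), abs_nonneg (γ 1 0), abs_nonneg (γ 1 1 - 1)])
    have a3 := abs_le.1 (show |γ 1 0| ≤ 1 by
      linarith [abs_nonneg (γ 0 1), abs_nonneg (γ 0 0 - 1), abs_nonneg (γ 1 1 - 1)])
    have a4 := abs_le.1 (show |γ 1 1 - 1| ≤ 1 by
      linarith [abs_nonneg (γ 0 1), abs_nonneg (γ 1 0), abs_nonneg (γ 0 0 - 1)])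
    nlinarith [a1.1, a1.2, a2.1, a2.2, a3.1, a3.2, a4.1, a4.2]
  obtain ⟨a, ⟨ha, hane, -⟩, hmin⟩ := Set.exists_min_image _ (fun γ : G => N4 ((γ : M2) - 1)) hfin
    ⟨γ₀, hγ₀, hne₀, by linarith⟩
  obtain ⟨δ, hδ⟩ : ∃ δ, δ = N4 ((a : M2) - 1) := ⟨_, rfl⟩
  have hδε : δ < 1 / (18 * L ^ 4) := by
    rw [hδ]; exact (hmin γ₀ ⟨hγ₀, hne₀, by linarith⟩).trans_lt hlt₀
  have hδ1 : δ < 1 := by linarith
  have hmin' : ∀ b ∈ Γ, b ≠ 1 → δ ≤ N4 ((b : M2) - 1) := by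
    intro b hb hb1
    rcases le_total (N4 ((b : M2) - 1)) 1 with h | h
    · rw [hδ]; exact hmin b ⟨hb, hb1, h⟩
    · linarith
  have hδ0 : 0 < δ := by
    rw [hδ]
    refine (N4_nonneg _).lt_of_ne fun h => hane (Subtype.ext ?_)
    exact sub_eq_zero.1 (N4_eq_zero h.symm)
  have ha3 : N4 a ≤ 3 := by
    have := N4_sub ((a : M2) - 1) ((-1 : ℝ) • (1 : M2))
    rw [N4_smul, N4_one, ← hδ] at this
    simp at this
    linarith
  have hent : |a 0 0 - 1| + |a 0 1| + |a 1 0| + |a 1 1 - 1| = δ := by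
    rw [hδ]; simp [N4]
  have hτ : 0 < (a 0 0 + a 1 1) / 2 := by
    linarith [abs_nonneg (a 0 1), abs_nonneg (a 1 0), neg_abs_le (a 0 0 - 1),
      neg_abs_le (a 1 1 - 1)]
  obtain ⟨X, hXe⟩ : ∃ X, X = (a : M2) - ((a 0 0 + a 1 1) / 2) • (1 : M2) := ⟨_, rfl⟩
  have x00 : X 0 0 = (a 0 0 - a 1 1) / 2 := by rw [hXe]; simp; ring
  have x01 : X 0 1 = a 0 1 := by rw [hXe]; simp
  have x10 : X 1 0 = a 1 0 := by rw [hXe]; simp
  have x11 : X 1 1 = -((a 0 0 - a 1 1) / 2) := by rw [hXe]; simp; ring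
  have hX : X ≠ 0 := by
    intro h0
    rw [h0] at x00 x01 x10
    simp only [Matrix.zero_apply] at x00 x01 x10
    have hd := det_eq a
    have e1 : a 1 1 = a 0 0 := by linarith
    rw [e1, ← x01] at hd
    rw [e1] at hτ
    have e2 : a 0 0 = 1 := by nlinarith
    exact hane (ext4 (by simpa using e2) (by simpa using x01.symm) (by simpa using x10.symm)
      (by simpa using e1.trans e2))
  have key : ∀ g ∈ Γ, nrm g ≤ C' → ∃ l : ℝ, 1 ≤ |l| ∧ (g : M2) * X * (g⁻¹ : G) = l • X := by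
    intro g hg hgC
    have g1 : N4 g ≤ L := hL ▸ N4_le hgC
    have g2 : N4 (g⁻¹ : G) ≤ L := by rwa [N4_inv]
    obtain ⟨b, hb⟩ : ∃ b, b = g * a * g⁻¹ := ⟨_, rfl⟩
    have hbΓ : b ∈ Γ := hb ▸ Γ.mul_mem (Γ.mul_mem hg ha) (Γ.inv_mem hg)
    have hbc : (b : M2) = (g : M2) * a * (g⁻¹ : G) := by
      rw [hb, Matrix.SpecialLinearGroup.coe_mul, Matrix.SpecialLinearGroup.coe_mul]
    have hb1 : (b : M2) - 1 = (g : M2) * ((a : M2) - 1) * (g⁻¹ : G) := by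
      rw [mul_sub, sub_mul, mul_one, cinv, hbc]
    have n1 : N4 ((b : M2) - 1) ≤ L * δ * L := hb1 ▸ N4_mul3 g1 hδ.ge g2
    have n2 : N4 (b⁻¹ : G) ≤ L * 3 * L := by
      rw [N4_inv, hbc]; exact N4_mul3 g1 ha3 g2
    have hcomm : a * b = b * a := by
      by_contra hne
      have hne' : a * b * a⁻¹ * b⁻¹ ≠ 1 := by
        intro h1
        apply hne
        rwa [mul_inv_eq_one, mul_inv_eq_iff_eq_mul] at h1
      have m1 := hmin' _ (Γ.mul_mem (Γ.mul_mem (Γ.mul_mem ha hbΓ) (Γ.inv_mem ha))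
        (Γ.inv_mem hbΓ)) hne'
      have e1 : ((a * b * a⁻¹ * b⁻¹ : G) : M2) - 1 =
          (((a : M2) - 1) * ((b : M2) - 1) - ((b : M2) - 1) * ((a : M2) - 1)) *
            (a⁻¹ : G) * (b⁻¹ : G) := by
        have : ((a : M2) - 1) * ((b : M2) - 1) - ((b : M2) - 1) * ((a : M2) - 1) =
            (a : M2) * b - (b : M2) * a := by noncomm_ring
        rw [this, sub_mul, sub_mul, mul_assoc (b : M2), cinv, mul_one, cinv]
        simp only [Matrix.SpecialLinearGroup.coe_mul]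
      have n3 : N4 (((a : M2) - 1) * ((b : M2) - 1) - ((b : M2) - 1) * ((a : M2) - 1)) ≤
          2 * (δ * (L * δ * L)) := by
        have s1 := N4_sub (((a : M2) - 1) * ((b : M2) - 1)) (((b : M2) - 1) * ((a : M2) - 1))
        have s2 := N4_mul ((a : M2) - 1) ((b : M2) - 1)
        have s3 := N4_mul ((b : M2) - 1) ((a : M2) - 1)
        rw [← hδ] at s2 s3
        nlinarith
      have n4 := N4_mul3 n3 (show N4 (a⁻¹ : G) ≤ 3 by rwa [N4_inv]) n2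
      rw [← e1] at n4
      rw [lt_div_iff₀ (by positivity)] at hδε
      nlinarith
    have htr : a 0 0 + a 1 1 = b 0 0 + b 1 1 := by
      have hd := det_eq g
      rw [hb]
      simp only [mul_ij, inv00, inv01, inv10, inv11]
      linear_combination -(a 0 0 + a 1 1) * hd
    obtain ⟨l, hl, hl2⟩ := comm_prop a b hcomm htr (hXe ▸ hX)
    rw [← hXe] at hl
    refine ⟨l, ?_, ?_⟩
    · rcases hl2 with h1 | h1
      · exact ((sq_eq_sq₀ (abs_nonneg l) zero_le_one).1 (by rw [sq_abs, h1, one_pow])).ge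
      · have e1 : (a 0 0 + a 1 1) / 2 = 1 :=
          (sq_eq_sq₀ hτ.le zero_le_one).1 (by rw [h1, one_pow])
        rw [e1, one_smul] at hl hXe
        have m1 := hmin' b hbΓ (by
          intro h2
          apply hane
          rw [hb, mul_inv_eq_one, mul_eq_left] at h2
          exact h2)
        rw [hl, N4_smul, hXe, ← hδ] at m1
        exact le_of_mul_le_mul_right (by rwa [one_mul]) hδ0
    · rw [← hl, hXe, mul_sub, sub_mul, hbc, Matrix.mul_smul, mul_one, Matrix.smul_mul, cinv]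
  have fin : ∀ T : G, nrm T ≤ C' - C → N4 (((T⁻¹ : G) : M2) * X * T) ≤ K * N4 X * K := by
    intro T hT
    obtain ⟨γ, hγ, hE⟩ := hc T
    have h1 : nrm γ⁻¹ ≤ C' := by
      have := nrm_mul (γ * T) T⁻¹
      rw [mul_inv_cancel_right, nrm_inv] at this
      rw [nrm_inv]
      linarith
    obtain ⟨l, hl, he⟩ := key _ (Γ.inv_mem hγ) h1
    rw [inv_inv] at he
    have e1 : (((γ * T)⁻¹ : G) : M2) * X * (γ * T : G) = l • (((T⁻¹ : G) : M2) * X * T) := by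
      rw [mul_inv_rev, Matrix.SpecialLinearGroup.coe_mul, Matrix.SpecialLinearGroup.coe_mul,
        ← Matrix.smul_mul, ← Matrix.mul_smul, ← he]
      simp only [mul_assoc]
    have g1 : N4 (γ * T : G) ≤ K := hK ▸ N4_le hE
    have n1 := N4_mul3 (show N4 ((γ * T)⁻¹ : G) ≤ K by rwa [N4_inv]) (le_refl (N4 X)) g1
    rw [e1, N4_smul] at n1
    nlinarith [N4_nonneg (((T⁻¹ : G) : M2) * X * T)]
  have p1 : 0 ≤ nrm (dg (Real.log t)) := dist_nonneg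
  have p2 : 0 ≤ nrm (dg (-Real.log t)) := dist_nonneg
  have p3 : 0 ≤ nrm (shear t) := dist_nonneg
  have f1 := fin (dg (Real.log t)) (by linarith)
  have f2 := fin (dg (-Real.log t)) (by linarith)
  have f3 := fin (shear t) (by linarith)
  have le01 : ∀ A : M2, |A 0 1| ≤ N4 A := fun A => by
    unfold N4; linarith [abs_nonneg (A 0 0), abs_nonneg (A 1 0), abs_nonneg (A 1 1)]
  have le10 : ∀ A : M2, |A 1 0| ≤ N4 A := fun A => by
    unfold N4; linarith [abs_nonneg (A 0 0), abs_nonneg (A 0 1), abs_nonneg (A 1 1)]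
  have ex : Real.exp (Real.log t) = t := Real.exp_log (by linarith)
  have ent : ∀ (T : G) (i j : Fin 2), (((T⁻¹ : G) : M2) * X * T) i j =
      (T⁻¹ i 0 * X 0 0 + T⁻¹ i 1 * X 1 0) * T 0 j + (T⁻¹ i 0 * X 0 1 + T⁻¹ i 1 * X 1 1) * T 1 j := by
    intro T i j
    simp only [Matrix.mul_apply, Fin.sum_univ_two]
  have k1 : t ^ 2 * |X 1 0| ≤ K * N4 X * K := by
    refine le_trans (le_of_eq ?_) ((le10 _).trans f1)
    rw [ent, inv10, inv11, dg00, dg10, ex, ← abs_of_nonneg (sq_nonneg t), ← abs_mul]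
    congr 1; ring
  have k2 : t ^ 2 * |X 0 1| ≤ K * N4 X * K := by
    refine le_trans (le_of_eq ?_) ((le01 _).trans f2)
    rw [ent, inv00, inv01, dg11, dg01, neg_neg, ex, ← abs_of_nonneg (sq_nonneg t), ← abs_mul]
    congr 1; ring
  have k3 : |2 * t * X 0 0 - (t ^ 2 * X 1 0 - X 0 1)| ≤ K * N4 X * K := by
    refine le_trans (le_of_eq ?_) ((le01 _).trans f3)
    have s1 : shear t 0 1 = t := rfl
    have s2 : shear t 1 1 = 1 := rfl
    rw [ent, inv00, inv01, s1, s2, x11, ← x00]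
    congr 1; ring
  have k4 := abs_sub_abs_le_abs_sub (2 * t * X 0 0) (t ^ 2 * X 1 0 - X 0 1)
  have k5 := abs_sub (t ^ 2 * X 1 0) (X 0 1)
  rw [abs_mul, abs_of_nonneg (show 0 ≤ 2 * t by linarith)] at k4
  rw [abs_mul, abs_of_nonneg (sq_nonneg t)] at k5
  have k6 : N4 X = 2 * |X 0 0| + |X 0 1| + |X 1 0| := by
    unfold N4; rw [x11, ← x00, abs_neg]; ring
  have k7 : 0 < N4 X := (N4_nonneg X).lt_of_ne fun h => hX (N4_eq_zero h.symm)
  have t2 : t ≤ t ^ 2 := by nlinarith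
  have k8 : t * |X 0 1| ≤ t ^ 2 * |X 0 1| := mul_le_mul_of_nonneg_right t2 (abs_nonneg _)
  have k9 : t * |X 1 0| ≤ t ^ 2 * |X 1 0| := mul_le_mul_of_nonneg_right t2 (abs_nonneg _)
  have k10 : |X 0 1| ≤ t * |X 0 1| := le_mul_of_one_le_left (abs_nonneg _) ht1
  have k11 : t * N4 X ≤ 5 * (K * N4 X * K) := by
    nth_rewrite 1 [k6]
    linarith
  rw [ht] at k11
  nlinarith

theorem cnt (C C' : ℝ) : ∃ N : ℕ, ∀ Γ, FinG Γ → Coc C Γ → ∀ T : Finset G,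
    (∀ γ ∈ T, γ ∈ Γ ∧ nrm γ ≤ C') → T.card ≤ N := by
  classical
  obtain ⟨ε, hε, hsep⟩ := sep C
  obtain ⟨F, hF⟩ : ∃ F : G → ℝ, ∀ g, F g = N4 ((g : M2) - 1) := ⟨_, fun _ => rfl⟩
  have hc0 : Continuous F := by
    rw [funext hF]
    simp only [N4, Matrix.sub_apply]
    fun_prop
  have hF1 : F 1 = 0 := by rw [hF]; simp [N4]
  simp only [← hF] at hsep
  have h1 : ∀ x : G, ∃ U ∈ 𝓝 x, ∀ y ∈ U, ∀ y' ∈ U, F (y⁻¹ * y') < ε := by
    intro x
    have hc : Continuous fun p : G × G => F (p.1⁻¹ * p.2) :=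
      hc0.comp (continuous_fst.inv.mul continuous_snd)
    have h2 : {p : G × G | F (p.1⁻¹ * p.2) < ε} ∈ 𝓝 (x, x) :=
      (isOpen_lt hc continuous_const).mem_nhds (by
        simp only [mem_ofPred_eq, inv_mul_cancel, hF1, hε])
    obtain ⟨U, hU, V, hV, h3⟩ := mem_nhds_prod_iff.1 h2
    refine ⟨U ∩ V, inter_mem hU hV, fun y hy y' hy' => ?_⟩
    have h4 := h3 (mk_mem_prod hy.1 hy'.2)
    simpa only [mem_ofPred_eq] using h4
  choose U hU hUε using h1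
  obtain ⟨t, -, ht⟩ := (isCompact_nrm C').elim_nhds_subcover U fun x _ => hU x
  refine ⟨t.card, fun Γ hf hc T hT => ?_⟩
  have h2 : ∀ γ : G, ∃ x, γ ∈ T → x ∈ t ∧ γ ∈ U x := by
    intro γ
    by_cases h : γ ∈ T
    · obtain ⟨x, hx, h3⟩ := mem_iUnion₂.1 (ht (hT γ h).2)
      exact ⟨x, fun _ => ⟨hx, h3⟩⟩
    · exact ⟨1, fun h' => absurd h' h⟩
  choose f hf' using h2
  refine Finset.card_le_card_of_injOn f (fun γ hγ => (hf' γ hγ).1) fun γ hγ γ' hγ' h => ?_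
  by_contra hne
  have := hsep Γ hf hc (γ⁻¹ * γ') (Γ.mul_mem (Γ.inv_mem (hT γ hγ).1) (hT γ' hγ').1)
    (fun h1 => hne (inv_mul_eq_one.1 h1))
  exact not_lt.2 this (hUε _ γ (hf' γ hγ).2 γ' (h ▸ (hf' γ' hγ').2))

lemma ulim {X : Type*} [TopologicalSpace X] {K : Set X} (hK : IsCompact K) (f : ℕ → X)
    (hf : ∀ n, f n ∈ K) : ∃ x ∈ K, Tendsto f (hyperfilter ℕ) (𝓝 x) :=
  hK.ultrafilter_le_nhds ((hyperfilter ℕ).map f)
    (le_principal_iff.2 (mem_map.2 (Eventually.of_forall hf)))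

/-- the limit of a sequence of subgroups along an ultrafilter -/
def Lim (Γ : ℕ → Subgroup G) : Subgroup G where
  carrier := {g | ∃ γ : ℕ → G, (∀ n, γ n ∈ Γ n) ∧ Tendsto γ (hyperfilter ℕ) (𝓝 g)}
  mul_mem' := by
    rintro a b ⟨x, hx, ha⟩ ⟨y, hy, hb⟩
    exact ⟨fun n => x n * y n, fun n => (Γ n).mul_mem (hx n) (hy n), ha.mul hb⟩
  one_mem' := ⟨fun _ => 1, fun n => (Γ n).one_mem, tendsto_const_nhds⟩
  inv_mem' := by
    rintro a ⟨x, hx, ha⟩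
    exact ⟨fun n => (x n)⁻¹, fun n => (Γ n).inv_mem (hx n), ha.inv⟩

lemma lat_Lim {C : ℝ} {Γ : ℕ → Subgroup G} (hf : ∀ n, FinG (Γ n)) (hc : ∀ n, Coc C (Γ n)) :
    Lat (Lim Γ) where
  fin C' := by
    classical
    by_contra hinf
    obtain ⟨N, hN⟩ := cnt C (C' + 1)
    obtain ⟨T, hT, hcard⟩ := Set.Infinite.exists_subset_card_eq hinf (N + 1)
    have h1 : ∀ g : G, ∃ γ : ℕ → G, g ∈ T → (∀ n, γ n ∈ Γ n) ∧
        Tendsto γ (hyperfilter ℕ) (𝓝 g) := by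
      intro g
      by_cases h : g ∈ T
      · obtain ⟨γ, h2⟩ := (hT h).1
        exact ⟨γ, fun _ => h2⟩
      · exact ⟨fun _ => 1, fun h' => absurd h' h⟩
    choose γ hγ using h1
    have e1 : ∀ᶠ n in (hyperfilter ℕ : Filter ℕ), ∀ g ∈ T, nrm (γ g n) ≤ C' + 1 := by
      refine (eventually_all_finset T).2 fun g hg => ?_
      exact (((continuous_nrm.tendsto g).comp (hγ g hg).2).eventually
        (gt_mem_nhds (lt_of_le_of_lt (hT hg).2 (lt_add_one C')))).mono fun n hn => le_of_lt hn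
    have e2 : ∀ᶠ n in (hyperfilter ℕ : Filter ℕ), ∀ g ∈ T, ∀ g' ∈ T, γ g n = γ g' n → g = g' := by
      refine (eventually_all_finset T).2 fun g hg => (eventually_all_finset T).2 fun g' hg' => ?_
      by_cases h : g = g'
      · exact Eventually.of_forall fun _ _ => h
      · have := ((hγ g hg).2.inv.mul (hγ g' hg').2).eventually_ne
          (b₂ := 1) (fun h1 => h (inv_mul_eq_one.1 h1))
        exact this.mono fun n hn h2 => absurd (inv_mul_eq_one.2 h2) hn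
    obtain ⟨n, h1, h2⟩ := (e1.and e2).exists
    have := hN (Γ n) (hf n) (hc n) (T.image fun g => γ g n) (by
      intro x hx
      obtain ⟨g, hg, rfl⟩ := Finset.mem_image.1 hx
      exact ⟨(hγ g hg).1 n, h1 g hg⟩)
    rw [Finset.card_image_of_injOn fun g hg g' hg' h => h2 g hg g' hg' h, hcard] at this
    omega
  coc := by
    refine ⟨C, fun T => ?_⟩
    choose γ hγ h1 using fun n => hc n T
    obtain ⟨E, hE, h2⟩ := ulim (isCompact_nrm C) (fun n => γ n * T) h1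
    refine ⟨E * T⁻¹, ⟨γ, hγ, ?_⟩, by rwa [inv_mul_cancel_right]⟩
    simpa using h2.mul_const T⁻¹

lemma near_diag {u₀ : ℝ} (hu : 0 < u₀) : ∃ B, ∀ᶠ γ in 𝓝 (dg u₀), ∃ (k : G) (u : ℝ),
    nrm k ≤ B ∧ u₀ / 2 ≤ u ∧ u ≤ u₀ + 1 ∧ k * γ * k⁻¹ = dg u := by
  let U : G → ℝ := fun γ => Real.arcosh ((γ 0 0 + γ 1 1) / 2)
  have e0 : (dg u₀ 0 0 + dg u₀ 1 1) / 2 = Real.cosh u₀ := by rw [dg00, dg11, Real.cosh_eq]
  have h1 : 1 < Real.cosh u₀ := Real.one_lt_cosh.2 hu.ne'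
  have ce : ∀ i j, Continuous fun g : G => g i j := fun i j => by fun_prop
  have ctr : Continuous fun γ : G => (γ 0 0 + γ 1 1) / 2 := ((ce 0 0).add (ce 1 1)).div_const _
  have cU : ContinuousAt U (dg u₀) :=
    ContinuousAt.comp (g := Real.arcosh) (f := fun γ : G => (γ 0 0 + γ 1 1) / 2)
      (Real.continuousOn_arcosh.continuousAt (by rw [e0]; exact Ici_mem_nhds h1))
      ctr.continuousAt
  have U0 : U (dg u₀) = u₀ := by simp only [U, e0, Real.arcosh_cosh hu.le]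
  let a : G → ℝ := fun γ => γ 0 0 - Real.exp (-U γ)
  let d : G → ℝ := fun γ => γ 1 1 - Real.exp (U γ)
  let Δ : G → ℝ := fun γ => a γ * d γ - γ 0 1 * γ 1 0
  have ca : ContinuousAt a (dg u₀) := (ce 0 0).continuousAt.sub cU.neg.rexp
  have cd : ContinuousAt d (dg u₀) := (ce 1 1).continuousAt.sub cU.rexp
  have cΔ : ContinuousAt Δ (dg u₀) :=
    (ca.mul cd).sub ((ce 0 1).mul (ce 1 0)).continuousAt
  have hlt : Real.exp (-u₀) < Real.exp u₀ := Real.exp_lt_exp.2 (by linarith)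
  have Δ0 : Δ (dg u₀) ≠ 0 := by
    simp only [Δ, a, d, U0, dg00, dg01, dg11, zero_mul, sub_zero]
    exact mul_ne_zero (by linarith) (by linarith)
  let S : G → ℝ := fun γ => (a γ / Δ γ) ^ 2 + (γ 0 1 / Δ γ) ^ 2 + γ 1 0 ^ 2 + d γ ^ 2
  have cS : ContinuousAt S (dg u₀) :=
    ((((ca.div cΔ Δ0).pow 2).add (((ce 0 1).continuousAt.div cΔ Δ0).pow 2)).add
      ((ce 1 0).continuousAt.pow 2)).add (cd.pow 2)
  refine ⟨S (dg u₀) + 1, ?_⟩
  filter_upwards [cS.eventually (gt_mem_nhds (lt_add_one _)), cΔ.eventually_ne Δ0,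
    cU.eventually (lt_mem_nhds (show u₀ / 2 < U (dg u₀) by rw [U0]; linarith)),
    cU.eventually (gt_mem_nhds (show U (dg u₀) < u₀ + 1 by rw [U0]; linarith)),
    ctr.continuousAt.eventually (lt_mem_nhds (show 1 < (dg u₀ 0 0 + dg u₀ 1 1) / 2 by
      rwa [e0]))] with γ k1 k2 k3 k4 k5
  have htr : Real.exp (U γ) + Real.exp (-U γ) = γ 0 0 + γ 1 1 := by
    have := Real.cosh_arcosh k5.le
    rw [Real.cosh_eq] at this
    simp only [U]
    linarith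
  have hm : Real.exp (U γ) * Real.exp (-U γ) = 1 := by rw [← Real.exp_add]; simp
  have hd := det_eq γ
  let k : G := ⟨!![a γ / Δ γ, γ 0 1 / Δ γ; γ 1 0, d γ], by
    rw [Matrix.det_fin_two_of, div_mul_eq_mul_div, div_mul_eq_mul_div, ← sub_div]
    exact div_self k2⟩
  have k00 : k 0 0 = a γ / Δ γ := rfl
  have k01 : k 0 1 = γ 0 1 / Δ γ := rfl
  have k10 : k 1 0 = γ 1 0 := rfl
  have k11 : k 1 1 = d γ := rfl
  refine ⟨k, U γ, (nrm_le_sq k).trans (le_of_lt k1), k3.le, k4.le, ?_⟩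
  rw [mul_inv_eq_iff_eq_mul]
  apply ext4 <;> simp only [mul_ij, k00, k01, k10, k11, dg00, dg01, dg10, dg11]
  · have : a γ * γ 0 0 + γ 0 1 * γ 1 0 = Real.exp (U γ) * a γ := by
      simp only [a]; linear_combination -hd - γ 0 0 * htr + hm
    field_simp; linarith
  · have : a γ * γ 0 1 + γ 0 1 * γ 1 1 = Real.exp (U γ) * γ 0 1 := by
      simp only [a]; linear_combination -γ 0 1 * htr
    field_simp; linarith
  · simp only [d]; linear_combination -γ 1 0 * htr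
  · simp only [d]; linear_combination -hd - γ 1 1 * htr + hm

theorem hypB (C : ℝ) : ∃ B : ℝ, 0 < B ∧ ∀ Γ, FinG Γ → Coc C Γ → ∃ (k : G) (u : ℝ),
    nrm k ≤ B ∧ 1 / B ≤ u ∧ u ≤ B ∧ k⁻¹ * dg u * k ∈ Γ := by
  by_contra! hcon
  choose Γ hf hc hΓ using fun n : ℕ => hcon (n + 1) (by positivity)
  obtain ⟨h, ⟨γ, hγ, hlim⟩, htr⟩ := (lat_Lim hf hc).exists_trace
  obtain ⟨u₀, hu₀, k₀, hk₀⟩ := diagonalize h htr
  obtain ⟨B, hB⟩ := near_diag hu₀
  have h1 : Tendsto (fun n => k₀ * γ n * k₀⁻¹) (hyperfilter ℕ) (𝓝 (dg u₀)) :=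
    hk₀ ▸ (hlim.const_mul k₀).mul_const _
  have h2 : ∀ᶠ n : ℕ in (hyperfilter ℕ : Filter ℕ), B + nrm k₀ + (u₀ + 1) + 2 / u₀ + |B| ≤ n :=
    (tendsto_natCast_atTop_atTop.eventually_ge_atTop _).filter_mono Nat.hyperfilter_le_atTop
  obtain ⟨n, ⟨k, u, a1, a2, a3, a4⟩, h3⟩ := ((h1.eventually hB).and h2).exists
  have p1 : 0 ≤ nrm k₀ := dist_nonneg
  have p2 : 0 < 2 / u₀ := by positivity
  have p3 := neg_abs_le B
  have p4 := abs_nonneg B
  refine hΓ n (k * k₀) u ((nrm_mul _ _).trans (by linarith)) ?_ (by linarith) ?_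
  · rw [div_le_iff₀ (by positivity)]
    have : 2 / u₀ ≤ (n : ℝ) + 1 := by linarith
    rw [div_le_iff₀ hu₀] at this
    nlinarith
  · rw [← a4]
    have : (k * k₀)⁻¹ * (k * (k₀ * γ n * k₀⁻¹) * k⁻¹) * (k * k₀) = γ n := by group
    rw [this]
    exact hγ n

end Pool.Agent.P.MP_90a4ef_pr
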