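import Pool.Agent.P.MP_90a4ef_pr.U1

/-! Uniform dimension bound, part one: a uniform version of the dimension lemma. -/

section

open MeasureTheory Set Filter Topology Finset
open scoped ENNReal NNReal

namespace Pool.Agent.P.MP_90a4ef_pr

theorem dim_unif {ε₀ : ℝ} (hε₀ : 0 < ε₀) : ∃ d : ℝ≥0∞, d < 1 ∧ ∀ (m : Measure ℝ)
    [IsFiniteMeasure m], NonUnif m ε₀ →
    ∃ A : Set ℝ, MeasurableSet A ∧ m Aᶜ = 0 ∧ dimH A ≤ d := by
  classical
  obtain ⟨ε, hε, hε1, h⟩ : ∃ ε : ℝ, 0 < ε ∧ ε ≤ 1 / 2 ∧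
      ∀ m : Measure ℝ, NonUnif m ε₀ → NonUnif m (2 * ε) := by
    refine ⟨min (ε₀ / 2) (1 / 2), by positivity, min_le_right _ _, fun m h₀ u r h1 h2 h3 => ?_⟩
    obtain ⟨θ, hθ, h4⟩ := h₀ u r h1 h2 h3
    refine ⟨θ, hθ, lt_of_le_of_lt ?_ h4⟩
    have := min_le_left (ε₀ / 2) (1 / 2)
    nlinarith
  obtain ⟨N, hN⟩ : ∃ N : ℕ, 1 ≤ ε * N := by
    obtain ⟨N, hN⟩ := exists_nat_ge (1 / ε)
    exact ⟨N, by rwa [div_le_iff₀' hε] at hN⟩
  have hN2 : (2 : ℝ) ≤ N := by nlinarith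
  have hN0 : 0 < N := by exact_mod_cast (show (0 : ℝ) < N by linarith)
  set κ : ℝ := (1 - ε ^ 2) * N with hκ
  have hκ1 : 1 < κ := by nlinarith
  have hκN : κ < N := by nlinarith [sq_pos_of_pos hε]
  set B : ℝ := (κ + N) / 2 with hB
  have hB1 : 1 < B := by linarith
  have hB0 : 0 < B := by linarith
  have hlogN : 0 < Real.log N := Real.log_pos (by linarith)
  let s : ℝ≥0 := ⟨Real.log B / Real.log N, div_nonneg (Real.log_pos hB1).le hlogN.le⟩
  have hs1 : (s : ℝ) < 1 := (div_lt_one hlogN).2 (Real.log_lt_log hB0 (by linarith))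
  have hsN : (N : ℝ) ^ (s : ℝ) = B := by
    rw [Real.rpow_def_of_pos (by linarith)]
    change Real.exp (Real.log N * (Real.log B / Real.log N)) = B
    rw [mul_div_cancel₀ _ hlogN.ne', Real.exp_log hB0]
  refine ⟨s, by exact_mod_cast hs1, fun m _ h₀ => ?_⟩
  replace h := h m h₀
  let bad : ℝ → ℕ → Set ℝ := fun u k =>
    ⋃ j ∈ (range (N ^ k)).filter fun j => m.real (cell N u k j) < (B ^ k)⁻¹, cell N u k j
  have hcm : ∀ u k j, MeasurableSet (cell N u k j) := fun _ _ _ => measurableSet_Ico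
  have hbm : ∀ u k, MeasurableSet (bad u k) := fun u k =>
    Finset.measurableSet_biUnion _ fun j _ => hcm u k j
  have hbad : ∀ u, ∀ᵐ x ∂m, ∀ᶠ k in atTop, x ∉ bad u k := by
    intro u
    apply ae_eventually_notMem
    have hρ : √(κ / B) < 1 := by
      rw [Real.sqrt_lt' one_pos, one_pow, div_lt_one hB0]
      linarith
    have hsum : Summable fun k : ℕ => √(κ / B) ^ k * √(m.real univ) :=
      (summable_geometric_of_lt_one (Real.sqrt_nonneg _) hρ).mul_right _
    refine ne_top_of_le_ne_top (hsum.tsum_ofReal_ne_top) (ENNReal.tsum_le_tsum fun k => ?_)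
    rw [← ofReal_measureReal (measure_ne_top _ _)]
    apply ENNReal.ofReal_le_ofReal
    refine (measureReal_biUnion_finset_le _ _).trans ?_
    have hq : 0 ≤ (√B ^ k)⁻¹ := by positivity
    calc _ ≤ ∑ j ∈ (range (N ^ k)).filter fun j => m.real (cell N u k j) < (B ^ k)⁻¹,
          (√B ^ k)⁻¹ * √(m.real (cell N u k j)) := by
          refine sum_le_sum fun j hj => ?_
          have h1 := (mem_filter.1 hj).2
          have h2 : √(m.real (cell N u k j)) ≤ (√B ^ k)⁻¹ := by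
            apply Real.sqrt_le_iff.2 ⟨hq, _⟩
            rw [inv_pow, ← pow_mul, mul_comm, pow_mul, Real.sq_sqrt hB0.le]
            exact h1.le
          nth_rewrite 1 [← Real.mul_self_sqrt (measureReal_nonneg (μ := m) (s := cell N u k j))]
          gcongr
      _ ≤ ∑ j ∈ range (N ^ k), (√B ^ k)⁻¹ * √(m.real (cell N u k j)) :=
          sum_le_sum_of_subset_of_nonneg (filter_subset _ _) fun _ _ _ => by positivity
      _ ≤ (√B ^ k)⁻¹ * (√κ ^ k * √(m.real univ)) := by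
          rw [← Finset.mul_sum]
          exact mul_le_mul_of_nonneg_left (level_sum m hε h N hN u k) hq
      _ = _ := by
          rw [Real.sqrt_div (show 0 ≤ κ by linarith) B, div_pow, div_eq_mul_inv, ← mul_assoc,
            mul_comm (√B ^ k)⁻¹]
  have hdim : ∀ (u : ℝ) (k0 : ℕ),
      dimH (Set.Ico u (u + 1) ∩ ⋂ k ≥ k0, (bad u k)ᶜ) ≤ s := by
    intro u k0
    apply dimH_le_of_hausdorffMeasure_ne_top
    let good : ℕ → Finset ℕ := fun k =>
      (range (N ^ k)).filter fun j => ¬ m.real (cell N u k j) < (B ^ k)⁻¹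
    have hd : ∀ k j, Metric.ediam (cell N u k j) = ENNReal.ofReal ((N : ℝ) ^ k)⁻¹ := by
      intro k j
      unfold cell
      rw [Real.ediam_Ico]
      congr 1
      ring
    have hle := Measure.hausdorffMeasure_le_liminf_sum (ι := fun k => good k) (s : ℝ)
      (Set.Ico u (u + 1) ∩ ⋂ k ≥ k0, (bad u k)ᶜ) (l := atTop)
      (fun k => ENNReal.ofReal ((N : ℝ) ^ k)⁻¹) (by
        rw [← ENNReal.ofReal_zero]
        apply ENNReal.tendsto_ofReal
        exact (tendsto_pow_atTop_atTop_of_one_lt (by linarith)).inv_tendsto_atTop)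
      (fun k j => cell N u k j) (Eventually.of_forall fun k j => (hd k j).le) (by
        filter_upwards [eventually_ge_atTop k0] with k hk x hx
        obtain ⟨j, hj, hxj⟩ := cover N hN0 u k hx.1
        have h1 : x ∉ bad u k := mem_iInter₂.1 hx.2 k hk
        refine mem_iUnion.2 ⟨⟨j, mem_filter.2 ⟨hj, fun h2 => h1 ?_⟩⟩, hxj⟩
        exact mem_iUnion₂.2 ⟨j, mem_filter.2 ⟨hj, h2⟩, hxj⟩)
    refine ne_top_of_le_ne_top (measure_ne_top m univ) (hle.trans ?_)
    refine liminf_le_of_frequently_le' (Eventually.of_forall fun k => ?_).frequently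
    have e1 : ENNReal.ofReal ((N : ℝ) ^ k)⁻¹ ^ (s : ℝ) = ENNReal.ofReal (B ^ k)⁻¹ := by
      rw [ENNReal.ofReal_rpow_of_nonneg (by positivity) s.coe_nonneg, Real.inv_rpow (by positivity),
        ← Real.rpow_natCast, ← Real.rpow_mul (by positivity), mul_comm,
        Real.rpow_mul (by positivity), hsN, Real.rpow_natCast]
    simp only [hd, e1]
    calc ∑ _j : good k, ENNReal.ofReal (B ^ k)⁻¹ ≤ ∑ j : good k, m (cell N u k j) := by
          refine sum_le_sum fun j _ => ?_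
          rw [← ofReal_measureReal (measure_ne_top _ _)]
          exact ENNReal.ofReal_le_ofReal (not_lt.1 (mem_filter.1 j.2).2)
      _ = ∑ j ∈ good k, m (cell N u k j) := Finset.sum_coe_sort (good k) fun j => m (cell N u k j)
      _ = m (⋃ j ∈ good k, cell N u k j) := by
          refine (measure_biUnion_finset ?_ fun j _ => hcm u k j).symm
          intro i _ j _ hij
          have hp : (0 : ℝ) < ((N : ℝ) ^ k)⁻¹ := by positivity
          have key : ∀ i j : ℕ, i < j → Disjoint (cell N u k i) (cell N u k j) := by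
            intro i j hij
            refine Set.disjoint_left.2 fun x h1 h2 => ?_
            have : (i : ℝ) + 1 ≤ j := by exact_mod_cast hij
            nlinarith [h1.2, h2.1]
          rcases lt_or_gt_of_ne hij with h1 | h1
          · exact key _ _ h1
          · exact (key _ _ h1).symm
      _ ≤ m univ := measure_mono (subset_univ _)
  refine ⟨⋃ n : ℤ, ⋃ k0 : ℕ, (Set.Ico (n : ℝ) (n + 1) ∩ ⋂ k ≥ k0, (bad n k)ᶜ), ?_, ?_, ?_⟩
  · exact .iUnion fun n => .iUnion fun k0 => measurableSet_Ico.inter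
      (.iInter fun k => .iInter fun _ => (hbm _ k).compl)
  · have := ae_all_iff.2 fun n : ℤ => hbad n
    rw [ae_iff] at this
    refine measure_mono_null (fun x hx => ?_) this
    intro h1
    apply hx
    obtain ⟨k0, hk0⟩ := eventually_atTop.1 (h1 ⌊x⌋)
    exact mem_iUnion₂.2 ⟨⌊x⌋, k0, ⟨Int.floor_le x, Int.lt_floor_add_one x⟩, mem_iInter₂.2 hk0⟩
  · simp only [dimH_iUnion]
    exact iSup₂_le fun n k0 => hdim n k0

end Pool.Agent.P.MP_90a4ef_pr

end

open MeasureTheory Set Filter Topology UpperHalfPlane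
open scoped ENNReal NNReal MatrixGroups

namespace Pool.Agent.P.MP_90a4ef_pr

/-- equivariant families of measures on the line -/
def Equi (M : G → Measure ℝ) : Prop :=
  ∀ (k x : G) (B : Set ℝ), (∀ y ∈ B, k 1 0 * y + k 1 1 ≠ 0) → MeasurableSet B →
    MeasurableSet (mob k '' B) → M (k * x) (mob k '' B) = M x B

/-- multiplicative Fourier coefficient on the positive half line -/
noncomputable def PhiM (m : Measure ℝ) (w : ℝ) : ℂ := ∫ y in Ioi 0, chr w (Real.log y) ∂m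

lemma chr_div (w t u : ℝ) : chr w (t / u) = chr (w / u) t := by
  simp only [chr_apply]
  congr 3
  ring

lemma tangentU {M : ℕ → G → Measure ℝ} [∀ n x, IsFiniteMeasure (M n x)] (hM : ∀ n, Equi (M n))
    {κ y : ℕ → G} {k : G} (h : Tendsto κ atTop (𝓝 k)) (hk : 0 < k 1 0 * k 1 1)
    {c : ℕ → ℝ} (hF : Flat (fun n => M n (κ n * y n)) c) {u : ℕ → ℝ} {u₀ : ℝ} (hu₀ : 0 < u₀)
    (hu : Tendsto u atTop (𝓝 u₀)) (hu' : ∀ n, 0 < u n) (w : ℝ) :
    Tendsto (fun n => (c n : ℂ) * PhiM (M n (y n)) (w / u n)) atTop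
      (𝓝 (((k 1 0 * k 1 1)⁻¹ : ℝ) *
        (chr (w / u₀) (Real.log (k 1 1 / k 1 0)) * Bt (w / u₀)))) := by
  have hc : k 1 0 ≠ 0 := left_ne_zero_of_mul hk.ne'
  have hd : k 1 1 ≠ 0 := right_ne_zero_of_mul hk.ne'
  have hA : 0 < k 1 1 / k 1 0 := by
    have : k 1 1 / k 1 0 = k 1 0 * k 1 1 / k 1 0 ^ 2 := by field_simp
    rw [this]
    positivity
  have e := tendsto_entry h
  have hpos : ∀ᶠ n in atTop, 0 < κ n 1 0 * κ n 1 1 :=
    ((e 1 0).mul (e 1 1)).eventually (lt_mem_nhds hk)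
  have tail : ∀ (P : ℕ → ℝ) (p : ℝ), (∀ n, 0 ≤ P n) → Tendsto P atTop (𝓝 p) →
      Tendsto (fun n => c n * (M n (y n)).real (Ioi (P n))) atTop
      (𝓝 (k 1 0 * (k 1 0 * p + k 1 1))⁻¹) := by
    intro P p hP hPp
    have hp : 0 ≤ p := ge_of_tendsto' hPp hP
    have pos : 0 < k 1 0 * (k 1 0 * p + k 1 1) := by nlinarith [mul_nonneg (sq_nonneg (k 1 0)) hp]
    have h0 := right_ne_zero_of_mul pos.ne'
    have form : k 0 0 / k 1 0 - mob k p = (k 1 0 * (k 1 0 * p + k 1 1))⁻¹ := by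
      rw [mob, sub_eq_iff_eq_add', ← sub_eq_iff_eq_add, eq_div_iff h0, sub_mul, mul_inv, mul_assoc,
        inv_mul_cancel₀ h0]
      field_simp
      linear_combination det_eq k
    have := hF (fun n => mob (κ n) (P n)) (fun n => κ n 0 0 / κ n 1 0) (mob k p) (k 0 0 / k 1 0)
      (by have := inv_pos.2 pos; linarith)
      ((((e 0 0).mul hPp).add (e 0 1)).div (((e 1 0).mul hPp).add (e 1 1)) h0)
      ((e 0 0).div (e 1 0) hc)
    rw [form] at this
    refine this.congr' ?_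
    filter_upwards [hpos] with n hn
    rw [← mob_Ioi _ hn (hP n), Measure.real, hM n _ _ _ _ measurableSet_Ioi
      (by rw [mob_Ioi _ hn (hP n)]; exact measurableSet_Ioo)]
    · rfl
    · intro v hv
      have : 0 ≤ v := (hP n).trans (le_of_lt hv)
      exact right_ne_zero_of_mul (a := κ n 1 0)
        (ne_of_gt (by nlinarith [mul_nonneg (sq_nonneg (κ n 1 0)) this]))
  have ml : ∀ v : ℝ, Measurable fun x : ℝ => Real.log x / v := fun v =>
    Real.measurable_log.div_const v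
  have md : Measurable fun x : ℝ => x / u₀ := measurable_id.div_const u₀
  have : IsProbabilityMeasure ((logi (k 1 1 / k 1 0)).map fun x => x / u₀) :=
    Measure.isProbabilityMeasure_map md.aemeasurable
  have hw := weak_of_tail (fun n => ((M n (y n)).restrict (Ioi 0)).map fun x => Real.log x / u n) c
    ((logi (k 1 1 / k 1 0)).map fun x => x / u₀) _ (inv_pos.2 hk) (by
      have := tail (fun _ => 0) 0 (fun _ => le_rfl) tendsto_const_nhds
      rw [mul_zero, zero_add] at this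
      refine this.congr fun n => ?_
      rw [map_measureReal_apply (ml _) MeasurableSet.univ, preimage_univ,
        measureReal_restrict_apply_univ]) (by
      intro t
      have := tail (fun n => Real.exp (t * u n)) (Real.exp (t * u₀))
        (fun n => (Real.exp_pos _).le) (hu.const_mul t).rexp
      have e1 : (k 1 0 * (k 1 0 * Real.exp (t * u₀) + k 1 1))⁻¹ = (k 1 0 * k 1 1)⁻¹ *
          ((logi (k 1 1 / k 1 0)).map fun x => x / u₀).real (Ioi t) := by
        have e2 : (fun x : ℝ => x / u₀) ⁻¹' Ioi t = Ioi (t * u₀) := by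
          ext x
          simp only [mem_preimage, mem_Ioi, lt_div_iff₀ hu₀]
        rw [map_measureReal_apply md measurableSet_Ioi, e2, logi_tail hA]
        have h1 : Real.exp (t * u₀) + k 1 1 / k 1 0 =
            (k 1 0 * Real.exp (t * u₀) + k 1 1) / k 1 0 := by
          field_simp
        have h2 : k 1 0 * Real.exp (t * u₀) + k 1 1 ≠ 0 := by
          intro h2
          have := add_pos (Real.exp_pos (t * u₀)) hA
          rw [h1, h2] at this
          simp at this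
        rw [h1]
        field_simp
      rw [e1] at this
      refine this.congr fun n => ?_
      rw [map_measureReal_apply (ml _) measurableSet_Ioi,
        measureReal_restrict_apply (ml _ measurableSet_Ioi)]
      congr 2
      ext v
      simp only [mem_inter_iff, mem_preimage, mem_Ioi, lt_div_iff₀ (hu' n)]
      constructor
      · intro hv
        have h0 : 0 < v := (Real.exp_pos _).trans hv
        exact ⟨(Real.lt_log_iff_exp_lt h0).2 hv, h0⟩
      · exact fun hv => (Real.lt_log_iff_exp_lt hv.2).1 hv.1) (chr w)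
  rw [integral_map md.aemeasurable (chr w).continuous.aestronglyMeasurable] at hw
  simp only [chr_div] at hw
  rw [logi_chr] at hw
  refine hw.congr fun n => ?_
  rw [integral_map (ml _).aemeasurable (chr w).continuous.aestronglyMeasurable]
  simp only [chr_div]
  rfl

lemma exists_flatU {M : ℕ → G → Measure ℝ} [∀ n x, IsFiniteMeasure (M n x)]
    (hM : ∀ n, Equi (M n)) (h1 : ∀ n : ℕ, ¬ NonUnif (M n 1) (1 / ((n : ℝ) + 1) ^ 2)) :
    ∃ (β : ℕ → G) (c L : ℕ → ℝ), Tendsto L atTop atTop ∧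
      (∀ n (z : ℍ), ((β n)⁻¹ • z).im = L n * z.im) ∧ ∀ φ : ℕ → ℕ, Tendsto φ atTop atTop →
      Flat (fun n => M (φ n) (β (φ n))⁻¹) fun n => c (φ n) := by
  unfold NonUnif at h1
  push Not at h1
  choose u r hr hr1 hW hθ using h1
  have hL : ∀ n : ℕ, (0 : ℝ) < n + 1 := fun n => by positivity
  have ha : ∀ n, 0 < r n / (n + 1) := fun n => div_pos (hr n) (hL n)
  refine ⟨fun n => aff (r n / (n + 1)) (u n + r n / 2) (ha n),
    fun n => (n + 1) / (M n 1).real (Ico (u n) (u n + r n)), fun n => (r n / (n + 1))⁻¹, ?_,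
    fun n z => im_aff _ _ _ z, ?_⟩
  · refine tendsto_atTop_mono (fun n => ?_)
      (tendsto_atTop_add_const_right _ 1 tendsto_natCast_atTop_atTop)
    rw [inv_div, le_div_iff₀ (hr n)]
    exact mul_le_of_le_one_right (hL n).le (hr1 n)
  intro φ hφ
  refine flat_of_bound _ _ (fun n => (φ n : ℝ) + 1)
    ((tendsto_atTop_add_const_right _ 1 tendsto_natCast_atTop_atTop).comp hφ) (fun n => hL _)
    (fun n => (div_pos (hL _) (hW _)).le) fun n a b k1 k2 k3 => ?_
  generalize φ n = n at k1 k3 ⊢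
  beta_reduce
  have hn := hL n
  have hrn := hr n
  obtain ⟨W, hWe⟩ : ∃ W, W = (M n 1).real (Ico (u n) (u n + r n)) := ⟨_, rfl⟩
  have hW0 : 0 < W := hWe ▸ hW n
  have e1 : mob (aff (r n / (n + 1)) (u n + r n / 2) (ha n)) '' Ico a b =
      Ico (u n + (a / (n + 1) + 1 / 2) * r n) (u n + (b / (n + 1) + 1 / 2) * r n) := by
    rw [funext (mob_aff _ _ (ha n)), image_affine_Ico (ha n)]
    congr 1 <;> ring
  have e2 := hM n (aff (r n / (n + 1)) (u n + r n / 2) (ha n))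
    (aff (r n / (n + 1)) (u n + r n / 2) (ha n))⁻¹ (Ico a b) (fun y _ => by
      change 0 * y + (√(r n / (n + 1)))⁻¹ ≠ 0
      rw [zero_mul, zero_add]
      exact inv_ne_zero (Real.sqrt_pos.2 (ha n)).ne') measurableSet_Ico (by rw [e1]; exact measurableSet_Ico)
  rw [mul_inv_cancel, e1] at e2
  have mem : ∀ x : ℝ, -((n + 1) / 2) ≤ x → x ≤ (n + 1) / 2 → x / (n + 1) + 1 / 2 ∈ Icc (0 : ℝ) 1 := by
    intro x h1 h2
    have a1 : -(1 / 2) ≤ x / (n + 1) := by rw [le_div_iff₀ hn]; linarith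
    have a2 : x / (n + 1) ≤ 1 / 2 := by rw [div_le_iff₀ hn]; linarith
    constructor <;> linarith
  have ma := mem a k1 (by linarith)
  have mb := mem b (by linarith) k3
  have t1 := hθ n _ ma
  have t2 := hθ n _ mb
  have e3 := ico_add (M n 1) (a := u n) (b := u n + (a / (n + 1) + 1 / 2) * r n)
    (c := u n + (b / (n + 1) + 1 / 2) * r n) (le_add_of_nonneg_right (mul_nonneg ma.1 hrn.le))
    (by gcongr)
  rw [← hWe] at t1 t2 ⊢
  rw [Measure.real, ← e2, ← Measure.real]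
  obtain ⟨X, hX⟩ : ∃ X, X = (M n 1).real
    (Ico (u n + (a / (n + 1) + 1 / 2) * r n) (u n + (b / (n + 1) + 1 / 2) * r n)) := ⟨_, rfl⟩
  rw [← hX] at e3 ⊢
  have t3 : |X - (b - a) / (n + 1) * W| ≤ 2 / (n + 1) ^ 2 * W := by
    have := abs_le.1 t1
    have := abs_le.1 t2
    have e4 : 2 / ((n : ℝ) + 1) ^ 2 * W = 2 * (1 / (n + 1) ^ 2 * W) := by ring
    rw [abs_le, e4, sub_div]
    constructor <;> linarith
  have e5 : (n + 1) / W * X - (b - a) = (n + 1) / W * (X - (b - a) / (n + 1) * W) := by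
    field_simp
  rw [e5, abs_mul, abs_of_pos (div_pos hn hW0)]
  refine (mul_le_mul_of_nonneg_left t3 (div_pos hn hW0).le).trans (le_of_eq ?_)
  field_simp

lemma subseq_of_ulim {X : Type*} [TopologicalSpace X] [FirstCountableTopology X] {F : ℕ → X}
    {x : X} (h : Tendsto F (hyperfilter ℕ) (𝓝 x)) :
    ∃ φ : ℕ → ℕ, Tendsto φ atTop atTop ∧ Tendsto (fun n => F (φ n)) atTop (𝓝 x) := by
  have : (atTop ⊓ comap F (𝓝 x)).NeBot :=
    neBot_of_le (le_inf Nat.hyperfilter_le_atTop (tendsto_iff_comap.1 h))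
  obtain ⟨φ, hφ⟩ := exists_seq_tendsto (atTop ⊓ comap F (𝓝 x))
  exact ⟨φ, (tendsto_inf.1 hφ).1, tendsto_comap_iff.1 (tendsto_inf.1 hφ).2⟩

lemma continuous_dg : Continuous dg := by
  refine Continuous.subtype_mk (continuous_matrix fun i j => ?_) _
  fin_cases i <;> fin_cases j <;> simp <;> fun_prop

theorem unifM {B : ℝ} (hB : 0 < B) (m : ℕ) : ∃ ε, 0 < ε ∧ ∀ (Γ : Subgroup G) (u : ℝ) (o : ℍ)
    (M : G → Measure ℝ), (∀ x, IsFiniteMeasure (M x)) → FinG Γ → Coc B Γ → u ∈ Icc (1 / B) B →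
    dg u ∈ Γ → dist o I ≤ B → Equi M → (∃ c : Fin m → ℂ, c ≠ 0 ∧ ∀ x ∈ Γ, (x • o).re ≤ 0 →
      ∑ j, c j * PhiM (M x) (Real.pi * j / u) = 0) → NonUnif (M 1) ε := by
  by_contra hcon
  have h0 : ∀ n : ℕ, ∃ (Γ : Subgroup G) (u : ℝ) (o : ℍ) (M : G → Measure ℝ),
      (∀ x, IsFiniteMeasure (M x)) ∧ FinG Γ ∧ Coc B Γ ∧ u ∈ Icc (1 / B) B ∧ dg u ∈ Γ ∧
      dist o I ≤ B ∧ Equi M ∧ (∃ c ∈ Metric.sphere (0 : Fin m → ℂ) 1, ∀ x ∈ Γ, (x • o).re ≤ 0 →
      ∑ j, c j * PhiM (M x) (Real.pi * j / u) = 0) ∧ ¬ NonUnif (M 1) (1 / ((n : ℝ) + 1) ^ 2) := by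
    intro n
    by_contra h1
    refine hcon ⟨1 / ((n : ℝ) + 1) ^ 2, by positivity, ?_⟩
    rintro Γ u o M a1 a2 a3 a4 a5 a6 a7 ⟨c, hc, a8⟩
    by_contra a9
    refine h1 ⟨Γ, u, o, M, a1, a2, a3, a4, a5, a6, a7, ⟨(‖c‖⁻¹ : ℝ) • c, ?_, ?_⟩, a9⟩
    · rw [mem_sphere_zero_iff_norm]
      exact norm_smul_inv_norm (𝕜 := ℝ) hc
    · intro x hx hl
      simp only [Pi.smul_apply, Complex.real_smul, mul_assoc, ← Finset.mul_sum, a8 x hx hl,
        mul_zero]
  choose Γ u o M hfm hf hc hu hD ho hM hann hN using h0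
  choose a ha hann using hann
  obtain ⟨β, c, L, hL, him, hF⟩ := exists_flatU hM hN
  choose γ hγ hγC using fun n => hc n (β n)
  have : FirstCountableTopology (Matrix (Fin 2) (Fin 2) ℝ) :=
    inferInstanceAs (FirstCountableTopology (Fin 2 → Fin 2 → ℝ))
  have : FirstCountableTopology G :=
    Matrix.SpecialLinearGroup.isClosedEmbedding_val.isEmbedding.firstCountableTopology
  obtain ⟨E, -, hE⟩ := ulim (isCompact_nrm B) (fun n => γ n * β n) hγC
  obtain ⟨u₀, hu₀, hu₁⟩ := ulim isCompact_Icc u hu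
  obtain ⟨a₀, ha₀, ha₁⟩ := ulim (isCompact_sphere _ _) a ha
  have hB' : 0 < 1 / B := by positivity
  have hup : 0 < u₀ := hB'.trans_le hu₀.1
  have h := lat_Lim hf hc
  have hD₀ : dg u₀ ∈ Lim Γ := ⟨_, hD, (continuous_dg.tendsto _).comp hu₁⟩
  have hoi : ∀ n, Real.exp (-B) ≤ (o n).im := by
    intro n
    have h1 := im_le_im_mul_exp_dist I (o n)
    have h2 : Real.exp (dist I (o n)) ≤ Real.exp B :=
      Real.exp_le_exp.2 (by rw [dist_comm]; exact ho n)
    rw [I_im] at h1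
    rw [Real.exp_neg, inv_eq_one_div, div_le_iff₀ (Real.exp_pos _)]
    exact h1.trans (mul_le_mul_of_nonneg_left h2 (o n).im_pos.le)
  choose t ht using fun n => MulAction.exists_smul_eq G I (o n)
  have h0 : (fun j => a₀ j * Bt (Real.pi * j / u₀)) = 0 := by
    refine coeff_zero _ hup fun r hr => ?_
    obtain ⟨g, ⟨gs, hgs, hg⟩, h1, h2⟩ := h.dense hup.ne' hD₀ E⁻¹ hr.1
    refine ⟨_, h2, ?_⟩
    have hk : 0 < (E⁻¹ * g) 1 0 * (E⁻¹ * g) 1 1 := by
      have : (E⁻¹ * g) 1 0 * (E⁻¹ * g) 1 1 =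
          (E⁻¹ * g) 1 0 ^ 2 * ((E⁻¹ * g) 1 1 / (E⁻¹ * g) 1 0) := by field_simp
      rw [this]
      exact mul_pos (by positivity) (by linarith [h2.1])
    obtain ⟨φ, hφ, hall⟩ := subseq_of_ulim ((hE.inv.mul hg).prodMk_nhds (hu₁.prodMk_nhds ha₁))
    have hκ : Tendsto (fun n => (γ (φ n) * β (φ n))⁻¹ * gs (φ n)) atTop (𝓝 (E⁻¹ * g)) :=
      hall.fst_nhds
    have hu₂ : Tendsto (fun n => u (φ n)) atTop (𝓝 u₀) := hall.snd_nhds.fst_nhds
    have ha₂ : Tendsto (fun n => a (φ n)) atTop (𝓝 a₀) := hall.snd_nhds.snd_nhds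
    have e : ∀ n, (γ n * β n)⁻¹ * gs n * ((gs n)⁻¹ * γ n) = (β n)⁻¹ := fun n => by group
    have hl := left_eventually I (y := fun n => (gs (φ n))⁻¹ * γ (φ n) * t (φ n)) hκ hk (by
      simp only [← mul_assoc _ (_ * γ _), e, mul_smul (β _)⁻¹, ht, him]
      refine tendsto_atTop_mono' _ ?_ ((hL.comp hφ).atTop_mul_const (Real.exp_pos (-B)))
      filter_upwards [(hL.comp hφ).eventually_ge_atTop 0] with n hn
      exact mul_le_mul_of_nonneg_left (hoi _) hn)
    have hF' : Flat (fun n => M (φ n) ((γ (φ n) * β (φ n))⁻¹ * gs (φ n) *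
        ((gs (φ n))⁻¹ * γ (φ n)))) (fun n => c (φ n)) := by
      simp only [e]
      exact hF φ hφ
    have ht' := tendsto_finsetSum (Finset.univ : Finset (Fin m)) fun j _ =>
      (tendsto_pi_nhds.1 ha₂ j).mul (tangentU (M := fun n => M (φ n)) (fun n => hM (φ n)) hκ hk hF'
        hup hu₂ (fun n => hB'.trans_le (hu _).1) (Real.pi * j))
    have hz : (fun n => ∑ j, a (φ n) j * ((c (φ n) : ℂ) *
        PhiM (M (φ n) ((gs (φ n))⁻¹ * γ (φ n))) (Real.pi * j / u (φ n)))) =ᶠ[atTop] fun _ => 0 := by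
      filter_upwards [hl] with n hn
      rw [mul_smul, ht] at hn
      have := hann (φ n) _ ((Γ _).mul_mem ((Γ _).inv_mem (hgs _)) (hγ _)) hn
      simp only [mul_left_comm (a _ _), ← Finset.mul_sum, this, mul_zero]
    have h3 := tendsto_nhds_unique (ht'.congr' hz) tendsto_const_nhds
    simp only [mul_left_comm (a₀ _), ← Finset.mul_sum] at h3
    have h4 := (mul_eq_zero.1 h3).resolve_left (by exact_mod_cast (inv_pos.2 hk).ne')
    rw [← h4]
    exact Finset.sum_congr rfl fun j _ => by ring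
  have : a₀ = 0 := by
    funext j
    exact (mul_eq_zero.1 (congrFun h0 j)).resolve_right (Bt_ne _)
  rw [this] at ha₀
  simp at ha₀

theorem barrierU {u R : ℝ} (hu : 0 < u) (o : ℍ) (z s : G) (hR : dist (s⁻¹ • o) o ≤ R)
    (h1 : 0 < (z • o).re) (h2 : ((z * s⁻¹) • o).re ≤ 0) : ∃ n : ℤ, nrm (dg (n * u) * z) ≤
      dist I o + (Real.exp (2 * u) * Real.exp R + Real.exp (2 * u)) := by
  let K := Real.exp (2 * u) * Real.exp R
  set w := z • o with hw
  have h3 : w.re ≤ w.im * Real.exp R := by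
    have a1 := dist_coe_le ((z * s⁻¹) • o) w
    have a2 : dist ((z * s⁻¹) • o) w ≤ R := by
      rw [mul_smul, hw, dist_smul]
      exact hR
    have a3 := Complex.abs_re_le_norm ((((z * s⁻¹) • o : ℍ) : ℂ) - w)
    rw [← Complex.dist_eq, Complex.sub_re, coe_re, coe_re] at a3
    have a4 := Real.exp_le_exp.2 a2
    nlinarith [w.im_pos, neg_le_abs (((z * s⁻¹) • o).re - w.re)]
  let n : ℤ := -⌊Real.log w.im / (2 * u)⌋
  refine ⟨n, ?_⟩
  set w' := dg (n * u) • w with hw'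
  have him : w'.im = Real.exp (2 * (n * u)) * w.im := by
    rw [← coe_im, hw', coe_dg, Complex.im_ofReal_mul, coe_im]
  have hre : w'.re = Real.exp (2 * (n * u)) * w.re := by
    rw [← coe_re, hw', coe_dg, Complex.re_ofReal_mul, coe_re]
  have hlog : w'.im = Real.exp (2 * (n * u) + Real.log w.im) := by
    rw [him, Real.exp_add, Real.exp_log w.im_pos]
  have f1 := Int.floor_le (Real.log w.im / (2 * u))
  have f2 := Int.lt_floor_add_one (Real.log w.im / (2 * u))
  rw [le_div_iff₀ (by positivity)] at f1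
  rw [div_lt_iff₀ (by positivity)] at f2
  have hn : (n : ℝ) = -⌊Real.log w.im / (2 * u)⌋ := by simp [n]
  have i1 : 1 ≤ w'.im := by
    rw [hlog]
    apply Real.one_le_exp
    rw [hn]; linarith
  have i2 : w'.im ≤ Real.exp (2 * u) := by
    rw [hlog]
    apply Real.exp_le_exp.2
    rw [hn]; linarith
  have r1 : 0 ≤ w'.re := by rw [hre]; positivity
  have r2 : w'.re ≤ K := by
    have : w'.re ≤ w'.im * Real.exp R := by
      rw [hre, him, mul_assoc]
      gcongr
    refine this.trans ?_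
    simp only [K]
    gcongr
  have d1 : dist w' I ≤ K + Real.exp (2 * u) := by
    refine (dist_le_dist_coe_div_sqrt w' I).trans ?_
    refine (div_le_self dist_nonneg (Real.one_le_sqrt.2 (by simpa using i1))).trans ?_
    rw [Complex.dist_eq]
    refine (Complex.norm_le_abs_re_add_abs_im _).trans ?_
    simp only [Complex.sub_re, coe_re, I_re, sub_zero, Complex.sub_im, coe_im, I_im]
    rw [abs_of_nonneg r1, abs_of_nonneg (by linarith)]
    linarith
  unfold nrm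
  refine (dist_triangle _ ((dg (n * u) * z) • o) _).trans ?_
  rw [dist_smul, mul_smul]
  exact add_le_add le_rfl d1

theorem annihU (B R : ℝ) : ∃ m : ℕ, ∀ (Γ : Subgroup G) (u : ℝ) (o : ℍ), FinG Γ → Coc B Γ →
    0 < u → u ≤ B → dg u ∈ Γ → dist o I ≤ B → ∀ (S : Type) [Fintype S] [MeasurableSpace S]
    [DiscreteMeasurableSpace S] (q : Measure S) [IsProbabilityMeasure q] (σ : S → G),
    (∀ s, σ s ∈ Γ) → (∀ s, dist ((σ s)⁻¹ • o) o ≤ R) →
    ∃ c : Fin m → ℂ, c ≠ 0 ∧ ∀ x ∈ Γ, (x • o).re ≤ 0 →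
      ∑ j, c j * PhiM (mm q σ o x) (Real.pi * j / u) = 0 := by
  classical
  obtain ⟨N, hN⟩ := cnt B (B + (Real.exp (2 * B) * Real.exp R + Real.exp (2 * B)))
  refine ⟨N + 1, fun Γ u o hf hc hu huB hD ho S _ _ _ q _ σ hσ hR => ?_⟩
  let T := (hf (B + (Real.exp (2 * B) * Real.exp R + Real.exp (2 * B)))).toFinset
  have hTN : T.card ≤ N := hN Γ hf hc T fun γ hγ => by
    simpa only [T, Set.Finite.mem_toFinset, mem_ofPred_eq] using hγ
  have hT : ∀ z ∈ Γ, 0 < (z • o).re → (∃ s, ((z * (σ s)⁻¹) • o).re ≤ 0) →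
      ∃ n : ℤ, dg (n * u) * z ∈ T := by
    rintro z hz h1 ⟨s, h2⟩
    obtain ⟨n, hn⟩ := barrierU hu o z (σ s) (hR s) h1 h2
    refine ⟨n, (Set.Finite.mem_toFinset _).2 ⟨Γ.mul_mem (dg_zmul hD n) hz, hn.trans ?_⟩⟩
    rw [dist_comm]
    gcongr
  let M : Matrix T (Fin (N + 1)) ℂ := fun t j => Phi q σ o t (Real.pi * j / u)
  obtain ⟨c, hc, hc0⟩ := (Submodule.ne_bot_iff _).1
    (LinearMap.ker_ne_bot_of_finrank_lt (f := M.mulVecLin) (by simp; omega))
  refine ⟨c, hc0, fun x hx hl => ?_⟩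
  let f : ℝ → ℂ := fun y => ∑ j, c j * chr (Real.pi * j / u) (Real.log y)
  have hf : ∀ z, ∫ y in Ioi 0, f y ∂(mm q σ o z) = ∑ j, c j * Phi q σ o z (Real.pi * j / u) := by
    intro z
    rw [integral_finsetSum]
    · simp only [integral_const_mul, Phi]
    · exact fun j _ => (Integrable.of_bound (measurable_chr_log _).aestronglyMeasurable 1
        (Eventually.of_forall fun y => (norm_chr _ _).le)).const_mul _
  change ∑ j, c j * Phi q σ o x (Real.pi * j / u) = 0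
  rw [← hf]
  refine barrier q σ o Γ hσ f (Finset.measurable_sum _ fun j _ =>
    (measurable_chr_log _).const_mul _) (∑ j, ‖c j‖) (fun y => ?_) ?_ x hx hl
  · refine (norm_sum_le _ _).trans (le_of_eq ?_)
    simp [norm_chr]
  · intro z hz h1 h2
    obtain ⟨n, hn⟩ := hT z hz h1 h2
    have := congrFun (LinearMap.mem_ker.1 hc) ⟨_, hn⟩
    rw [hf]
    change ∑ j : Fin (N + 1), Phi q σ o (dg (n * u) * z) (Real.pi * (j : ℕ) / u) * c j = 0
      at this
    simpa only [Phi_dg q σ o hu, mul_comm (c _)] using this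

lemma coc_of_dense {Γ : Subgroup G} {o : ℍ} {D : ℝ} (hD : ∀ z : ℍ, ∃ γ ∈ Γ, dist z (γ • o) ≤ D)
    (k T : G) : ∃ γ ∈ Γ, nrm (k * γ * k⁻¹ * T) ≤ D + dist (k • o) I := by
  obtain ⟨γ, hγ, h⟩ := hD (k⁻¹ • T • I)
  refine ⟨γ⁻¹, Γ.inv_mem hγ, (dist_triangle _ (k • o) _).trans (add_le_add ?_ le_rfl)⟩
  rw [mul_smul, mul_smul, mul_smul, dist_smul, ← dist_smul γ, smul_inv_smul]
  exact h

theorem nonunifU (D R : ℝ) : ∃ ε, 0 < ε ∧ ∀ (Γ : Subgroup G) (o : ℍ), FinG Γ →
    (∀ z : ℍ, ∃ γ ∈ Γ, dist z (γ • o) ≤ D) → ∃ (k : G) (u : ℝ), 0 < u ∧ k⁻¹ * dg u * k ∈ Γ ∧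
    ∀ (S : Type) [Fintype S] [MeasurableSpace S] [DiscreteMeasurableSpace S] (q : Measure S)
    [IsProbabilityMeasure q] (σ : S → G), (∀ s, σ s ∈ Γ) → (∀ s, dist (σ s • o) o ≤ R) →
    NonUnif (mm q (fun s => k * σ s * k⁻¹) (k • o) 1) ε := by
  obtain ⟨B, hB, hyp⟩ := hypB D
  have hB' : 0 < B + |D| := by positivity
  obtain ⟨m, hm⟩ := annihU (B + |D|) R
  obtain ⟨ε, hε, hU⟩ := unifM hB' m
  refine ⟨ε, hε, fun Γ o hf hD => ?_⟩
  have hL : Lat Γ := ⟨hf, D + dist ((1 : G) • o) I, fun T => by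
    simpa only [one_mul, inv_one, mul_one] using coc_of_dense hD 1 T⟩
  have hc : ∀ k : G, Coc (D + dist (k • o) I) (Γ.map (MulAut.conj k).toMonoidHom) := by
    intro k T
    obtain ⟨γ, hγ, h⟩ := coc_of_dense hD k T
    exact ⟨_, ⟨γ, hγ, rfl⟩, h⟩
  obtain ⟨t, ht⟩ := MulAction.exists_smul_eq G o I
  obtain ⟨k, u, a1, a2, a3, γ, hγ, a4⟩ := hyp _ (hL.conj t).fin (by
    have := hc t
    rwa [ht, dist_self, add_zero] at this)
  have a5 : γ = (k * t)⁻¹ * dg u * (k * t) := by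
    have : t * γ * t⁻¹ = k⁻¹ * dg u * k := a4
    rw [mul_inv_rev, mul_assoc t⁻¹, mul_assoc t⁻¹, ← mul_assoc _ k t, ← this]
    group
  have hu : 0 < u := lt_of_lt_of_le (by positivity) a2
  have ho : dist ((k * t) • o) I ≤ B := by rw [mul_smul, ht]; exact a1
  have p1 := le_abs_self D
  have p2 := abs_nonneg D
  have hc' : Coc (B + |D|) (Γ.map (MulAut.conj (k * t)).toMonoidHom) := fun T => by
    obtain ⟨x, hx, h⟩ := hc (k * t) T
    exact ⟨x, hx, by linarith⟩
  have hd : dg u ∈ Γ.map (MulAut.conj (k * t)).toMonoidHom := ⟨γ, hγ, by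
    change (k * t) * γ * (k * t)⁻¹ = dg u
    rw [a5]; group⟩
  refine ⟨k * t, u, hu, a5 ▸ hγ, fun S _ _ _ q _ σ hσ hR => ?_⟩
  refine hU _ u ((k * t) • o) _ (fun x => inferInstance) (hL.conj (k * t)).fin hc'
    ⟨le_trans (one_div_le_one_div_of_le hB (by linarith)) a2, by linarith⟩ hd (by linarith)
    (fun a x B h1 h2 h3 => mm_mul q _ _ a x h1 h2 h3)
    (hm _ u _ (hL.conj (k * t)).fin hc' hu (by linarith) hd (by linarith) S q _
      (fun s => ⟨σ s, hσ s, rfl⟩) fun s => ?_)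
  rw [← dist_smul (k * t * σ s * (k * t)⁻¹), smul_inv_smul, mul_smul (k * t * σ s), inv_smul_smul,
    mul_smul (k * t) (σ s), dist_smul, dist_comm]
  exact hR s

end Pool.Agent.P.MP_90a4ef_pr
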