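import Pool.Agent.P.MP_90a4ef_pr.U2

/-! The uniform bound for the dimension of the harmonic measure. -/

open MeasureTheory ProbabilityTheory Set Filter Topology UpperHalfPlane
open scoped ENNReal NNReal MatrixGroups

namespace Pool.Agent.P.MP_90a4ef_pr

theorem canonicalU (D R : ℝ) : ∃ d : ℝ≥0∞, d < 1 ∧ ∀ (S : Type) [Fintype S] [MeasurableSpace S]
    [DiscreteMeasurableSpace S] (q : Measure S) [IsProbabilityMeasure q], (∀ s, q {s} ≠ 0) →
    ∀ (σ : S → G) (o : ℍ), FinG (Subgroup.closure (range σ)) →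
    (∀ z : ℍ, ∃ γ ∈ Subgroup.closure (range σ), dist z (γ • o) ≤ D) →
    (∀ s, dist (σ s • o) o ≤ R) →
    ∃ ξ : (ℕ → S) → Metric.sphere (0 : ℂ) 1, Measurable ξ ∧
      (∀ᵐ ω ∂(PP q), Tendsto (fun n => (((Zs σ ω n • o : ℍ) : ℂ) - Complex.I) /
        (((Zs σ ω n • o : ℍ) : ℂ) + Complex.I)) atTop (𝓝 (ξ ω : ℂ))) ∧
      ∃ A, MeasurableSet A ∧ PP q (ξ ⁻¹' A)ᶜ = 0 ∧ dimH A ≤ d := by
  classical
  obtain ⟨ε, hε, hU⟩ := nonunifU D R
  obtain ⟨d₀, hd₀, hdim⟩ := dim_unif hε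
  obtain ⟨d, hd1, hd2⟩ := ENNReal.lt_iff_exists_nnreal_btwn.1 hd₀
  refine ⟨d, hd2, fun S _ _ _ q _ hq σ o hf hDD hR => ?_⟩
  have h : Lat (Subgroup.closure (range σ)) := ⟨hf, D + dist ((1 : G) • o) I, fun T => by
    simpa only [one_mul, inv_one, mul_one] using coc_of_dense hDD 1 T⟩
  obtain ⟨k, u, hu, hγ, hN⟩ := hU _ o hf hDD
  have hk : k * (k⁻¹ * dg u * k) * k⁻¹ = dg u := by group
  let σ' : S → G := fun s => k * σ s * k⁻¹
  have hcl : Subgroup.closure (range σ') =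
      (Subgroup.closure (range σ)).map (MulAut.conj k).toMonoidHom := by
    rw [MonoidHom.map_closure, ← range_comp]
    rfl
  have h' : Lat (Subgroup.closure (range σ')) := hcl ▸ h.conj k
  have hD : dg u ∈ Subgroup.closure (range σ') := hcl ▸ ⟨_, hγ, hk⟩
  have hZ : ∀ ω n, Zs σ' ω n = k * Zs σ ω n * k⁻¹ := by
    intro ω n
    induction n with
    | zero => simp [Zs]
    | succ n ih => simp only [Zs, ih, σ']; group
  have hpt : ∀ ω n, Zs σ ω n • o = k⁻¹ • ((1 * Zs σ' ω n) • k • o) := by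
    intro ω n
    simp [hZ, mul_smul]
  obtain ⟨A₀, hA₀, hA₁, hA₂⟩ := hdim (mm q σ' (k • o) 1)
    (hN S q σ (fun s => Subgroup.subset_closure ⟨s, rfl⟩) hR)
  let ψ : ℝ → ℂ := fun y =>
    (((k⁻¹ 0 0 * y + k⁻¹ 0 1 : ℝ) : ℂ) - Complex.I * (k⁻¹ 1 0 * y + k⁻¹ 1 1 : ℝ)) /
      ((k⁻¹ 0 0 * y + k⁻¹ 0 1 : ℝ) + Complex.I * (k⁻¹ 1 0 * y + k⁻¹ 1 1 : ℝ))
  have hψ : ContDiff ℝ 1 ψ := by
    have c : ∀ a b : ℝ, ContDiff ℝ 1 fun y : ℝ => ((a * y + b : ℝ) : ℂ) := fun a b =>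
      Complex.ofRealCLM.contDiff.comp ((contDiff_const.mul contDiff_id).add contDiff_const)
    simp only [ψ, div_eq_mul_inv]
    exact ((c _ _).sub (contDiff_const.mul (c _ _))).mul
      (((c _ _).add (contDiff_const.mul (c _ _))).inv fun y => den_ne (col_ne _ y))
  let p : Metric.sphere (0 : ℂ) 1 := ⟨_, mem_circ (col_ne' k⁻¹)⟩
  let ξ : (ℕ → S) → Metric.sphere (0 : ℂ) 1 := fun ω =>
    if ω ∈ Ev σ' (k • o) 1 univ then ⟨ψ (lim σ' (k • o) 1 ω), mem_circ (col_ne _ _)⟩ else p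
  refine ⟨ξ, Measurable.ite (measurableSet_Ev _ _ _ MeasurableSet.univ)
    (hψ.continuous.measurable.comp (measurable_lim _ _ _)).subtype_mk measurable_const, ?_, ?_⟩
  · filter_upwards [ae_conv q hq σ' h' hu hD (k • o)] with ω hω
    simp only [hpt, cay_act]
    by_cases hE : ω ∈ Ev σ' (k • o) 1 univ
    · simp only [ξ, if_pos hE]
      obtain ⟨y, -, hy⟩ := hE
      rw [lim_eq _ _ hy]
      have h0 := den_ne (col_ne k⁻¹ y)
      simp only [ψ]
      push_cast at h0 ⊢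
      exact (((hy.const_mul _).add_const _).sub (((hy.const_mul _).add_const _).const_mul _)).div
        (((hy.const_mul _).add_const _).add (((hy.const_mul _).add_const _).const_mul _)) h0
    · simp only [ξ, if_neg hE]
      have hv := hω.resolve_left hE
      have h0 := den_ne (col_ne' k⁻¹)
      have t1 := ((tendsto_const_nhds (x := (k⁻¹ 0 0 : ℂ) - Complex.I * k⁻¹ 1 0)).add (hv.const_mul
        ((k⁻¹ 0 1 : ℂ) - Complex.I * k⁻¹ 1 1 -
          Complex.I * ((k⁻¹ 0 0 : ℂ) - Complex.I * k⁻¹ 1 0)))).div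
        ((tendsto_const_nhds (x := (k⁻¹ 0 0 : ℂ) + Complex.I * k⁻¹ 1 0)).add (hv.const_mul
        ((k⁻¹ 0 1 : ℂ) + Complex.I * k⁻¹ 1 1 -
          Complex.I * ((k⁻¹ 0 0 : ℂ) + Complex.I * k⁻¹ 1 0)))) (by simpa using h0)
      simp only [mul_zero, add_zero] at t1
      refine t1.congr fun n => ?_
      have h1 : pt σ' (k • o) 1 ω n + Complex.I ≠ 0 := norm_pos_iff.1 (norm_add_I_pos _)
      rw [Pi.div_apply, ← mul_div_mul_right _ _ h1]
      change _ = (k⁻¹ 0 0 * pt σ' (k • o) 1 ω n + k⁻¹ 0 1 -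
        Complex.I * (k⁻¹ 1 0 * pt σ' (k • o) 1 ω n + k⁻¹ 1 1)) /
        (k⁻¹ 0 0 * pt σ' (k • o) 1 ω n + k⁻¹ 0 1 +
          Complex.I * (k⁻¹ 1 0 * pt σ' (k • o) 1 ω n + k⁻¹ 1 1))
      congr 1 <;> field_simp <;> ring
  · let B : Set (Metric.sphere (0 : ℂ) 1) := Subtype.val ⁻¹' (ψ '' A₀ ∪ {(p : ℂ)})
    have hB : dimH B < d := by
      refine (isometry_subtype_coe.antilipschitz.dimH_preimage_le _).trans_lt ?_
      rw [dimH_union, dimH_singleton, max_eq_left zero_le]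
      exact (hψ.contDiffOn.dimH_image_le convex_univ (subset_univ _)).trans_lt
        (hA₂.trans_lt hd1)
    refine ⟨toMeasurable μH[d] B, measurableSet_toMeasurable _ _, ?_, ?_⟩
    · rw [mm_apply q σ' _ 1 hA₀.compl] at hA₁
      refine measure_mono_null (fun ω hω => ?_) hA₁
      have h1 : ξ ω ∉ B := fun h1 => hω (subset_toMeasurable _ _ h1)
      by_cases hE : ω ∈ Ev σ' (k • o) 1 univ
      · rw [Ev_eq]
        refine ⟨fun h2 => h1 (Or.inl ⟨_, h2, ?_⟩), hE⟩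
        simp only [ξ, if_pos hE]
      · exact absurd (Or.inr (by simp only [ξ, if_neg hE]; rfl)) h1
    · refine dimH_le_of_hausdorffMeasure_ne_top ?_
      rw [measure_toMeasurable, hausdorffMeasure_of_dimH_lt hB]
      exact ENNReal.zero_ne_top

theorem mainU (D R : ℝ) : ∃ d : ℝ≥0∞, d < 1 ∧
    ∀ (Γ : Type) [Group Γ] [MeasurableSpace Γ] [DiscreteMeasurableSpace Γ] (μ : PMF Γ),
      μ.support.Finite → Subgroup.closure μ.support = ⊤ →
    ∀ (ρ : Γ →* SL(2, ℝ)), DiscreteTopology ρ.range → ∀ o : ℍ,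
      (∀ z : ℍ, ∃ γ : Γ, dist z (ρ γ • o) ≤ D) → (∀ s ∈ μ.support, dist (ρ s • o) o ≤ R) →
    ∀ (Ω : Type) [MeasurableSpace Ω] (P : Measure Ω) [IsProbabilityMeasure P]
      (g : ℕ → Ω → Γ), (∀ n, Measurable (g n)) → iIndepFun g P →
      (∀ n, P.map (g n) = μ.toMeasure) →
    ∃ ξ : Ω → Metric.sphere (0 : ℂ) 1, Measurable ξ ∧
      (∀ᵐ ω ∂P, Tendsto (fun n : ℕ =>
        (((ρ ((List.range n).map fun i => g i ω).prod • o : ℍ) : ℂ) - Complex.I) /
          (((ρ ((List.range n).map fun i => g i ω).prod • o : ℍ) : ℂ) + Complex.I))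
        atTop (𝓝 (ξ ω : ℂ))) ∧
      ⨅ (A : Set (Metric.sphere (0 : ℂ) 1)) (_ : MeasurableSet A) (_ : P.map ξ A = 1),
        dimH A ≤ d := by
  classical
  obtain ⟨d, hd, hcan⟩ := canonicalU D R
  refine ⟨d, hd, fun Γ _ _ _ μ hfin hgen ρ hdisc o hD hR Ω _ P _ g hg hind hlaw => ?_⟩
  have hf : FinG ρ.range := fun C => by
    have hc : IsClosed (ρ.range : Set G) := Subgroup.isClosed_of_discrete
    have h1 : IsCompact ((ρ.range : Set G) ∩ {A : G | nrm A ≤ C}) :=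
      (isCompact_nrm C).inter_left hc
    exact h1.finite (isDiscrete_iff_discreteTopology.2
      (DiscreteTopology.of_subset hdisc inter_subset_left))
  have : Fintype μ.support := hfin.fintype
  obtain ⟨s₀, hs₀⟩ := μ.support_nonempty
  let r : Γ → μ.support := fun a => if h : a ∈ μ.support then ⟨a, h⟩ else ⟨s₀, hs₀⟩
  have hr : Measurable r := Measurable.of_discrete
  let q : Measure μ.support := μ.toMeasure.map r
  have : IsProbabilityMeasure q := Measure.isProbabilityMeasure_map hr.aemeasurable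
  have hq : ∀ s, q {s} ≠ 0 := by
    intro s h0
    rw [Measure.map_apply hr (measurableSet_singleton s)] at h0
    have h1 : μ.toMeasure {s.1} = 0 := measure_mono_null (by
      rintro _ rfl
      exact dif_pos s.2) h0
    rw [PMF.toMeasure_apply_singleton _ _ (measurableSet_singleton _)] at h1
    exact s.2 h1
  let σ : μ.support → G := fun s => ρ s
  have hcl : Subgroup.closure (range σ) = ρ.range := by
    rw [MonoidHom.range_eq_map, ← hgen, MonoidHom.map_closure, image_eq_range]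
  obtain ⟨ξ, hξ, hconv, A, hA, hA0, hA1⟩ := hcan _ q hq σ o (hcl ▸ hf) (fun z => by
    obtain ⟨γ, h⟩ := hD z
    exact ⟨ρ γ, hcl ▸ ⟨γ, rfl⟩, h⟩) fun s => hR s s.2
  let Φ : Ω → ℕ → μ.support := fun ω n => r (g n ω)
  have hΦ : Measurable Φ := measurable_pi_iff.2 fun n => hr.comp (hg n)
  have hmap : P.map Φ = PP q := by
    have := (hind.comp (fun _ => r) fun _ => hr).map_fun_eq_infinitePi_map
      fun n => hr.comp (hg n)
    refine this.trans ?_
    unfold PP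
    congr 1
    funext n
    rw [← Measure.map_map hr (hg n), hlaw]
  have hsupp : ∀ᵐ ω ∂P, ∀ n, g n ω ∈ μ.support := by
    refine ae_all_iff.2 fun n => ae_of_ae_map (p := fun a => a ∈ μ.support) (hg n).aemeasurable ?_
    rw [hlaw, ae_iff, PMF.toMeasure_apply_eq_zero_iff _ MeasurableSet.of_discrete]
    exact disjoint_left.2 fun a h1 h2 => h2 h1
  refine ⟨ξ ∘ Φ, hξ.comp hΦ, ?_, ?_⟩
  · rw [← hmap] at hconv
    filter_upwards [ae_of_ae_map hΦ.aemeasurable hconv, hsupp] with ω h1 h2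
    have : ∀ n, ρ ((List.range n).map fun i => g i ω).prod = Zs σ (Φ ω) n := by
      intro n
      induction n with
      | zero => simp [Zs]
      | succ n ih =>
        rw [List.prod_range_succ, map_mul, ih, Zs]
        simp only [σ, Φ, r, dif_pos (h2 n)]
    simp only [this]
    exact h1
  · refine le_trans (iInf_le_of_le A (iInf₂_le hA ?_)) hA1
    rw [← Measure.map_map hξ hΦ, hmap, Measure.map_apply hξ hA]
    exact (prob_compl_eq_zero_iff (hξ hA)).1 hA0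

end Pool.Agent.P.MP_90a4ef_pr
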