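import Pool.Agent.P.MP_90a4ef_pr.U2

/-! Quantitative analytic lemmas for the explicit rate. -/

open MeasureTheory Set Filter Topology
open scoped ENNReal NNReal

namespace Pool.Agent.P.MP_90a4ef_pr

lemma Bt_lower {w : ℝ} (hw : 0 ≤ w) : Real.exp (-(Real.pi * w)) ≤ ‖Bt w‖ := by
  have h1 := Complex.Gamma_mul_Gamma_eq_betaIntegral (s := 1 + w * Complex.I)
    (t := 1 - w * Complex.I) (by simp) (by simp)
  have h2 : (1 + w * Complex.I) + (1 - w * Complex.I) = ((1 : ℕ) : ℂ) + 1 := by push_cast; ring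
  rw [← Bt, h2, Complex.Gamma_nat_eq_factorial] at h1
  simp only [Nat.factorial_one, Nat.cast_one, one_mul] at h1
  rcases hw.eq_or_lt with rfl | hw
  · rw [← h1]; simp
  have hz : (w : ℂ) * Complex.I ≠ 0 := mul_ne_zero (by exact_mod_cast hw.ne') Complex.I_ne_zero
  have h3 := Complex.Gamma_mul_Gamma_one_sub (w * Complex.I)
  have hx : 0 < Real.pi * w := mul_pos Real.pi_pos hw
  have hs := Real.sinh_pos_iff.2 hx
  have h4 : Bt w = ((Real.pi * w / Real.sinh (Real.pi * w) : ℝ) : ℂ) := by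
    rw [← h1, add_comm, Complex.Gamma_add_one _ hz, mul_assoc, h3, ← mul_assoc (Real.pi : ℂ),
      Complex.sin_mul_I]
    have : Complex.sinh (Real.pi * w) ≠ 0 := by exact_mod_cast hs.ne'
    push_cast
    field_simp
  rw [h4, Complex.norm_real, Real.norm_of_nonneg (div_pos hx hs).le, le_div_iff₀ hs, Real.sinh_eq]
  have h5 := Real.add_one_le_exp (-(Real.pi * w) + -(Real.pi * w))
  rw [Real.exp_add] at h5
  have h6 : Real.exp (-(Real.pi * w)) * Real.exp (Real.pi * w) = 1 := by
    rw [← Real.exp_add]; simp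
  nlinarith

lemma chr_lip (w s t : ℝ) : ‖chr w s - chr w t‖ ≤ |w| * |s - t| := by
  have h : chr w s - chr w t = chr w t * (Complex.exp (Complex.I * (w * (s - t) : ℝ)) - 1) := by
    rw [mul_sub, mul_one, chr_apply, chr_apply, ← Complex.exp_add]
    congr 2
    push_cast
    ring
  rw [h, norm_mul, norm_chr, one_mul, ← abs_mul]
  exact Real.norm_exp_I_mul_ofReal_sub_one_le

lemma coef_le {m : ℕ} (b : Fin m → ℂ) {u : ℝ} (hu : 0 < u) (t₀ η : ℝ)
    (h : ∀ t ∈ Icc t₀ (t₀ + 2 * u), ‖∑ j, b j * chr (Real.pi * j / u) t‖ ≤ η) (k : Fin m) :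
    ‖b k‖ ≤ η := by
  classical
  have orth : ∀ j : Fin m, ∫ t in t₀..(t₀ + 2 * u),
      chr (Real.pi * j / u) t * chr (-(Real.pi * k / u)) t = if j = k then ((2 * u : ℝ) : ℂ) else 0 := by
    intro j
    have e : ∀ t : ℝ, chr (Real.pi * j / u) t * chr (-(Real.pi * k / u)) t =
        Complex.exp ((Real.pi * ((j : ℝ) - k) / u : ℝ) * Complex.I * t) := by
      intro t
      rw [chr_apply, chr_apply, ← Complex.exp_add]
      congr 1
      push_cast
      ring
    simp only [e]
    split_ifs with hjk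
    · subst hjk; simp
    · have hne : (j : ℝ) - k ≠ 0 := by
        rw [sub_ne_zero]
        exact fun h1 => hjk (Fin.ext (by exact_mod_cast h1))
      have hu' : (u : ℂ) ≠ 0 := by exact_mod_cast hu.ne'
      rw [integral_exp_mul_complex (mul_ne_zero (by
        exact_mod_cast div_ne_zero (mul_ne_zero Real.pi_ne_zero hne) hu.ne') Complex.I_ne_zero)]
      have : ((Real.pi * ((j : ℝ) - k) / u : ℝ) : ℂ) * Complex.I * ((t₀ + 2 * u : ℝ) : ℂ) =
          ((Real.pi * ((j : ℝ) - k) / u : ℝ) : ℂ) * Complex.I * t₀ +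
            (((j : ℤ) - k : ℤ) : ℂ) * (2 * Real.pi * Complex.I) := by
        push_cast
        field_simp
      rw [this, Complex.exp_add, Complex.exp_int_mul_two_pi_mul_I, mul_one, sub_self, zero_div]
  have key : ∫ t in t₀..(t₀ + 2 * u), (∑ j, b j * chr (Real.pi * j / u) t) *
      chr (-(Real.pi * k / u)) t = b k * ((2 * u : ℝ) : ℂ) := by
    simp only [Finset.sum_mul, mul_assoc]
    rw [intervalIntegral.integral_finsetSum fun j _ => Continuous.intervalIntegrable
      (by fun_prop) _ _]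
    simp only [intervalIntegral.integral_const_mul, orth, mul_ite, mul_zero,
      Finset.sum_ite_eq', Finset.mem_univ, if_true]
  have h2 := intervalIntegral.norm_integral_le_of_norm_le_const (a := t₀) (b := t₀ + 2 * u)
    (C := η) (f := fun t => (∑ j, b j * chr (Real.pi * j / u) t) * chr (-(Real.pi * k / u)) t)
    (fun t ht => by
      rw [uIoc_of_le (by linarith)] at ht
      rw [norm_mul, norm_chr, mul_one]
      exact h t (Ioc_subset_Icc_self ht))
  rw [key, norm_mul, Complex.norm_real, add_sub_cancel_left, Real.norm_eq_abs] at h2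
  exact le_of_mul_le_mul_right h2 (abs_pos.2 (by positivity))

lemma hasDerivAt_chr (w t : ℝ) : HasDerivAt (fun s => chr w s) (chr w t * (w * Complex.I)) t := by
  have h : HasDerivAt (fun s : ℝ => ((w * s : ℝ) : ℂ) * Complex.I) (w * Complex.I) t := by
    simpa using (((hasDerivAt_id t).const_mul w).ofReal_comp).mul_const Complex.I
  exact h.cexp

lemma clamp_int (ν : Measure ℝ) [IsFiniteMeasure ν] {w : ℝ} (hw : 0 ≤ w) (T : ℝ) :
    ‖∫ t, chr w t ∂ν - (chr w (-T) * ν.real univ +
      ∫ s in Ioc (-T) T, chr w s * (w * Complex.I) * ν.real (Ioi s))‖ ≤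
      2 * (ν.real (Ioi T) + (ν.real univ - ν.real (Ioi (-T)))) := by
  let f' : ℝ → ℂ := fun s => chr w s * (w * Complex.I)
  have cf : Continuous f' := (chr w).continuous.mul continuous_const
  have nf : ∀ s, ‖f' s‖ = w := fun s => by simp [f', norm_chr, abs_of_nonneg hw]
  have ftc : ∀ a, -T ≤ a → ∫ s in Ioc (-T) a, f' s = chr w a - chr w (-T) := by
    intro a ha
    rw [← intervalIntegral.integral_of_le ha]
    exact intervalIntegral.integral_eq_sub_of_hasDerivAt (fun s _ => hasDerivAt_chr w s)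
      (cf.intervalIntegrable _ _)
  let F : ℝ → ℝ → ℂ := fun t s => (Iio t).indicator f' s
  have hF : ∀ t, ∫ s in Ioc (-T) T, F t s = chr w (max (-T) (min t T)) - chr w (-T) := by
    intro t
    rw [setIntegral_indicator measurableSet_Iio, ← ftc _ (le_max_left _ _)]
    refine setIntegral_congr_set ?_
    have h1 : ∀ᵐ s : ℝ, s ≠ t := by simp [ae_iff]
    filter_upwards [h1] with s hs
    apply propext
    change (s ∈ Ioc (-T) T ∧ s ∈ Iio t) ↔ s ∈ Ioc (-T) (max (-T) (min t T))
    simp only [mem_Ioc, mem_Iio, le_max_iff, le_min_iff]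
    constructor
    · rintro ⟨⟨a, b⟩, c⟩
      exact ⟨a, Or.inr ⟨c.le, b⟩⟩
    · rintro ⟨a, b | ⟨b, c⟩⟩
      · exact absurd a (not_lt.2 b)
      · exact ⟨⟨a, c⟩, lt_of_le_of_ne b hs⟩
  have hint : Integrable (Function.uncurry F) (ν.prod (volume.restrict (Ioc (-T) T))) := by
    refine Integrable.of_bound ?_ w (Eventually.of_forall fun p => ?_)
    · have : Function.uncurry F = {p : ℝ × ℝ | p.2 < p.1}.indicator fun p => f' p.2 := by
        funext p
        rfl
      rw [this]
      exact ((cf.measurable.comp measurable_snd).indicator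
        (measurableSet_lt measurable_snd measurable_fst)).aestronglyMeasurable
    · exact (norm_indicator_le_norm_self _ _).trans (nf _).le
  have sw := integral_integral_swap hint
  have hG : ∀ s, ∫ t, F t s ∂ν = f' s * ν.real (Ioi s) := by
    intro s
    have : (fun t => F t s) = (Ioi s).indicator fun _ => f' s := by
      funext t
      rfl
    rw [this, integral_indicator_const _ measurableSet_Ioi, Complex.real_smul, mul_comm]
  simp only [hF, hG] at sw
  have cc : Continuous fun t => chr w (max (-T) (min t T)) := (chr w).continuous.comp (by fun_prop)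
  have i1 : Integrable (fun t => chr w (max (-T) (min t T))) ν :=
    .of_bound cc.aestronglyMeasurable 1 (Eventually.of_forall fun t => (norm_chr _ _).le)
  have i2 : Integrable (fun t => chr w t) ν := (chr w).integrable ν
  rw [integral_sub i1 (integrable_const _), integral_const, Complex.real_smul] at sw
  have e : chr w (-T) * ν.real univ + ∫ s in Ioc (-T) T, chr w s * (w * Complex.I) * ν.real (Ioi s)
      = ∫ t, chr w (max (-T) (min t T)) ∂ν := by
    change _ + ∫ s in Ioc (-T) T, f' s * ν.real (Ioi s) = _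
    rw [← sw]
    ring
  rw [e, ← integral_sub i2 i1]
  have hS : MeasurableSet (Ioi T ∪ (Ioi (-T))ᶜ) := measurableSet_Ioi.union measurableSet_Ioi.compl
  refine (norm_integral_le_of_norm_le ((integrable_const (2 : ℝ)).indicator hS)
    (Eventually.of_forall fun t => ?_)).trans ?_
  · by_cases ht : t ∈ Ioi T ∪ (Ioi (-T))ᶜ
    · rw [indicator_of_mem ht]
      refine (norm_sub_le _ _).trans ?_
      rw [norm_chr, norm_chr]
      norm_num
    · rw [indicator_of_notMem ht]
      simp only [mem_union, mem_Ioi, mem_compl_iff, not_or, not_lt, not_le] at ht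
      rw [min_eq_left ht.1, max_eq_right ht.2.le, sub_self, norm_zero]
  · rw [integral_indicator_const _ hS, smul_eq_mul, mul_comm]
    refine mul_le_mul_of_nonneg_left ((measureReal_union_le _ _).trans (le_of_eq ?_)) two_pos.le
    rw [measureReal_compl measurableSet_Ioi]

lemma weak_err (ν₁ ν₂ : Measure ℝ) [IsFiniteMeasure ν₁] [IsFiniteMeasure ν₂]
    {c₁ c₂ e τ w T : ℝ} (h₁ : 0 ≤ c₁) (h₂ : 0 ≤ c₂) (hw : 0 ≤ w) (hT : 0 ≤ T)
    (ht : ∀ t, |c₁ * ν₁.real (Ioi t) - c₂ * ν₂.real (Ioi t)| ≤ e)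
    (hu : |c₁ * ν₁.real univ - c₂ * ν₂.real univ| ≤ e) (a1 : c₂ * ν₂.real (Ioi T) ≤ τ)
    (a2 : c₂ * (ν₂.real univ - ν₂.real (Ioi (-T))) ≤ τ) :
    ‖(c₁ : ℂ) * ∫ t, chr w t ∂ν₁ - c₂ * ∫ t, chr w t ∂ν₂‖ ≤
      e * (1 + 2 * T * w) + 8 * τ + 6 * e := by
  have k1 := clamp_int ν₁ hw T
  have k2 := clamp_int ν₂ hw T
  have int : ∀ (ν : Measure ℝ) [IsFiniteMeasure ν], IntegrableOn
      (fun s => chr w s * (w * Complex.I) * ν.real (Ioi s)) (Ioc (-T) T) := by
    intro ν _
    have hm : Measurable fun s => ν.real (Ioi s) :=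
      Antitone.measurable fun a b hab => measureReal_mono (Ioi_subset_Ioi hab)
    refine Integrable.of_bound (((chr w).continuous.measurable.mul_const _).mul
      (Complex.measurable_ofReal.comp hm)).aestronglyMeasurable (w * ν.real univ)
      (Eventually.of_forall fun s => ?_)
    simp only [norm_mul, norm_chr, Complex.norm_real, Complex.norm_I, one_mul, mul_one,
      Real.norm_of_nonneg hw, Real.norm_of_nonneg measureReal_nonneg]
    exact mul_le_mul_of_nonneg_left (measureReal_mono (subset_univ _)) hw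
  have k3 : ‖(c₁ : ℂ) * (∫ s in Ioc (-T) T, chr w s * (w * Complex.I) * ν₁.real (Ioi s)) -
      c₂ * ∫ s in Ioc (-T) T, chr w s * (w * Complex.I) * ν₂.real (Ioi s)‖ ≤ w * e * (2 * T) := by
    rw [← integral_const_mul, ← integral_const_mul,
      ← integral_sub ((int ν₁).const_mul _) ((int ν₂).const_mul _)]
    refine (norm_setIntegral_le_of_norm_le_const (C := w * e) measure_Ioc_lt_top
      fun s _ => ?_).trans (le_of_eq ?_)
    · have : (c₁ : ℂ) * (chr w s * (w * Complex.I) * ν₁.real (Ioi s)) -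
          c₂ * (chr w s * (w * Complex.I) * ν₂.real (Ioi s)) = chr w s * (w * Complex.I) *
          ((c₁ * ν₁.real (Ioi s) - c₂ * ν₂.real (Ioi s) : ℝ) : ℂ) := by
        push_cast; ring
      rw [this]
      simp only [norm_mul, norm_chr, Complex.norm_real, Complex.norm_I, one_mul, mul_one,
        Real.norm_of_nonneg hw, Real.norm_eq_abs]
      exact mul_le_mul_of_nonneg_left (ht s) hw
    · rw [Real.volume_real_Ioc_of_le (by linarith)]
      ring
  have k4 : ‖chr w (-T) * ((c₁ * ν₁.real univ - c₂ * ν₂.real univ : ℝ) : ℂ)‖ ≤ e := by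
    rw [norm_mul, norm_chr, one_mul, Complex.norm_real]
    exact hu
  obtain ⟨X₁, hX₁⟩ : ∃ X, X = ∫ s in Ioc (-T) T, chr w s * (w * Complex.I) * ν₁.real (Ioi s) :=
    ⟨_, rfl⟩
  obtain ⟨X₂, hX₂⟩ : ∃ X, X = ∫ s in Ioc (-T) T, chr w s * (w * Complex.I) * ν₂.real (Ioi s) :=
    ⟨_, rfl⟩
  rw [← hX₁] at k1 k3
  rw [← hX₂] at k2 k3
  have e1 : (c₁ : ℂ) * ∫ t, chr w t ∂ν₁ - c₂ * ∫ t, chr w t ∂ν₂ =
      (c₁ * (∫ t, chr w t ∂ν₁ - (chr w (-T) * ν₁.real univ + X₁)) -
        c₂ * (∫ t, chr w t ∂ν₂ - (chr w (-T) * ν₂.real univ + X₂))) +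
      (chr w (-T) * ((c₁ * ν₁.real univ - c₂ * ν₂.real univ : ℝ) : ℂ) + (c₁ * X₁ - c₂ * X₂)) := by
    push_cast; ring
  rw [e1]
  refine (norm_add_le _ _).trans ?_
  have k5 := norm_add_le (chr w (-T) * ((c₁ * ν₁.real univ - c₂ * ν₂.real univ : ℝ) : ℂ))
    (c₁ * X₁ - c₂ * X₂)
  have k6 := norm_sub_le (c₁ * (∫ t, chr w t ∂ν₁ - (chr w (-T) * ν₁.real univ + X₁)))
    (c₂ * (∫ t, chr w t ∂ν₂ - (chr w (-T) * ν₂.real univ + X₂)))
  rw [norm_mul, norm_mul, Complex.norm_real, Complex.norm_real, Real.norm_of_nonneg h₁,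
    Real.norm_of_nonneg h₂] at k6
  have k7 := mul_le_mul_of_nonneg_left k1 h₁
  have k8 := mul_le_mul_of_nonneg_left k2 h₂
  have b1 := abs_le.1 (ht T)
  have b2 := abs_le.1 (ht (-T))
  have b3 := abs_le.1 hu
  nlinarith [b1.1, b1.2, b2.1, b2.2, b3.1, b3.2]

end Pool.Agent.P.MP_90a4ef_pr
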