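import Pool.Agent.P.MP_90a4ef_pr.V1

/-! Quantitative geometric lemmas for the explicit rate. -/

open MeasureTheory Set Filter Topology UpperHalfPlane
open scoped ENNReal NNReal MatrixGroups

namespace Pool.Agent.P.MP_90a4ef_pr

lemma ent_le (A : M2) (i j : Fin 2) : |A i j| ≤ N4 A := by
  unfold N4
  have a := abs_nonneg (A 0 0)
  have b := abs_nonneg (A 0 1)
  have c := abs_nonneg (A 1 0)
  have d := abs_nonneg (A 1 1)
  fin_cases i <;> fin_cases j <;> simp only [Fin.zero_eta, Fin.mk_one, Fin.isValue] <;> linarith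

lemma N4_mulG (a b : G) : N4 (a * b : G) ≤ N4 a * N4 b := by
  rw [Matrix.SpecialLinearGroup.coe_mul]
  exact N4_mul _ _

theorem second_row {B : ℝ} (hB : 0 < B) : ∃ Q : ℝ, 1 ≤ Q ∧ ∀ (Γ : Subgroup G) (u : ℝ) (k : G),
    FinG Γ → Coc B Γ → u ∈ Icc (1 / B) B → dg u ∈ Γ → nrm k ≤ B → ∃ g ∈ Γ, N4 k ≤ Q ∧
      N4 (k * g : G) ≤ Q ∧ 1 / Q ≤ |k 1 0 * (k * g) 1 1 - k 1 1 * (k * g) 1 0| := by
  by_contra! hcon
  choose Γ u k hf hc hu hD hk hΓ using fun n : ℕ => hcon (n + 1) (by simp)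
  obtain ⟨k₀, -, hk₀⟩ := ulim (isCompact_nrm B) k hk
  obtain ⟨u₀, hu₀, hu₁⟩ := ulim isCompact_Icc u hu
  have hup : 0 < u₀ := lt_of_lt_of_le (by positivity) hu₀.1
  have h := lat_Lim hf hc
  have hD₀ : dg u₀ ∈ Lim Γ := ⟨_, hD, (continuous_dg.tendsto _).comp hu₁⟩
  obtain ⟨g, ⟨gs, hgs, hg⟩, hΔ⟩ : ∃ g ∈ Lim Γ,
      k₀ 1 0 * (k₀ * g) 1 1 - k₀ 1 1 * (k₀ * g) 1 0 ≠ 0 := by
    obtain ⟨g, hg, h1, h2⟩ := h.dense hup.ne' hD₀ k₀ (lt_add_one (k₀ 1 1 / k₀ 1 0))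
    refine ⟨g, hg, fun h3 => ?_⟩
    by_cases h4 : k₀ 1 0 = 0
    · have hd := det_eq k₀
      rw [h4, zero_mul, zero_sub, neg_eq_zero, mul_eq_zero, or_iff_left h1] at h3
      simp [h3, h4] at hd
    · refine h2.1.ne ?_
      rw [div_eq_div_iff h4 h1]
      linarith
  have ce : ∀ i j, Continuous fun g : G => g i j := fun i j => by fun_prop
  have cN : Continuous fun g : G => N4 g := continuous_N4.comp continuous_subtype_val
  have hkg := hk₀.mul hg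
  have t1 := (cN.tendsto _).comp hk₀
  have t2 := (cN.tendsto _).comp hkg
  have t3 := (((((ce 1 0).tendsto _).comp hk₀).mul (((ce 1 1).tendsto _).comp hkg)).sub
    ((((ce 1 1).tendsto _).comp hk₀).mul (((ce 1 0).tendsto _).comp hkg))).abs
  have t4 : Tendsto (fun n : ℕ => (n : ℝ) + 1) (hyperfilter ℕ) atTop :=
    (tendsto_atTop_add_const_right _ 1 tendsto_natCast_atTop_atTop).mono_left
      Nat.hyperfilter_le_atTop
  have t5 : Tendsto (fun n : ℕ => 1 / ((n : ℝ) + 1)) (hyperfilter ℕ) (𝓝 0) :=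
    tendsto_const_nhds.div_atTop t4
  obtain ⟨n, ⟨⟨a1, a2⟩, a3, a4⟩, a5⟩ := ((((t1.eventually (gt_mem_nhds (lt_add_one _))).and
    (t2.eventually (gt_mem_nhds (lt_add_one _)))).and
    ((t4.eventually_ge_atTop (N4 k₀ + 1)).and (t4.eventually_ge_atTop (N4 (k₀ * g : G) + 1)))).and
    (t5.eventually_lt t3 (abs_pos.2 hΔ))).exists
  exact lt_asymm a5 (hΓ n (gs n) (hgs n) (a1.le.trans a3) (a2.le.trans a4))

theorem dense_rate {B : ℝ} (hB : 0 < B) : ∃ K : ℝ, 1 ≤ K ∧ ∀ (Γ : Subgroup G) (u : ℝ) (k : G),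
    FinG Γ → Coc B Γ → u ∈ Icc (1 / B) B → dg u ∈ Γ → nrm k ≤ B →
    ∀ p ∈ Icc 0 (Real.exp (2 * B + 1)), ∀ δ ∈ Ioc (0 : ℝ) 1, ∃ g ∈ Γ, 1 ≤ |(k * g) 1 0| ∧
      |(k * g) 1 1 / (k * g) 1 0 - p| ≤ δ ∧ N4 (k * g : G) ≤ K / δ := by
  obtain ⟨Q, hQ, hrow⟩ := second_row hB
  obtain ⟨C, hC⟩ : ∃ C, C = 8 * Real.cosh B := ⟨_, rfl⟩
  have hC1 : 1 ≤ C := by linarith [Real.one_le_cosh B]
  obtain ⟨H, hH⟩ : ∃ H, H = Q * C := ⟨_, rfl⟩
  have hH1 : 1 ≤ H := hH ▸ one_le_mul_of_one_le_of_one_le hQ hC1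
  obtain ⟨J, hJ⟩ : ∃ J, J = 2 * Q * H := ⟨_, rfl⟩
  have hJ1 : 1 ≤ J := by rw [hJ]; nlinarith
  have hE := Real.exp_pos (2 * B + 1)
  have hHJ : 1 ≤ H * J := one_le_mul_of_one_le_of_one_le hH1 hJ1
  refine ⟨H * (H * J * (2 + Real.exp (2 * B + 1))), ?_,
    fun Γ u k hf hc hu hD hk p hp δ hδ => ?_⟩
  · exact one_le_mul_of_one_le_of_one_le hH1 (one_le_mul_of_one_le_of_one_le hHJ (by linarith))
  obtain ⟨g₀, hg₀, n0, n1, hΔ⟩ := hrow Γ u k hf hc hu hD hk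
  obtain ⟨l, hl⟩ : ∃ l, l = H * J / δ := ⟨_, rfl⟩
  have hlδ : l * δ = H * J := by rw [hl]; exact div_mul_cancel₀ _ hδ.1.ne'
  have hl1 : H * J ≤ l := by rw [hl, le_div_iff₀ hδ.1]; nlinarith [hδ.2]
  have hl0 : 0 < l := by linarith
  let T : G := ⟨!![l, p * l; 0, l⁻¹], by simp [hl0.ne']⟩
  have T00 : T 0 0 = l := rfl
  have T01 : T 0 1 = p * l := rfl
  have T10 : T 1 0 = 0 := rfl
  have T11 : T 1 1 = l⁻¹ := rfl
  obtain ⟨g, hg, h1⟩ := hc T⁻¹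
  have nE : N4 (g * T⁻¹ : G) ≤ C := hC ▸ N4_le h1
  have nT : N4 T ≤ l * (2 + Real.exp (2 * B + 1)) := by
    change |T 0 0| + |T 0 1| + |T 1 0| + |T 1 1| ≤ _
    have : l⁻¹ ≤ l := (inv_le_one_of_one_le₀ (by linarith)).trans (by linarith)
    rw [T00, T01, T10, T11, abs_of_pos hl0, abs_of_nonneg (mul_nonneg hp.1 hl0.le), abs_zero,
      abs_of_pos (inv_pos.2 hl0)]
    nlinarith [hp.2]
  have key : ∀ κ : G, N4 κ ≤ Q → 1 ≤ J * |(κ * (g * T⁻¹)) 1 0| → 1 ≤ |(κ * g) 1 0| ∧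
      |(κ * g) 1 1 / (κ * g) 1 0 - p| ≤ δ ∧
      N4 (κ * g : G) ≤ H * (H * J * (2 + Real.exp (2 * B + 1))) / δ := by
    intro κ hκ h2
    obtain ⟨F, hF⟩ : ∃ F, F = κ * (g * T⁻¹) := ⟨_, rfl⟩
    have nF : N4 F ≤ H := by
      rw [hF, hH]
      exact (N4_mulG _ _).trans (mul_le_mul hκ nE (N4_nonneg _) (by linarith))
    have e : κ * g = F * T := by rw [hF]; group
    rw [← hF] at h2
    have hF0 : 0 < |F 1 0| := by
      by_contra! h3
      nlinarith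
    have hF0' := abs_pos.1 hF0
    rw [e]
    refine ⟨?_, ?_, ?_⟩
    · rw [mul_ij, T00, T10, mul_zero, add_zero, abs_mul, abs_of_pos hl0]
      nlinarith
    · have : (F * T) 1 1 / (F * T) 1 0 - p = F 1 1 / (F 1 0 * (l * l)) := by
        rw [mul_ij, mul_ij, T00, T01, T10, T11]
        field_simp
        ring
      rw [this, abs_div, abs_mul, abs_of_pos (mul_pos hl0 hl0), div_le_iff₀ (by positivity)]
      have h3 : |F 1 1| ≤ H := (ent_le F 1 1).trans nF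
      have h4 : δ * (|F 1 0| * (l * l)) = H * (J * |F 1 0|) * l := by
        linear_combination |F 1 0| * l * hlδ
      have h5 : H ≤ H * (J * |F 1 0|) := le_mul_of_one_le_right (by linarith) h2
      rw [h4]
      exact h3.trans (h5.trans (le_mul_of_one_le_right (by linarith) (by linarith)))
    · refine (N4_mulG _ _).trans ((mul_le_mul nF nT (N4_nonneg _) (by linarith)).trans
        (le_of_eq ?_))
      rw [hl]
      ring
  obtain ⟨E, hEe⟩ : ∃ E, E = g * T⁻¹ := ⟨_, rfl⟩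
  rw [← hEe] at key nE
  by_cases h2 : 1 ≤ J * |(k * E) 1 0|
  · exact ⟨g, hg, key k n0 h2⟩
  refine ⟨g₀ * g, Γ.mul_mem hg₀ hg, ?_⟩
  rw [← mul_assoc]
  refine key _ n1 ?_
  obtain ⟨κ, hκ⟩ : ∃ κ, κ = k * g₀ := ⟨_, rfl⟩
  rw [← hκ] at hΔ n1 ⊢
  have e : k 1 0 * κ 1 1 - k 1 1 * κ 1 0 =
      (k * E) 1 0 * (κ * E) 1 1 - (k * E) 1 1 * (κ * E) 1 0 := by
    simp only [mul_ij]
    linear_combination -(k 1 0 * κ 1 1 - k 1 1 * κ 1 0) * det_eq E
  have b1 : |(κ * E) 1 1| ≤ H := (ent_le _ 1 1).trans (hH ▸ (N4_mulG _ _).trans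
    (mul_le_mul n1 nE (N4_nonneg _) (by linarith)))
  have b2 : |(k * E) 1 1| ≤ H := (ent_le _ 1 1).trans (hH ▸ (N4_mulG _ _).trans
    (mul_le_mul n0 nE (N4_nonneg _) (by linarith)))
  have h3 := abs_sub ((k * E) 1 0 * (κ * E) 1 1) ((k * E) 1 1 * (κ * E) 1 0)
  rw [← e, abs_mul, abs_mul] at h3
  have a1 := mul_le_mul_of_nonneg_left b1 (abs_nonneg ((k * E) 1 0))
  have a2 := mul_le_mul_of_nonneg_right b2 (abs_nonneg ((κ * E) 1 0))
  rw [div_le_iff₀ (by linarith)] at hΔ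
  have a3 := mul_le_mul_of_nonneg_right (h3.trans (add_le_add a1 a2)) (show 0 ≤ Q by linarith)
  rw [hJ] at h2 ⊢
  linarith

theorem cntV (B : ℝ) : ∃ N : ℕ, ∀ (Γ : Subgroup G) (o : ℍ), FinG Γ → Coc B Γ → dist o I ≤ B →
    ∀ X : ℝ, ∃ T : Finset G, T.card ≤ N * (⌊X⌋₊ + 1) ∧ ∀ γ ∈ Γ,
      (γ • o).im ∈ Icc 1 (Real.exp (2 * B)) → (γ • o).re ∈ Icc 0 X → γ ∈ T := by
  classical
  obtain ⟨N, hN⟩ := cnt B (B + (1 + Real.exp (2 * B)) + B)
  refine ⟨N, fun Γ o hf hc ho X => ?_⟩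
  have dd : ∀ w w' : ℍ, w.im ∈ Icc 1 (Real.exp (2 * B)) → w'.im ∈ Icc 1 (Real.exp (2 * B)) →
      dist w w' ≤ |w.re - w'.re| + Real.exp (2 * B) := by
    intro w w' a b
    refine (dist_le_dist_coe_div_sqrt w w').trans ((div_le_self dist_nonneg
      (Real.one_le_sqrt.2 (one_le_mul_of_one_le_of_one_le a.1 b.1))).trans ?_)
    rw [Complex.dist_eq]
    refine (Complex.norm_le_abs_re_add_abs_im _).trans ?_
    simp only [Complex.sub_re, coe_re, Complex.sub_im, coe_im]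
    refine add_le_add le_rfl (abs_le.2 ⟨?_, ?_⟩) <;> linarith [a.1, a.2, b.1, b.2]
  have hfin : {γ | γ ∈ Γ ∧ (γ • o).im ∈ Icc 1 (Real.exp (2 * B)) ∧
      (γ • o).re ∈ Icc 0 X}.Finite := by
    refine (hf (B + (X + Real.exp (2 * B)))).subset fun γ hγ => ⟨hγ.1, ?_⟩
    have h1 := dd (γ • o) I hγ.2.1 ⟨by simp, by simpa using hγ.2.1.1.trans hγ.2.1.2⟩
    rw [I_re, sub_zero, abs_of_nonneg hγ.2.2.1] at h1
    have h2 := dist_triangle (γ • I) (γ • o) I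
    rw [dist_smul, dist_comm I o] at h2
    unfold nrm
    linarith [hγ.2.2.2]
  refine ⟨hfin.toFinset, ?_, fun γ a b c => (Set.Finite.mem_toFinset _).2 ⟨a, b, c⟩⟩
  rw [← Finset.card_range (⌊X⌋₊ + 1)]
  refine Finset.card_le_mul_card_image_of_maps_to (f := fun γ : G => ⌊(γ • o).re⌋₊)
    (fun γ hγ => ?_) N fun j _ => ?_
  · rw [Set.Finite.mem_toFinset] at hγ
    exact Finset.mem_range.2 (Nat.lt_succ_of_le (Nat.floor_mono hγ.2.2.2))
  · rcases (hfin.toFinset.filter fun γ : G => ⌊(γ • o).re⌋₊ = j).eq_empty_or_nonempty with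
      h | ⟨γ₀, hγ₀⟩
    · rw [h]; simp
    rw [← Finset.card_image_of_injective _ (mul_right_injective γ₀⁻¹)]
    refine hN Γ hf hc _ fun x hx => ?_
    obtain ⟨γ, hγ, rfl⟩ := Finset.mem_image.1 hx
    rw [Finset.mem_filter, Set.Finite.mem_toFinset] at hγ hγ₀
    refine ⟨Γ.mul_mem (Γ.inv_mem hγ₀.1.1) hγ.1.1, ?_⟩
    have h1 := dd (γ • o) (γ₀ • o) hγ.1.2.1 hγ₀.1.2.1
    have a1 := Nat.floor_le hγ.1.2.2.1
    have a2 := Nat.lt_floor_add_one (γ • o).re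
    have a3 := Nat.floor_le hγ₀.1.2.2.1
    have a4 := Nat.lt_floor_add_one (γ₀ • o).re
    rw [hγ.2] at a1 a2
    rw [hγ₀.2] at a3 a4
    have a5 : |(γ • o).re - (γ₀ • o).re| ≤ 1 := abs_le.2 ⟨by linarith, by linarith⟩
    have h2 := dist_triangle4 (γ • I) (γ • o) (γ₀ • o) (γ₀ • I)
    rw [dist_smul, dist_smul, dist_comm I o] at h2
    unfold nrm
    rw [mul_smul, ← dist_smul γ₀, smul_inv_smul]
    linarith

theorem barrierV {u R : ℝ} (hu : 0 < u) (o : ℍ) (z s : G) (hR : dist (s⁻¹ • o) o ≤ R)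
    (h1 : 0 < (z • o).re) (h2 : ((z * s⁻¹) • o).re ≤ 0) : ∃ n : ℤ,
      ((dg (n * u) * z) • o).im ∈ Icc 1 (Real.exp (2 * u)) ∧
      ((dg (n * u) * z) • o).re ∈ Icc 0 (Real.exp (2 * u) * Real.exp R) := by
  let K := Real.exp (2 * u) * Real.exp R
  set w := z • o with hw
  have h3 : w.re ≤ w.im * Real.exp R := by
    have a1 := dist_coe_le ((z * s⁻¹) • o) w
    have a2 : dist ((z * s⁻¹) • o) w ≤ R := by
      rw [mul_smul, hw, dist_smul]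
      exact hR
    have a3 := Complex.abs_re_le_norm ((((z * s⁻¹) • o : ℍ) : ℂ) - w)
    rw [← Complex.dist_eq, Complex.sub_re, coe_re, coe_re] at a3
    have a4 := Real.exp_le_exp.2 a2
    nlinarith [w.im_pos, neg_le_abs (((z * s⁻¹) • o).re - w.re)]
  let n : ℤ := -⌊Real.log w.im / (2 * u)⌋
  refine ⟨n, ?_⟩
  set w' := dg (n * u) • w with hw'
  have him : w'.im = Real.exp (2 * (n * u)) * w.im := by
    rw [← coe_im, hw', coe_dg, Complex.im_ofReal_mul, coe_im]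
  have hre : w'.re = Real.exp (2 * (n * u)) * w.re := by
    rw [← coe_re, hw', coe_dg, Complex.re_ofReal_mul, coe_re]
  have hlog : w'.im = Real.exp (2 * (n * u) + Real.log w.im) := by
    rw [him, Real.exp_add, Real.exp_log w.im_pos]
  have f1 := Int.floor_le (Real.log w.im / (2 * u))
  have f2 := Int.lt_floor_add_one (Real.log w.im / (2 * u))
  rw [le_div_iff₀ (by positivity)] at f1
  rw [div_lt_iff₀ (by positivity)] at f2
  have hn : (n : ℝ) = -⌊Real.log w.im / (2 * u)⌋ := by simp [n]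
  have i1 : 1 ≤ w'.im := by
    rw [hlog]
    apply Real.one_le_exp
    rw [hn]; linarith
  have i2 : w'.im ≤ Real.exp (2 * u) := by
    rw [hlog]
    apply Real.exp_le_exp.2
    rw [hn]; linarith
  have r1 : 0 ≤ w'.re := by rw [hre]; positivity
  have r2 : w'.re ≤ K := by
    have : w'.re ≤ w'.im * Real.exp R := by
      rw [hre, him, mul_assoc]
      gcongr
    refine this.trans ?_
    simp only [K]
    gcongr
  rw [mul_smul]
  exact ⟨⟨i1, i2⟩, r1, r2⟩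

theorem annihV (B : ℝ) : ∃ K : ℝ, 0 < K ∧ ∀ R, 0 ≤ R → ∃ m : ℕ, (m : ℝ) + 1 ≤ K * Real.exp R ∧
    ∀ (Γ : Subgroup G) (u : ℝ) (o : ℍ), FinG Γ → Coc B Γ →
    0 < u → u ≤ B → dg u ∈ Γ → dist o I ≤ B → ∀ (S : Type) [Fintype S] [MeasurableSpace S]
    [DiscreteMeasurableSpace S] (q : Measure S) [IsProbabilityMeasure q] (σ : S → G),
    (∀ s, σ s ∈ Γ) → (∀ s, dist ((σ s)⁻¹ • o) o ≤ R) →
    ∃ c : Fin m → ℂ, c ≠ 0 ∧ ∀ x ∈ Γ, (x • o).re ≤ 0 →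
      ∑ j, c j * PhiM (mm q σ o x) (Real.pi * j / u) = 0 := by
  classical
  obtain ⟨N₀, hN₀⟩ := cntV B
  refine ⟨N₀ * (Real.exp (2 * B) + 1) + 2, by positivity, fun R hR0 => ?_⟩
  obtain ⟨N, hN⟩ : ∃ N, N = N₀ * (⌊Real.exp (2 * B) * Real.exp R⌋₊ + 1) := ⟨_, rfl⟩
  refine ⟨N + 1, ?_, fun Γ u o hf hc hu huB hD ho S _ _ _ q _ σ hσ hR => ?_⟩
  · have h1 := Nat.floor_le (show 0 ≤ Real.exp (2 * B) * Real.exp R by positivity)
    have h2 := Real.one_le_exp hR0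
    have h3 : (N₀ : ℝ) * (⌊Real.exp (2 * B) * Real.exp R⌋₊ + 1) ≤
        N₀ * (Real.exp (2 * B) * Real.exp R + Real.exp R) := by gcongr
    rw [hN]
    push_cast
    nlinarith
  obtain ⟨T, hTN, hT'⟩ := hN₀ Γ o hf hc ho (Real.exp (2 * B) * Real.exp R)
  rw [← hN] at hTN
  have hT : ∀ z ∈ Γ, 0 < (z • o).re → (∃ s, ((z * (σ s)⁻¹) • o).re ≤ 0) →
      ∃ n : ℤ, dg (n * u) * z ∈ T := by
    rintro z hz h1 ⟨s, h2⟩
    obtain ⟨n, a1, a2⟩ := barrierV hu o z (σ s) (hR s) h1 h2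
    refine ⟨n, hT' _ (Γ.mul_mem (dg_zmul hD n) hz) ⟨a1.1, a1.2.trans ?_⟩ ⟨a2.1, a2.2.trans ?_⟩⟩
    · gcongr
    · gcongr
  let M : Matrix T (Fin (N + 1)) ℂ := fun t j => Phi q σ o t (Real.pi * j / u)
  obtain ⟨c, hc, hc0⟩ := (Submodule.ne_bot_iff _).1
    (LinearMap.ker_ne_bot_of_finrank_lt (f := M.mulVecLin) (by simp; omega))
  refine ⟨c, hc0, fun x hx hl => ?_⟩
  let f : ℝ → ℂ := fun y => ∑ j, c j * chr (Real.pi * j / u) (Real.log y)
  have hf : ∀ z, ∫ y in Ioi 0, f y ∂(mm q σ o z) = ∑ j, c j * Phi q σ o z (Real.pi * j / u) := by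
    intro z
    rw [integral_finsetSum]
    · simp only [integral_const_mul, Phi]
    · exact fun j _ => (Integrable.of_bound (measurable_chr_log _).aestronglyMeasurable 1
        (Eventually.of_forall fun y => (norm_chr _ _).le)).const_mul _
  change ∑ j, c j * Phi q σ o x (Real.pi * j / u) = 0
  rw [← hf]
  refine barrier q σ o Γ hσ f (Finset.measurable_sum _ fun j _ =>
    (measurable_chr_log _).const_mul _) (∑ j, ‖c j‖) (fun y => ?_) ?_ x hx hl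
  · refine (norm_sum_le _ _).trans (le_of_eq ?_)
    simp [norm_chr]
  · intro z hz h1 h2
    obtain ⟨n, hn⟩ := hT z hz h1 h2
    have := congrFun (LinearMap.mem_ker.1 hc) ⟨_, hn⟩
    rw [hf]
    change ∑ j : Fin (N + 1), Phi q σ o (dg (n * u) * z) (Real.pi * (j : ℕ) / u) * c j = 0
      at this
    simpa only [Phi_dg q σ o hu, mul_comm (c _)] using this

lemma flat_one {M : G → Measure ℝ} [∀ x, IsFiniteMeasure (M x)] (hM : Equi M) {L : ℝ}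
    (hL : 0 < L) (h1 : ¬ NonUnif (M 1) (1 / L ^ 2)) :
    ∃ (β : G) (c r : ℝ), 0 ≤ c ∧ L ≤ r ∧ (∀ z : ℍ, (β⁻¹ • z).im = r * z.im) ∧
      ∀ a b : ℝ, -(L / 2) ≤ a → a ≤ b → b ≤ L / 2 →
        |c * (M β⁻¹).real (Ico a b) - (b - a)| ≤ 2 / L := by
  unfold NonUnif at h1
  push Not at h1
  obtain ⟨u, r, hr, hr1, hW, hθ⟩ := h1
  have ha : 0 < r / L := div_pos hr hL
  refine ⟨aff (r / L) (u + r / 2) ha, L / (M 1).real (Ico u (u + r)), (r / L)⁻¹,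
    (div_pos hL hW).le, ?_, fun z => im_aff _ _ _ z, fun a b k1 k2 k3 => ?_⟩
  · rw [inv_div, le_div_iff₀ hr]
    exact mul_le_of_le_one_right hL.le hr1
  obtain ⟨W, hWe⟩ : ∃ W, W = (M 1).real (Ico (u) (u + r)) := ⟨_, rfl⟩
  have hW0 : 0 < W := hWe ▸ hW
  have e1 : mob (aff (r / L) (u + r / 2) ha) '' Ico a b =
      Ico (u + (a / L + 1 / 2) * r) (u + (b / L + 1 / 2) * r) := by
    rw [funext (mob_aff _ _ ha), image_affine_Ico ha]
    congr 1 <;> ring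
  have e2 := hM (aff (r / L) (u + r / 2) ha)
    (aff (r / L) (u + r / 2) ha)⁻¹ (Ico a b) (fun y _ => by
      change 0 * y + (√(r / L))⁻¹ ≠ 0
      rw [zero_mul, zero_add]
      exact inv_ne_zero (Real.sqrt_pos.2 ha).ne') measurableSet_Ico (by rw [e1]; exact measurableSet_Ico)
  rw [mul_inv_cancel, e1] at e2
  have mem : ∀ x : ℝ, -(L / 2) ≤ x → x ≤ L / 2 → x / L + 1 / 2 ∈ Icc (0 : ℝ) 1 := by
    intro x h1 h2
    have a1 : -(1 / 2) ≤ x / L := by rw [le_div_iff₀ hL]; linarith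
    have a2 : x / L ≤ 1 / 2 := by rw [div_le_iff₀ hL]; linarith
    constructor <;> linarith
  have ma := mem a k1 (by linarith)
  have mb := mem b (by linarith) k3
  have t1 := hθ _ ma
  have t2 := hθ _ mb
  have e3 := ico_add (M 1) (a := u) (b := u + (a / L + 1 / 2) * r)
    (c := u + (b / L + 1 / 2) * r) (le_add_of_nonneg_right (mul_nonneg ma.1 hr.le))
    (by gcongr)
  rw [← hWe] at t1 t2 ⊢
  rw [Measure.real, ← e2, ← Measure.real]
  obtain ⟨X, hX⟩ : ∃ X, X = (M 1).real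
    (Ico (u + (a / L + 1 / 2) * r) (u + (b / L + 1 / 2) * r)) := ⟨_, rfl⟩
  rw [← hX] at e3 ⊢
  have t3 : |X - (b - a) / L * W| ≤ 2 / L ^ 2 * W := by
    have := abs_le.1 t1
    have := abs_le.1 t2
    have e4 : 2 / L ^ 2 * W = 2 * (1 / L ^ 2 * W) := by ring
    rw [abs_le, e4, sub_div]
    constructor <;> linarith
  have e5 : L / W * X - (b - a) = L / W * (X - (b - a) / L * W) := by
    field_simp
  rw [e5, abs_mul, abs_of_pos (div_pos hL hW0)]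
  refine (mul_le_mul_of_nonneg_left t3 (div_pos hL hW0).le).trans (le_of_eq ?_)
  field_simp

end Pool.Agent.P.MP_90a4ef_pr
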