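import Pool.Agent.P.MP_90a4ef_pr.V2

/-! The explicit rate for the dimension of the harmonic measure. -/

section

open MeasureTheory Set Filter Topology Finset
open scoped ENNReal NNReal

namespace Pool.Agent.P.MP_90a4ef_pr

theorem dim_rate {ε : ℝ} (hε : 0 < ε) (hε1 : ε ≤ 1 / 2) (m : Measure ℝ) [IsFiniteMeasure m]
    (h : NonUnif m (2 * ε)) :
    ∃ A : Set ℝ, MeasurableSet A ∧ m Aᶜ = 0 ∧ dimH A ≤ ENNReal.ofReal (1 - ε ^ 3 / 4) := by
  classical
  obtain ⟨N, hN, hN'⟩ : ∃ N : ℕ, 1 ≤ ε * N ∧ ε * N ≤ 2 := by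
    have h1 := Nat.le_ceil (1 / ε)
    have h2 := Nat.ceil_lt_add_one (show 0 ≤ 1 / ε by positivity)
    refine ⟨⌈1 / ε⌉₊, by rwa [div_le_iff₀' hε] at h1, ?_⟩
    have h3 := mul_lt_mul_of_pos_left h2 hε
    rw [mul_add, mul_one_div_cancel hε.ne'] at h3
    linarith
  have hN2 : (2 : ℝ) ≤ N := by nlinarith
  have hN0 : 0 < N := by exact_mod_cast (show (0 : ℝ) < N by linarith)
  set κ : ℝ := (1 - ε ^ 2) * N with hκ
  have hκ1 : 1 < κ := by nlinarith
  have hκN : κ < N := by nlinarith [sq_pos_of_pos hε]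
  set B : ℝ := (κ + N) / 2 with hB
  have hB1 : 1 < B := by linarith
  have hB0 : 0 < B := by linarith
  have hlogN : 0 < Real.log N := Real.log_pos (by linarith)
  let s : ℝ≥0 := ⟨Real.log B / Real.log N, div_nonneg (Real.log_pos hB1).le hlogN.le⟩
  have hs1 : (s : ℝ) ≤ 1 - ε ^ 3 / 4 := by
    change Real.log B / Real.log N ≤ _
    have hNp : (0 : ℝ) < N := by linarith
    have h1 : B = N * (1 - ε ^ 2 / 2) := by rw [hB, hκ]; ring
    have h2 : 0 < 1 - ε ^ 2 / 2 := by nlinarith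
    have h3 := Real.log_le_sub_one_of_pos h2
    have h4 := Real.log_le_sub_one_of_pos hNp
    rw [div_le_iff₀ hlogN, h1, Real.log_mul hNp.ne' h2.ne']
    have h5 : ε * Real.log N ≤ 2 := by nlinarith
    have h6 : ε ^ 2 * (ε * Real.log N) ≤ ε ^ 2 * 2 := by gcongr
    nlinarith
  have hsN : (N : ℝ) ^ (s : ℝ) = B := by
    rw [Real.rpow_def_of_pos (by linarith)]
    change Real.exp (Real.log N * (Real.log B / Real.log N)) = B
    rw [mul_div_cancel₀ _ hlogN.ne', Real.exp_log hB0]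
  let bad : ℝ → ℕ → Set ℝ := fun u k =>
    ⋃ j ∈ (range (N ^ k)).filter fun j => m.real (cell N u k j) < (B ^ k)⁻¹, cell N u k j
  have hcm : ∀ u k j, MeasurableSet (cell N u k j) := fun _ _ _ => measurableSet_Ico
  have hbm : ∀ u k, MeasurableSet (bad u k) := fun u k =>
    Finset.measurableSet_biUnion _ fun j _ => hcm u k j
  have hbad : ∀ u, ∀ᵐ x ∂m, ∀ᶠ k in atTop, x ∉ bad u k := by
    intro u
    apply ae_eventually_notMem
    have hρ : √(κ / B) < 1 := by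
      rw [Real.sqrt_lt' one_pos, one_pow, div_lt_one hB0]
      linarith
    have hsum : Summable fun k : ℕ => √(κ / B) ^ k * √(m.real univ) :=
      (summable_geometric_of_lt_one (Real.sqrt_nonneg _) hρ).mul_right _
    refine ne_top_of_le_ne_top (hsum.tsum_ofReal_ne_top) (ENNReal.tsum_le_tsum fun k => ?_)
    rw [← ofReal_measureReal (measure_ne_top _ _)]
    apply ENNReal.ofReal_le_ofReal
    refine (measureReal_biUnion_finset_le _ _).trans ?_
    have hq : 0 ≤ (√B ^ k)⁻¹ := by positivity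
    calc _ ≤ ∑ j ∈ (range (N ^ k)).filter fun j => m.real (cell N u k j) < (B ^ k)⁻¹,
          (√B ^ k)⁻¹ * √(m.real (cell N u k j)) := by
          refine sum_le_sum fun j hj => ?_
          have h1 := (mem_filter.1 hj).2
          have h2 : √(m.real (cell N u k j)) ≤ (√B ^ k)⁻¹ := by
            apply Real.sqrt_le_iff.2 ⟨hq, _⟩
            rw [inv_pow, ← pow_mul, mul_comm, pow_mul, Real.sq_sqrt hB0.le]
            exact h1.le
          nth_rewrite 1 [← Real.mul_self_sqrt (measureReal_nonneg (μ := m) (s := cell N u k j))]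
          gcongr
      _ ≤ ∑ j ∈ range (N ^ k), (√B ^ k)⁻¹ * √(m.real (cell N u k j)) :=
          sum_le_sum_of_subset_of_nonneg (filter_subset _ _) fun _ _ _ => by positivity
      _ ≤ (√B ^ k)⁻¹ * (√κ ^ k * √(m.real univ)) := by
          rw [← Finset.mul_sum]
          exact mul_le_mul_of_nonneg_left (level_sum m hε h N hN u k) hq
      _ = _ := by
          rw [Real.sqrt_div (show 0 ≤ κ by linarith) B, div_pow, div_eq_mul_inv, ← mul_assoc,
            mul_comm (√B ^ k)⁻¹]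
  have hdim : ∀ (u : ℝ) (k0 : ℕ),
      dimH (Set.Ico u (u + 1) ∩ ⋂ k ≥ k0, (bad u k)ᶜ) ≤ s := by
    intro u k0
    apply dimH_le_of_hausdorffMeasure_ne_top
    let good : ℕ → Finset ℕ := fun k =>
      (range (N ^ k)).filter fun j => ¬ m.real (cell N u k j) < (B ^ k)⁻¹
    have hd : ∀ k j, Metric.ediam (cell N u k j) = ENNReal.ofReal ((N : ℝ) ^ k)⁻¹ := by
      intro k j
      unfold cell
      rw [Real.ediam_Ico]
      congr 1
      ring
    have hle := Measure.hausdorffMeasure_le_liminf_sum (ι := fun k => good k) (s : ℝ)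
      (Set.Ico u (u + 1) ∩ ⋂ k ≥ k0, (bad u k)ᶜ) (l := atTop)
      (fun k => ENNReal.ofReal ((N : ℝ) ^ k)⁻¹) (by
        rw [← ENNReal.ofReal_zero]
        apply ENNReal.tendsto_ofReal
        exact (tendsto_pow_atTop_atTop_of_one_lt (by linarith)).inv_tendsto_atTop)
      (fun k j => cell N u k j) (Eventually.of_forall fun k j => (hd k j).le) (by
        filter_upwards [eventually_ge_atTop k0] with k hk x hx
        obtain ⟨j, hj, hxj⟩ := cover N hN0 u k hx.1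
        have h1 : x ∉ bad u k := mem_iInter₂.1 hx.2 k hk
        refine mem_iUnion.2 ⟨⟨j, mem_filter.2 ⟨hj, fun h2 => h1 ?_⟩⟩, hxj⟩
        exact mem_iUnion₂.2 ⟨j, mem_filter.2 ⟨hj, h2⟩, hxj⟩)
    refine ne_top_of_le_ne_top (measure_ne_top m univ) (hle.trans ?_)
    refine liminf_le_of_frequently_le' (Eventually.of_forall fun k => ?_).frequently
    have e1 : ENNReal.ofReal ((N : ℝ) ^ k)⁻¹ ^ (s : ℝ) = ENNReal.ofReal (B ^ k)⁻¹ := by
      rw [ENNReal.ofReal_rpow_of_nonneg (by positivity) s.coe_nonneg, Real.inv_rpow (by positivity),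
        ← Real.rpow_natCast, ← Real.rpow_mul (by positivity), mul_comm,
        Real.rpow_mul (by positivity), hsN, Real.rpow_natCast]
    simp only [hd, e1]
    calc ∑ _j : good k, ENNReal.ofReal (B ^ k)⁻¹ ≤ ∑ j : good k, m (cell N u k j) := by
          refine sum_le_sum fun j _ => ?_
          rw [← ofReal_measureReal (measure_ne_top _ _)]
          exact ENNReal.ofReal_le_ofReal (not_lt.1 (mem_filter.1 j.2).2)
      _ = ∑ j ∈ good k, m (cell N u k j) := Finset.sum_coe_sort (good k) fun j => m (cell N u k j)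
      _ = m (⋃ j ∈ good k, cell N u k j) := by
          refine (measure_biUnion_finset ?_ fun j _ => hcm u k j).symm
          intro i _ j _ hij
          have hp : (0 : ℝ) < ((N : ℝ) ^ k)⁻¹ := by positivity
          have key : ∀ i j : ℕ, i < j → Disjoint (cell N u k i) (cell N u k j) := by
            intro i j hij
            refine Set.disjoint_left.2 fun x h1 h2 => ?_
            have : (i : ℝ) + 1 ≤ j := by exact_mod_cast hij
            nlinarith [h1.2, h2.1]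
          rcases lt_or_gt_of_ne hij with h1 | h1
          · exact key _ _ h1
          · exact (key _ _ h1).symm
      _ ≤ m univ := measure_mono (subset_univ _)
  refine ⟨⋃ n : ℤ, ⋃ k0 : ℕ, (Set.Ico (n : ℝ) (n + 1) ∩ ⋂ k ≥ k0, (bad n k)ᶜ), ?_, ?_, ?_⟩
  · exact .iUnion fun n => .iUnion fun k0 => measurableSet_Ico.inter
      (.iInter fun k => .iInter fun _ => (hbm _ k).compl)
  · have := ae_all_iff.2 fun n : ℤ => hbad n
    rw [ae_iff] at this
    refine measure_mono_null (fun x hx => ?_) this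
    intro h1
    apply hx
    obtain ⟨k0, hk0⟩ := eventually_atTop.1 (h1 ⌊x⌋)
    exact mem_iUnion₂.2 ⟨⌊x⌋, k0, ⟨Int.floor_le x, Int.lt_floor_add_one x⟩, mem_iInter₂.2 hk0⟩
  · refine le_trans (b := (s : ℝ≥0∞)) ?_ (by
      rw [← ENNReal.ofReal_coe_nnreal]
      exact ENNReal.ofReal_le_ofReal hs1)
    simp only [dimH_iUnion]
    exact iSup₂_le fun n k0 => hdim n k0

end Pool.Agent.P.MP_90a4ef_pr

end

open MeasureTheory ProbabilityTheory Set Filter Topology UpperHalfPlane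
open scoped ENNReal NNReal MatrixGroups

namespace Pool.Agent.P.MP_90a4ef_pr

lemma log_lip {a b : ℝ} (ha : 1 ≤ a) (hb : 1 ≤ b) : |Real.log a - Real.log b| ≤ |a - b| := by
  have key : ∀ x y : ℝ, 1 ≤ x → 1 ≤ y → Real.log x - Real.log y ≤ |x - y| := by
    intro x y hx hy
    have h1 := Real.log_le_sub_one_of_pos (show 0 < x / y by positivity)
    rw [Real.log_div (by linarith) (by linarith), div_sub_one (by linarith)] at h1
    exact h1.trans ((div_le_div_of_nonneg_right (le_abs_self _) (by linarith)).trans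
      (div_le_self (abs_nonneg _) hy))
  have h1 := key a b ha hb
  have h2 := key b a hb ha
  rw [abs_sub_comm] at h2
  exact abs_le.2 ⟨by linarith, h1⟩

lemma row_pos {κ : G} (h10 : 1 ≤ |κ 1 0|) (hA : 1 ≤ κ 1 1 / κ 1 0) : 1 ≤ κ 1 0 * κ 1 1 := by
  have hc : κ 1 0 ≠ 0 := abs_pos.1 (by linarith)
  have h1 : κ 1 0 * κ 1 1 = κ 1 0 ^ 2 * (κ 1 1 / κ 1 0) := by field_simp
  rw [h1]
  exact one_le_mul_of_one_le_of_one_le (by rw [← sq_abs]; exact one_le_pow₀ h10) hA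

lemma tail_err {M : G → Measure ℝ} [∀ x, IsFiniteMeasure (M x)] (hM : Equi M) {κ y : G}
    {c L P : ℝ} (hc : 0 ≤ c) (hL : 0 < L) (h10 : 1 ≤ |κ 1 0|) (hA : 1 ≤ κ 1 1 / κ 1 0)
    (hP : N4 κ ≤ P) (hPL : P + 1 ≤ L / 2)
    (hF : ∀ a b : ℝ, -(L / 2) ≤ a → a ≤ b → b ≤ L / 2 →
      |c * (M (κ * y)).real (Ico a b) - (b - a)| ≤ 2 / L) {p : ℝ} (hp : 0 ≤ p) :
    |c * (M y).real (Ioi p) - (κ 1 0 * (κ 1 0 * p + κ 1 1))⁻¹| ≤ 3 / L := by
  have hk := row_pos h10 hA
  have hc0 : κ 1 0 ≠ 0 := abs_pos.1 (by linarith)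
  have pos : ∀ v, 0 ≤ v → 1 ≤ κ 1 0 * (κ 1 0 * v + κ 1 1) := fun v hv => by
    nlinarith [mul_nonneg (sq_nonneg (κ 1 0)) hv]
  have h0 := right_ne_zero_of_mul (lt_of_lt_of_le one_pos (pos p hp)).ne'
  have form : κ 0 0 / κ 1 0 - mob κ p = (κ 1 0 * (κ 1 0 * p + κ 1 1))⁻¹ := by
    rw [mob, sub_eq_iff_eq_add', ← sub_eq_iff_eq_add, eq_div_iff h0, sub_mul, mul_inv, mul_assoc,
      inv_mul_cancel₀ h0]
    field_simp
    linear_combination det_eq κ
  have e1 := mob_Ioi κ (lt_of_lt_of_le one_pos hk) hp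
  have e2 := hM κ y (Ioi p) (fun v hv => right_ne_zero_of_mul
    (lt_of_lt_of_le one_pos (pos v (hp.trans (le_of_lt hv)))).ne') measurableSet_Ioi
    (by rw [e1]; exact measurableSet_Ioo)
  rw [Measure.real, ← e2, e1, ← Measure.real, ← form]
  have i0 : 0 < (κ 1 0 * (κ 1 0 * p + κ 1 1))⁻¹ := inv_pos.2 (by linarith [pos p hp])
  have i1 : (κ 1 0 * (κ 1 0 * p + κ 1 1))⁻¹ ≤ 1 := inv_le_one_of_one_le₀ (pos p hp)
  have hb : |κ 0 0 / κ 1 0| ≤ P := by
    rw [abs_div]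
    exact (div_le_self (abs_nonneg _) h10).trans ((ent_le κ 0 0).trans hP)
  obtain ⟨a, ha⟩ : ∃ a, a = mob κ p := ⟨_, rfl⟩
  obtain ⟨b, hb'⟩ : ∃ b, b = κ 0 0 / κ 1 0 := ⟨_, rfl⟩
  rw [← form] at i0 i1
  rw [← ha, ← hb'] at i0 i1 ⊢
  rw [← hb', abs_le] at hb
  have q1 : 0 < 1 / L := by positivity
  have q2 : 2 / L = 2 * (1 / L) := by ring
  have q3 : 3 / L = 3 * (1 / L) := by ring
  have u1 := (abs_le.1 (hF a b (by linarith [hb.1]) (by linarith) (by linarith [hb.2]))).2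
  have u2 : c * (M (κ * y)).real (Ioo a b) ≤ c * (M (κ * y)).real (Ico a b) :=
    mul_le_mul_of_nonneg_left (measureReal_mono Ioo_subset_Ico_self) hc
  refine abs_le.2 ⟨?_, by linarith⟩
  rcases le_total (a + 1 / L) b with h | h
  · have l1 := (abs_le.1 (hF (a + 1 / L) b (by linarith [hb.1]) h (by linarith [hb.2]))).1
    have l2 : c * (M (κ * y)).real (Ico (a + 1 / L) b) ≤ c * (M (κ * y)).real (Ioo a b) :=
      mul_le_mul_of_nonneg_left (measureReal_mono fun v hv => ⟨by linarith [hv.1], hv.2⟩) hc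
    linarith
  · have := mul_nonneg hc (measureReal_nonneg (μ := M (κ * y)) (s := Ioo a b))
    linarith

lemma tangent_err (m : Measure ℝ) [IsFiniteMeasure m] {κ : G} {c L w : ℝ} (hc : 0 ≤ c)
    (hL : 1 ≤ L) (hw : 0 ≤ w) (h10 : 1 ≤ |κ 1 0|) (hA : 1 ≤ κ 1 1 / κ 1 0)
    (tail : ∀ p, 0 ≤ p → |c * m.real (Ioi p) - (κ 1 0 * (κ 1 0 * p + κ 1 1))⁻¹| ≤ 3 / L) :
    ‖(c : ℂ) * PhiM m w - ((κ 1 0 * κ 1 1)⁻¹ : ℝ) * (chr w (Real.log (κ 1 1 / κ 1 0)) * Bt w)‖ ≤
      3 / L * (1 + 2 * Real.log L * w) + 8 * (κ 1 1 / κ 1 0 / L) + 6 * (3 / L) := by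
  have hk := row_pos h10 hA
  have hc0 : κ 1 0 ≠ 0 := abs_pos.1 (by linarith)
  have hd0 : κ 1 1 ≠ 0 := right_ne_zero_of_mul (lt_of_lt_of_le one_pos hk).ne'
  obtain ⟨A, hAe⟩ : ∃ A, A = κ 1 1 / κ 1 0 := ⟨_, rfl⟩
  have e0 : ∀ t, (κ 1 0 * (κ 1 0 * Real.exp t + κ 1 1))⁻¹ =
      (κ 1 0 * κ 1 1)⁻¹ * (A / (Real.exp t + A)) := by
    intro t
    have h1 : Real.exp t + A = (κ 1 0 * Real.exp t + κ 1 1) / κ 1 0 := by
      rw [hAe]; field_simp
    have h2 : κ 1 0 * Real.exp t + κ 1 1 ≠ 0 := by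
      intro h2
      have : 0 < Real.exp t + A := add_pos (Real.exp_pos t) (by linarith)
      rw [h1, h2] at this
      simp at this
    rw [h1, hAe]
    field_simp
  rw [← hAe] at hA ⊢
  have hA0 : 0 < A := by linarith
  have l0 : 0 ≤ (κ 1 0 * κ 1 1)⁻¹ := inv_nonneg.2 (by linarith)
  have l1 : (κ 1 0 * κ 1 1)⁻¹ ≤ 1 := inv_le_one_of_one_le₀ hk
  have hL0 : 0 < L := by linarith
  have hW := weak_err ((m.restrict (Ioi 0)).map Real.log) (logi A) (e := 3 / L) (τ := A / L) hc l0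
    hw (Real.log_nonneg hL) (fun t => by
      rw [map_measureReal_apply Real.measurable_log measurableSet_Ioi,
        measureReal_restrict_apply (Real.measurable_log measurableSet_Ioi), logi_tail hA0, ← e0]
      have : Real.log ⁻¹' Ioi t ∩ Ioi 0 = Ioi (Real.exp t) := by
        ext v
        constructor
        · exact fun hv => (Real.lt_log_iff_exp_lt hv.2).1 hv.1
        · intro hv
          have h0 : 0 < v := (Real.exp_pos t).trans hv
          exact ⟨(Real.lt_log_iff_exp_lt h0).2 hv, h0⟩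
      rw [this]
      exact tail _ (Real.exp_pos t).le) (by
      have := tail 0 le_rfl
      rw [mul_zero, zero_add] at this
      rwa [map_measureReal_apply Real.measurable_log MeasurableSet.univ, preimage_univ,
        measureReal_restrict_apply_univ, probReal_univ, mul_one]) (by
      rw [logi_tail hA0, Real.exp_log hL0]
      refine (mul_le_of_le_one_left (by positivity) l1).trans ?_
      gcongr
      linarith) (by
      rw [logi_tail hA0, Real.exp_neg, Real.exp_log hL0, probReal_univ]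
      have h1 : 1 - A / (L⁻¹ + A) = L⁻¹ / (L⁻¹ + A) := by field_simp; ring
      have h2 : 0 < L⁻¹ := inv_pos.2 hL0
      rw [h1]
      refine (mul_le_of_le_one_left (by positivity) l1).trans
        ((div_le_self h2.le (by linarith)).trans ?_)
      rw [div_eq_mul_inv]
      exact le_mul_of_one_le_left h2.le hA)
  rw [logi_chr, integral_map Real.measurable_log.aemeasurable
    (chr w).continuous.aestronglyMeasurable] at hW
  exact hW

lemma left_of_far {κ : G} {P : ℝ} (hk : 1 ≤ κ 1 0 * κ 1 1) (hP : N4 κ ≤ P) (hP1 : 1 ≤ P) (w : ℍ)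
    (hw : 2 * P ^ 2 ≤ w.im) : (κ⁻¹ • w).re ≤ 0 := by
  have hd := det_eq κ
  rw [← coe_re, coe_act, inv00, inv01, inv10, inv11, Complex.div_re, ← add_div]
  refine div_nonpos_of_nonpos_of_nonneg ?_ (Complex.normSq_nonneg _)
  simp only [Complex.add_re, Complex.mul_re, Complex.ofReal_re, Complex.ofReal_im, coe_re, coe_im,
    zero_mul, sub_zero, Complex.add_im, Complex.mul_im, add_zero]
  have b1 : |κ 1 1 * κ 0 0 + κ 0 1 * κ 1 0| ≤ P ^ 2 := by
    refine (abs_add_le _ _).trans ?_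
    rw [abs_mul, abs_mul]
    have : N4 κ ^ 2 ≤ P ^ 2 := pow_le_pow_left₀ (N4_nonneg _) hP 2
    refine le_trans ?_ this
    change _ ≤ (|κ 0 0| + |κ 0 1| + |κ 1 0| + |κ 1 1|) ^ 2
    have a := abs_nonneg (κ 0 0)
    have b := abs_nonneg (κ 0 1)
    have c := abs_nonneg (κ 1 0)
    have d := abs_nonneg (κ 1 1)
    nlinarith [mul_nonneg a b, mul_nonneg a c, mul_nonneg a d, mul_nonneg b c, mul_nonneg b d,
      mul_nonneg c d]
  have b2 : |κ 0 1 * κ 0 0| ≤ P ^ 2 := by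
    rw [abs_mul, sq]
    exact mul_le_mul ((ent_le κ 0 1).trans hP) ((ent_le κ 0 0).trans hP) (abs_nonneg _)
      (by linarith)
  have b3 : (κ 1 1 * κ 0 0 + κ 0 1 * κ 1 0) * w.re ≤ P ^ 2 * |w.re| := by
    refine (le_abs_self _).trans ?_
    rw [abs_mul]
    exact mul_le_mul_of_nonneg_right b1 (abs_nonneg _)
  have b4 : w.re ^ 2 + w.im ^ 2 ≤ κ 1 0 * κ 1 1 * (w.re ^ 2 + w.im ^ 2) :=
    le_mul_of_one_le_left (by positivity) hk
  have p2 : 1 ≤ P ^ 2 := one_le_pow₀ hP1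
  have b5 : (2 * P ^ 2) ^ 2 ≤ w.im ^ 2 := pow_le_pow_left₀ (by positivity) hw 2
  have b6 := sq_nonneg (|w.re| - P ^ 2)
  have b7 := sq_abs w.re
  have b8 := neg_abs_le (κ 0 1 * κ 0 0)
  have b9 := sq_nonneg w.re
  nlinarith

theorem quant {B : ℝ} (hB : 1 ≤ B) : ∃ K, 0 < K ∧ ∀ (m : ℕ) (Γ : Subgroup G) (u : ℝ) (o : ℍ)
    (M : G → Measure ℝ), (∀ x, IsFiniteMeasure (M x)) → FinG Γ → Coc B Γ → u ∈ Icc (1 / B) B →
    dg u ∈ Γ → dist o I ≤ B → Equi M → (∃ c : Fin m → ℂ, c ≠ 0 ∧ ∀ x ∈ Γ, (x • o).re ≤ 0 →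
      ∑ j, c j * PhiM (M x) (Real.pi * j / u) = 0) →
    NonUnif (M 1) (Real.exp (-(K * (m + 1)))) := by
  have hB0 : 0 < B := by linarith
  obtain ⟨K₁, hK₁, hden⟩ := dense_rate hB0
  obtain ⟨A₁, hA₁⟩ : ∃ A₁, A₁ = Real.exp (2 * B + 1) + 1 := ⟨_, rfl⟩
  have hA₁0 : 0 < A₁ := by rw [hA₁]; positivity
  obtain ⟨K₃, hK₃⟩ : ∃ K₃, K₃ = 21 + 8 * A₁ + 48 * B := ⟨_, rfl⟩
  have hK₃1 : 1 ≤ K₃ := by linarith
  obtain ⟨K₈, hK₈⟩ : ∃ K₈, K₈ = 128 * (K₁ * B) ^ 2 * K₃ := ⟨_, rfl⟩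
  have hKB : 1 ≤ K₁ * B := one_le_mul_of_one_le_of_one_le hK₁ hB
  have hK₈0 : 0 < K₈ := by rw [hK₈]; positivity
  refine ⟨4 * (K₈ + 6 + 16 * B), by positivity, ?_⟩
  rintro m Γ u o M hfm hf hc hu hD ho hM ⟨c₀, hc₀, hann₀⟩
  obtain ⟨μ, hμ⟩ : ∃ μ : ℝ, μ = m + 1 := ⟨_, rfl⟩
  have hμ1 : 1 ≤ μ := by rw [hμ]; simp
  obtain ⟨l, hl⟩ : ∃ l, l = Real.exp ((K₈ + 6 + 16 * B) * μ) := ⟨_, rfl⟩
  have H : K₈ * μ ^ 6 * Real.exp (16 * B * μ) < l := by
    have h1 : K₈ < Real.exp (K₈ * μ) := by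
      have := Real.add_one_le_exp (K₈ * μ)
      nlinarith
    have h2 : μ ^ 6 ≤ Real.exp (6 * μ) := by
      have : μ ≤ Real.exp μ := by linarith [Real.add_one_le_exp μ]
      calc μ ^ 6 ≤ Real.exp μ ^ 6 := by gcongr
        _ = _ := by rw [← Real.exp_nat_mul]; norm_num
    rw [hl, add_mul, add_mul, Real.exp_add, Real.exp_add]
    exact mul_lt_mul_of_pos_right (mul_lt_mul h1 h2 (by positivity) (by positivity))
      (Real.exp_pos _)
  have e1 : Real.exp (-(4 * (K₈ + 6 + 16 * B) * (m + 1))) = 1 / (l ^ 2) ^ 2 := by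
    rw [← hμ, hl, ← pow_mul, ← Real.exp_nat_mul, Real.exp_neg, one_div]
    congr 2
    push_cast
    ring
  rw [e1]
  by_contra hN
  obtain ⟨P, hP⟩ : ∃ P, P = 8 * (K₁ * B) * μ ^ 2 := ⟨_, rfl⟩
  have μ2 : 1 ≤ μ ^ 2 := one_le_pow₀ hμ1
  have hP1 : 8 ≤ P := by rw [hP]; nlinarith
  have hPK : 2 * (P ^ 2 * (μ * (K₃ * μ))) = K₈ * μ ^ 6 := by rw [hP, hK₈]; ring
  have ex1 : Real.exp B ≤ Real.exp (16 * B * μ) := Real.exp_le_exp.2 (by nlinarith)
  have ex0 : 1 ≤ Real.exp B := Real.one_le_exp hB0.le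
  have hPl : 2 * P ^ 2 * Real.exp B ≤ l := by
    refine le_trans ?_ H.le
    rw [← hPK]
    have : 1 ≤ μ * (K₃ * μ) :=
      one_le_mul_of_one_le_of_one_le hμ1 (one_le_mul_of_one_le_of_one_le hK₃1 hμ1)
    have h2 : P ^ 2 ≤ P ^ 2 * (μ * (K₃ * μ)) := le_mul_of_one_le_right (by positivity) this
    exact mul_le_mul (by linarith) ex1 (by positivity) (by positivity)
  have hPl' : 2 * P ^ 2 ≤ l := (le_mul_of_one_le_right (by positivity) ex0).trans hPl
  have hl1 : 1 ≤ l := by nlinarith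
  have hl0 : 0 < l := by linarith
  have hll : l ≤ l ^ 2 := by nlinarith
  obtain ⟨β, c, r, hc0, hr, him, hF⟩ := flat_one hM (L := l ^ 2) (by positivity) hN
  obtain ⟨γ, hγ, hγB⟩ := hc β
  have hup : 0 < u := lt_of_lt_of_le (by positivity) hu.1
  have hw : ∀ j : Fin m, 0 ≤ Real.pi * j / u ∧ Real.pi * j / u ≤ 4 * B * μ := by
    intro j
    have h1 : (j : ℝ) ≤ μ := by
      have : ((j : ℕ) : ℝ) < m := by exact_mod_cast j.2
      linarith
    have h2 : 1 ≤ u * B := by rw [← div_le_iff₀ hB0]; exact hu.1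
    refine ⟨by positivity, ?_⟩
    rw [div_le_iff₀ hup]
    have h3 : Real.pi * j ≤ 4 * μ := mul_le_mul Real.pi_le_four h1 (by positivity) (by norm_num)
    nlinarith
  let a : Fin m → ℂ := (‖c₀‖⁻¹ : ℝ) • c₀
  have ha : ‖a‖ = 1 := norm_smul_inv_norm (𝕜 := ℝ) hc₀
  have haj : ∀ j, ‖a j‖ ≤ 1 := fun j => ha ▸ norm_le_pi_norm a j
  have hann : ∀ x ∈ Γ, (x • o).re ≤ 0 → ∑ j, a j * PhiM (M x) (Real.pi * j / u) = 0 := by
    intro x hx hl
    simp only [a, Pi.smul_apply, Complex.real_smul, mul_assoc, ← Finset.mul_sum, hann₀ x hx hl,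
      mul_zero]
  let b : Fin m → ℂ := fun j => a j * Bt (Real.pi * j / u)
  have hoi : Real.exp (-B) ≤ o.im := by
    have h1 := im_le_im_mul_exp_dist I o
    have h2 : Real.exp (dist I o) ≤ Real.exp B := Real.exp_le_exp.2 (by rw [dist_comm]; exact ho)
    rw [I_im] at h1
    rw [Real.exp_neg, inv_eq_one_div, div_le_iff₀ (Real.exp_pos _)]
    exact h1.trans (mul_le_mul_of_nonneg_left h2 o.im_pos.le)
  have hδ : 1 / (8 * B * μ ^ 2) ∈ Ioc (0 : ℝ) 1 :=
    ⟨by positivity, by rw [div_le_one (by positivity)]; nlinarith⟩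
  have hQ : ∀ t ∈ Icc 1 (1 + 2 * u), ‖∑ j, b j * chr (Real.pi * j / u) t‖ ≤
      P ^ 2 * (μ * (K₃ * μ / l)) + ‖b‖ / 2 := by
    intro t ht
    have p2 : 2 ≤ Real.exp t := by linarith [Real.add_one_le_exp t, ht.1]
    have p3 : Real.exp t ≤ Real.exp (2 * B + 1) := Real.exp_le_exp.2 (by linarith [ht.2, hu.2])
    obtain ⟨g, hg, h10, hAp, hN4⟩ := hden Γ u (γ * β)⁻¹ hf hc hu hD (by rwa [nrm_inv]) _
      ⟨by linarith, p3⟩ _ hδ
    obtain ⟨κ, hκ⟩ : ∃ κ, κ = (γ * β)⁻¹ * g := ⟨_, rfl⟩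
    rw [← hκ] at h10 hAp hN4
    have hNP : N4 κ ≤ P := hN4.trans (le_of_eq (by rw [hP]; field_simp))
    have e : κ * (g⁻¹ * γ) = β⁻¹ := by rw [hκ]; group
    have hAp' := abs_le.1 hAp
    have hA : 1 ≤ κ 1 1 / κ 1 0 := by linarith [hAp'.1, hδ.2]
    have hA' : κ 1 1 / κ 1 0 ≤ A₁ := by linarith [hAp'.2, hδ.2]
    have hk := row_pos h10 hA
    have hleft : ((g⁻¹ * γ) • o).re ≤ 0 := by
      have : (g⁻¹ * γ) • o = κ⁻¹ • β⁻¹ • o := by rw [← e, mul_smul κ, inv_smul_smul]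
      rw [this]
      refine left_of_far hk hNP (by linarith) _ ?_
      rw [him]
      have h1 : 2 * P ^ 2 ≤ l * Real.exp (-B) := by
        rw [Real.exp_neg, ← div_eq_mul_inv, le_div_iff₀ (Real.exp_pos _)]
        exact hPl
      exact h1.trans (mul_le_mul (hll.trans hr) hoi (Real.exp_pos _).le (by linarith))
    have tail := fun p hp => tail_err hM (L := l ^ 2) (κ := κ) (y := g⁻¹ * γ) hc0 (by positivity)
      h10 hA hNP (by nlinarith) (by rw [e]; exact hF) (p := p) hp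
    have terr : ∀ j : Fin m, ‖(c : ℂ) * PhiM (M (g⁻¹ * γ)) (Real.pi * j / u) -
        ((κ 1 0 * κ 1 1)⁻¹ : ℝ) * (chr (Real.pi * j / u) (Real.log (κ 1 1 / κ 1 0)) *
          Bt (Real.pi * j / u))‖ ≤ K₃ * μ / l := by
      intro j
      refine (tangent_err _ hc0 (hl1.trans hll) (hw j).1 h10 hA tail).trans ?_
      have h1 : Real.log (l ^ 2) ≤ 2 * l := by
        rw [Real.log_pow]
        have := Real.log_le_sub_one_of_pos hl0
        push_cast
        linarith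
      have h2 : Real.log (l ^ 2) * (Real.pi * j / u) ≤ 2 * l * (4 * B * μ) :=
        mul_le_mul h1 (hw j).2 (hw j).1 (by positivity)
      have h3 : 3 / l ^ 2 * (1 + 2 * Real.log (l ^ 2) * (Real.pi * j / u)) +
          8 * (κ 1 1 / κ 1 0 / l ^ 2) + 6 * (3 / l ^ 2) =
          (21 + 8 * (κ 1 1 / κ 1 0) + 6 * (Real.log (l ^ 2) * (Real.pi * j / u))) / l ^ 2 := by
        ring
      have h4 : K₃ * μ / l = K₃ * μ * l / l ^ 2 := by field_simp
      rw [h3, h4]
      refine div_le_div_of_nonneg_right ?_ (by positivity)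
      have h5 : 21 + 8 * A₁ ≤ (21 + 8 * A₁) * (μ * l) :=
        le_mul_of_one_le_right (by positivity) (one_le_mul_of_one_le_of_one_le hμ1 hl1)
      rw [hK₃]
      nlinarith
    have z := hann _ (Γ.mul_mem (Γ.inv_mem hg) hγ) hleft
    have s1 : (((κ 1 0 * κ 1 1)⁻¹ : ℝ) : ℂ) *
        ∑ j, b j * chr (Real.pi * j / u) (Real.log (κ 1 1 / κ 1 0)) =
        -∑ j, a j * ((c : ℂ) * PhiM (M (g⁻¹ * γ)) (Real.pi * j / u) -
        ((κ 1 0 * κ 1 1)⁻¹ : ℝ) * (chr (Real.pi * j / u) (Real.log (κ 1 1 / κ 1 0)) *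
          Bt (Real.pi * j / u))) := by
      simp only [mul_sub, Finset.sum_sub_distrib, mul_left_comm (a _) (c : ℂ), ← Finset.mul_sum, z,
        mul_zero, zero_sub, neg_neg]
      rw [Finset.mul_sum]
      exact Finset.sum_congr rfl fun j _ => by simp only [b]; ring
    have hm : (m : ℝ) ≤ μ := by linarith
    have s2 : (κ 1 0 * κ 1 1)⁻¹ * ‖∑ j, b j * chr (Real.pi * j / u) (Real.log (κ 1 1 / κ 1 0))‖ ≤
        μ * (K₃ * μ / l) := by
      have := congrArg norm s1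
      rw [norm_mul, Complex.norm_real, Real.norm_of_nonneg (inv_nonneg.2 (by linarith)),
        norm_neg] at this
      rw [this]
      refine (norm_sum_le _ _).trans ((Finset.sum_le_card_nsmul _ _ (K₃ * μ / l)
        fun j _ => ?_).trans ?_)
      · rw [norm_mul]
        exact (mul_le_of_le_one_left (norm_nonneg _) (haj j)).trans (terr j)
      · rw [Finset.card_univ, Fintype.card_fin, nsmul_eq_mul]
        exact mul_le_mul_of_nonneg_right hm (by positivity)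
    have s3 : κ 1 0 * κ 1 1 ≤ P ^ 2 := by
      refine (le_abs_self _).trans ?_
      rw [abs_mul, sq]
      exact mul_le_mul ((ent_le κ 1 0).trans hNP) ((ent_le κ 1 1).trans hNP) (abs_nonneg _)
        (by linarith)
    rw [inv_mul_le_iff₀ (by linarith)] at s2
    have s4 := s2.trans (mul_le_mul_of_nonneg_right s3 (by positivity))
    have s5 : ‖∑ j, b j * chr (Real.pi * j / u) t -
        ∑ j, b j * chr (Real.pi * j / u) (Real.log (κ 1 1 / κ 1 0))‖ ≤ ‖b‖ / 2 := by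
      have h1 : |t - Real.log (κ 1 1 / κ 1 0)| ≤ 1 / (8 * B * μ ^ 2) := by
        have := log_lip hA (show 1 ≤ Real.exp t by linarith)
        rw [Real.log_exp, abs_sub_comm] at this
        exact this.trans hAp
      rw [← Finset.sum_sub_distrib]
      refine (norm_sum_le _ _).trans ((Finset.sum_le_card_nsmul _ _
        (‖b‖ * (4 * B * μ * (1 / (8 * B * μ ^ 2)))) fun j _ => ?_).trans ?_)
      · rw [← mul_sub, norm_mul]
        refine mul_le_mul (norm_le_pi_norm b j) ((chr_lip _ _ _).trans ?_) (norm_nonneg _)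
          (norm_nonneg _)
        rw [abs_of_nonneg (hw j).1]
        exact mul_le_mul (hw j).2 h1 (abs_nonneg _) (by positivity)
      · rw [Finset.card_univ, Fintype.card_fin, nsmul_eq_mul]
        refine (mul_le_mul_of_nonneg_right hm (by positivity)).trans (le_of_eq ?_)
        field_simp
        ring
    have s6 := norm_sub_norm_le (∑ j, b j * chr (Real.pi * j / u) t)
      (∑ j, b j * chr (Real.pi * j / u) (Real.log (κ 1 1 / κ 1 0)))
    linarith
  have f1 : ‖b‖ ≤ P ^ 2 * (μ * (K₃ * μ / l)) + ‖b‖ / 2 :=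
    (pi_norm_le_iff_of_nonneg (by positivity)).2 (coef_le b hup 1 _ hQ)
  have f2 : ‖a‖ ≤ ‖b‖ * Real.exp (16 * B * μ) := by
    refine (pi_norm_le_iff_of_nonneg (by positivity)).2 fun j => ?_
    have h1 := norm_le_pi_norm b j
    have h2 : Real.exp (-(16 * B * μ)) ≤ ‖Bt (Real.pi * j / u)‖ := by
      refine le_trans (Real.exp_le_exp.2 (neg_le_neg ?_)) (Bt_lower (hw j).1)
      have := mul_le_mul Real.pi_le_four (hw j).2 (hw j).1 (by norm_num)
      linarith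
    rw [← div_le_iff₀ (Real.exp_pos _), div_eq_mul_inv, ← Real.exp_neg]
    refine le_trans ?_ h1
    simp only [b, norm_mul]
    exact mul_le_mul_of_nonneg_left h2 (norm_nonneg _)
  have f3 : ‖b‖ ≤ K₈ * μ ^ 6 / l := by
    have : K₈ * μ ^ 6 / l = 2 * (P ^ 2 * (μ * (K₃ * μ / l))) := by rw [← hPK]; ring
    linarith
  rw [ha] at f2
  have f4 := f2.trans (mul_le_mul_of_nonneg_right f3 (Real.exp_pos _).le)
  rw [div_mul_eq_mul_div, one_le_div hl0] at f4
  linarith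

lemma NonUnif.mono {m : Measure ℝ} {ε ε' : ℝ} (h : NonUnif m ε) (h' : ε' ≤ ε) : NonUnif m ε' := by
  intro u r h1 h2 h3
  obtain ⟨θ, hθ, h4⟩ := h u r h1 h2 h3
  exact ⟨θ, hθ, lt_of_le_of_lt (mul_le_mul_of_nonneg_right h' h3.le) h4⟩

theorem nonunifV (D : ℝ) : ∃ K, 0 < K ∧ ∀ R, 0 ≤ R → ∀ (Γ : Subgroup G) (o : ℍ), FinG Γ →
    (∀ z : ℍ, ∃ γ ∈ Γ, dist z (γ • o) ≤ D) → ∃ (k : G) (u : ℝ), 0 < u ∧ k⁻¹ * dg u * k ∈ Γ ∧
    ∀ (S : Type) [Fintype S] [MeasurableSpace S] [DiscreteMeasurableSpace S] (q : Measure S)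
    [IsProbabilityMeasure q] (σ : S → G), (∀ s, σ s ∈ Γ) → (∀ s, dist (σ s • o) o ≤ R) →
    NonUnif (mm q (fun s => k * σ s * k⁻¹) (k • o) 1) (Real.exp (-(K * Real.exp R))) := by
  obtain ⟨B, hB, hyp⟩ := hypB D
  have hB' : 1 ≤ B + |D| + 1 := by linarith [abs_nonneg D]
  obtain ⟨K₁, hK₁, hm⟩ := annihV (B + |D| + 1)
  obtain ⟨K₂, hK₂, hU⟩ := quant hB'
  refine ⟨K₂ * K₁, by positivity, fun R hR0 Γ o hf hD => ?_⟩
  obtain ⟨m, hmK, hm⟩ := hm R hR0
  have hL : Lat Γ := ⟨hf, D + dist ((1 : G) • o) I, fun T => by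
    simpa only [one_mul, inv_one, mul_one] using coc_of_dense hD 1 T⟩
  have hc : ∀ k : G, Coc (D + dist (k • o) I) (Γ.map (MulAut.conj k).toMonoidHom) := by
    intro k T
    obtain ⟨γ, hγ, h⟩ := coc_of_dense hD k T
    exact ⟨_, ⟨γ, hγ, rfl⟩, h⟩
  obtain ⟨t, ht⟩ := MulAction.exists_smul_eq G o I
  obtain ⟨k, u, a1, a2, a3, γ, hγ, a4⟩ := hyp _ (hL.conj t).fin (by
    have := hc t
    rwa [ht, dist_self, add_zero] at this)
  have a5 : γ = (k * t)⁻¹ * dg u * (k * t) := by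
    have : t * γ * t⁻¹ = k⁻¹ * dg u * k := a4
    rw [mul_inv_rev, mul_assoc t⁻¹, mul_assoc t⁻¹, ← mul_assoc _ k t, ← this]
    group
  have hu : 0 < u := lt_of_lt_of_le (by positivity) a2
  have ho : dist ((k * t) • o) I ≤ B := by rw [mul_smul, ht]; exact a1
  have p1 := le_abs_self D
  have p2 := abs_nonneg D
  have hc' : Coc (B + |D| + 1) (Γ.map (MulAut.conj (k * t)).toMonoidHom) := fun T => by
    obtain ⟨x, hx, h⟩ := hc (k * t) T
    exact ⟨x, hx, by linarith⟩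
  have hd : dg u ∈ Γ.map (MulAut.conj (k * t)).toMonoidHom := ⟨γ, hγ, by
    change (k * t) * γ * (k * t)⁻¹ = dg u
    rw [a5]; group⟩
  refine ⟨k * t, u, hu, a5 ▸ hγ, fun S _ _ _ q _ σ hσ hR => ?_⟩
  refine NonUnif.mono (hU m _ u ((k * t) • o) _ (fun x => inferInstance) (hL.conj (k * t)).fin hc'
    ⟨le_trans (one_div_le_one_div_of_le hB (by linarith)) a2, by linarith⟩ hd (by linarith)
    (fun a x B h1 h2 h3 => mm_mul q _ _ a x h1 h2 h3)
    (hm _ u _ (hL.conj (k * t)).fin hc' hu (by linarith) hd (by linarith) S q _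
      (fun s => ⟨σ s, hσ s, rfl⟩) fun s => ?_)) (Real.exp_le_exp.2 (neg_le_neg (by
        rw [mul_assoc]
        exact mul_le_mul_of_nonneg_left hmK hK₂.le)))
  rw [← dist_smul (k * t * σ s * (k * t)⁻¹), smul_inv_smul, mul_smul (k * t * σ s), inv_smul_smul,
    mul_smul (k * t) (σ s), dist_smul, dist_comm]
  exact hR s

theorem canonicalV (D : ℝ) : ∃ C : ℝ, ∀ R, 0 ≤ R → ∀ (S : Type) [Fintype S] [MeasurableSpace S]
    [DiscreteMeasurableSpace S] (q : Measure S) [IsProbabilityMeasure q], (∀ s, q {s} ≠ 0) →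
    ∀ (σ : S → G) (o : ℍ), FinG (Subgroup.closure (range σ)) →
    (∀ z : ℍ, ∃ γ ∈ Subgroup.closure (range σ), dist z (γ • o) ≤ D) →
    (∀ s, dist (σ s • o) o ≤ R) →
    ∃ ξ : (ℕ → S) → Metric.sphere (0 : ℂ) 1, Measurable ξ ∧
      (∀ᵐ ω ∂(PP q), Tendsto (fun n => (((Zs σ ω n • o : ℍ) : ℂ) - Complex.I) /
        (((Zs σ ω n • o : ℍ) : ℂ) + Complex.I)) atTop (𝓝 (ξ ω : ℂ))) ∧
      ∃ A, MeasurableSet A ∧ PP q (ξ ⁻¹' A)ᶜ = 0 ∧
        dimH A ≤ ENNReal.ofReal (1 - Real.exp (-(C * Real.exp R))) := by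
  classical
  obtain ⟨K, hK, hU⟩ := nonunifV D
  refine ⟨3 * K + 32, fun R hR0 S _ _ _ q _ hq σ o hf hDD hR => ?_⟩
  obtain ⟨ε, hεe⟩ : ∃ ε, ε = Real.exp (-(K * Real.exp R)) / 2 := ⟨_, rfl⟩
  have hε : 0 < ε := by rw [hεe]; positivity
  have hε1 : ε ≤ 1 / 2 := by
    have : Real.exp (-(K * Real.exp R)) ≤ 1 := Real.exp_le_one_iff.2 (neg_nonpos.2 (by positivity))
    linarith
  have hd₀ : ENNReal.ofReal (1 - ε ^ 3 / 4) <
      ENNReal.ofReal (1 - Real.exp (-((3 * K + 32) * Real.exp R))) := by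
    have h1 := Real.one_le_exp hR0
    have h2 : Real.exp (-((3 * K + 32) * Real.exp R)) =
        Real.exp (-(K * Real.exp R)) ^ 3 / Real.exp (32 * Real.exp R) := by
      rw [← Real.exp_nat_mul, ← Real.exp_sub]
      congr 1
      push_cast
      ring
    have h3 : 32 < Real.exp (32 * Real.exp R) := by
      linarith [Real.add_one_le_exp (32 * Real.exp R)]
    have h4 : Real.exp (-((3 * K + 32) * Real.exp R)) < ε ^ 3 / 4 := by
      have : ε ^ 3 / 4 = Real.exp (-(K * Real.exp R)) ^ 3 / 32 := by rw [hεe]; ring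
      rw [h2, this]
      gcongr
    have h5 : ε ^ 3 ≤ 1 := pow_le_one₀ hε.le (by linarith)
    exact (ENNReal.ofReal_lt_ofReal_iff (by linarith)).2 (by linarith)
  obtain ⟨d, hd1, hd2⟩ := ENNReal.lt_iff_exists_nnreal_btwn.1 hd₀
  have h : Lat (Subgroup.closure (range σ)) := ⟨hf, D + dist ((1 : G) • o) I, fun T => by
    simpa only [one_mul, inv_one, mul_one] using coc_of_dense hDD 1 T⟩
  obtain ⟨k, u, hu, hγ, hN⟩ := hU R hR0 _ o hf hDD
  have hk : k * (k⁻¹ * dg u * k) * k⁻¹ = dg u := by group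
  let σ' : S → G := fun s => k * σ s * k⁻¹
  have hcl : Subgroup.closure (range σ') =
      (Subgroup.closure (range σ)).map (MulAut.conj k).toMonoidHom := by
    rw [MonoidHom.map_closure, ← range_comp]
    rfl
  have h' : Lat (Subgroup.closure (range σ')) := hcl ▸ h.conj k
  have hD : dg u ∈ Subgroup.closure (range σ') := hcl ▸ ⟨_, hγ, hk⟩
  have hZ : ∀ ω n, Zs σ' ω n = k * Zs σ ω n * k⁻¹ := by
    intro ω n
    induction n with
    | zero => simp [Zs]
    | succ n ih => simp only [Zs, ih, σ']; group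
  have hpt : ∀ ω n, Zs σ ω n • o = k⁻¹ • ((1 * Zs σ' ω n) • k • o) := by
    intro ω n
    simp [hZ, mul_smul]
  obtain ⟨A₀, hA₀, hA₁, hA₂⟩ := dim_rate hε hε1 (mm q σ' (k • o) 1)
    ((hN S q σ (fun s => Subgroup.subset_closure ⟨s, rfl⟩) hR).mono (by linarith))
  let ψ : ℝ → ℂ := fun y =>
    (((k⁻¹ 0 0 * y + k⁻¹ 0 1 : ℝ) : ℂ) - Complex.I * (k⁻¹ 1 0 * y + k⁻¹ 1 1 : ℝ)) /
      ((k⁻¹ 0 0 * y + k⁻¹ 0 1 : ℝ) + Complex.I * (k⁻¹ 1 0 * y + k⁻¹ 1 1 : ℝ))
  have hψ : ContDiff ℝ 1 ψ := by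
    have c : ∀ a b : ℝ, ContDiff ℝ 1 fun y : ℝ => ((a * y + b : ℝ) : ℂ) := fun a b =>
      Complex.ofRealCLM.contDiff.comp ((contDiff_const.mul contDiff_id).add contDiff_const)
    simp only [ψ, div_eq_mul_inv]
    exact ((c _ _).sub (contDiff_const.mul (c _ _))).mul
      (((c _ _).add (contDiff_const.mul (c _ _))).inv fun y => den_ne (col_ne _ y))
  let p : Metric.sphere (0 : ℂ) 1 := ⟨_, mem_circ (col_ne' k⁻¹)⟩
  let ξ : (ℕ → S) → Metric.sphere (0 : ℂ) 1 := fun ω =>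
    if ω ∈ Ev σ' (k • o) 1 univ then ⟨ψ (lim σ' (k • o) 1 ω), mem_circ (col_ne _ _)⟩ else p
  refine ⟨ξ, Measurable.ite (measurableSet_Ev _ _ _ MeasurableSet.univ)
    (hψ.continuous.measurable.comp (measurable_lim _ _ _)).subtype_mk measurable_const, ?_, ?_⟩
  · filter_upwards [ae_conv q hq σ' h' hu hD (k • o)] with ω hω
    simp only [hpt, cay_act]
    by_cases hE : ω ∈ Ev σ' (k • o) 1 univ
    · simp only [ξ, if_pos hE]
      obtain ⟨y, -, hy⟩ := hE
      rw [lim_eq _ _ hy]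
      have h0 := den_ne (col_ne k⁻¹ y)
      simp only [ψ]
      push_cast at h0 ⊢
      exact (((hy.const_mul _).add_const _).sub (((hy.const_mul _).add_const _).const_mul _)).div
        (((hy.const_mul _).add_const _).add (((hy.const_mul _).add_const _).const_mul _)) h0
    · simp only [ξ, if_neg hE]
      have hv := hω.resolve_left hE
      have h0 := den_ne (col_ne' k⁻¹)
      have t1 := ((tendsto_const_nhds (x := (k⁻¹ 0 0 : ℂ) - Complex.I * k⁻¹ 1 0)).add (hv.const_mul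
        ((k⁻¹ 0 1 : ℂ) - Complex.I * k⁻¹ 1 1 -
          Complex.I * ((k⁻¹ 0 0 : ℂ) - Complex.I * k⁻¹ 1 0)))).div
        ((tendsto_const_nhds (x := (k⁻¹ 0 0 : ℂ) + Complex.I * k⁻¹ 1 0)).add (hv.const_mul
        ((k⁻¹ 0 1 : ℂ) + Complex.I * k⁻¹ 1 1 -
          Complex.I * ((k⁻¹ 0 0 : ℂ) + Complex.I * k⁻¹ 1 0)))) (by simpa using h0)
      simp only [mul_zero, add_zero] at t1
      refine t1.congr fun n => ?_
      have h1 : pt σ' (k • o) 1 ω n + Complex.I ≠ 0 := norm_pos_iff.1 (norm_add_I_pos _)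
      rw [Pi.div_apply, ← mul_div_mul_right _ _ h1]
      change _ = (k⁻¹ 0 0 * pt σ' (k • o) 1 ω n + k⁻¹ 0 1 -
        Complex.I * (k⁻¹ 1 0 * pt σ' (k • o) 1 ω n + k⁻¹ 1 1)) /
        (k⁻¹ 0 0 * pt σ' (k • o) 1 ω n + k⁻¹ 0 1 +
          Complex.I * (k⁻¹ 1 0 * pt σ' (k • o) 1 ω n + k⁻¹ 1 1))
      congr 1 <;> field_simp <;> ring
  · let B : Set (Metric.sphere (0 : ℂ) 1) := Subtype.val ⁻¹' (ψ '' A₀ ∪ {(p : ℂ)})
    have hB : dimH B < d := by
      refine (isometry_subtype_coe.antilipschitz.dimH_preimage_le _).trans_lt ?_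
      rw [dimH_union, dimH_singleton, max_eq_left zero_le]
      exact (hψ.contDiffOn.dimH_image_le convex_univ (subset_univ _)).trans_lt
        (hA₂.trans_lt hd1)
    refine ⟨toMeasurable μH[d] B, measurableSet_toMeasurable _ _, ?_, ?_⟩
    · rw [mm_apply q σ' _ 1 hA₀.compl] at hA₁
      refine measure_mono_null (fun ω hω => ?_) hA₁
      have h1 : ξ ω ∉ B := fun h1 => hω (subset_toMeasurable _ _ h1)
      by_cases hE : ω ∈ Ev σ' (k • o) 1 univ
      · rw [Ev_eq]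
        refine ⟨fun h2 => h1 (Or.inl ⟨_, h2, ?_⟩), hE⟩
        simp only [ξ, if_pos hE]
      · exact absurd (Or.inr (by simp only [ξ, if_neg hE]; rfl)) h1
    · refine (dimH_le_of_hausdorffMeasure_ne_top ?_).trans hd2.le
      rw [measure_toMeasurable, hausdorffMeasure_of_dimH_lt hB]
      exact ENNReal.zero_ne_top

theorem mainV (D : ℝ) : ∃ C : ℝ, ∀ R : ℝ,
    ∀ (Γ : Type) [Group Γ] [MeasurableSpace Γ] [DiscreteMeasurableSpace Γ] (μ : PMF Γ),
      μ.support.Finite → Subgroup.closure μ.support = ⊤ →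
    ∀ (ρ : Γ →* SL(2, ℝ)), DiscreteTopology ρ.range → ∀ o : ℍ,
      (∀ z : ℍ, ∃ γ : Γ, dist z (ρ γ • o) ≤ D) → (∀ s ∈ μ.support, dist (ρ s • o) o ≤ R) →
    ∀ (Ω : Type) [MeasurableSpace Ω] (P : Measure Ω) [IsProbabilityMeasure P]
      (g : ℕ → Ω → Γ), (∀ n, Measurable (g n)) → iIndepFun g P →
      (∀ n, P.map (g n) = μ.toMeasure) →
    ∃ ξ : Ω → Metric.sphere (0 : ℂ) 1, Measurable ξ ∧
      (∀ᵐ ω ∂P, Tendsto (fun n : ℕ =>
        (((ρ ((List.range n).map fun i => g i ω).prod • o : ℍ) : ℂ) - Complex.I) /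
          (((ρ ((List.range n).map fun i => g i ω).prod • o : ℍ) : ℂ) + Complex.I))
        atTop (𝓝 (ξ ω : ℂ))) ∧
      ⨅ (A : Set (Metric.sphere (0 : ℂ) 1)) (_ : MeasurableSet A) (_ : P.map ξ A = 1),
        dimH A ≤ ENNReal.ofReal (1 - Real.exp (-(C * Real.exp R))) := by
  classical
  obtain ⟨C, hcan⟩ := canonicalV D
  refine ⟨C, fun R Γ _ _ _ μ hfin hgen ρ hdisc o hD hR Ω _ P _ g hg hind hlaw => ?_⟩
  have hf : FinG ρ.range := fun C => by
    have hc : IsClosed (ρ.range : Set G) := Subgroup.isClosed_of_discrete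
    have h1 : IsCompact ((ρ.range : Set G) ∩ {A : G | nrm A ≤ C}) :=
      (isCompact_nrm C).inter_left hc
    exact h1.finite (isDiscrete_iff_discreteTopology.2
      (DiscreteTopology.of_subset hdisc inter_subset_left))
  have : Fintype μ.support := hfin.fintype
  obtain ⟨s₀, hs₀⟩ := μ.support_nonempty
  let r : Γ → μ.support := fun a => if h : a ∈ μ.support then ⟨a, h⟩ else ⟨s₀, hs₀⟩
  have hr : Measurable r := Measurable.of_discrete
  let q : Measure μ.support := μ.toMeasure.map r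
  have : IsProbabilityMeasure q := Measure.isProbabilityMeasure_map hr.aemeasurable
  have hq : ∀ s, q {s} ≠ 0 := by
    intro s h0
    rw [Measure.map_apply hr (measurableSet_singleton s)] at h0
    have h1 : μ.toMeasure {s.1} = 0 := measure_mono_null (by
      rintro _ rfl
      exact dif_pos s.2) h0
    rw [PMF.toMeasure_apply_singleton _ _ (measurableSet_singleton _)] at h1
    exact s.2 h1
  let σ : μ.support → G := fun s => ρ s
  have hcl : Subgroup.closure (range σ) = ρ.range := by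
    rw [MonoidHom.range_eq_map, ← hgen, MonoidHom.map_closure, image_eq_range]
  obtain ⟨ξ, hξ, hconv, A, hA, hA0, hA1⟩ := hcan R (dist_nonneg.trans (hR s₀ hs₀)) _ q hq σ o (hcl ▸ hf) (fun z => by
    obtain ⟨γ, h⟩ := hD z
    exact ⟨ρ γ, hcl ▸ ⟨γ, rfl⟩, h⟩) fun s => hR s s.2
  let Φ : Ω → ℕ → μ.support := fun ω n => r (g n ω)
  have hΦ : Measurable Φ := measurable_pi_iff.2 fun n => hr.comp (hg n)
  have hmap : P.map Φ = PP q := by
    have := (hind.comp (fun _ => r) fun _ => hr).map_fun_eq_infinitePi_map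
      fun n => hr.comp (hg n)
    refine this.trans ?_
    unfold PP
    congr 1
    funext n
    rw [← Measure.map_map hr (hg n), hlaw]
  have hsupp : ∀ᵐ ω ∂P, ∀ n, g n ω ∈ μ.support := by
    refine ae_all_iff.2 fun n => ae_of_ae_map (p := fun a => a ∈ μ.support) (hg n).aemeasurable ?_
    rw [hlaw, ae_iff, PMF.toMeasure_apply_eq_zero_iff _ MeasurableSet.of_discrete]
    exact disjoint_left.2 fun a h1 h2 => h2 h1
  refine ⟨ξ ∘ Φ, hξ.comp hΦ, ?_, ?_⟩
  · rw [← hmap] at hconv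
    filter_upwards [ae_of_ae_map hΦ.aemeasurable hconv, hsupp] with ω h1 h2
    have : ∀ n, ρ ((List.range n).map fun i => g i ω).prod = Zs σ (Φ ω) n := by
      intro n
      induction n with
      | zero => simp [Zs]
      | succ n ih =>
        rw [List.prod_range_succ, map_mul, ih, Zs]
        simp only [σ, Φ, r, dif_pos (h2 n)]
    simp only [this]
    exact h1
  · refine le_trans (iInf_le_of_le A (iInf₂_le hA ?_)) hA1
    rw [← Measure.map_map hξ hΦ, hmap, Measure.map_apply hξ hA]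
    exact (prob_compl_eq_zero_iff (hξ hA)).1 hA0

end Pool.Agent.P.MP_90a4ef_pr
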