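import Pool.Agent.P.MP_90a4ef_pr.V3

open MeasureTheory ProbabilityTheory Filter Topology Set UpperHalfPlane
open scoped MatrixGroups UpperHalfPlane ENNReal

namespace Pool.Agent.P.MP_90a4ef_pr

lemma cover_bdd {Γ : Type} [Group Γ] (ρ : Γ →* SL(2, ℝ)) (hd : DiscreteTopology ρ.range)
    (hc : CompactSpace (MulAction.orbitRel.Quotient ρ.range ℍ)) (o : ℍ) :
    BddAbove (range fun z : ℍ => ⨅ γ : Γ, dist z (ρ γ • o)) := by
  obtain ⟨n, hn⟩ := (Lat.of_top ρ.range).coc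
  refine ⟨n + dist I o, ?_⟩
  rintro _ ⟨z, rfl⟩
  obtain ⟨T, rfl⟩ := MulAction.exists_smul_eq SL(2, ℝ) I z
  obtain ⟨_, ⟨γ, rfl⟩, h⟩ := hn T
  refine ciInf_le_of_le ⟨0, by rintro _ ⟨a, rfl⟩; exact dist_nonneg⟩ γ⁻¹ ?_
  have e : dist (T • I) (ρ γ⁻¹ • o) = dist ((ρ γ * T) • I) o := by
    rw [← dist_smul (ρ γ), ← mul_smul, ← mul_smul, ← map_mul, mul_inv_cancel, map_one, one_smul]
  rw [e]
  have := dist_triangle ((ρ γ * T) • I) I o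
  unfold nrm at h
  linarith

theorem mainW : ∃ C : ℝ → ℝ, Monotone C ∧
    ∀ (Γ : Type) [Group Γ] [MeasurableSpace Γ] [DiscreteMeasurableSpace Γ] (μ : PMF Γ),
      μ.support.Finite → Subgroup.closure μ.support = ⊤ →
    ∀ (ρ : Γ →* SL(2, ℝ)), DiscreteTopology ρ.range →
      CompactSpace (MulAction.orbitRel.Quotient ρ.range ℍ) →
    ∀ (o : ℍ) (Ω : Type) [MeasurableSpace Ω] (P : Measure Ω) [IsProbabilityMeasure P]
      (g : ℕ → Ω → Γ), (∀ n, Measurable (g n)) → iIndepFun g P →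
      (∀ n, P.map (g n) = μ.toMeasure) →
    ∃ ξ : Ω → Metric.sphere (0 : ℂ) 1, Measurable ξ ∧
      (∀ᵐ ω ∂P, Tendsto (fun n : ℕ =>
        (((ρ ((List.range n).map fun i => g i ω).prod • o : ℍ) : ℂ) - Complex.I) /
          (((ρ ((List.range n).map fun i => g i ω).prod • o : ℍ) : ℂ) + Complex.I))
        atTop (𝓝 (ξ ω : ℂ))) ∧
      ⨅ (A : Set (Metric.sphere (0 : ℂ) 1)) (_ : MeasurableSet A) (_ : P.map ξ A = 1),
        dimH A ≤ ENNReal.ofReal (1 - Real.exp (-(C (⨆ z : ℍ, ⨅ γ : Γ, dist z (ρ γ • o)) *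
          Real.exp (⨆ s : μ.support, dist (ρ s • o) o)))) := by
  choose C h using mainV
  refine ⟨fun D => ∑ n ∈ Finset.range (⌈D⌉₊ + 2), |C n|, fun a b hab => ?_, ?_⟩
  · exact Finset.sum_le_sum_of_subset_of_nonneg
      (Finset.range_mono (Nat.add_le_add_right (Nat.ceil_mono hab) 2)) fun _ _ _ => abs_nonneg _
  intro Γ _ _ _ μ hfin hgen ρ hdisc hc o Ω _ P _ g hg hind hlaw
  obtain ⟨D, hD⟩ : ∃ D, D = ⨆ z : ℍ, ⨅ γ : Γ, dist z (ρ γ • o) := ⟨_, rfl⟩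
  obtain ⟨R, hR⟩ : ∃ R, R = ⨆ s : μ.support, dist (ρ s • o) o := ⟨_, rfl⟩
  rw [← hD, ← hR]
  have h1 : ∀ z : ℍ, ∃ γ : Γ, dist z (ρ γ • o) ≤ ((⌈D⌉₊ + 1 : ℕ) : ℝ) := by
    intro z
    have a1 : ⨅ γ : Γ, dist z (ρ γ • o) ≤ D := hD ▸ le_ciSup (cover_bdd ρ hdisc hc o) z
    have a2 : ⨅ γ : Γ, dist z (ρ γ • o) < ((⌈D⌉₊ + 1 : ℕ) : ℝ) := by
      have := Nat.le_ceil D
      push_cast
      linarith
    obtain ⟨γ, hγ⟩ := exists_lt_of_ciInf_lt a2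
    exact ⟨γ, hγ.le⟩
  have h2 : ∀ s ∈ μ.support, dist (ρ s • o) o ≤ R := by
    intro s hs
    have : Finite μ.support := hfin
    exact hR ▸ le_ciSup (f := fun s : μ.support => dist (ρ s • o) o) (Set.finite_range _).bddAbove
      ⟨s, hs⟩
  obtain ⟨ξ, k1, k2, k3⟩ := h _ R Γ μ hfin hgen ρ hdisc o h1 h2 Ω P g hg hind hlaw
  refine ⟨ξ, k1, k2, k3.trans (ENNReal.ofReal_le_ofReal ?_)⟩
  have b1 : C ((⌈D⌉₊ + 1 : ℕ) : ℝ) ≤ ∑ n ∈ Finset.range (⌈D⌉₊ + 2), |C n| :=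
    (le_abs_self _).trans (Finset.single_le_sum (f := fun n : ℕ => |C n|)
      (fun _ _ => abs_nonneg _) (Finset.mem_range.2 (by omega)))
  have b2 := mul_le_mul_of_nonneg_right b1 (Real.exp_pos R).le
  have b3 := Real.exp_le_exp.2 (neg_le_neg b2)
  linarith

end Pool.Agent.P.MP_90a4ef_pr
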