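import Pool.Agent.P.MP_90a4ef_pr.Main

open MeasureTheory ProbabilityTheory Filter Topology
open scoped MatrixGroups UpperHalfPlane

namespace Pool.Agent.P.MP_90a4ef_pr.VariantDimensionDrop

theorem result :
    ∀ (Γ : Type) [Group Γ] [MeasurableSpace Γ] [DiscreteMeasurableSpace Γ] (μ : PMF Γ),
      μ.support.Finite → Subgroup.closure μ.support = ⊤ →
    ∀ (ρ : Γ →* SL(2, ℝ)), DiscreteTopology ρ.range →
      CompactSpace (MulAction.orbitRel.Quotient ρ.range ℍ) →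
    ∀ (o : ℍ) (Ω : Type) [MeasurableSpace Ω] (P : Measure Ω) [IsProbabilityMeasure P]
      (g : ℕ → Ω → Γ), (∀ n, Measurable (g n)) → iIndepFun g P →
      (∀ n, P.map (g n) = μ.toMeasure) →
    ∃ ξ : Ω → Metric.sphere (0 : ℂ) 1, Measurable ξ ∧
      (∀ᵐ ω ∂P, Tendsto (fun n : ℕ =>
        (((ρ ((List.range n).map fun i => g i ω).prod • o : ℍ) : ℂ) - Complex.I) /
          (((ρ ((List.range n).map fun i => g i ω).prod • o : ℍ) : ℂ) + Complex.I))
        atTop (𝓝 (ξ ω : ℂ))) ∧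
      ⨅ (A : Set (Metric.sphere (0 : ℂ) 1)) (_ : MeasurableSet A) (_ : P.map ξ A = 1),
        dimH A < 1 :=
  fun Γ _ _ _ μ hfin hgen ρ hd hc o Ω _ P _ g hg hind hlaw =>
    Pool.Agent.P.MP_90a4ef_pr.main Γ μ hfin hgen ρ hd hc o Ω P g hg hind hlaw

end Pool.Agent.P.MP_90a4ef_pr.VariantDimensionDrop
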