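import Pool.Agent.P.MP_90a4ef_pr.U3

open MeasureTheory ProbabilityTheory Filter Topology
open scoped MatrixGroups UpperHalfPlane ENNReal

namespace Pool.Agent.P.MP_90a4ef_pr.VariantUniformGap

theorem result :
    ∀ D R : ℝ, ∃ d : ℝ≥0∞, d < 1 ∧
    ∀ (Γ : Type) [Group Γ] [MeasurableSpace Γ] [DiscreteMeasurableSpace Γ] (μ : PMF Γ),
      μ.support.Finite → Subgroup.closure μ.support = ⊤ →
    ∀ (ρ : Γ →* SL(2, ℝ)), DiscreteTopology ρ.range → ∀ o : ℍ,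
      (∀ z : ℍ, ∃ γ : Γ, dist z (ρ γ • o) ≤ D) → (∀ s ∈ μ.support, dist (ρ s • o) o ≤ R) →
    ∀ (Ω : Type) [MeasurableSpace Ω] (P : Measure Ω) [IsProbabilityMeasure P]
      (g : ℕ → Ω → Γ), (∀ n, Measurable (g n)) → iIndepFun g P →
      (∀ n, P.map (g n) = μ.toMeasure) →
    ∃ ξ : Ω → Metric.sphere (0 : ℂ) 1, Measurable ξ ∧
      (∀ᵐ ω ∂P, Tendsto (fun n : ℕ =>
        (((ρ ((List.range n).map fun i => g i ω).prod • o : ℍ) : ℂ) - Complex.I) /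
          (((ρ ((List.range n).map fun i => g i ω).prod • o : ℍ) : ℂ) + Complex.I))
        atTop (𝓝 (ξ ω : ℂ))) ∧
      ⨅ (A : Set (Metric.sphere (0 : ℂ) 1)) (_ : MeasurableSet A) (_ : P.map ξ A = 1),
        dimH A ≤ d :=
  Pool.Agent.P.MP_90a4ef_pr.mainU

end Pool.Agent.P.MP_90a4ef_pr.VariantUniformGap
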