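import Mathlib

/-! Random products in SL(2,R), hitting measures on the real line, and the barrier lemma. -/

open MeasureTheory Set Filter Topology UpperHalfPlane
open scoped ENNReal NNReal MatrixGroups

set_option linter.unusedSectionVars false

namespace Pool.Agent.P.MP_90a4ef_pr

/-- the ambient group -/
abbrev G := SL(2, ℝ)

lemma det_eq (k : G) : k 0 0 * k 1 1 - k 0 1 * k 1 0 = 1 := by
  have := k.det_coe
  rwa [Matrix.det_fin_two] at this

lemma inv00 (k : G) : k⁻¹ 0 0 = k 1 1 := by
  simp [Matrix.SpecialLinearGroup.coe_inv, Matrix.adjugate_fin_two]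
lemma inv01 (k : G) : k⁻¹ 0 1 = -k 0 1 := by
  simp [Matrix.SpecialLinearGroup.coe_inv, Matrix.adjugate_fin_two]
lemma inv10 (k : G) : k⁻¹ 1 0 = -k 1 0 := by
  simp [Matrix.SpecialLinearGroup.coe_inv, Matrix.adjugate_fin_two]
lemma inv11 (k : G) : k⁻¹ 1 1 = k 0 0 := by
  simp [Matrix.SpecialLinearGroup.coe_inv, Matrix.adjugate_fin_two]

lemma mul_ij (a b : G) (i j : Fin 2) : (a * b) i j = a i 0 * b 0 j + a i 1 * b 1 j := by
  simp [Matrix.mul_apply, Fin.sum_univ_two]

lemma coe_act (k : G) (z : ℍ) :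
    ((k • z : ℍ) : ℂ) = (k 0 0 * (z : ℂ) + k 0 1) / (k 1 0 * (z : ℂ) + k 1 1) := by
  rw [coe_specialLinearGroup_apply]
  rfl

/-- action on real numbers -/
noncomputable def mob (k : G) (y : ℝ) : ℝ := (k 0 0 * y + k 0 1) / (k 1 0 * y + k 1 1)

lemma tendsto_mob (k : G) (w : ℕ → ℍ) (y : ℝ) (hy : k 1 0 * y + k 1 1 ≠ 0)
    (h : Tendsto (fun n => (w n : ℂ)) atTop (𝓝 y)) :
    Tendsto (fun n => ((k • w n : ℍ) : ℂ)) atTop (𝓝 (mob k y : ℝ)) := by
  simp only [coe_act, mob]
  push_cast
  refine ((h.const_mul _).add_const _).div ((h.const_mul _).add_const _) ?_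
  exact_mod_cast hy

lemma mob_inv_den (k : G) (y : ℝ) (hy : k 1 0 * y + k 1 1 ≠ 0) :
    k⁻¹ 1 0 * mob k y + k⁻¹ 1 1 ≠ 0 := by
  have : k⁻¹ 1 0 * mob k y + k⁻¹ 1 1 = (k 1 0 * y + k 1 1)⁻¹ := by
    rw [inv10, inv11, mob]
    field_simp
    linear_combination det_eq k
  rw [this]
  exact inv_ne_zero hy

lemma mob_inv_mob (k : G) (y : ℝ) (hy : k 1 0 * y + k 1 1 ≠ 0) : mob k⁻¹ (mob k y) = y := by
  have h1 := mob_inv_den k y hy
  have h2 : mob k y * (k 1 0 * y + k 1 1) = k 0 0 * y + k 0 1 := div_mul_cancel₀ _ hy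
  rw [mob, div_eq_iff h1, inv00, inv01, inv10, inv11]
  linear_combination h2

/-- Putting one more term in front of a sequence. -/
def consSeq {Y : Type*} (p : Y × (ℕ → Y)) : ℕ → Y
  | 0 => p.1
  | n + 1 => p.2 n

lemma measurable_consSeq {Y : Type*} [MeasurableSpace Y] :
    Measurable (consSeq : Y × (ℕ → Y) → ℕ → Y) := by
  refine measurable_pi_iff.2 fun n => ?_
  cases n with
  | zero => exact measurable_fst
  | succ n => exact (measurable_pi_apply n).comp measurable_snd

lemma map_consSeq {Y : Type*} [MeasurableSpace Y] (ν : Measure Y) [IsProbabilityMeasure ν] :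
    (ν.prod (Measure.infinitePi fun _ : ℕ => ν)).map consSeq =
      Measure.infinitePi fun _ : ℕ => ν := by
  refine Measure.eq_infinitePi _ fun s t ht => ?_
  rw [Measure.map_apply measurable_consSeq (.pi s.countable_toSet fun _ _ => ht _)]
  have h1 : consSeq ⁻¹' ((s : Set ℕ).pi t) = (if 0 ∈ s then t 0 else Set.univ) ×ˢ
      ((s.preimage Nat.succ Nat.succ_injective.injOn : Set ℕ).pi fun i => t (i + 1)) := by
    ext p
    simp only [Set.mem_preimage, Set.mem_pi, Finset.mem_coe, Set.mem_prod, Finset.mem_preimage]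
    constructor
    · intro h
      refine ⟨?_, fun i hi => h (i + 1) hi⟩
      split_ifs with h0
      · exact h 0 h0
      · trivial
    · rintro ⟨h0, h⟩ i hi
      cases i with
      | zero => rw [if_pos hi] at h0; exact h0
      | succ i => exact h i hi
  rw [h1, Measure.prod_prod, Measure.infinitePi_pi _ fun i _ => ht _]
  have h2 : ∏ i ∈ s.preimage Nat.succ Nat.succ_injective.injOn, ν (t (i + 1)) =
      ∏ i ∈ s.erase 0, ν (t i) := by
    classical
    rw [Finset.prod_preimage' Nat.succ s Nat.succ_injective.injOn (fun i => ν (t i))]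
    refine Finset.prod_congr ?_ fun _ _ => rfl
    ext i
    cases i <;> simp
  rw [h2]
  split_ifs with h0
  · exact Finset.mul_prod_erase s (fun i => ν (t i)) h0
  · simp [Finset.erase_eq_of_notMem h0]

variable {S : Type} [Fintype S] [MeasurableSpace S] [DiscreteMeasurableSpace S]

/-- the product of the first `n` steps -/
def Zs (σ : S → G) (ω : ℕ → S) : ℕ → G
  | 0 => 1
  | n + 1 => Zs σ ω n * σ (ω n)

lemma Zs_cons (σ : S → G) (s : S) (ω : ℕ → S) (n : ℕ) :
    Zs σ (consSeq (s, ω)) (n + 1) = σ s * Zs σ ω n := by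
  induction n with
  | zero => simp [Zs, consSeq]
  | succ n ih => rw [Zs, ih, Zs, mul_assoc]; rfl

lemma measurable_Zs {β : Type*} [MeasurableSpace β] (σ : S → G) (n : ℕ) (f : G → β) :
    Measurable fun ω => f (Zs σ ω n) := by
  induction n generalizing f with
  | zero => exact measurable_const (a := f 1)
  | succ n ih =>
    have : Measurable fun p : (ℕ → S) × S => f (Zs σ p.1 n * σ p.2) :=
      measurable_from_prod_countable_left fun s => ih fun g => f (g * σ s)
    exact this.comp (measurable_id.prodMk (measurable_pi_apply n))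

/-- law of the steps -/
noncomputable def PP (q : Measure S) [IsProbabilityMeasure q] : Measure (ℕ → S) :=
  Measure.infinitePi fun _ : ℕ => q

variable (q : Measure S) [IsProbabilityMeasure q] (σ : S → G) (o : ℍ)

instance : IsProbabilityMeasure (PP q) := by unfold PP; infer_instance

lemma step (E : Set (ℕ → S)) (hE : MeasurableSet E) :
    PP q E = ∑ s, q {s} * PP q {ω | consSeq (s, ω) ∈ E} := by
  unfold PP
  nth_rewrite 1 [← map_consSeq]
  rw [Measure.map_apply measurable_consSeq hE, Measure.prod_apply (measurable_consSeq hE),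
    lintegral_fintype]
  exact Finset.sum_congr rfl fun s _ => mul_comm _ _

lemma step_real (E : Set (ℕ → S)) (hE : MeasurableSet E) :
    (PP q).real E = ∑ s, q.real {s} * (PP q).real {ω | consSeq (s, ω) ∈ E} := by
  simp only [Measure.real]
  rw [step q E hE, ENNReal.toReal_sum fun s _ => by finiteness]
  simp

/-- position of the walk started at `x` -/
noncomputable def pt (x : G) (ω : ℕ → S) (n : ℕ) : ℂ := ((x * Zs σ ω n) • o : ℍ)

/-- the walk started at `x` converges to a point of `B` -/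
def Ev (x : G) (B : Set ℝ) : Set (ℕ → S) :=
  {ω | ∃ y ∈ B, Tendsto (pt σ o x ω) atTop (𝓝 (y : ℂ))}

/-- the limit point -/
noncomputable def lim (x : G) (ω : ℕ → S) : ℝ := limUnder atTop fun n => (pt σ o x ω n).re

lemma measurable_pt (x : G) (n : ℕ) : Measurable fun ω => pt σ o x ω n :=
  measurable_Zs σ n fun g => (((x * g) • o : ℍ) : ℂ)

lemma measurable_lim (x : G) : Measurable (lim σ o x) :=
  (StronglyMeasurable.limUnder fun n =>
    (Complex.measurable_re.comp (measurable_pt σ o x n)).stronglyMeasurable).measurable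

lemma lim_eq {x : G} {ω : ℕ → S} {y : ℝ} (h : Tendsto (pt σ o x ω) atTop (𝓝 (y : ℂ))) :
    lim σ o x ω = y :=
  ((Complex.continuous_re.tendsto _).comp h).limUnder_eq

lemma Ev_eq (x : G) (B : Set ℝ) : Ev σ o x B = lim σ o x ⁻¹' B ∩ Ev σ o x univ := by
  ext ω
  constructor
  · rintro ⟨y, hy, h⟩
    exact ⟨by rwa [mem_preimage, lim_eq σ o h], y, trivial, h⟩
  · rintro ⟨h1, y, -, h⟩
    exact ⟨y, by rwa [mem_preimage, lim_eq σ o h] at h1, h⟩

lemma measurableSet_Ev (x : G) {B : Set ℝ} (hB : MeasurableSet B) :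
    MeasurableSet (Ev σ o x B) := by
  rw [Ev_eq]
  refine (measurable_lim σ o x hB).inter ?_
  have : Ev σ o x univ = {ω | Tendsto (fun n => pt σ o x ω n) atTop (𝓝 (lim σ o x ω : ℂ))} := by
    ext ω
    constructor
    · rintro ⟨y, -, h⟩
      rw [mem_ofPred_eq, lim_eq σ o h]
      exact h
    · exact fun h => ⟨_, trivial, h⟩
  rw [this]
  exact measurableSet_tendsto_fun (measurable_pt σ o x)
    (Complex.measurable_ofReal.comp (measurable_lim σ o x))

/-- hitting measure on the real line of the walk started at `x` -/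
noncomputable def mm (x : G) : Measure ℝ :=
  ((PP q).restrict (Ev σ o x univ)).map (lim σ o x)

instance (x : G) : IsFiniteMeasure (mm q σ o x) := by unfold mm; infer_instance

lemma mm_apply (x : G) {B : Set ℝ} (hB : MeasurableSet B) : mm q σ o x B = PP q (Ev σ o x B) := by
  rw [mm, Measure.map_apply (measurable_lim σ o x) hB,
    Measure.restrict_apply (measurable_lim σ o x hB), ← Ev_eq]

lemma pt_cons (x : G) (s : S) (ω : ℕ → S) (n : ℕ) :
    pt σ o x (consSeq (s, ω)) (n + 1) = pt σ o (x * σ s) ω n := by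
  rw [pt, Zs_cons, pt, mul_assoc]

lemma cons_mem_Ev (x : G) (B : Set ℝ) (s : S) (ω : ℕ → S) :
    consSeq (s, ω) ∈ Ev σ o x B ↔ ω ∈ Ev σ o (x * σ s) B := by
  refine exists_congr fun y => and_congr_right fun _ => ?_
  rw [← tendsto_add_atTop_iff_nat 1]
  simp only [pt_cons]

lemma mm_step (x : G) : mm q σ o x = ∑ s, q {s} • mm q σ o (x * σ s) := by
  ext B hB
  rw [mm_apply q σ o x hB, step q _ (measurableSet_Ev σ o x hB), Measure.finsetSum_apply]
  refine Finset.sum_congr rfl fun s _ => ?_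
  simp only [cons_mem_Ev, Measure.smul_apply, smul_eq_mul, mm_apply q σ o _ hB, ofPred_mem_eq]

lemma Ev_mul (k x : G) (B : Set ℝ) (hB : ∀ y ∈ B, k 1 0 * y + k 1 1 ≠ 0) :
    Ev σ o (k * x) (mob k '' B) = Ev σ o x B := by
  ext ω
  constructor
  · rintro ⟨_, ⟨y, hy, rfl⟩, h⟩
    refine ⟨y, hy, ?_⟩
    have := tendsto_mob k⁻¹ (fun n => (k * x * Zs σ ω n) • o) _ (mob_inv_den k y (hB y hy)) h
    rw [mob_inv_mob k y (hB y hy)] at this
    simp only [← mul_smul, mul_assoc, inv_mul_cancel_left] at this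
    exact this
  · rintro ⟨y, hy, h⟩
    refine ⟨_, ⟨y, hy, rfl⟩, ?_⟩
    have := tendsto_mob k (fun n => (x * Zs σ ω n) • o) _ (hB y hy) h
    simp only [← mul_smul, ← mul_assoc] at this
    exact this

lemma mm_mul (k x : G) {B : Set ℝ} (hB : ∀ y ∈ B, k 1 0 * y + k 1 1 ≠ 0) (h1 : MeasurableSet B)
    (h2 : MeasurableSet (mob k '' B)) : mm q σ o (k * x) (mob k '' B) = mm q σ o x B := by
  rw [mm_apply q σ o _ h2, mm_apply q σ o _ h1, Ev_mul σ o k x B hB]

/-- the walk stays on the left up to time `n` and converges to a positive number -/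
def Stay (x : G) (n : ℕ) : Set (ℕ → S) :=
  {ω | ∀ j ≤ n, (pt σ o x ω j).re ≤ 0} ∩ Ev σ o x (Ioi 0)

lemma measurableSet_Stay (x : G) (n : ℕ) : MeasurableSet (Stay σ o x n) := by
  refine MeasurableSet.inter ?_ (measurableSet_Ev σ o x measurableSet_Ioi)
  simp only [ofPred_forall]
  exact .iInter fun j => .iInter fun _ =>
    measurableSet_le (Complex.measurable_re.comp (measurable_pt σ o x j)) measurable_const

lemma stay_tendsto (x : G) : Tendsto (fun n => (PP q).real (Stay σ o x n)) atTop (𝓝 0) := by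
  have h1 : ⋂ n, Stay σ o x n = ∅ := by
    refine eq_empty_of_forall_notMem fun ω h => ?_
    rw [mem_iInter] at h
    obtain ⟨y, hy, h2⟩ := (h 0).2
    have h3 := (Complex.continuous_re.tendsto _).comp h2
    exact not_le.2 hy (le_of_tendsto' h3 fun n => (h n).1 n le_rfl)
  have h2 := tendsto_measure_iInter_atTop (μ := PP q) (s := Stay σ o x)
    (fun n => (measurableSet_Stay σ o x n).nullMeasurableSet)
    (fun a b hab ω h => ⟨fun j hj => h.1 j (hj.trans hab), h.2⟩) ⟨0, measure_ne_top _ _⟩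
  rw [h1, measure_empty] at h2
  exact (ENNReal.tendsto_toReal ENNReal.zero_ne_top).comp h2

theorem barrier (Γ : Subgroup G) (hσ : ∀ s, σ s ∈ Γ) (f : ℝ → ℂ) (hf : Measurable f) (C : ℝ)
    (hC : ∀ y, ‖f y‖ ≤ C)
    (h0 : ∀ z ∈ Γ, 0 < (z • o).re → (∃ s, ((z * (σ s)⁻¹) • o).re ≤ 0) →
      ∫ y in Ioi 0, f y ∂(mm q σ o z) = 0)
    (x : G) (hx : x ∈ Γ) (hl : (x • o).re ≤ 0) : ∫ y in Ioi 0, f y ∂(mm q σ o x) = 0 := by
  have hC0 : 0 ≤ C := (norm_nonneg _).trans (hC 0)
  have hint : ∀ z, Integrable f ((mm q σ o z).restrict (Ioi 0)) := fun z =>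
    .of_bound hf.aestronglyMeasurable C (Eventually.of_forall hC)
  have hp0 : ∀ x ω, (pt σ o x ω 0).re = (x • o).re := fun x ω => by simp [pt, Zs]
  have key : ∀ n, ∀ x ∈ Γ, (x • o).re ≤ 0 →
      ‖∫ y in Ioi 0, f y ∂(mm q σ o x)‖ ≤ C * (PP q).real (Stay σ o x n) := by
    intro n
    induction n with
    | zero =>
      intro x _ hl
      refine (norm_integral_le_of_norm_le_const (Eventually.of_forall hC)).trans (le_of_eq ?_)
      congr 1
      rw [measureReal_restrict_apply_univ, Measure.real, mm_apply q σ o x measurableSet_Ioi]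
      congr 2
      ext ω
      simp [Stay, hp0, hl]
    | succ n ih =>
      intro x hx hl
      rw [mm_step, step_real q _ (measurableSet_Stay σ o x _), Finset.mul_sum]
      have e1 : (∑ s, q {s} • mm q σ o (x * σ s)).restrict (Ioi 0) =
          ∑ s, q {s} • (mm q σ o (x * σ s)).restrict (Ioi 0) := by
        ext B hB
        simp [Measure.restrict_apply hB, Measure.finsetSum_apply]
      rw [e1, integral_finsetSum_measure fun s _ => (hint _).smul_measure (measure_ne_top _ _)]
      refine (norm_sum_le _ _).trans (Finset.sum_le_sum fun s _ => ?_)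
      rw [integral_smul_measure, norm_smul, Real.norm_of_nonneg ENNReal.toReal_nonneg,
        mul_left_comm]
      refine mul_le_mul_of_nonneg_left ?_ ENNReal.toReal_nonneg
      rcases le_or_gt ((x * σ s) • o).re 0 with h | h
      · refine (ih _ (Γ.mul_mem hx (hσ s)) h).trans (le_of_eq ?_)
        congr 2
        ext ω
        simp only [Stay, mem_inter_iff, mem_ofPred_eq, cons_mem_Ev]
        refine and_congr_left fun _ => ⟨fun h1 j hj => ?_, fun h1 j hj => ?_⟩
        · cases j with
          | zero => rwa [hp0]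
          | succ j => rw [pt_cons]; exact h1 j (by omega)
        · rw [← pt_cons]; exact h1 _ (by omega)
      · rw [h0 _ (Γ.mul_mem hx (hσ s)) h ⟨s, by rwa [mul_inv_cancel_right]⟩, norm_zero]
        positivity
  have := ge_of_tendsto' ((stay_tendsto q σ o x).const_mul C) fun n => key n x hx hl
  rwa [mul_zero, norm_le_zero_iff] at this

end Pool.Agent.P.MP_90a4ef_pr
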